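import Mathlib

set_option autoImplicit false

/-!
# Covers of the line with a moving simple branch point: definitions

`K` is a field, `F` a finite extension of the field of rational functions `K(x) = RatFunc K`.
-/

namespace Pool.Agent.N780.SB

universe u v

/-- the coordinate `x` of the line, as an element of `F` -/
noncomputable def xF (K : Type u) (F : Type v) [Field K] [Field F] [Algebra (RatFunc K) F] : F :=
  algebraMap (RatFunc K) F RatFunc.X

/-- the constant `a` of `K`, as an element of `F` -/
noncomputable def cF {K : Type u} (F : Type v) [Field K] [Field F] [Algebra (RatFunc K) F]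
    (a : K) : F :=
  algebraMap (RatFunc K) F (RatFunc.C a)

/-- A (Puiseux) expansion of the functions in `F` as Laurent series in a variable `u`, for
`x = ξ(u)`: a homomorphism from `F` to `K((u))` which is the identity on `K` and maps `x` to `ξ`. -/
def IsExp {K : Type u} {F : Type v} [Field K] [Field F] [Algebra (RatFunc K) F]
    (ξ : LaurentSeries K) (σ : F →+* LaurentSeries K) : Prop :=
  σ (xF K F) = ξ ∧ ∀ a : K, σ (cF F a) = HahnSeries.C a

/-- `x = c + u ^ E` -/
noncomputable def atFin {K : Type u} [Field K] (E : ℕ) (c : K) : LaurentSeries K :=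
  HahnSeries.C c + HahnSeries.single (E : ℤ) 1

/-- `x = u ^ (- E)` -/
noncomputable def atInf (K : Type u) [Field K] (E : ℕ) : LaurentSeries K :=
  HahnSeries.single (-(E : ℤ)) 1

/-- There are `n` expansions for `x = ξ(u)`. -/
def Splits {K : Type u} (F : Type v) [Field K] [Field F] [Algebra (RatFunc K) F] (n : ℕ)
    (ξ : LaurentSeries K) : Prop :=
  ∃ σ : Fin n → (F →+* LaurentSeries K), Function.Injective σ ∧ ∀ i, IsExp ξ (σ i)

/-- The ring `O` of the rational functions without poles outside `S` and infinity:
`O = K[x, 1/(x - c) : c ∈ S]`. -/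
noncomputable def OO {K : Type u} [Field K] (S : Finset K) : Subring (RatFunc K) :=
  Subring.closure (Set.range (RatFunc.C : K →+* RatFunc K) ∪ {RatFunc.X} ∪
    {r | ∃ c ∈ S, r = (RatFunc.X - RatFunc.C c)⁻¹})

/-- membership in the `O`-module `A` generated by `a 0, ..., a (n-1)` -/
def InA {K : Type u} {F : Type v} [Field K] [Field F] [Algebra (RatFunc K) F] (S : Finset K)
    {n : ℕ} (a : Fin n → F) (f : F) : Prop :=
  ∃ r : Fin n → RatFunc K, (∀ i, r i ∈ OO S) ∧ f = ∑ i, algebraMap (RatFunc K) F (r i) * a i

/-- `F` has degree `n` over `K(x)`, the `O`-module `A` generated by `a 0, ..., a (n-1)` is a ring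
with `1`, and its discriminant is `x - t`, up to a unit of `O`. -/
structure IsAffineCurve {K : Type u} {F : Type v} [Field K] [Field F] [Algebra (RatFunc K) F]
    (S : Finset K) (t : K) {n : ℕ} (a : Fin n → F) : Prop where
  rank : Module.finrank (RatFunc K) F = n
  one : InA S a 1
  mul : ∀ i j, InA S a (a i * a j)
  disc : ∃ r ∈ OO S, r⁻¹ ∈ OO S ∧ r ≠ 0 ∧
    Algebra.discr (RatFunc K) a = r * (RatFunc.X - RatFunc.C t)

/-- The differential form `g dx` is holomorphic at all points with `x = c`: for every expansion
for `x = c + u ^ E` the series `g * dx/du` has no negative powers of `u`. -/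
def HolFin {K : Type u} {F : Type v} [Field K] [Field F] [Algebra (RatFunc K) F] (E : ℕ) (c : K)
    (g : F) : Prop :=
  ∀ σ : F →+* LaurentSeries K, IsExp (atFin E c) σ → ∀ m : ℤ, m < 1 - E → (σ g).coeff m = 0

/-- The differential form `g dx` is holomorphic at all points at infinity: for every expansion
for `x = u ^ (- E)` the series `g * dx/du` has no negative powers of `u`. -/
def HolInf (K : Type u) {F : Type v} [Field K] [Field F] [Algebra (RatFunc K) F] (E : ℕ)
    (g : F) : Prop :=
  ∀ σ : F →+* LaurentSeries K, IsExp (atInf K E) σ → ∀ m : ℤ, m < E + 1 → (σ g).coeff m = 0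

end Pool.Agent.N780.SB
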