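import Mathlib
import Pool.Agent.N780.SB.Defs

set_option autoImplicit false

/-!
Statements of the parts: covers of the line with a moving simple branch point.
-/

namespace Pool.Agent.N780.SB

universe u v w

/-- The formal derivative of a Laurent series, coefficient of `u ^ m`. (No type of derivation is
needed in the parts; `der y` is the series with coefficients `(m + 1) y_(m+1)`.) -/
noncomputable def der {K : Type u} [Field K] (y : LaurentSeries K) : LaurentSeries K :=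
  LaurentSeries.derivative K y

/-- `δ` applied to the coefficients -/
noncomputable def hat {K : Type u} [Field K] (δ : Derivation ℤ K K) (y : LaurentSeries K) :
    LaurentSeries K :=
  HahnSeries.map y δ

/-- Part UNIQ: a derivation is determined by its values on `x` and the constants. -/
def S_UNIQ : Prop := ∀ (K : Type u) (F : Type v) (L : Type w) [Field K] [Field F] [Field L]
  [Algebra (RatFunc K) F] [Algebra.IsSeparable (RatFunc K) F] (σ : F →+* L) (d₁ d₂ : F → L)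
  (_ : ∀ x y, d₁ (x + y) = d₁ x + d₁ y) (_ : ∀ x y, d₁ (x * y) = σ x * d₁ y + σ y * d₁ x)
  (_ : ∀ x y, d₂ (x + y) = d₂ x + d₂ y) (_ : ∀ x y, d₂ (x * y) = σ x * d₂ y + σ y * d₂ x)
  (_ : d₁ (xF K F) = d₂ (xF K F)) (_ : ∀ a : K, d₁ (cF F a) = d₂ (cF F a)),
  ∀ f, d₁ f = d₂ f

/-- Part EXT: derivations extend. -/
def S_EXT : Prop := ∀ (K : Type u) (F : Type v) [Field K] [Field F]
  [Algebra (RatFunc K) F] [Algebra.IsSeparable (RatFunc K) F] [FiniteDimensional (RatFunc K) F]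
  (δ : Derivation ℤ K K),
  ∃ D : Derivation ℤ F F, D (xF K F) = 0 ∧ ∀ a : K, D (cF F a) = cF F (δ a)

/-- Part LD: Leibniz rules for Laurent series. -/
def S_LD : Prop := ∀ (K : Type u) [Field K],
  (∀ (y : LaurentSeries K) (m : ℤ), (der y).coeff m = ((m + 1 : ℤ) : K) * y.coeff (m + 1)) ∧
  (∀ y z : LaurentSeries K, der (y * z) = y * der z + z * der y) ∧
  (∀ (δ : Derivation ℤ K K) (y z : LaurentSeries K), hat δ (y * z) = y * hat δ z + z * hat δ y)

/-- Part DISC: the discriminant times a derivation preserves `A`. -/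
def S_DISC : Prop := ∀ (K : Type u) (F : Type v) [Field K] [Field F] [Algebra (RatFunc K) F]
  (S : Finset K) (n : ℕ) (a : Fin n → F) (_ : Module.finrank (RatFunc K) F = n)
  (_ : InA S a 1) (_ : ∀ i j, InA S a (a i * a j)) (_ : Algebra.discr (RatFunc K) a ≠ 0)
  (D : Derivation ℤ F F)
  (_ : ∀ r ∈ OO S, ∃ r' ∈ OO S, D (algebraMap (RatFunc K) F r) = algebraMap (RatFunc K) F r')
  (f : F) (_ : InA S a f),
  InA S a (algebraMap (RatFunc K) F (Algebra.discr (RatFunc K) a) * D f)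

/-- Part DOO: derivations preserve `O`. -/
def S_DOO : Prop := ∀ (K : Type u) (F : Type v) [Field K] [Field F] [Algebra (RatFunc K) F]
  (S : Finset K) (D : Derivation ℤ F F)
  (_ : ∃ r ∈ OO S, D (xF K F) = algebraMap (RatFunc K) F r)
  (_ : ∀ a : K, ∃ r ∈ OO S, D (cF F a) = algebraMap (RatFunc K) F r),
  ∀ r ∈ OO S, ∃ r' ∈ OO S, D (algebraMap (RatFunc K) F r) = algebraMap (RatFunc K) F r'

/-- Part SEP: extensions of degree less than `p` are separable. -/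
def S_SEP : Prop := ∀ (K : Type u) (F : Type v) [Field K] [Field F] [Algebra (RatFunc K) F]
  (p n : ℕ) (_ : p.Prime) (_ : CharP K p) (_ : 0 < n) (_ : n < p)
  (_ : Module.finrank (RatFunc K) F = n), Algebra.IsSeparable (RatFunc K) F

/-- Part ALG: `A` is a ring containing `O`, and traces of its elements lie in `O`. -/
def S_ALG : Prop := ∀ (K : Type u) (F : Type v) [Field K] [Field F] [Algebra (RatFunc K) F]
  (S : Finset K) (t : K) (n : ℕ) (a : Fin n → F) (_ : IsAffineCurve S t a),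
  (∀ r ∈ OO S, InA S a (algebraMap (RatFunc K) F r)) ∧
  (∀ f g, InA S a f → InA S a g → InA S a (f + g)) ∧
  (∀ f g, InA S a f → InA S a g → InA S a (f * g)) ∧
  (∀ f, InA S a f → Algebra.trace (RatFunc K) F f ∈ OO S)

/-- Part INT: the functions in `A` are regular at the points with `x = t`. -/
def S_INT : Prop := ∀ (K : Type u) (F : Type v) [Field K] [Field F] [Algebra (RatFunc K) F]
  (S : Finset K) (t : K) (_ : t ∉ S) (n : ℕ) (a : Fin n → F) (_ : IsAffineCurve S t a)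
  (σ : F →+* LaurentSeries K) (_ : IsExp (atFin 2 t) σ) (f : F) (_ : InA S a f)
  (m : ℤ) (_ : m < 0), (σ f).coeff m = 0

/-- Part TR: traces and discriminants by expansions. -/
def S_TR : Prop := ∀ (K : Type u) (F : Type v) [Field K] [Field F] [Algebra (RatFunc K) F]
  [Algebra.IsSeparable (RatFunc K) F] (n : ℕ) (_ : 0 < n) (_ : Module.finrank (RatFunc K) F = n)
  (ξ : LaurentSeries K)
  (σ : Fin n → (F →+* LaurentSeries K)) (_ : Function.Injective σ) (_ : ∀ i, IsExp ξ (σ i)),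
  (∀ τ : F →+* LaurentSeries K, IsExp ξ τ → ∃ i, τ = σ i) ∧
  (∀ (f : F) (i : Fin n),
    σ i (algebraMap (RatFunc K) F (Algebra.trace (RatFunc K) F f)) = ∑ j, σ j f) ∧
  (∀ (b : Fin n → F) (i : Fin n), σ i (algebraMap (RatFunc K) F (Algebra.discr (RatFunc K) b)) =
    (Matrix.det (Matrix.of fun j k => σ j (b k))) ^ 2)

/-- Part PAIR: the simple branch point. -/
def S_PAIR : Prop := ∀ (K : Type u) (F : Type v) [Field K] [Field F] [Algebra (RatFunc K) F]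
  [Algebra.IsSeparable (RatFunc K) F] (_ : (2 : K) ≠ 0)
  (S : Finset K) (t : K) (_ : t ∉ S) (n : ℕ) (_ : 0 < n) (a : Fin n → F)
  (_ : IsAffineCurve S t a) (σ : Fin n → (F →+* LaurentSeries K)) (_ : Function.Injective σ)
  (_ : ∀ i, IsExp (atFin 2 t) (σ i)),
  ∃ j₁ j₂ : Fin n, j₁ ≠ j₂ ∧
    (∀ (f : F) (m : ℤ), (σ j₂ f).coeff m = (-1) ^ m.natAbs * (σ j₁ f).coeff m) ∧
    (∀ j, j ≠ j₁ → j ≠ j₂ → ∀ (f : F) (m : ℤ), Odd m → (σ j f).coeff m = 0)

/-- Part MAX: `A` is a maximal order at `x = t`. -/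
def S_MAX : Prop := ∀ (K : Type u) (F : Type v) [Field K] [Field F] [Algebra (RatFunc K) F]
  [Algebra.IsSeparable (RatFunc K) F] (_ : (2 : K) ≠ 0)
  (S : Finset K) (t : K) (_ : t ∉ S) (n : ℕ) (_ : 0 < n) (a : Fin n → F)
  (_ : IsAffineCurve S t a) (σ : Fin n → (F →+* LaurentSeries K)) (_ : Function.Injective σ)
  (_ : ∀ i, IsExp (atFin 2 t) (σ i)) (f : F)
  (_ : InA S a ((xF K F - cF F t) * f)) (_ : ∀ i, ∀ m : ℤ, m < 0 → (σ i f).coeff m = 0),
  InA S a f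

/-- Part RES: the residue theorem on the line. `φ c`, `ψ`, `χ` are the expansions at `c ∈ S`, at `t`
and at infinity. -/
def S_RES : Prop := ∀ (K : Type u) [Field K] (S : Finset K) (t : K) (_ : t ∉ S) (E : ℕ) (_ : 0 < E)
  (φ : K → (RatFunc K →+* LaurentSeries K)) (ψ χ : RatFunc K →+* LaurentSeries K)
  (_ : ∀ c ∈ S, φ c RatFunc.X = atFin E c ∧ ∀ a : K, φ c (RatFunc.C a) = HahnSeries.C a)
  (_ : ψ RatFunc.X = atFin 2 t ∧ ∀ a : K, ψ (RatFunc.C a) = HahnSeries.C a)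
  (_ : χ RatFunc.X = atInf K E ∧ ∀ a : K, χ (RatFunc.C a) = HahnSeries.C a)
  (R : RatFunc K) (k : ℕ) (_ : (RatFunc.X - RatFunc.C t) ^ k * R ∈ OO S),
  2 * ∑ c ∈ S, (φ c R * der (atFin E c)).coeff (-1) + (E : K) * (ψ R * der (atFin 2 t)).coeff (-1) +
    2 * (χ R * der (atInf K E)).coeff (-1) = 0

/-- Part LOC: the local residues. -/
def S_LOC : Prop := ∀ (K : Type u) [Field K] (δ : Derivation ℤ K K) (y : LaurentSeries K),
  ((∀ m : ℤ, m < 0 → (der y).coeff m = 0) → (hat δ y * der y).coeff (-1) = 0) ∧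
  ((2 : K) ≠ 0 → (∀ m : ℤ, m < 0 → y.coeff m = 0) →
    ((hat δ y - HahnSeries.single (-1 : ℤ) (1 / 2 : K) * der y) * der y).coeff (-1) =
      -(y.coeff 1) ^ 2 / 2)

/-- Part RF: a rational function with too many zeros vanishes. -/
def S_RF : Prop := ∀ (K : Type u) [Field K] (S : Finset K) (t : K) (_ : t ∉ S) (E : ℕ) (_ : 0 < E)
  (φ : K → (RatFunc K →+* LaurentSeries K)) (ψ χ : RatFunc K →+* LaurentSeries K)
  (_ : ∀ c ∈ S, φ c RatFunc.X = atFin E c ∧ ∀ a : K, φ c (RatFunc.C a) = HahnSeries.C a)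
  (_ : ψ RatFunc.X = atFin 2 t ∧ ∀ a : K, ψ (RatFunc.C a) = HahnSeries.C a)
  (_ : χ RatFunc.X = atInf K E ∧ ∀ a : K, χ (RatFunc.C a) = HahnSeries.C a)
  (R : RatFunc K) (_ : R ∈ OO S) (N : ℕ) (_ : 0 < N)
  (_ : ∀ c ∈ S, ∀ m : ℤ, m < (N : ℤ) * (1 - E) → (φ c R).coeff m = 0)
  (_ : ∀ m : ℤ, m < (N : ℤ) * (E + 1) → (χ R).coeff m = 0),
  (∀ p : ℕ, N * (S.card - 1) ≤ p → (∀ m : ℤ, m < 2 * (p : ℤ) → (ψ R).coeff m = 0) → R = 0) ∧
  (N = 1 → R = 0)

/-- Part VDM: the order of the discriminant of the powers of an element. -/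
def S_VDM : Prop := ∀ (K : Type u) [Field K] (n : ℕ) (y : Fin n → LaurentSeries K),
  (∀ w : ℤ, (∀ j, ∀ m : ℤ, m < w → (y j).coeff m = 0) →
    ∀ m : ℤ, m < ((n * (n - 1) : ℕ) : ℤ) * w →
      ((Matrix.det (Matrix.of fun j k : Fin n => y j ^ (k : ℕ))) ^ 2).coeff m = 0) ∧
  (∀ (p : ℕ) (j₁ j₂ : Fin n), j₁ ≠ j₂ → (∀ j, ∀ m : ℤ, m < 0 → (y j).coeff m = 0) →
    (∀ m : ℤ, m < p → (y j₁ - y j₂).coeff m = 0) →
    ∀ m : ℤ, m < 2 * (p : ℤ) →
      ((Matrix.det (Matrix.of fun j k : Fin n => y j ^ (k : ℕ))) ^ 2).coeff m = 0)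

/-- Part GEN: elements with vanishing discriminant. -/
def S_GEN : Prop := ∀ (K : Type u) (F : Type v) [Field K] [Field F] [Algebra (RatFunc K) F]
  [Algebra.IsSeparable (RatFunc K) F] (n : ℕ) (_ : 0 < n) (_ : Module.finrank (RatFunc K) F = n)
  (_ : ∀ L : IntermediateField (RatFunc K) F, L = ⊥ ∨ L = ⊤) (g : F)
  (_ : Algebra.discr (RatFunc K) (fun i : Fin n => g ^ (i : ℕ)) = 0),
  ∃ r : RatFunc K, g = algebraMap (RatFunc K) F r

/-- Part EXPO: the expansions of the derivatives (given UNIQ and LD). -/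
def S_EXPO : Prop := ∀ (K : Type u) (F : Type v) [Field K] [Field F] [Algebra (RatFunc K) F]
  [Algebra.IsSeparable (RatFunc K) F] (δ : Derivation ℤ K K) (Dx Dt : Derivation ℤ F F)
  (_ : Dx (xF K F) = 1) (_ : ∀ a : K, Dx (cF F a) = 0)
  (_ : Dt (xF K F) = 0) (_ : ∀ a : K, Dt (cF F a) = cF F (δ a)),
  (∀ f, Dx (Dt f) = Dt (Dx f)) ∧
  (∀ (ξ : LaurentSeries K) (σ : F →+* LaurentSeries K), IsExp ξ σ →
    ∀ f, σ (Dx f) * der ξ = der (σ f)) ∧
  (∀ (ξ ω : LaurentSeries K) (σ : F →+* LaurentSeries K), IsExp ξ σ → hat δ ξ = ω * der ξ →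
    ∀ f, σ (Dt f) = hat δ (σ f) - ω * der (σ f)) ∧
  (∀ p : ℕ, p.Prime → CharP K p → (∀ a : K, δ^[p] a = 0) → ∀ f, Dt^[p] f = 0)

/-- All expansions of `f` at the points with `x = t` are series in `x - t`, i.e. the extension of
`K(x)` generated by `f` is unramified at `x = t`. -/
def Unr {K : Type u} {F : Type v} [Field K] [Field F] [Algebra (RatFunc K) F] (t : K)
    (f : F) : Prop :=
  ∀ σ : F →+* LaurentSeries K, IsExp (atFin 2 t) σ → ∀ m : ℤ, Odd m → (σ f).coeff m = 0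

/-- Part L0: the largest subfield unramified at `x = t`. -/
def S_L0 : Prop := ∀ (K : Type u) (F : Type v) [Field K] [Field F] [Algebra (RatFunc K) F]
  (_ : (2 : K) ≠ 0) (t : K),
  ∃ L : IntermediateField (RatFunc K) F, ∀ f : F, f ∈ L ↔ Unr t f

/-- Part UNR: an element with few poles whose two exchanged expansions agree up to order `p` -/
def S_UNR : Prop := ∀ (K : Type u) (F : Type v) [Field K] [Field F] [Algebra (RatFunc K) F]
  [Algebra.IsSeparable (RatFunc K) F] (p n E : ℕ) (_ : p.Prime) (_ : CharP K p) (_ : 0 < n)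
  (_ : n < p) (_ : 0 < E) (_ : Module.finrank (RatFunc K) F = n)
  (S : Finset K) (t : K) (_ : t ∉ S) (_ : n * (n - 1) * (S.card - 1) ≤ p)
  (σc : K → Fin n → (F →+* LaurentSeries K))
  (_ : ∀ c ∈ S, Function.Injective (σc c) ∧ ∀ i, IsExp (atFin E c) (σc c i))
  (σi : Fin n → (F →+* LaurentSeries K)) (_ : Function.Injective σi)
  (_ : ∀ i, IsExp (atInf K E) (σi i))
  (σt : Fin n → (F →+* LaurentSeries K)) (_ : Function.Injective σt)
  (_ : ∀ i, IsExp (atFin 2 t) (σt i))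
  (g : F) (_ : ∃ q : Polynomial (RatFunc K), q.Monic ∧ (∀ i, q.coeff i ∈ OO S) ∧
    Polynomial.aeval g q = 0)
  (_ : ∀ c ∈ S, ∀ i, ∀ m : ℤ, m < 1 - E → (σc c i g).coeff m = 0)
  (_ : ∀ i, ∀ m : ℤ, m < E + 1 → (σi i g).coeff m = 0)
  (_ : ∀ i, ∀ m : ℤ, m < 0 → (σt i g).coeff m = 0)
  (j₁ j₂ : Fin n) (_ : ∀ m : ℤ, m < p → (σt j₁ g - σt j₂ g).coeff m = 0),
  σt j₁ g = σt j₂ g

/-- Part TRL: averaging over the fibres of the largest subcover unramified at `x = t` -/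
def S_TRL : Prop := ∀ (K : Type u) (F : Type v) [Field K] [Field F] [Algebra (RatFunc K) F]
  [Algebra.IsSeparable (RatFunc K) F] (p n : ℕ) (_ : p.Prime) (_ : CharP K p) (_ : 2 ≤ n)
  (_ : n < p) (S : Finset K) (t : K) (_ : t ∉ S) (a : Fin n → F) (_ : IsAffineCurve S t a)
  (σ : Fin n → (F →+* LaurentSeries K)) (_ : Function.Injective σ)
  (_ : ∀ i, IsExp (atFin 2 t) (σ i))
  (Dx : Derivation ℤ F F) (_ : Dx (xF K F) = 1) (_ : ∀ b : K, Dx (cF F b) = 0)
  (f : F) (_ : InA S a f) (_ : Unr t (Dx f)),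
  ∃ f₁ : F, InA S a f₁ ∧ Unr t f₁ ∧ Dx f₁ = Dx f

/-- Final theorem. -/
def S_MAIN : Prop := ∀ (K : Type u) (F : Type v) [Field K] [Field F] [Algebra (RatFunc K) F]
  (p n E : ℕ) (_ : p.Prime) (_ : CharP K p) (_ : 2 ≤ n) (_ : n < p)
  (δ : Derivation ℤ K K) (_ : ∀ a : K, δ^[p] a = 0) (t : K) (_ : δ t = 1)
  (S : Finset K) (_ : ∀ c ∈ S, δ c = 0) (_ : n * (n - 1) * (S.card - 1) ≤ p) (_ : ¬ p ∣ E)
  (a : Fin n → F) (_ : IsAffineCurve S t a)
  (_ : ∀ c ∈ S, Splits F n (atFin E c)) (_ : Splits F n (atInf K E)) (_ : Splits F n (atFin 2 t))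
  (Dx : Derivation ℤ F F) (_ : Dx (xF K F) = 1) (_ : ∀ a : K, Dx (cF F a) = 0),
  ((∀ f, InA S a f → Unr t f → (∀ c ∈ S, HolFin E c (Dx f)) → HolInf K E (Dx f) → Dx f = 0) →
    ∀ f, InA S a f → (∀ c ∈ S, HolFin E c (Dx f)) → HolInf K E (Dx f) → Dx f = 0) ∧
  ((∀ L : IntermediateField (RatFunc K) F, L = ⊥ ∨ L = ⊤) →
    ∀ f, InA S a f → (∀ c ∈ S, HolFin E c (Dx f)) → HolInf K E (Dx f) → Dx f = 0)

end Pool.Agent.N780.SB
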