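import Mathlib
import Pool.Agent.N780.SB.Stm

set_option autoImplicit false

/-!
Part ALG: `A` is a ring containing `O`, and traces of its elements lie in `O` (helper353).
-/

namespace Pool.Agent.N780.SB

universe u v w

namespace ALG

variable {K : Type u} {F : Type v} [Field K] [Field F] [Algebra (RatFunc K) F]
  {S : Finset K} {n : ℕ} {a : Fin n → F}

theorem inA_add {f g : F} (hf : InA S a f) (hg : InA S a g) : InA S a (f + g) := by
  obtain ⟨r, hr, rfl⟩ := hf
  obtain ⟨s, hs, rfl⟩ := hg
  refine ⟨fun i => r i + s i, fun i => (OO S).add_mem (hr i) (hs i), ?_⟩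
  rw [← Finset.sum_add_distrib]
  refine Finset.sum_congr rfl fun i _ => ?_
  rw [map_add, add_mul]

theorem inA_zero : InA S a (0 : F) :=
  ⟨fun _ => 0, fun _ => (OO S).zero_mem, by simp⟩

theorem inA_smul {f : F} (hf : InA S a f) {r : RatFunc K} (hr : r ∈ OO S) :
    InA S a (algebraMap (RatFunc K) F r * f) := by
  obtain ⟨s, hs, rfl⟩ := hf
  refine ⟨fun i => r * s i, fun i => (OO S).mul_mem hr (hs i), ?_⟩
  rw [Finset.mul_sum]
  refine Finset.sum_congr rfl fun i _ => ?_
  rw [map_mul, mul_assoc]

theorem inA_sum {ι : Type*} (T : Finset ι) (f : ι → F) (h : ∀ i ∈ T, InA S a (f i)) :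
    InA S a (∑ i ∈ T, f i) := by
  classical
  induction T using Finset.induction_on with
  | empty => rw [Finset.sum_empty]; exact inA_zero
  | insert i T hi ih =>
    rw [Finset.sum_insert hi]
    exact inA_add (h i (Finset.mem_insert_self i T))
      (ih fun j hj => h j (Finset.mem_insert_of_mem hj))

theorem inA_mul (hm : ∀ i j, InA S a (a i * a j)) {f g : F} (hf : InA S a f) (hg : InA S a g) :
    InA S a (f * g) := by
  obtain ⟨r, hr, rfl⟩ := hf
  obtain ⟨s, hs, rfl⟩ := hg
  rw [Finset.sum_mul_sum]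
  refine inA_sum _ _ fun i _ => inA_sum _ _ fun j _ => ?_
  have e : algebraMap (RatFunc K) F (r i) * a i * (algebraMap (RatFunc K) F (s j) * a j) =
      algebraMap (RatFunc K) F (r i * s j) * (a i * a j) := by
    rw [map_mul]
    ring
  rw [e]
  exact inA_smul (hm i j) ((OO S).mul_mem (hr i) (hs j))

theorem inA_self (i : Fin n) : InA S a (a i) := by
  classical
  refine ⟨fun j => if j = i then 1 else 0, fun j => ?_, ?_⟩
  · dsimp only
    split_ifs
    · exact (OO S).one_mem
    · exact (OO S).zero_mem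
  · rw [Finset.sum_eq_single i]
    · beta_reduce
      rw [if_pos rfl, map_one, one_mul]
    · intro j _ hj
      beta_reduce
      rw [if_neg hj, map_zero, zero_mul]
    · intro h
      exact absurd (Finset.mem_univ i) h

theorem X_sub_ne (t : K) : (RatFunc.X - RatFunc.C t : RatFunc K) ≠ 0 := by
  rw [← RatFunc.algebraMap_X, ← RatFunc.algebraMap_C, ← map_sub]
  exact RatFunc.algebraMap_ne_zero (Polynomial.X_sub_C_ne_zero t)

theorem trace_mem {t : K} (h : IsAffineCurve S t a) {f : F} (hf : InA S a f) :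
    Algebra.trace (RatFunc K) F f ∈ OO S := by
  classical
  obtain ⟨hrank, hone, hmul, r, hr, -, hr0, hd⟩ := h
  have hn : 0 < n := by
    rcases Nat.eq_zero_or_pos n with h0 | h0
    · exfalso
      subst h0
      obtain ⟨r, -, h1⟩ := hone
      rw [Finset.univ_eq_empty, Finset.sum_empty] at h1
      exact one_ne_zero h1
    · exact h0
  have : Nonempty (Fin n) := ⟨⟨0, hn⟩⟩
  have hd0 : Algebra.discr (RatFunc K) a ≠ 0 := by
    rw [hd]
    exact mul_ne_zero hr0 (X_sub_ne t)
  have hli : LinearIndependent (RatFunc K) a := by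
    by_contra hcon
    exact hd0 (Algebra.discr_zero_of_not_linearIndependent (RatFunc K) hcon)
  have hcard : Fintype.card (Fin n) = Module.finrank (RatFunc K) F := by
    rw [Fintype.card_fin, hrank]
  obtain ⟨b, hb⟩ : ∃ b : Module.Basis (Fin n) (RatFunc K) F, ⇑b = a :=
    ⟨basisOfLinearIndependentOfCardEqFinrank hli hcard,
      coe_basisOfLinearIndependentOfCardEqFinrank hli hcard⟩
  rw [Algebra.trace_eq_matrix_trace b, Matrix.trace]
  refine (OO S).sum_mem fun i _ => ?_
  rw [Matrix.diag_apply, Algebra.leftMulMatrix_eq_repr_mul, hb]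
  obtain ⟨s, hs, h1⟩ := inA_mul hmul hf (inA_self (S := S) i)
  have h2 : f * a i = ∑ j, s j • b j := by
    rw [h1, hb]
    refine Finset.sum_congr rfl fun j _ => ?_
    rw [Algebra.smul_def]
  rw [h2, b.repr_sum_self]
  exact hs i

end ALG

theorem part_ALG : S_ALG.{u, v} := by
  intro K F _ _ _ S t n a h
  refine ⟨fun r hr => ?_, fun f g hf hg => ALG.inA_add hf hg,
    fun f g hf hg => ALG.inA_mul h.mul hf hg, fun f hf => ALG.trace_mem h hf⟩
  have := ALG.inA_smul h.one hr
  rwa [mul_one] at this

end Pool.Agent.N780.SB
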