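import Mathlib
import Pool.Agent.N780.SB.Stm

set_option autoImplicit false

/-!
# Part RF: a rational function with too many zeros vanishes (helper196)
-/

namespace Pool.Agent.N780.SB

open Polynomial

universe u

namespace RF

variable {K : Type u} [Field K]

/-- the coefficients of `y` below `w` vanish -/
def V (y : LaurentSeries K) (w : ℤ) : Prop := ∀ m : ℤ, m < w → y.coeff m = 0

theorem V_iff {y : LaurentSeries K} {w : ℤ} : V y w ↔ (w : WithTop ℤ) ≤ HahnSeries.orderTop y := by
  rw [HahnSeries.le_orderTop_iff_forall]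
  exact ⟨fun h j hj => h j (WithTop.coe_lt_coe.1 hj), fun h j hj => h j (WithTop.coe_lt_coe.2 hj)⟩

theorem V.mul {y z : LaurentSeries K} {a b : ℤ} (hy : V y a) (hz : V z b) : V (y * z) (a + b) := by
  rw [V_iff] at *
  rw [HahnSeries.orderTop_mul, WithTop.coe_add]
  exact add_le_add hy hz

theorem V.one : V (1 : LaurentSeries K) 0 := by
  rw [V_iff, HahnSeries.orderTop_one]
  exact le_rfl

theorem V.mono {y : LaurentSeries K} {a b : ℤ} (hy : V y a) (h : b ≤ a) : V y b :=
  fun m hm => hy m (hm.trans_le h)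

theorem V.pow {y : LaurentSeries K} {a : ℤ} (hy : V y a) (n : ℕ) : V (y ^ n) (n * a) := by
  induction n with
  | zero => simpa using V.one
  | succ n ih =>
    rw [pow_succ]
    refine (ih.mul hy).mono ?_
    push_cast
    linarith

theorem V.prod {ι : Type*} (s : Finset ι) (y : ι → LaurentSeries K) (a : ι → ℤ)
    (h : ∀ i ∈ s, V (y i) (a i)) : V (∏ i ∈ s, y i) (∑ i ∈ s, a i) := by
  classical
  induction s using Finset.induction_on with
  | empty => simpa using V.one
  | insert i s hi ih =>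
    rw [Finset.prod_insert hi, Finset.sum_insert hi]
    exact (h i (Finset.mem_insert_self _ _)).mul (ih fun j hj => h j (Finset.mem_insert_of_mem hj))

theorem ev_eq (e : ℤ) (P : K[X]) :
    P.eval₂ (HahnSeries.C : K →+* LaurentSeries K) (HahnSeries.single e 1) =
      ∑ k ∈ P.support, HahnSeries.single (k * e) (P.coeff k) := by
  rw [eval₂_eq_sum, Polynomial.sum_def]
  refine Finset.sum_congr rfl fun k _ => ?_
  rw [HahnSeries.single_pow, one_pow, HahnSeries.C_apply, HahnSeries.single_mul_single, zero_add,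
    mul_one, nsmul_eq_mul]

theorem ev_coeff {e : ℤ} (he : e ≠ 0) (P : K[X]) (k : ℕ) :
    (P.eval₂ (HahnSeries.C : K →+* LaurentSeries K) (HahnSeries.single e 1)).coeff (k * e) =
      P.coeff k := by
  rw [ev_eq, HahnSeries.coeff_sum, Finset.sum_eq_single k]
  · rw [HahnSeries.coeff_single_same]
  · intro b _ hb
    refine HahnSeries.coeff_single_of_ne fun h => hb ?_
    have := mul_right_cancel₀ he h
    exact_mod_cast this.symm
  · intro hk
    rw [HahnSeries.coeff_single_same]
    exact notMem_support_iff.1 hk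

theorem ev_V (e : ℕ) (P : K[X]) :
    V (P.eval₂ (HahnSeries.C : K →+* LaurentSeries K) (HahnSeries.single (e : ℤ) 1)) 0 := by
  intro m hm
  rw [ev_eq, HahnSeries.coeff_sum]
  refine Finset.sum_eq_zero fun k _ => HahnSeries.coeff_single_of_ne ?_
  have : (0 : ℤ) ≤ (k : ℤ) * e := by positivity
  omega

theorem phi_eq (φ : RatFunc K →+* LaurentSeries K) (hC : ∀ a : K, φ (RatFunc.C a) = HahnSeries.C a)
    (P : K[X]) : φ (algebraMap K[X] (RatFunc K) P) =
      P.eval₂ (HahnSeries.C : K →+* LaurentSeries K) (φ RatFunc.X) := by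
  have h : φ.comp (algebraMap K[X] (RatFunc K)) =
      Polynomial.eval₂RingHom (HahnSeries.C : K →+* LaurentSeries K) (φ RatFunc.X) := by
    refine Polynomial.ringHom_ext (fun a => ?_) ?_
    · rw [RingHom.comp_apply, RatFunc.algebraMap_C, hC, coe_eval₂RingHom, eval₂_C]
    · rw [RingHom.comp_apply, RatFunc.algebraMap_X, coe_eval₂RingHom, eval₂_X]
  exact congrFun (congrArg DFunLike.coe h) P

theorem phi_fin {E : ℕ} {c : K} {φ : RatFunc K →+* LaurentSeries K}
    (hφ : φ RatFunc.X = atFin E c ∧ ∀ a : K, φ (RatFunc.C a) = HahnSeries.C a) (P : K[X]) :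
    φ (algebraMap K[X] (RatFunc K) P) =
      (taylor c P).eval₂ (HahnSeries.C : K →+* LaurentSeries K)
        (HahnSeries.single (E : ℤ) 1) := by
  rw [phi_eq φ hφ.2, hφ.1, taylor_apply, eval₂_comp, eval₂_add, eval₂_X, eval₂_C, atFin, add_comm]

theorem fin_V {E : ℕ} {c : K} {φ : RatFunc K →+* LaurentSeries K}
    (hφ : φ RatFunc.X = atFin E c ∧ ∀ a : K, φ (RatFunc.C a) = HahnSeries.C a) (P : K[X]) :
    V (φ (algebraMap K[X] (RatFunc K) P)) 0 := by
  rw [phi_fin hφ]
  exact ev_V E _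

theorem fin_coeff {E : ℕ} (hE : 0 < E) {c : K} {φ : RatFunc K →+* LaurentSeries K}
    (hφ : φ RatFunc.X = atFin E c ∧ ∀ a : K, φ (RatFunc.C a) = HahnSeries.C a) (P : K[X]) (k : ℕ) :
    (φ (algebraMap K[X] (RatFunc K) P)).coeff (k * E) = (taylor c P).coeff k := by
  rw [phi_fin hφ]
  exact ev_coeff (by exact_mod_cast hE.ne') _ _

theorem fin_sub {E : ℕ} {c : K} {φ : RatFunc K →+* LaurentSeries K}
    (hφ : φ RatFunc.X = atFin E c ∧ ∀ a : K, φ (RatFunc.C a) = HahnSeries.C a) :
    V (φ (algebraMap K[X] (RatFunc K) (X - C c))) E := by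
  have h : φ (algebraMap K[X] (RatFunc K) (X - C c)) = HahnSeries.single (E : ℤ) 1 := by
    rw [phi_eq φ hφ.2, eval₂_sub, eval₂_X, eval₂_C, hφ.1, atFin, add_sub_cancel_left]
  rw [h]
  intro m hm
  exact HahnSeries.coeff_single_of_ne hm.ne

theorem inf_sub {E : ℕ} (c : K) {χ : RatFunc K →+* LaurentSeries K}
    (hχ : χ RatFunc.X = atInf K E ∧ ∀ a : K, χ (RatFunc.C a) = HahnSeries.C a) :
    V (χ (algebraMap K[X] (RatFunc K) (X - C c))) (-(E : ℤ)) := by
  rw [phi_eq χ hχ.2, eval₂_sub, eval₂_X, eval₂_C, hχ.1, atInf]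
  intro m hm
  rw [HahnSeries.coeff_sub, HahnSeries.C_apply, HahnSeries.coeff_single_of_ne hm.ne,
    HahnSeries.coeff_single_of_ne (by omega), sub_zero]

theorem inf_deg {E : ℕ} (hE : 0 < E) {χ : RatFunc K →+* LaurentSeries K}
    (hχ : χ RatFunc.X = atInf K E ∧ ∀ a : K, χ (RatFunc.C a) = HahnSeries.C a) {P : K[X]}
    (hP : P ≠ 0) {w : ℤ} (h : V (χ (algebraMap K[X] (RatFunc K) P)) w) :
    w ≤ -(P.natDegree * E : ℤ) := by
  by_contra hlt
  have h1 := h (-(P.natDegree * E : ℤ)) (not_le.1 hlt)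
  rw [phi_eq χ hχ.2, hχ.1, atInf, ← mul_neg, ev_coeff (by omega)] at h1
  exact hP (leadingCoeff_eq_zero.1 h1)

/-- the product of the `x - c` -/
noncomputable def D (S : Finset K) : K[X] := ∏ c ∈ S, (X - C c)

theorem D_ne (S : Finset K) : D S ≠ 0 := Finset.prod_ne_zero_iff.2 fun c _ => X_sub_C_ne_zero c

theorem exists_pow {S : Finset K} {R : RatFunc K} (hR : R ∈ OO S) :
    ∃ (M : ℕ) (P : K[X]), R * algebraMap K[X] (RatFunc K) (D S) ^ M =
      algebraMap K[X] (RatFunc K) P := by
  classical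
  induction hR using Subring.closure_induction with
  | mem x hx =>
    rcases hx with (⟨a, rfl⟩ | hx) | ⟨c, hc, rfl⟩
    · exact ⟨0, C a, by rw [pow_zero, mul_one, RatFunc.algebraMap_C]⟩
    · rw [Set.mem_singleton_iff] at hx
      subst hx
      exact ⟨0, X, by rw [pow_zero, mul_one, RatFunc.algebraMap_X]⟩
    · refine ⟨1, ∏ c' ∈ S.erase c, (X - C c'), ?_⟩
      have h1 : (RatFunc.X - RatFunc.C c : RatFunc K) =
          algebraMap K[X] (RatFunc K) (X - C c) := by
        rw [map_sub, RatFunc.algebraMap_X, RatFunc.algebraMap_C]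
      have h2 : algebraMap K[X] (RatFunc K) (X - C c) ≠ 0 :=
        RatFunc.algebraMap_ne_zero (X_sub_C_ne_zero c)
      rw [pow_one, D, ← Finset.mul_prod_erase S _ hc, map_mul, h1, ← mul_assoc,
        inv_mul_cancel₀ h2, one_mul]
  | zero => exact ⟨0, 0, by simp⟩
  | one => exact ⟨0, 1, by simp⟩
  | add x y _ _ hx hy =>
    obtain ⟨M, P, hM⟩ := hx
    obtain ⟨N, Q, hN⟩ := hy
    refine ⟨M + N, P * D S ^ N + Q * D S ^ M, ?_⟩
    rw [map_add, map_mul, map_mul, map_pow, map_pow, ← hM, ← hN]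
    ring
  | neg x _ hx =>
    obtain ⟨M, P, hM⟩ := hx
    exact ⟨M, -P, by rw [map_neg, ← hM]; ring⟩
  | mul x y _ _ hx hy =>
    obtain ⟨M, P, hM⟩ := hx
    obtain ⟨N, Q, hN⟩ := hy
    refine ⟨M + N, P * Q, ?_⟩
    rw [map_mul, ← hM, ← hN]
    ring

/-- a function in `O` without poles in `S` is a polynomial -/
theorem poly {S : Finset K} {E : ℕ} (hE : 0 < E)
    (φ : K → (RatFunc K →+* LaurentSeries K))
    (hφ : ∀ c ∈ S, φ c RatFunc.X = atFin E c ∧ ∀ a : K, φ c (RatFunc.C a) = HahnSeries.C a)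
    {T : RatFunc K} (hT : T ∈ OO S) (hV : ∀ c ∈ S, V (φ c T) (1 - E)) :
    ∃ P : K[X], T = algebraMap K[X] (RatFunc K) P := by
  obtain ⟨M, P, hM⟩ := exists_pow hT
  have hD0 : algebraMap K[X] (RatFunc K) (D S ^ M) ≠ 0 :=
    RatFunc.algebraMap_ne_zero (pow_ne_zero _ (D_ne S))
  have hdvd : T.denom ∣ D S ^ M := by
    rw [RatFunc.denom_dvd (pow_ne_zero _ (D_ne S))]
    refine ⟨P, ?_⟩
    rw [eq_div_iff hD0, map_pow, hM]
  have hmul : T * algebraMap K[X] (RatFunc K) T.denom = algebraMap K[X] (RatFunc K) T.num := by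
    have h := RatFunc.num_div_denom T
    rw [div_eq_iff (RatFunc.algebraMap_ne_zero (RatFunc.denom_ne_zero T))] at h
    exact h.symm
  have hunit : IsUnit T.denom := by
    by_contra hnu
    obtain ⟨q, hq, hqd⟩ := WfDvdMonoid.exists_irreducible_factor hnu (RatFunc.denom_ne_zero T)
    have hqp : Prime q := hq.prime
    have h1 : q ∣ D S := hqp.dvd_of_dvd_pow (hqd.trans hdvd)
    obtain ⟨c, hc, h2⟩ := (Prime.dvd_finsetProd_iff hqp _).1 h1
    have h3 : X - C c ∣ T.denom :=
      (((hq.associated_of_dvd (irreducible_X_sub_C c)) h2).symm.dvd).trans hqd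
    obtain ⟨d, hd⟩ := h3
    have h4 : V (φ c (algebraMap K[X] (RatFunc K) T.num)) 1 := by
      rw [← hmul, hd, map_mul, map_mul, map_mul]
      refine ((hV c hc).mul ((fin_sub (hφ c hc)).mul (fin_V (hφ c hc) d))).mono ?_
      linarith
    have h5 := fin_coeff hE (hφ c hc) T.num 0
    rw [Nat.cast_zero, zero_mul, h4 0 one_pos, taylor_coeff_zero] at h5
    have h6 : X - C c ∣ T.num := dvd_iff_isRoot.2 h5.symm
    exact (irreducible_X_sub_C c).not_isUnit
      ((RatFunc.isCoprime_num_denom T).isUnit_of_dvd' h6 ⟨d, hd⟩)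
  obtain ⟨w, hw⟩ := hunit
  refine ⟨T.num * ↑w⁻¹, ?_⟩
  rw [map_mul, ← hmul, mul_assoc, ← map_mul, ← hw, Units.mul_inv, map_one, mul_one]

end RF

open RF in
theorem part_RF : S_RF.{u} := by
  intro K _ S t _ E hE φ ψ χ hφ hψ hχ R hR N hN hfin hinf
  classical
  refine ⟨fun p hp ht => ?_, fun h1 => ?_⟩
  · have hDO : algebraMap K[X] (RatFunc K) (D S) ∈ OO S := by
      rw [D, map_prod]
      refine Subring.prod_mem _ fun c _ => ?_
      rw [map_sub, RatFunc.algebraMap_X, RatFunc.algebraMap_C]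
      exact Subring.sub_mem _ (Subring.subset_closure (Or.inl (Or.inr rfl)))
        (Subring.subset_closure (Or.inl (Or.inl ⟨c, rfl⟩)))
    have hQ : R * algebraMap K[X] (RatFunc K) (D S) ^ N ∈ OO S :=
      Subring.mul_mem _ hR (Subring.pow_mem _ hDO _)
    have hDc : ∀ c ∈ S, V (φ c (algebraMap K[X] (RatFunc K) (D S))) E := by
      intro c hc
      rw [D, ← Finset.mul_prod_erase S _ hc, map_mul, map_mul]
      exact ((fin_sub (hφ c hc)).mul (fin_V (hφ c hc) _)).mono (by linarith)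
    have hQc : ∀ c ∈ S, V (φ c (R * algebraMap K[X] (RatFunc K) (D S) ^ N)) (1 - E) := by
      intro c hc
      rw [map_mul, map_pow]
      refine (V.mul (hfin c hc) ((hDc c hc).pow N)).mono ?_
      have h1 : (1 : ℤ) ≤ N := by exact_mod_cast hN
      have h2 : (0 : ℤ) ≤ E := Nat.cast_nonneg _
      linarith
    obtain ⟨Q, hQe⟩ := poly hE φ hφ hQ hQc
    have hDi : V (χ (algebraMap K[X] (RatFunc K) (D S))) (-(S.card * E : ℤ)) := by
      rw [D, map_prod, map_prod]
      refine (V.prod S _ (fun _ => -(E : ℤ)) fun c _ => inf_sub c hχ).mono ?_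
      rw [Finset.sum_const, nsmul_eq_mul]
      linarith
    have hQi : V (χ (algebraMap K[X] (RatFunc K) Q)) (N * (E + 1) + N * (-(S.card * E : ℤ))) := by
      rw [← hQe, map_mul, map_pow]
      exact V.mul hinf (hDi.pow N)
    have hQt : V (ψ (algebraMap K[X] (RatFunc K) Q)) (2 * p) := by
      rw [← hQe, map_mul, ← map_pow]
      exact (V.mul ht (fin_V hψ _)).mono (by linarith)
    have hQ0 : Q = 0 := by
      by_contra hne
      have h1 := inf_deg hE hχ hne hQi
      have h2 : (Q.natDegree : ℤ) * E < (N * ((S.card : ℤ) - 1)) * E := by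
        have h3 : (1 : ℤ) ≤ N := by exact_mod_cast hN
        linarith
      have h4 : (Q.natDegree : ℤ) < N * ((S.card : ℤ) - 1) :=
        lt_of_mul_lt_mul_right h2 (Nat.cast_nonneg _)
      have h5 : 1 ≤ S.card := by
        by_contra h6
        have h7 : S.card = 0 := by omega
        rw [h7] at h4
        have h8 : (0 : ℤ) ≤ Q.natDegree := Nat.cast_nonneg _
        have h3 : (1 : ℤ) ≤ N := by exact_mod_cast hN
        push_cast at h4
        linarith
      have h9 : Q.natDegree < p := by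
        refine lt_of_lt_of_le ?_ hp
        have : ((Q.natDegree : ℕ) : ℤ) < ((N * (S.card - 1) : ℕ) : ℤ) := by
          rw [Nat.cast_mul, Nat.cast_sub h5]
          exact h4
        exact_mod_cast this
      have h10 : (taylor t Q).coeff (taylor t Q).natDegree = 0 := by
        rw [← fin_coeff two_pos hψ, natDegree_taylor]
        refine hQt _ ?_
        have : (Q.natDegree : ℤ) < p := by exact_mod_cast h9
        push_cast
        linarith
      have h11 : taylor t Q = 0 := leadingCoeff_eq_zero.1 h10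
      exact hne ((taylor_injective t) (by rw [h11, map_zero]))
    rw [hQ0, map_zero] at hQe
    rcases mul_eq_zero.1 hQe with h | h
    · exact h
    · exact absurd h (pow_ne_zero _ (RatFunc.algebraMap_ne_zero (D_ne S)))
  · subst h1
    obtain ⟨Q, rfl⟩ := poly hE φ hφ hR (fun c hc => by
      have := hfin c hc
      rw [Nat.cast_one, one_mul] at this
      exact this)
    by_contra hne
    have hQ : Q ≠ 0 := by
      rintro rfl
      exact hne (map_zero _)
    have h1 := inf_deg hE hχ hQ hinf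
    have h2 : (0 : ℤ) ≤ Q.natDegree * E := by positivity
    have h3 : (0 : ℤ) ≤ E := Nat.cast_nonneg _
    push_cast at h1
    linarith

end Pool.Agent.N780.SB
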