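import Mathlib
import Pool.Agent.N780.SB.Defs

set_option autoImplicit false

/-!
Statements of the parts: Puiseux expansions over a separably closed field (degrees below the
characteristic).
-/

namespace Pool.Agent.N780.SB

universe u v w

/-- `ρ` is the substitution `u ↦ u ^ N` -/
def IsPw {K : Type u} [Field K] (N : ℕ) (ρ : LaurentSeries K →+* LaurentSeries K) : Prop :=
  ∀ y : LaurentSeries K, (∀ m : ℤ, (ρ y).coeff ((N : ℤ) * m) = y.coeff m) ∧
    ∀ m : ℤ, ¬ (N : ℤ) ∣ m → (ρ y).coeff m = 0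

/-- Part PW: the substitutions exist. -/
def S_PW : Prop := ∀ (K : Type u) [Field K] (N : ℕ) (_ : 0 < N),
  ∃ ρ : LaurentSeries K →+* LaurentSeries K, IsPw N ρ

/-- Part PU1: the theorem of Puiseux. -/
def S_PU1 : Prop := ∀ (K : Type u) [Field K] [IsSepClosed K] (p : ℕ) (_ : p.Prime) (_ : CharP K p)
  (f : Polynomial (LaurentSeries K)) (_ : f.Monic) (_ : f.natDegree < p),
  ∃ N : ℕ, 0 < N ∧ ¬ p ∣ N ∧
    ∀ ρ : LaurentSeries K →+* LaurentSeries K, IsPw N ρ → (f.map ρ).Splits

/-- Part PU2: all Puiseux expansions of the elements of `F` exist, with a common exponent. -/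
def S_PUI : Prop := ∀ (K : Type u) (F : Type v) [Field K] [IsSepClosed K] [Field F]
  [Algebra (RatFunc K) F] (p n : ℕ) (_ : p.Prime) (_ : CharP K p) (_ : 0 < n) (_ : n < p)
  (_ : Module.finrank (RatFunc K) F = n) (S : Finset K),
  ∃ E : ℕ, 0 < E ∧ ¬ p ∣ E ∧ (∀ c ∈ S, Splits F n (atFin E c)) ∧ Splits F n (atInf K E)

/-- Part TT: a simple zero of the discriminant is a simple branch point. -/
def S_TT : Prop := ∀ (K : Type u) (F : Type v) [Field K] [IsSepClosed K] [Field F]
  [Algebra (RatFunc K) F] (p n : ℕ) (_ : p.Prime) (_ : CharP K p) (_ : 0 < n) (_ : n < p)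
  (_ : p ≠ 2) (S : Finset K) (t : K) (_ : t ∉ S) (a : Fin n → F) (_ : IsAffineCurve S t a),
  Splits F n (atFin 2 t)

end Pool.Agent.N780.SB
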