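import Mathlib
import Pool.Agent.N780.SB.Stm
import Pool.Agent.N780.SB.Stm2

set_option autoImplicit false

/-!
Statements of the parts in characteristic zero.
-/

namespace Pool.Agent.N780.SB

universe u v w

/-- Part PU1Z: the theorem of Puiseux. -/
def S_PU1Z : Prop := ∀ (K : Type u) [Field K] [IsAlgClosed K] [CharZero K]
  (f : Polynomial (LaurentSeries K)) (_ : f.Monic),
  ∃ N : ℕ, 0 < N ∧ ∀ ρ : LaurentSeries K →+* LaurentSeries K, IsPw N ρ → (f.map ρ).Splits

/-- Part PUIZ: all Puiseux expansions of the elements of `F` exist, with a common exponent. -/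
def S_PUIZ : Prop := ∀ (K : Type u) (F : Type v) [Field K] [IsAlgClosed K] [CharZero K] [Field F]
  [Algebra (RatFunc K) F] (n : ℕ) (_ : 0 < n)
  (_ : Module.finrank (RatFunc K) F = n) (S : Finset K),
  ∃ E : ℕ, 0 < E ∧ (∀ c ∈ S, Splits F n (atFin E c)) ∧ Splits F n (atInf K E)

/-- Part TTZ: a simple zero of the discriminant is a simple branch point. -/
def S_TTZ : Prop := ∀ (K : Type u) (F : Type v) [Field K] [IsAlgClosed K] [CharZero K] [Field F]
  [Algebra (RatFunc K) F] (n : ℕ) (_ : 0 < n)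
  (S : Finset K) (t : K) (_ : t ∉ S) (a : Fin n → F) (_ : IsAffineCurve S t a),
  Splits F n (atFin 2 t)

/-- Part CONST: functions without poles are constant. -/
def S_CONST : Prop := ∀ (K : Type u) (F : Type v) [Field K] [IsAlgClosed K] [Field F]
  [Algebra (RatFunc K) F] [Algebra.IsSeparable (RatFunc K) F] (n E : ℕ) (_ : 0 < n) (_ : 0 < E)
  (S : Finset K) (t : K) (a : Fin n → F) (_ : IsAffineCurve S t a)
  (_ : ∀ c ∈ S, Splits F n (atFin E c)) (_ : Splits F n (atInf K E)) (h : F) (_ : InA S a h)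
  (_ : ∀ c ∈ S, ∀ σ : F →+* LaurentSeries K, IsExp (atFin E c) σ →
    ∀ m : ℤ, m < 0 → (σ h).coeff m = 0)
  (_ : ∀ σ : F →+* LaurentSeries K, IsExp (atInf K E) σ → ∀ m : ℤ, m < 0 → (σ h).coeff m = 0),
  ∃ b : K, h = cF F b

end Pool.Agent.N780.SB
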