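import Mathlib
import Pool.Agent.N780.SB.Stm

set_option autoImplicit false

/-!
SB/TR (helper933 for project SB of helper780): traces and discriminants by expansions.
-/

namespace Pool.Agent.N780.SB

universe u v w

namespace TR933

open Module

/-- the general statement -/
theorem gen {k : Type u} {F : Type v} {L : Type w} [Field k] [Field F] [Field L] [Algebra k F]
    [Algebra.IsSeparable k F] (n : ℕ) (hn : 0 < n) (hr : finrank k F = n) (φ : k →+* L)
    (σ : Fin n → (F →+* L)) (hinj : Function.Injective σ)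
    (hσ : ∀ i, (σ i).comp (algebraMap k F) = φ) :
    (∀ τ : F →+* L, τ.comp (algebraMap k F) = φ → ∃ i, τ = σ i) ∧
    (∀ f : F, φ (Algebra.trace k F f) = ∑ j, σ j f) ∧
    (∀ b : Fin n → F, φ (Algebra.discr k b) = (Matrix.det (Matrix.of fun j l => σ j (b l))) ^ 2) := by
  letI : Algebra k L := φ.toAlgebra
  haveI : FiniteDimensional k F := Module.finite_of_finrank_pos (by omega)
  have hφ : ∀ r : k, algebraMap k L r = φ r := fun r => rfl
  let lift : ∀ τ : F →+* L, τ.comp (algebraMap k F) = φ → (F →ₐ[k] L) := fun τ hτ =>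
    { τ with commutes' := fun r => RingHom.congr_fun hτ r }
  let Ω := AlgebraicClosure L
  let ι : L →ₐ[k] Ω := IsScalarTower.toAlgHom k L Ω
  have hι : Function.Injective ι := (algebraMap L Ω).injective
  let e : Fin n → (F →ₐ[k] Ω) := fun i => ι.comp (lift (σ i) (hσ i))
  have he : ∀ i f, e i f = ι (σ i f) := fun i f => rfl
  have heinj : Function.Injective e := by
    intro i j h
    apply hinj
    ext f
    exact hι (AlgHom.congr_fun h f)
  have hcard : Fintype.card (F →ₐ[k] Ω) = n := by
    rw [AlgHom.card k F Ω, hr]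
  have hbij : Function.Bijective e := by
    rw [Fintype.bijective_iff_injective_and_card]
    exact ⟨heinj, by rw [Fintype.card_fin, hcard]⟩
  have halg : ∀ r : k, algebraMap k Ω r = ι (φ r) := fun r => by
    rw [← hφ]
    exact (ι.commutes r).symm
  refine ⟨fun τ hτ => ?_, fun f => ?_, fun b => ?_⟩
  · obtain ⟨i, hi⟩ := hbij.2 (ι.comp (lift τ hτ))
    refine ⟨i, ?_⟩
    ext f
    exact (hι (AlgHom.congr_fun hi f)).symm
  · apply hι
    rw [← halg, trace_eq_sum_embeddings Ω, map_sum]
    exact (Function.Bijective.sum_comp hbij (fun g : F →ₐ[k] Ω => g f)).symm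
  · apply hι
    rw [← halg, Algebra.discr_eq_det_embeddingsMatrixReindex_pow_two k Ω b
      (Equiv.ofBijective e hbij), map_pow]
    congr 1
    have h1 : Algebra.embeddingsMatrixReindex k Ω b (Equiv.ofBijective e hbij) =
        (ι.toRingHom.mapMatrix (Matrix.of fun j l => σ j (b l))).transpose := by
      ext i j
      rfl
    rw [h1, Matrix.det_transpose]
    exact (RingHom.map_det ι.toRingHom _).symm

theorem ratExt {K : Type u} [Field K] {L : Type v} [Field L] (f g : RatFunc K →+* L)
    (hX : f RatFunc.X = g RatFunc.X) (hC : ∀ a : K, f (RatFunc.C a) = g (RatFunc.C a)) : f = g := by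
  refine IsLocalization.ringHom_ext (nonZeroDivisors (Polynomial K)) ?_
  refine Polynomial.ringHom_ext (fun a => ?_) ?_
  · rw [RingHom.comp_apply, RingHom.comp_apply, RatFunc.algebraMap_C]
    exact hC a
  · rw [RingHom.comp_apply, RingHom.comp_apply, RatFunc.algebraMap_X]
    exact hX

end TR933

open TR933 in
/-- Part TR: traces and discriminants by expansions. -/
theorem part_TR : S_TR.{u, v} := by
  intro K F _ _ _ _ n hn hr ξ σ hinj hσ
  let φ : RatFunc K →+* LaurentSeries K := (σ ⟨0, hn⟩).comp (algebraMap (RatFunc K) F)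
  have hφ : ∀ τ : F →+* LaurentSeries K, IsExp ξ τ → τ.comp (algebraMap (RatFunc K) F) = φ := by
    intro τ hτ
    refine ratExt _ _ ?_ fun a => ?_
    · exact hτ.1.trans (hσ ⟨0, hn⟩).1.symm
    · exact (hτ.2 a).trans ((hσ ⟨0, hn⟩).2 a).symm
  obtain ⟨h1, h2, h3⟩ := gen n hn hr φ σ hinj fun i => hφ _ (hσ i)
  refine ⟨fun τ hτ => h1 τ (hφ τ hτ), fun f i => ?_, fun b i => ?_⟩
  · rw [← h2 f, ← hφ _ (hσ i)]
    rfl
  · rw [← h3 b, ← hφ _ (hσ i)]
    rfl

end Pool.Agent.N780.SB
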