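import Mathlib
import Pool.Agent.N780.SB.Stm
import Pool.Agent.N780.SB.Stm4
import Pool.Agent.N780.SB.ALG
import Pool.Agent.N780.SB.RF
import Pool.Agent.N780.SB.TR

set_option autoImplicit false

/-!
Part CONST: functions without poles are constant (helper616 for project SB of helper780).
-/

namespace Pool.Agent.N780.SB

universe u v w

namespace CONST

open Polynomial

/-- the ring of the Laurent series without negative powers -/
def R0 (K : Type u) [Field K] : Subring (LaurentSeries K) where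
  carrier := {y | RF.V y 0}
  zero_mem' := fun m _ => HahnSeries.coeff_zero
  one_mem' := RF.V.one
  add_mem' := fun {x y} hx hy m hm => by
    rw [HahnSeries.coeff_add, hx m hm, hy m hm, add_zero]
  neg_mem' := fun {x} hx m hm => by
    rw [HahnSeries.coeff_neg, hx m hm, neg_zero]
  mul_mem' := fun {x y} hx hy => by
    have h := RF.V.mul hx hy
    rwa [add_zero] at h

variable {K : Type u} {F : Type v} [Field K] [Field F] [Algebra (RatFunc K) F]

lemma coeff_mem {R : Type u} [CommRing R] (T : Subring R) {n : ℕ} (M : Matrix (Fin n) (Fin n) R)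
    (h : ∀ i j, M i j ∈ T) (i : ℕ) : M.charpoly.coeff i ∈ T := by
  have h1 : M = (Matrix.of fun i j => (⟨M i j, h i j⟩ : T)).map T.subtype := by
    ext i j
    rfl
  rw [h1, Matrix.charpoly_map, coeff_map]
  exact Subtype.property _

lemma prod_mem {n : ℕ} (y : Fin n → LaurentSeries K) (h : ∀ j, y j ∈ R0 K) (i : ℕ) :
    (∏ j, (X - C (y j))).coeff i ∈ R0 K := by
  rw [← Matrix.charpoly_diagonal]
  refine coeff_mem (R0 K) _ (fun j k => ?_) i
  rw [Matrix.diagonal_apply]
  split_ifs
  · exact h j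
  · exact (R0 K).zero_mem

/-- the characteristic polynomial of the multiplication by `h` has the roots `σ j h` -/
lemma map_charpoly {n : ℕ} (b : Module.Basis (Fin n) (RatFunc K) F) (h : F)
    (φ : RatFunc K →+* LaurentSeries K) (σ : Fin n → (F →+* LaurentSeries K))
    (hσ : ∀ j r, σ j (algebraMap (RatFunc K) F r) = φ r)
    (hdet : (Matrix.of fun j k => σ j (b k)).det ≠ 0) :
    (Algebra.leftMulMatrix b h).charpoly.map φ = ∏ j, (X - C (σ j h)) := by
  set P : Matrix (Fin n) (Fin n) (LaurentSeries K) := Matrix.of fun j k => σ j (b k) with hP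
  set M := Algebra.leftMulMatrix b h with hM
  have key : P * M.map φ = Matrix.diagonal (fun j => σ j h) * P := by
    ext1 j l
    rw [Matrix.mul_apply, Matrix.diagonal_mul]
    have h1 : h * b l = ∑ k, algebraMap (RatFunc K) F (M k l) * b k := by
      conv_lhs => rw [← b.sum_repr (h * b l)]
      refine Finset.sum_congr rfl fun k _ => ?_
      rw [Algebra.smul_def, hM, Algebra.leftMulMatrix_eq_repr_mul]
    have h2 : σ j h * σ j (b l) = ∑ k, φ (M k l) * σ j (b k) := by
      rw [← map_mul, h1, map_sum]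
      refine Finset.sum_congr rfl fun k _ => ?_
      rw [map_mul, hσ]
    show ∑ k, σ j (b k) * φ (M k l) = σ j h * σ j (b l)
    rw [h2]
    exact Finset.sum_congr rfl fun k _ => mul_comm _ _
  have hu : IsUnit P.det := isUnit_iff_ne_zero.2 hdet
  have h3 : M.map φ = P⁻¹ * Matrix.diagonal (fun j => σ j h) * P := by
    rw [mul_assoc, ← key, ← mul_assoc, Matrix.nonsing_inv_mul _ hu, one_mul]
  have h4 := Matrix.charpoly_units_conj' (P.nonsingInvUnit hu) (Matrix.diagonal fun j => σ j h)
  rw [← Matrix.charpoly_map, ← Matrix.charpoly_diagonal, ← h4]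
  congr 1

end CONST

open CONST Polynomial in
/-- Part CONST: functions without poles are constant. -/
theorem part_CONST (hTR : S_TR.{u, v}) : S_CONST.{u, v} := by
  intro K F _ _ _ _ _ n E hn hE S t a hA hfin hinf h hh hc hi
  -- the basis
  obtain ⟨hrank, hone, hmul, r, hr, -, hr0, hd⟩ := hA
  have : Nonempty (Fin n) := ⟨⟨0, hn⟩⟩
  have hd0 : Algebra.discr (RatFunc K) a ≠ 0 := by
    rw [hd]
    exact mul_ne_zero hr0 (ALG.X_sub_ne t)
  have hli : LinearIndependent (RatFunc K) a := by
    by_contra hcon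
    exact hd0 (Algebra.discr_zero_of_not_linearIndependent (RatFunc K) hcon)
  have hcard : Fintype.card (Fin n) = Module.finrank (RatFunc K) F := by
    rw [Fintype.card_fin, hrank]
  obtain ⟨b, hb⟩ : ∃ b : Module.Basis (Fin n) (RatFunc K) F, ⇑b = a :=
    ⟨basisOfLinearIndependentOfCardEqFinrank hli hcard,
      coe_basisOfLinearIndependentOfCardEqFinrank hli hcard⟩
  have hM : ∀ i j, Algebra.leftMulMatrix b h i j ∈ OO S := by
    intro i j
    rw [Algebra.leftMulMatrix_eq_repr_mul, hb]
    obtain ⟨s, hs, h1⟩ := ALG.inA_mul hmul hh (ALG.inA_self (S := S) j)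
    have h2 : h * a j = ∑ j, s j • b j := by
      rw [h1, hb]
      refine Finset.sum_congr rfl fun j _ => ?_
      rw [Algebra.smul_def]
    rw [h2, b.repr_sum_self]
    exact hs i
  set q := (Algebra.leftMulMatrix b h).charpoly with hq
  have hqO : ∀ i, q.coeff i ∈ OO S := fun i => coeff_mem (OO S) _ hM i
  -- the expansions
  have hexp : ∀ (ξ : LaurentSeries K) (_ : Splits F n ξ)
      (_ : ∀ σ : F →+* LaurentSeries K, IsExp ξ σ → ∀ m : ℤ, m < 0 → (σ h).coeff m = 0),
      ∃ φ : RatFunc K →+* LaurentSeries K, φ RatFunc.X = ξ ∧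
        (∀ a : K, φ (RatFunc.C a) = HahnSeries.C a) ∧ ∀ i, RF.V (φ (q.coeff i)) 0 := by
    rintro ξ ⟨σ, hinj, hσ⟩ hreg
    let φ : RatFunc K →+* LaurentSeries K := (σ ⟨0, hn⟩).comp (algebraMap (RatFunc K) F)
    have hφ : ∀ j r, σ j (algebraMap (RatFunc K) F r) = φ r := by
      intro j r
      have h1 : (σ j).comp (algebraMap (RatFunc K) F) = φ := by
        refine TR933.ratExt _ _ ?_ fun a => ?_
        · exact (hσ j).1.trans (hσ ⟨0, hn⟩).1.symm
        · exact ((hσ j).2 a).trans ((hσ ⟨0, hn⟩).2 a).symm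
      exact RingHom.congr_fun h1 r
    have hdet : (Matrix.of fun j k => σ j (b k)).det ≠ 0 := by
      intro h0
      have h1 := (hTR K F n hn hrank ξ σ hinj hσ).2.2 b ⟨0, hn⟩
      rw [h0, hb, zero_pow two_ne_zero, map_eq_zero_iff _ (σ ⟨0, hn⟩).injective,
        map_eq_zero_iff _ (algebraMap (RatFunc K) F).injective] at h1
      exact hd0 h1
    refine ⟨φ, (hσ ⟨0, hn⟩).1, (hσ ⟨0, hn⟩).2, fun i => ?_⟩
    have h2 := map_charpoly b h φ σ hφ hdet
    have h3 : φ (q.coeff i) = (∏ j, (X - C (σ j h))).coeff i := by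
      rw [← h2, coeff_map]
    rw [h3]
    exact CONST.prod_mem (fun j => σ j h) (fun j => hreg (σ j) (hσ j)) i
  classical
  have hex : ∀ c : K, ∃ φ : RatFunc K →+* LaurentSeries K, c ∈ S → φ RatFunc.X = atFin E c ∧
      (∀ a : K, φ (RatFunc.C a) = HahnSeries.C a) ∧ ∀ i, RF.V (φ (q.coeff i)) 0 := by
    obtain ⟨χ, -⟩ := hexp _ hinf hi
    intro c
    by_cases hcS : c ∈ S
    · obtain ⟨φ, hφ⟩ := hexp _ (hfin c hcS) (hc c hcS)
      exact ⟨φ, fun _ => hφ⟩
    · exact ⟨χ, fun h => absurd h hcS⟩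
  choose φ hφ using hex
  obtain ⟨χ, hχX, hχC, hχV⟩ := hexp _ hinf hi
  -- the coefficients are constant
  have hco : ∀ i, ∃ d : K, q.coeff i = RatFunc.C d := by
    intro i
    obtain ⟨P, hP⟩ := RF.poly hE φ (fun c hc => ⟨(hφ c hc).1, (hφ c hc).2.1⟩) (hqO i)
      (fun c hc => ((hφ c hc).2.2 i).mono (by omega))
    by_cases hP0 : P = 0
    · exact ⟨0, by rw [hP, hP0, map_zero, map_zero]⟩
    · have h1 := RF.inf_deg hE ⟨hχX, hχC⟩ hP0 (w := 0) (by rw [← hP]; exact hχV i)
      have h2 : P.natDegree = 0 := by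
        by_contra h3
        have h4 : 0 < P.natDegree * E := Nat.mul_pos (Nat.pos_of_ne_zero h3) hE
        have h5 : (0 : ℤ) < (P.natDegree : ℤ) * E := by exact_mod_cast h4
        omega
      refine ⟨P.coeff 0, ?_⟩
      rw [hP]
      conv_lhs => rw [eq_C_of_natDegree_eq_zero h2]
      rw [RatFunc.algebraMap_C]
  have hmon : q.Monic := Matrix.charpoly_monic _
  obtain ⟨q0, hq0, -, hq0m⟩ := lifts_and_natDegree_eq_and_monic (f := (RatFunc.C : K →+* RatFunc K))
    ((lifts_iff_coeff_lifts q).2 fun i => by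
      obtain ⟨d, hd⟩ := hco i
      exact ⟨d, hd.symm⟩) hmon
  have hroot : aeval h q = 0 := by
    apply Algebra.leftMulMatrix_injective b
    rw [map_zero, ← aeval_algHom_apply]
    exact Matrix.aeval_self_charpoly _
  let _ : Algebra K F := ((algebraMap (RatFunc K) F).comp (RatFunc.C : K →+* RatFunc K)).toAlgebra
  have hint : IsIntegral K h := by
    refine ⟨q0, hq0m, ?_⟩
    rw [aeval_def, ← hq0, eval₂_map] at hroot
    exact hroot
  have hdeg : (minpoly K h).degree = 1 :=
    IsAlgClosed.degree_eq_one_of_irreducible K (minpoly.irreducible hint)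
  obtain ⟨d, hd⟩ := minpoly.mem_range_of_degree_eq_one K h hdeg
  exact ⟨d, hd.symm⟩

end Pool.Agent.N780.SB
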