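import Mathlib
import Pool.Agent.N780.SB.Defs

set_option autoImplicit false

/-!
# Points of the curve with function field `F`, characteristic zero: definitions
-/

namespace Pool.Agent.N780.SB

universe u v

/-- `v` is the order of vanishing at a point of the curve with function field `F`: there is a Puiseux
expansion in a variable `z`, with `x = c + z ^ e` or `x = z ^ (-e)`, in which some function has order one
(so that `z` is a local parameter), and `v` is the order of the expansions (`v 0 = 0`). -/
def IsPoint (K : Type u) {F : Type v} [Field K] [Field F] [Algebra (RatFunc K) F]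
    (v : F → ℤ) : Prop :=
  ∃ σ : F →+* LaurentSeries K,
    ((∃ (e : ℕ) (c : K), 0 < e ∧ IsExp (atFin e c) σ) ∨ ∃ e : ℕ, 0 < e ∧ IsExp (atInf K e) σ) ∧
    (∃ f, (σ f).order = 1) ∧ ∀ f, v f = (σ f).order

/-- The points of the smooth projective curve over `K` with function field `F`, given by the orders
of vanishing. -/
def Point (K : Type u) (F : Type v) [Field K] [Field F] [Algebra (RatFunc K) F] : Type v :=
  {v : F → ℤ // IsPoint K v}

/-- The point `v` lies over a constant or over infinity: `x(v) = c` with `δ c = 0`, or `x` has a pole. -/
def IsConst {K : Type u} {F : Type v} [Field K] [Field F] [Algebra (RatFunc K) F]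
    (δ : Derivation ℤ K K) (v : Point K F) : Prop :=
  (∃ c : K, δ c = 0 ∧ 0 < v.1 (xF K F - cF F c)) ∨ v.1 (xF K F) < 0

/-- Every function whose poles are bounded by an effective divisor of degree at most `k` is constant:
the gonality of the curve is greater than `k`. -/
def GonGT (K : Type u) (F : Type v) [Field K] [Field F] [Algebra (RatFunc K) F] (k : ℕ) : Prop :=
  ∀ M : Point K F →₀ ℕ, (M.sum fun _ j => j) ≤ k → ∀ f : F, (∀ v : Point K F, -(M v : ℤ) ≤ v.1 f) →
    ∃ b : K, f = cF F b

end Pool.Agent.N780.SB
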