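import Mathlib
import Pool.Agent.N780.SB.Stm
import Pool.Agent.N780.SB.Stm2
import Pool.Agent.N780.SB.Stm4
import Pool.Agent.N780.SB.Defs7

set_option autoImplicit false

/-!
Functions with few zeros and poles: statements of the parts.
-/

namespace Pool.Agent.N780.SB

universe u v w

/-- Part UNRM: the covering is unramified outside `S`, `t` and infinity. -/
def S_UNRM : Prop := ∀ (K : Type u) (F : Type v) [Field K] [IsAlgClosed K] [CharZero K] [Field F]
  [Algebra (RatFunc K) F] (n : ℕ) (_ : 0 < n) (S : Finset K) (t : K) (_ : t ∉ S) (a : Fin n → F)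
  (_ : IsAffineCurve S t a) (c : K) (_ : c ∉ S) (_ : c ≠ t) (e : ℕ) (_ : 0 < e)
  (σ : F →+* LaurentSeries K) (_ : IsExp (atFin e c) σ) (f : F) (m : ℤ) (_ : (σ f).coeff m ≠ 0),
  (e : ℤ) ∣ m

/-- Part RAMT: the ramification over `t` is at most two. -/
def S_RAMT : Prop := ∀ (K : Type u) (F : Type v) [Field K] [IsAlgClosed K] [CharZero K] [Field F]
  [Algebra (RatFunc K) F] (n : ℕ) (_ : 0 < n) (S : Finset K) (t : K) (_ : t ∉ S) (a : Fin n → F)
  (_ : IsAffineCurve S t a) (e : ℕ) (_ : 0 < e)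
  (σ : F →+* LaurentSeries K) (_ : IsExp (atFin e t) σ) (_ : ∃ f, (σ f).order = 1), e = 1 ∨ e = 2

/-- Part LOGD: if the logarithmic derivative of `h` is in the subfield `L`, then a power of `h` is in
`L`. -/
def S_LOGD : Prop := ∀ (k : Type u) (F : Type v) [Field k] [Field F] [Algebra k F]
  [FiniteDimensional k F] (L : IntermediateField k F) (D : Derivation ℤ F F) (_ : ∀ f ∈ L, D f ∈ L)
  (_ : ∀ f, D f = 0 → f ∈ L) (h w : F) (_ : w ∈ L) (_ : D h = w * h),
  h ^ Module.finrank k F ∈ L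

/-- Part DEX: the derivations exist. -/
def S_DEX : Prop := ∀ (K : Type u) (F : Type v) [Field K] [CharZero K] [Field F]
  [Algebra (RatFunc K) F] [FiniteDimensional (RatFunc K) F] (δ : Derivation ℤ K K),
  ∃ D T : Derivation ℤ F F, D (xF K F) = 1 ∧ (∀ b : K, D (cF F b) = 0) ∧ T (xF K F) = 0 ∧
    ∀ b : K, T (cF F b) = cF F (δ b)

end Pool.Agent.N780.SB
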