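import Mathlib
import Pool.Agent.N780.SB.Stm7

set_option autoImplicit false

/-!
# The derivations `d/dx` and `δ` on a finite extension of `K(x)`
-/

namespace Pool.Agent.N780.SB

universe u v

section frac

variable {A L : Type*} [CommRing A] [Field L] [Algebra A L]

/-- the ring homomorphism to the dual numbers given by a derivation -/
noncomputable def dexHom (d : Derivation ℤ A A) : A →+* TrivSqZeroExt L L where
  toFun a := (algebraMap A L a, algebraMap A L (d a))
  map_one' := by
    apply TrivSqZeroExt.ext
    · change algebraMap A L 1 = 1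
      rw [map_one]
    · change algebraMap A L (d 1) = 0
      rw [Derivation.map_one_eq_zero, map_zero]
  map_zero' := by
    apply TrivSqZeroExt.ext
    · change algebraMap A L 0 = 0
      rw [map_zero]
    · change algebraMap A L (d 0) = 0
      rw [map_zero, map_zero]
  map_add' x y := by
    apply TrivSqZeroExt.ext
    · change algebraMap A L (x + y) = algebraMap A L x + algebraMap A L y
      rw [map_add]
    · change algebraMap A L (d (x + y)) = algebraMap A L (d x) + algebraMap A L (d y)
      rw [map_add, map_add]
  map_mul' x y := by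
    apply TrivSqZeroExt.ext
    · change algebraMap A L (x * y) = algebraMap A L x * algebraMap A L y
      rw [map_mul]
    · change algebraMap A L (d (x * y)) =
        algebraMap A L x * algebraMap A L (d y) + algebraMap A L (d x) * algebraMap A L y
      rw [Derivation.leibniz, smul_eq_mul, smul_eq_mul, map_add, map_mul, map_mul, mul_comm (algebraMap A L y)]

lemma dexHom_fst (d : Derivation ℤ A A) (a : A) :
    (dexHom (L := L) d a).fst = algebraMap A L a := rfl

lemma dexHom_snd (d : Derivation ℤ A A) (a : A) :
    (dexHom (L := L) d a).snd = algebraMap A L (d a) := rfl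

/-- a derivation extends to the field of fractions -/
lemma dex_frac [IsDomain A] [IsFractionRing A L] (d : Derivation ℤ A A) :
    ∃ D : Derivation ℤ L L, ∀ a : A, D (algebraMap A L a) = algebraMap A L (d a) := by
  have hu : ∀ y : nonZeroDivisors A, IsUnit (dexHom (L := L) d y) := by
    intro y
    rw [TrivSqZeroExt.isUnit_iff_isUnit_fst, dexHom_fst]
    exact IsLocalization.map_units L y
  obtain ⟨Φ, hΦ⟩ : ∃ Φ : L →+* TrivSqZeroExt L L, ∀ a : A, Φ (algebraMap A L a) = dexHom d a :=
    ⟨IsLocalization.lift hu, fun a => IsLocalization.lift_eq hu a⟩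
  have hf : ((TrivSqZeroExt.fstHom L L L).toRingHom).comp Φ = RingHom.id L := by
    apply IsLocalization.ringHom_ext (nonZeroDivisors A)
    ext a
    change (Φ (algebraMap A L a)).fst = algebraMap A L a
    rw [hΦ, dexHom_fst]
  have hf' : ∀ z : L, (Φ z).fst = z := fun z => RingHom.congr_fun hf z
  have hadd : ∀ z w : L, (Φ (z + w)).snd = (Φ z).snd + (Φ w).snd := by
    intro z w
    rw [map_add, TrivSqZeroExt.snd_add]
  have hmul : ∀ z w : L, (Φ (z * w)).snd = z • (Φ w).snd + w • (Φ z).snd := by
    intro z w
    rw [map_mul, TrivSqZeroExt.snd_mul, hf', hf']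
    simp [mul_comm]
  refine ⟨Derivation.mk' (AddMonoidHom.toIntLinearMap (AddMonoidHom.mk' (fun z => (Φ z).snd) hadd))
    hmul, fun a => ?_⟩
  change (Φ (algebraMap A L a)).snd = _
  rw [hΦ, dexHom_snd]

end frac

/-- a derivation of a field of characteristic zero extends to a finite extension -/
lemma dex_fin {L F : Type*} [Field L] [Field F] [CharZero L] [Algebra L F] [FiniteDimensional L F]
    (d : Derivation ℤ L L) :
    ∃ D : Derivation ℤ F F, ∀ a : L, D (algebraMap L F a) = algebraMap L F (d a) := by
  let _ : Differential L := ⟨d⟩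
  let _ : Differential F := Differential.differentialFiniteDimensional L F
  have : DifferentialAlgebra L F := Differential.differentialAlgebraFiniteDimensional
  exact ⟨Differential.deriv, fun a => DifferentialAlgebra.deriv_algebraMap a⟩

theorem part_DEX : S_DEX.{u, v} := by
  intro K F _ _ _ _ _ δ
  have : CharZero (RatFunc K) :=
    charZero_of_injective_algebraMap (R := K) (algebraMap K (RatFunc K)).injective
  have key : ∀ d : Derivation ℤ (Polynomial K) (Polynomial K), ∃ D : Derivation ℤ F F,
      ∀ p : Polynomial K, D (algebraMap (RatFunc K) F (algebraMap (Polynomial K) (RatFunc K) p)) =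
        algebraMap (RatFunc K) F (algebraMap (Polynomial K) (RatFunc K) (d p)) := by
    intro d
    obtain ⟨D1, h1⟩ := dex_frac (L := RatFunc K) d
    obtain ⟨D2, h2⟩ := dex_fin (F := F) D1
    exact ⟨D2, fun p => (h2 _).trans (congrArg _ (h1 p))⟩
  obtain ⟨D, hD⟩ := key ((Polynomial.derivative' (R := K)).restrictScalars ℤ)
  have hT : ∃ d : Derivation ℤ (Polynomial K) (Polynomial K), d Polynomial.X = 0 ∧
      ∀ b : K, d (Polynomial.C b) = Polynomial.C (δ b) := by
    let _ : Differential K := ⟨δ⟩
    exact ⟨Differential.mapCoeffs, Differential.mapCoeffs_X, fun b => Differential.mapCoeffs_C b⟩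
  obtain ⟨d, hdX, hdC⟩ := hT
  obtain ⟨T, hT⟩ := key d
  refine ⟨D, T, ?_, fun b => ?_, ?_, fun b => ?_⟩
  · have := hD Polynomial.X
    rw [RatFunc.algebraMap_X] at this
    rw [xF, this]
    simp
  · have := hD (Polynomial.C b)
    rw [RatFunc.algebraMap_C] at this
    rw [cF, this]
    simp
  · have := hT Polynomial.X
    rw [RatFunc.algebraMap_X] at this
    rw [xF, this, hdX]
    simp
  · have := hT (Polynomial.C b)
    rw [RatFunc.algebraMap_C] at this
    rw [cF, this, hdC, cF, RatFunc.algebraMap_C]

end Pool.Agent.N780.SB
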