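import Mathlib
import Pool.Agent.N780.SB.Stm

set_option autoImplicit false

/-!
Part DISC: the discriminant times a derivation preserves `A`.
-/

namespace Pool.Agent.N780.SB

universe u v w

namespace DISC

open Module

variable {k : Type u} {F : Type v} [Field k] [Field F] [Algebra k F] (O : Subring k) {n : ℕ}
  (a : Fin n → F)

/-- membership in the `O`-module generated by the `a i` -/
def InO (f : F) : Prop :=
  ∃ r : Fin n → k, (∀ i, r i ∈ O) ∧ f = ∑ i, algebraMap k F (r i) * a i

variable {O a}

theorem InO.zero : InO O a 0 := ⟨0, fun _ => O.zero_mem, by simp⟩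

theorem InO.add {f g : F} (hf : InO O a f) (hg : InO O a g) : InO O a (f + g) := by
  obtain ⟨r, hr, rfl⟩ := hf
  obtain ⟨s, hs, rfl⟩ := hg
  refine ⟨fun i => r i + s i, fun i => O.add_mem (hr i) (hs i), ?_⟩
  rw [← Finset.sum_add_distrib]
  refine Finset.sum_congr rfl fun i _ => ?_
  rw [map_add, add_mul]

theorem InO.smul {c : k} (hc : c ∈ O) {f : F} (hf : InO O a f) :
    InO O a (algebraMap k F c * f) := by
  obtain ⟨r, hr, rfl⟩ := hf
  refine ⟨fun i => c * r i, fun i => O.mul_mem hc (hr i), ?_⟩
  rw [Finset.mul_sum]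
  refine Finset.sum_congr rfl fun i _ => ?_
  rw [map_mul, mul_assoc]

theorem InO.sum {ι : Type} (s : Finset ι) (f : ι → F) (hf : ∀ i ∈ s, InO O a (f i)) :
    InO O a (∑ i ∈ s, f i) := by
  classical
  induction s using Finset.induction_on with
  | empty =>
    rw [Finset.sum_empty]
    exact InO.zero
  | insert i s hi ih =>
    rw [Finset.sum_insert hi]
    exact (hf i (Finset.mem_insert_self _ _)).add
      (ih fun j hj => hf j (Finset.mem_insert_of_mem hj))

theorem InO.mul_a (hmul : ∀ i j, InO O a (a i * a j)) {f : F} (hf : InO O a f) (j : Fin n) :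
    InO O a (f * a j) := by
  obtain ⟨r, hr, rfl⟩ := hf
  rw [Finset.sum_mul]
  refine InO.sum _ _ fun i _ => ?_
  rw [mul_assoc]
  exact (hmul i j).smul (hr i)

theorem adj_mem (T : Matrix (Fin n) (Fin n) k) (hT : ∀ i j, T i j ∈ O) (i j : Fin n) :
    T.adjugate i j ∈ O := by
  let T' : Matrix (Fin n) (Fin n) O := fun i j => ⟨T i j, hT i j⟩
  have h1 : T = O.subtype.mapMatrix T' := rfl
  rw [h1, ← RingHom.map_adjugate]
  exact (T'.adjugate i j).2

theorem core (hfin : finrank k F = n) (hone : InO O a 1) (hmul : ∀ i j, InO O a (a i * a j))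
    (hd : Algebra.discr k a ≠ 0) (D : Derivation ℤ F F)
    (hD : ∀ r ∈ O, ∃ r' ∈ O, D (algebraMap k F r) = algebraMap k F r') (f : F)
    (hf : InO O a f) : InO O a (algebraMap k F (Algebra.discr k a) * D f) := by
  classical
  have hn : n ≠ 0 := by
    rintro rfl
    obtain ⟨r, _, h1⟩ := hone
    rw [Finset.univ_eq_empty, Finset.sum_empty] at h1
    exact one_ne_zero h1
  have hne : Nonempty (Fin n) := ⟨⟨0, Nat.pos_of_ne_zero hn⟩⟩
  have hFD : Module.Finite k F := Module.finite_of_finrank_pos (by omega)
  have hli : LinearIndependent k a := by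
    by_contra h
    exact hd (Algebra.discr_zero_of_not_linearIndependent k h)
  obtain ⟨b, hb⟩ : ∃ b : Basis (Fin n) k F, ⇑b = a :=
    ⟨basisOfLinearIndependentOfCardEqFinrank hli (by rw [Fintype.card_fin, hfin]),
      coe_basisOfLinearIndependentOfCardEqFinrank hli _⟩
  have hbi : ∀ i, b i = a i := fun i => congrFun hb i
  -- coordinates
  have hrepr : ∀ x, InO O a x → ∀ j, b.repr x j ∈ O := by
    rintro x ⟨r, hr, rfl⟩ j
    have h1 : ∑ i, algebraMap k F (r i) * a i = ∑ i, r i • b i := by
      refine Finset.sum_congr rfl fun i _ => ?_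
      rw [hbi, Algebra.smul_def]
    rw [h1, b.repr_sum_self]
    exact hr j
  obtain ⟨m, hm⟩ : ∃ m : F → Fin n → Fin n → k, m = fun x i j => b.repr (x * a i) j := ⟨_, rfl⟩
  have hmx : ∀ x i, x * a i = ∑ j, m x i j • a j := by
    intro x i
    conv_lhs => rw [← b.sum_repr (x * a i)]
    refine Finset.sum_congr rfl fun j _ => ?_
    rw [hbi, hm]
  have hmO : ∀ x, InO O a x → ∀ i j, m x i j ∈ O := by
    intro x hx i j
    rw [hm]
    exact hrepr _ (hx.mul_a hmul i) j
  have htr : ∀ x, Algebra.trace k F x = ∑ i, m x i i := by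
    intro x
    rw [Algebra.trace_eq_matrix_trace b, Matrix.trace]
    refine Finset.sum_congr rfl fun i _ => ?_
    rw [Matrix.diag_apply, Algebra.leftMulMatrix_eq_repr_mul, hbi, hm]
  -- the trace matrix
  obtain ⟨T, hT⟩ : ∃ T, T = Algebra.traceMatrix k a := ⟨_, rfl⟩
  have hTij : ∀ i j, T i j = Algebra.trace k F (a i * a j) := by
    intro i j
    rw [hT, Algebra.traceMatrix_apply, Algebra.traceForm_apply]
  have hTO : ∀ i j, T i j ∈ O := by
    intro i j
    rw [hTij, htr]
    exact O.sum_mem fun l _ => hmO _ (hmul i j) l l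
  obtain ⟨d, hdd⟩ : ∃ d, d = Algebra.discr k a := ⟨_, rfl⟩
  have hdT : d = T.det := by rw [hdd, Algebra.discr_def, hT]
  obtain ⟨v, hv⟩ : ∃ v : Fin n → F, v = fun i => ∑ l, T.adjugate i l • a l := ⟨_, rfl⟩
  have hvO : ∀ i, InO O a (v i) := by
    intro i
    refine ⟨fun l => T.adjugate i l, fun l => adj_mem T hTO i l, ?_⟩
    rw [hv]
    refine Finset.sum_congr rfl fun l _ => ?_
    rw [Algebra.smul_def]
  -- the pairing
  have hpair : ∀ i j, Algebra.trace k F (a j * v i) = if i = j then d else 0 := by
    intro i j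
    have h1 : a j * v i = ∑ l, T.adjugate i l • (a l * a j) := by
      rw [hv, Finset.mul_sum]
      refine Finset.sum_congr rfl fun l _ => ?_
      rw [mul_smul_comm, mul_comm (a j)]
    rw [h1, map_sum]
    have h2 : ∀ l, Algebra.trace k F (T.adjugate i l • (a l * a j)) =
        T.adjugate i l * T l j := by
      intro l
      rw [map_smul, smul_eq_mul, hTij]
    simp only [h2]
    have h3 := congrFun (congrFun (Matrix.adjugate_mul T) i) j
    rw [Matrix.mul_apply] at h3
    rw [h3, Matrix.smul_apply, Matrix.one_apply, hdT, smul_eq_mul]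
    by_cases hij : i = j
    · rw [if_pos hij, if_pos hij, mul_one]
    · rw [if_neg hij, if_neg hij, mul_zero]
  have hnd : ∀ x : F, (∀ l, Algebra.trace k F (a l * x) = 0) → x = 0 := by
    intro x hx
    have h1 : Matrix.vecMul (fun j => b.repr x j) T = 0 := by
      funext l
      have h2 := hx l
      have h3 : a l * x = ∑ j, b.repr x j • (a j * a l) := by
        conv_lhs => rw [← b.sum_repr x]
        rw [Finset.mul_sum]
        refine Finset.sum_congr rfl fun j _ => ?_
        rw [hbi, mul_smul_comm, mul_comm (a l)]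
      rw [h3, map_sum] at h2
      refine Eq.trans ?_ h2
      change ∑ j, b.repr x j * T j l = _
      refine Finset.sum_congr rfl fun j _ => ?_
      rw [map_smul, smul_eq_mul, hTij]
    have h4 := Matrix.eq_zero_of_vecMul_eq_zero (by rw [← hdT, hdd]; exact hd) h1
    rw [← b.sum_repr x]
    refine Finset.sum_eq_zero fun j _ => ?_
    have h5 : b.repr x j = 0 := congrFun h4 j
    rw [h5, zero_smul]
  have heq : ∀ x y : F, (∀ l, Algebra.trace k F (a l * x) = Algebra.trace k F (a l * y)) →
      x = y := by
    intro x y h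
    rw [← sub_eq_zero]
    refine hnd _ fun l => ?_
    rw [mul_sub, map_sub, h l, sub_self]
  -- (1)
  have e1 : ∑ i, a i * v i = algebraMap k F d := by
    refine heq _ _ fun l => ?_
    have h1 : a l * algebraMap k F d = d • a l := by rw [Algebra.smul_def, mul_comm]
    rw [h1, map_smul, htr (a l), Finset.mul_sum, map_sum, smul_eq_mul, Finset.mul_sum]
    refine Finset.sum_congr rfl fun i _ => ?_
    rw [← mul_assoc, hmx (a l) i, Finset.sum_mul, map_sum]
    have h2 : ∀ j, Algebra.trace k F (m (a l) i j • a j * v i) =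
        m (a l) i j * if i = j then d else 0 := by
      intro j
      rw [smul_mul_assoc, map_smul, smul_eq_mul, hpair]
    simp only [h2]
    rw [Finset.sum_eq_single i]
    · rw [if_pos rfl, mul_comm]
    · intro j _ hj
      rw [if_neg (fun h => hj h.symm), mul_zero]
    · intro h
      exact absurd (Finset.mem_univ _) h
  -- (2)
  have e2 : ∀ x j, x * v j = ∑ i, m x i j • v i := by
    intro x j
    refine heq _ _ fun l => ?_
    have h1 : a l * (x * v j) = ∑ i, m x l i • (a i * v j) := by
      rw [← mul_assoc, mul_comm (a l), hmx x l, Finset.sum_mul]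
      refine Finset.sum_congr rfl fun i _ => ?_
      rw [smul_mul_assoc]
    have h2 : ∀ i, Algebra.trace k F (m x l i • (a i * v j)) =
        m x l i * if j = i then d else 0 := by
      intro i
      rw [map_smul, smul_eq_mul, hpair]
    have h3 : ∀ i, Algebra.trace k F (a l * m x i j • v i) =
        m x i j * if i = l then d else 0 := by
      intro i
      rw [mul_smul_comm, map_smul, smul_eq_mul, hpair]
    rw [h1, map_sum, Finset.mul_sum, map_sum]
    simp only [h2, h3]
    rw [Finset.sum_eq_single j, Finset.sum_eq_single l]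
    · rw [if_pos rfl, if_pos rfl]
    · intro i _ hi
      rw [if_neg hi, mul_zero]
    · intro h
      exact absurd (Finset.mem_univ _) h
    · intro i _ hi
      rw [if_neg (fun h => hi h.symm), mul_zero]
    · intro h
      exact absurd (Finset.mem_univ _) h
  -- (3)
  have e3 : algebraMap k F d * D f =
      ∑ i, ∑ j, D (algebraMap k F (m f i j)) * (v i * a j) := by
    have h1 : ∑ i, v i * D (f * a i) = algebraMap k F d * D f + f * ∑ i, v i * D (a i) := by
      rw [← e1, Finset.sum_mul, Finset.mul_sum, ← Finset.sum_add_distrib]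
      refine Finset.sum_congr rfl fun i _ => ?_
      rw [Derivation.leibniz, smul_eq_mul, smul_eq_mul]
      ring
    have h2 : ∑ i, v i * D (f * a i) = ∑ i, ∑ j, D (algebraMap k F (m f i j)) * (v i * a j) +
        f * ∑ i, v i * D (a i) := by
      have h3 : f * ∑ i, v i * D (a i) =
          ∑ i, ∑ j, v i * (algebraMap k F (m f i j) * D (a j)) := by
        rw [Finset.sum_comm, Finset.mul_sum]
        refine Finset.sum_congr rfl fun j _ => ?_
        rw [← mul_assoc, e2, Finset.sum_mul]
        refine Finset.sum_congr rfl fun i _ => ?_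
        rw [Algebra.smul_def]
        ring
      rw [h3, ← Finset.sum_add_distrib]
      refine Finset.sum_congr rfl fun i _ => ?_
      rw [hmx f i, map_sum, Finset.mul_sum, ← Finset.sum_add_distrib]
      refine Finset.sum_congr rfl fun j _ => ?_
      rw [Algebra.smul_def, Derivation.leibniz, smul_eq_mul, smul_eq_mul]
      ring
    exact add_right_cancel (h1.symm.trans h2)
  rw [← hdd, e3]
  refine InO.sum _ _ fun i _ => InO.sum _ _ fun j _ => ?_
  obtain ⟨r', hr', h4⟩ := hD _ (hmO f hf i j)
  rw [h4]
  exact ((hvO i).mul_a hmul j).smul hr'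

end DISC

theorem part_DISC : S_DISC.{u, v} := by
  intro K F _ _ _ S n a hfin hone hmul hd D hD f hf
  exact DISC.core (O := OO S) (a := a) hfin hone hmul hd D hD f hf

end Pool.Agent.N780.SB
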