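import Pool.Agent.N780.SB.Stm

/-!
Part SB/DOO: derivations preserve the ring `O`.  By helper106.
-/

set_option autoImplicit false

namespace Pool.Agent.N780.SB

universe u v

theorem part_DOO : S_DOO.{u, v} := by
  intro K F _ _ _ S D hX hC r hr
  induction hr using Subring.closure_induction with
  | mem x hx =>
    rcases hx with (⟨a, rfl⟩ | rfl) | ⟨c, hc, rfl⟩
    · exact hC a
    · exact hX
    · obtain ⟨r1, hr1, e1⟩ := hX
      obtain ⟨r2, hr2, e2⟩ := hC c
      have hs : (RatFunc.X - RatFunc.C c)⁻¹ ∈ OO S :=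
        Subring.subset_closure (Or.inr ⟨c, hc, rfl⟩)
      refine ⟨-((RatFunc.X - RatFunc.C c)⁻¹ ^ 2) * (r1 - r2),
        mul_mem (neg_mem (pow_mem hs 2)) (sub_mem hr1 hr2), ?_⟩
      have e1' : D (algebraMap (RatFunc K) F RatFunc.X) = algebraMap (RatFunc K) F r1 := e1
      have e2' : D (algebraMap (RatFunc K) F (RatFunc.C c)) = algebraMap (RatFunc K) F r2 := e2
      rw [map_inv₀, Derivation.leibniz_inv, map_mul, map_neg, map_pow, map_inv₀, map_sub, map_sub,
        map_sub, e1', e2', smul_eq_mul]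
  | zero => exact ⟨0, zero_mem _, by simp⟩
  | one => exact ⟨0, zero_mem _, by simp⟩
  | add x y hx hy ihx ihy =>
    obtain ⟨r1, hr1, e1⟩ := ihx
    obtain ⟨r2, hr2, e2⟩ := ihy
    exact ⟨r1 + r2, add_mem hr1 hr2, by rw [map_add, map_add, e1, e2, map_add]⟩
  | neg x hx ihx =>
    obtain ⟨r1, hr1, e1⟩ := ihx
    exact ⟨-r1, neg_mem hr1, by rw [map_neg, map_neg, e1, map_neg]⟩
  | mul x y hx hy ihx ihy =>
    obtain ⟨r1, hr1, e1⟩ := ihx
    obtain ⟨r2, hr2, e2⟩ := ihy
    refine ⟨x * r2 + y * r1, add_mem (mul_mem hx hr2) (mul_mem hy hr1), ?_⟩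
    rw [map_mul, Derivation.leibniz, e1, e2, map_add, map_mul, map_mul, smul_eq_mul, smul_eq_mul]

end Pool.Agent.N780.SB
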