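import Mathlib
import Pool.Agent.N780.SB.Defs
import Pool.Agent.N780.SB.Stm

set_option autoImplicit false

/-!
# Holomorphic forms and the first cohomology of a curve, characteristic zero: definitions
-/

namespace Pool.Agent.N780.SB

universe u v

/-- `g` is a regular function on the affine curve `A[1/(x - t)]` -/
def InAt {K : Type u} {F : Type v} [Field K] [Field F] [Algebra (RatFunc K) F] (S : Finset K)
    (t : K) {n : ℕ} (a : Fin n → F) (g : F) : Prop :=
  ∃ N : ℕ, InA S a ((xF K F - cF F t) ^ N * g)

/-- `g dx` is a holomorphic differential form on the projective curve: it is holomorphic on the affine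
curve `A[1/(x - t)]` and at all points over `t`, `S` and infinity. (The points over `t` have ramification
index `1` and `2`.) -/
def IsHol {K : Type u} {F : Type v} [Field K] [Field F] [Algebra (RatFunc K) F] (S : Finset K)
    (t : K) {n : ℕ} (a : Fin n → F) (g : F) : Prop :=
  InAt S t a g ∧ HolFin 2 t g ∧ ∀ E : ℕ, 0 < E → (∀ c ∈ S, HolFin E c g) ∧ HolInf K E g

/-- `g dx` is exact on the affine curve `A[1/(x - t)]`: it is `dh` for a function `h` on this curve
(`D = d/dx`). -/
def IsExact {K : Type u} {F : Type v} [Field K] [Field F] [Algebra (RatFunc K) F] (S : Finset K)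
    (t : K) {n : ℕ} (a : Fin n → F) (D : Derivation ℤ F F) (g : F) : Prop :=
  ∃ h : F, InAt S t a h ∧ g = D h

/-- `V` is (the preimage of) a subspace of `H¹_dR(A[1/(x - t)])`: a `K`-subspace of the space of
the forms `g dx` on `A[1/(x - t)]` which contains the exact ones; and it is stable under the
Gauss-Manin connection `T`. -/
structure IsStable {K : Type u} {F : Type v} [Field K] [Field F] [Algebra (RatFunc K) F]
    (S : Finset K) (t : K) {n : ℕ} (a : Fin n → F) (D T : Derivation ℤ F F)
    (V : AddSubgroup F) : Prop where
  sub : ∀ g ∈ V, InAt S t a g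
  smul : ∀ (b : K), ∀ g ∈ V, cF F b * g ∈ V
  exact : ∀ g, IsExact S t a D g → g ∈ V
  flat : ∀ g ∈ V, T g ∈ V

end Pool.Agent.N780.SB
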