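import Mathlib
import Pool.Agent.N780.SB.Defs7

set_option autoImplicit false

/-!
# Torsion relations between points of the curve: definitions
-/

namespace Pool.Agent.N780.SB

universe u v

/-- The divisor `∑ a_i (P_i - Q₀)` of degree zero. -/
noncomputable def rel {K : Type u} {F : Type v} [Field K] [Field F] [Algebra (RatFunc K) F] {m : ℕ}
    (Q₀ : Point K F) (P : Fin m → Point K F) (a : Fin m → ℤ) : Point K F →₀ ℤ :=
  ∑ i, a i • (Finsupp.single (P i) 1 - Finsupp.single Q₀ 1)

/-- A positive multiple of the divisor `d` is the divisor of a function: the class of `d` in the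
Jacobian is torsion. -/
def IsTorsion {K : Type u} {F : Type v} [Field K] [Field F] [Algebra (RatFunc K) F]
    (d : Point K F →₀ ℤ) : Prop :=
  ∃ N : ℕ, 0 < N ∧ ∃ h : F, h ≠ 0 ∧ ∀ v : Point K F, v.1 h = N * d v

/-- The subvariety of `C^m` given by the equations `P_i = P_j` for `(i, j) ∈ E`, and `P_i = Q_i` for
`i ∈ I`. -/
def diagonal {α : Type u} {m : ℕ} (E : Set (Fin m × Fin m)) (I : Set (Fin m)) (Q : Fin m → α) :
    Set (Fin m → α) :=
  {P | (∀ e ∈ E, P e.1 = P e.2) ∧ ∀ i ∈ I, P i = Q i}

end Pool.Agent.N780.SB
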