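import Mathlib
import Pool.Agent.N780.SB.Defs

set_option autoImplicit false

/-!
# Cyclic coverings pulled back from the line: definitions

`h = ∏ (x - c) ^ e_c`, `c ∈ S₁`, and `y ^ m = h`.
-/

namespace Pool.Agent.N780.SB

universe u v

/-- All expansions of `f` at the points with `x = t` are series in `x - t` -/
def UnrT {K : Type u} {F : Type v} [Field K] [Field F] [Algebra (RatFunc K) F] (t : K)
    (f : F) : Prop :=
  ∀ σ : F →+* LaurentSeries K, IsExp (atFin 2 t) σ → ∀ m : ℤ, Odd m → (σ f).coeff m = 0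

/-- The function `h = ∏ (x - c) ^ e_c`, `c ∈ S₁`, in `F`. -/
noncomputable def hT {K : Type u} [Field K] (F : Type v) [Field F] [Algebra (RatFunc K) F]
    (S₁ : Finset K) (e : K → ℕ) : F :=
  ∏ c ∈ S₁, (xF K F - cF F c) ^ e c

/-- The function `g = D f + f * ∑ (e_c / m) / (x - c)` with `d (f y) = g y dx` (`D = d/dx`). -/
noncomputable def twM {K : Type u} [Field K] {F : Type v} [Field F] [Algebra (RatFunc K) F]
    (D : Derivation ℤ F F) (S₁ : Finset K) (m : ℕ) (e : K → ℕ) (f : F) : F :=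
  D f + (∑ c ∈ S₁, cF F (e c / m : K) * (xF K F - cF F c)⁻¹) * f

/-- `g y dx` is regular at the points with `x = c + u ^ E`, `c ∈ S`, and `x = u ^ (-E)`. The expansions of `g y`
are the products of an expansion of `g` and an `m`-th root `s` of the same expansion of `h`. -/
def HolM {K : Type u} {F : Type v} [Field K] [Field F] [Algebra (RatFunc K) F] (S S₁ : Finset K)
    (m : ℕ) (e : K → ℕ) (E : ℕ) (g : F) : Prop :=
  (∀ c ∈ S, ∀ σ : F →+* LaurentSeries K, IsExp (atFin E c) σ → ∀ s, s ^ m = σ (hT F S₁ e) →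
    ∀ k : ℤ, k < 1 - E → (σ g * s).coeff k = 0) ∧
  (∀ σ : F →+* LaurentSeries K, IsExp (atInf K E) σ → ∀ s, s ^ m = σ (hT F S₁ e) →
    ∀ k : ℤ, k < E + 1 → (σ g * s).coeff k = 0)

/-- Let `d (f y) = g y dx`, `f ∈ A`, have the property `H` (to be holomorphic). Then `g` is a function on `C₀`, and
if the covering `C → ℙ¹` has no intermediate coverings, then `d (f y) = d (r y)` with `r ∈ O`, a form on the curve
`y ^ m = h(x)`, and it is zero if `∑ (m - e_c) ≤ m`. -/
def GoodM {K : Type u} {F : Type v} [Field K] [Field F] [Algebra (RatFunc K) F] {n : ℕ}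
    (D : Derivation ℤ F F) (S : Finset K) (t : K) (a : Fin n → F) (S₁ : Finset K)
    (m : ℕ) (e : K → ℕ) (H : F → Prop) : Prop :=
  ∀ f, InA S a f → H (twM D S₁ m e f) →
    UnrT t (twM D S₁ m e f) ∧
    ((∀ L : IntermediateField (RatFunc K) F, L = ⊥ ∨ L = ⊤) →
      (∃ r ∈ OO S, twM D S₁ m e f = twM D S₁ m e (algebraMap (RatFunc K) F r)) ∧
      (∑ c ∈ S₁, (m - e c) ≤ m → twM D S₁ m e f = 0))

end Pool.Agent.N780.SB
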