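import Pool.Agent.N780.SB.Stm4
import Pool.Agent.Helper165.P1.NP

/-!
# Part PU1Z: the theorem of Puiseux in characteristic zero

The theorem is `NP_splits_monic` of `Pool.Agent.Helper165.P1.NP`.
-/

set_option autoImplicit false

namespace Pool.Agent.N780.SB

open Polynomial Pool.Agent.Helper165.P1.NP

universe u

/-- Part PU1Z -/
theorem part_PU1Z (_ : S_PW.{u}) : S_PU1Z.{u} := by
  intro K _ _ _ f hf
  obtain ⟨m, hm, hs⟩ := NP_splits_monic (E := K) f.natDegree f hf rfl
  refine ⟨m, hm, ?_⟩
  intro ρ hρ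
  have h : ρ = expandHom m hm := by
    apply RingHom.ext
    intro y
    apply HahnSeries.ext
    funext j
    obtain ⟨h1, h2⟩ := hρ y
    by_cases hj : (m : ℤ) ∣ j
    · obtain ⟨k, rfl⟩ := hj
      rw [h1 k]
      exact (expandHom_coeff m hm y k).symm
    · rw [h2 j hj]
      exact (expandHom_coeff_of_not_dvd m hm y j hj).symm
  rw [h]
  exact hs

end Pool.Agent.N780.SB

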