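import Mathlib
import Pool.Agent.N780.SB.Stm

set_option autoImplicit false

/-!
# SB/SEP (subtask 9504): extensions of degree less than `p` are separable
-/

namespace Pool.Agent.N780.SB

universe u v

theorem part_SEP : S_SEP.{u, v} := by
  intro K F _ _ _ p n hp hchar hn hnp hfin
  have hcR : CharP (RatFunc K) p :=
    charP_of_injective_algebraMap (algebraMap K (RatFunc K)).injective p
  have hfd : FiniteDimensional (RatFunc K) F :=
    Module.finite_of_finrank_pos (by omega)
  refine ⟨fun x => ?_⟩
  have hint : IsIntegral (RatFunc K) x := Algebra.IsIntegral.isIntegral x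
  have hirr := minpoly.irreducible hint
  have hd1 : (minpoly (RatFunc K) x).natDegree ≤ n := by
    rw [← hfin]
    exact minpoly.natDegree_le x
  have hd0 : 0 < (minpoly (RatFunc K) x).natDegree := minpoly.natDegree_pos hint
  show (minpoly (RatFunc K) x).Separable
  rw [Polynomial.separable_iff_derivative_ne_zero hirr]
  intro h0
  have h1 := congrArg (fun q : Polynomial (RatFunc K) =>
    q.coeff ((minpoly (RatFunc K) x).natDegree - 1)) h0
  simp only [Polynomial.coeff_derivative, Polynomial.coeff_zero] at h1
  have h2 : (minpoly (RatFunc K) x).natDegree - 1 + 1 = (minpoly (RatFunc K) x).natDegree := by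
    omega
  have h3 : (((minpoly (RatFunc K) x).natDegree - 1 : ℕ) : RatFunc K) + 1 =
      (((minpoly (RatFunc K) x).natDegree : ℕ) : RatFunc K) := by
    rw [← Nat.cast_succ, Nat.succ_eq_add_one, h2]
  rw [h2, h3, Polynomial.coeff_natDegree, (minpoly.monic hint).leadingCoeff, one_mul,
    CharP.cast_eq_zero_iff (RatFunc K) p] at h1
  have := Nat.le_of_dvd hd0 h1
  omega

end Pool.Agent.N780.SB
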