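import Mathlib
import Pool.Agent.N780.SB.Stm2
import Pool.Agent.N780.SB.RF
import Pool.Agent.N780.SB.SEP

set_option autoImplicit false

/-!
# Part PU2: the Puiseux expansions of a function field (helper340)
-/

namespace Pool.Agent.N780.SB

universe u v w

namespace PU2

open Polynomial

/-! ### substitutions -/

theorem pw_single {K : Type u} [Field K] {N : ℕ} (hN : 0 < N)
    {ρ : LaurentSeries K →+* LaurentSeries K} (hρ : IsPw N ρ) (j : ℤ) (b : K) :
    ρ (HahnSeries.single j b) = HahnSeries.single ((N : ℤ) * j) b := by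
  have hN' : (N : ℤ) ≠ 0 := by exact_mod_cast hN.ne'
  ext m
  by_cases h : (N : ℤ) ∣ m
  · obtain ⟨i, rfl⟩ := h
    rw [(hρ _).1 i]
    by_cases hij : i = j
    · subst hij
      rw [HahnSeries.coeff_single_same, HahnSeries.coeff_single_same]
    · rw [HahnSeries.coeff_single_of_ne hij, HahnSeries.coeff_single_of_ne]
      exact fun h2 => hij (mul_left_cancel₀ hN' h2)
  · rw [(hρ _).2 m h, HahnSeries.coeff_single_of_ne]
    rintro rfl
    exact h (dvd_mul_right _ _)

theorem pw_C {K : Type u} [Field K] {N : ℕ} (hN : 0 < N)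
    {ρ : LaurentSeries K →+* LaurentSeries K} (hρ : IsPw N ρ) (b : K) :
    ρ (HahnSeries.C b) = HahnSeries.C b := by
  rw [HahnSeries.C_apply, pw_single hN hρ, mul_zero]

theorem pw_comp {K : Type u} [Field K] {N N' : ℕ} (hN' : 0 < N')
    {ρ ρ' : LaurentSeries K →+* LaurentSeries K} (hρ : IsPw N ρ) (hρ' : IsPw N' ρ') :
    IsPw (N * N') (ρ'.comp ρ) := by
  have hN0 : (N' : ℤ) ≠ 0 := by exact_mod_cast hN'.ne'
  intro y
  constructor
  · intro m
    rw [RingHom.comp_apply, Nat.cast_mul, mul_comm (N : ℤ) N', mul_assoc, (hρ' _).1, (hρ _).1]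
  · intro m hm
    rw [RingHom.comp_apply]
    by_cases h : (N' : ℤ) ∣ m
    · obtain ⟨j, rfl⟩ := h
      rw [(hρ' _).1]
      refine (hρ _).2 j fun h2 => hm ?_
      rw [Nat.cast_mul, mul_comm (N : ℤ) N']
      exact mul_dvd_mul_left _ h2
    · exact (hρ' _).2 m h

theorem pw_fin {K : Type u} [Field K] {N : ℕ} (hN : 0 < N)
    {ρ : LaurentSeries K →+* LaurentSeries K} (hρ : IsPw N ρ) (c : K) :
    ρ (atFin 1 c) = atFin N c := by
  unfold atFin
  rw [map_add, pw_C hN hρ, pw_single hN hρ]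
  norm_num

theorem pw_inf {K : Type u} [Field K] {N : ℕ} (hN : 0 < N)
    {ρ : LaurentSeries K →+* LaurentSeries K} (hρ : IsPw N ρ) :
    ρ (atInf K 1) = atInf K N := by
  unfold atInf
  rw [pw_single hN hρ]
  norm_num

/-! ### expansions of the rational functions -/

theorem exists_lift {K : Type u} [Field K] (ξ : LaurentSeries K)
    (h : ∀ P : K[X], P.eval₂ (HahnSeries.C : K →+* LaurentSeries K) ξ = 0 → P = 0) :
    ∃ φ : RatFunc K →+* LaurentSeries K,
      φ RatFunc.X = ξ ∧ ∀ a : K, φ (RatFunc.C a) = HahnSeries.C a := by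
  have h1 : (nonZeroDivisors K[X]) ≤ (nonZeroDivisors (LaurentSeries K)).comap
      (eval₂RingHom (HahnSeries.C : K →+* LaurentSeries K) ξ) := by
    intro P hP
    rw [Submonoid.mem_comap, mem_nonZeroDivisors_iff_ne_zero]
    exact fun h2 => nonZeroDivisors.ne_zero hP (h P h2)
  refine ⟨RatFunc.liftRingHom (eval₂RingHom (HahnSeries.C : K →+* LaurentSeries K) ξ) h1, ?_, ?_⟩
  · rw [← RatFunc.algebraMap_X, RatFunc.liftRingHom_algebraMap, coe_eval₂RingHom, eval₂_X]
  · intro a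
    rw [← RatFunc.algebraMap_C, RatFunc.liftRingHom_algebraMap, coe_eval₂RingHom, eval₂_C]

theorem lift_fin {K : Type u} [Field K] (c : K) :
    ∃ φ : RatFunc K →+* LaurentSeries K,
      φ RatFunc.X = atFin 1 c ∧ ∀ a : K, φ (RatFunc.C a) = HahnSeries.C a := by
  refine exists_lift _ fun P hP => ?_
  have h1 : P.eval₂ (HahnSeries.C : K →+* LaurentSeries K) (atFin 1 c) =
      (taylor c P).eval₂ (HahnSeries.C : K →+* LaurentSeries K)
        (HahnSeries.single ((1 : ℕ) : ℤ) 1) := by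
    rw [taylor_apply, eval₂_comp, eval₂_add, eval₂_X, eval₂_C, atFin, add_comm]
  have h2 : taylor c P = 0 := by
    ext k
    have h3 := RF.ev_coeff (K := K) (e := ((1 : ℕ) : ℤ)) (by norm_num) (taylor c P) k
    rw [← h1, hP, HahnSeries.coeff_zero] at h3
    rw [← h3, coeff_zero]
  exact (map_eq_zero_iff _ (taylor_injective c)).1 h2

theorem lift_inf (K : Type u) [Field K] :
    ∃ φ : RatFunc K →+* LaurentSeries K,
      φ RatFunc.X = atInf K 1 ∧ ∀ a : K, φ (RatFunc.C a) = HahnSeries.C a := by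
  refine exists_lift _ fun P hP => ?_
  ext k
  have h3 := RF.ev_coeff (K := K) (e := -((1 : ℕ) : ℤ)) (by norm_num) P k
  unfold atInf at hP
  rw [hP, HahnSeries.coeff_zero] at h3
  rw [← h3, coeff_zero]

/-! ### extension of homomorphisms -/

theorem exists_homs {k : Type u} {F : Type v} {L : Type w} [Field k] [Field F] [Field L]
    [Algebra k F] (pb : PowerBasis k F) (n : ℕ) (hn : pb.dim = n)
    (hsep : IsSeparable k pb.gen) (ψ : k →+* L) (hs : ((minpoly k pb.gen).map ψ).Splits) :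
    ∃ σ : Fin n → (F →+* L), Function.Injective σ ∧
      ∀ i, ∀ r : k, σ i (algebraMap k F r) = ψ r := by
  let : Algebra k L := ψ.toAlgebra
  let : Fintype (F →ₐ[k] L) := PowerBasis.AlgHom.fintype pb
  have h1 : Fintype.card (F →ₐ[k] L) = n := by
    rw [← hn]
    exact AlgHom.card_of_powerBasis pb hsep hs
  have e : Fin n ≃ (F →ₐ[k] L) := (Fintype.equivFinOfCardEq h1).symm
  refine ⟨fun i => ((e i : F →ₐ[k] L) : F →+* L), ?_, ?_⟩
  · intro i j hij
    exact e.injective (AlgHom.coe_ringHom_injective hij)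
  · intro i r
    exact (e i).commutes r

theorem point {K : Type u} {F : Type v} [Field K] [Field F] [Algebra (RatFunc K) F]
    (hPW : S_PW.{u}) (pb : PowerBasis (RatFunc K) F) {n : ℕ} (hn : pb.dim = n)
    (hsep : IsSeparable (RatFunc K) pb.gen) {φ : RatFunc K →+* LaurentSeries K}
    (hC : ∀ a : K, φ (RatFunc.C a) = HahnSeries.C a) {N : ℕ} (hN0 : 0 < N)
    (hN : ∀ ρ : LaurentSeries K →+* LaurentSeries K, IsPw N ρ →
      (((minpoly (RatFunc K) pb.gen).map φ).map ρ).Splits)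
    {E : ℕ} (hE : 0 < E) (hNE : N ∣ E) {ξ : LaurentSeries K}
    (hξ : ∀ ρ : LaurentSeries K →+* LaurentSeries K, IsPw E ρ → ρ (φ RatFunc.X) = ξ) :
    Splits F n ξ := by
  obtain ⟨N', rfl⟩ := hNE
  have hN' : 0 < N' := Nat.pos_of_mul_pos_left hE
  obtain ⟨ρ, hρ⟩ := hPW K N hN0
  obtain ⟨ρ', hρ'⟩ := hPW K N' hN'
  have hcomp := pw_comp hN' hρ hρ'
  have hs : ((minpoly (RatFunc K) pb.gen).map ((ρ'.comp ρ).comp φ)).Splits := by
    rw [← Polynomial.map_map, ← Polynomial.map_map]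
    exact (hN ρ hρ).map ρ'
  obtain ⟨σ, hσ, hσ2⟩ := exists_homs pb n hn hsep ((ρ'.comp ρ).comp φ) hs
  refine ⟨σ, hσ, fun i => ⟨?_, fun a => ?_⟩⟩
  · unfold xF
    rw [hσ2]
    exact hξ _ hcomp
  · unfold cF
    rw [hσ2, RingHom.comp_apply, hC, pw_C hE hcomp]

end PU2

open PU2 in
theorem part_PU2 (hPW : S_PW.{u}) (hPU1 : S_PU1.{u}) : S_PUI.{u, v} := by
  classical
  intro K F _ _ _ _ p n hp hchar hn hnp hfin S
  have hsep : Algebra.IsSeparable (RatFunc K) F := part_SEP K F p n hp hchar hn hnp hfin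
  have hfd : FiniteDimensional (RatFunc K) F := Module.finite_of_finrank_pos (by omega)
  let pb : PowerBasis (RatFunc K) F := Field.powerBasisOfFiniteOfSeparable (RatFunc K) F
  have hdim : pb.dim = n := by rw [← hfin, pb.finrank]
  have hsg : IsSeparable (RatFunc K) pb.gen := Algebra.IsSeparable.isSeparable _ _
  have hmon : (minpoly (RatFunc K) pb.gen).Monic := minpoly.monic (Algebra.IsIntegral.isIntegral _)
  have hdeg : (minpoly (RatFunc K) pb.gen).natDegree = n := by rw [pb.natDegree_minpoly, hdim]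
  have hex : ∀ φ : RatFunc K →+* LaurentSeries K, ∃ N : ℕ, 0 < N ∧ ¬ p ∣ N ∧
      ∀ ρ : LaurentSeries K →+* LaurentSeries K, IsPw N ρ →
        (((minpoly (RatFunc K) pb.gen).map φ).map ρ).Splits := by
    intro φ
    refine hPU1 K p hp hchar _ (hmon.map φ) ?_
    rw [hmon.natDegree_map φ, hdeg]
    exact hnp
  choose φ hφ1 hφ2 using fun c : K => lift_fin c
  obtain ⟨χ, hχ1, hχ2⟩ := lift_inf K
  choose N hN0 hNp hN using fun c : K => hex (φ c)
  obtain ⟨M, hM0, hMp, hM⟩ := hex χ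
  have hP0 : 0 < ∏ c ∈ S, N c := Finset.prod_pos fun c _ => hN0 c
  have hE0 : 0 < (∏ c ∈ S, N c) * M := Nat.mul_pos hP0 hM0
  refine ⟨(∏ c ∈ S, N c) * M, hE0, ?_, ?_, ?_⟩
  · intro h
    rcases hp.dvd_mul.1 h with h1 | h1
    · obtain ⟨c, _, hc⟩ := (Prime.dvd_finsetProd_iff hp.prime N).1 h1
      exact hNp c hc
    · exact hMp h1
  · intro c hc
    refine point hPW pb hdim hsg (hφ2 c) (hN0 c) (hN c) hE0
      ((Finset.dvd_prod_of_mem N hc).trans (dvd_mul_right _ _)) fun ρ hρ => ?_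
    rw [hφ1]
    exact pw_fin hE0 hρ c
  · refine point hPW pb hdim hsg hχ2 hM0 hM hE0 (dvd_mul_left _ _) fun ρ hρ => ?_
    rw [hχ1]
    exact pw_inf hE0 hρ

end Pool.Agent.N780.SB
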