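import Mathlib
import Pool.Agent.N780.SB.PU2
import Pool.Agent.N780.SB.Stm4

set_option autoImplicit false

/-!
# Part PU2Z: the Puiseux expansions of a function field in characteristic zero (helper713)
-/

namespace Pool.Agent.N780.SB

universe u v w

open PU2 in
theorem part_PU2Z (hPW : S_PW.{u}) (hPU1 : S_PU1Z.{u}) : S_PUIZ.{u, v} := by
  classical
  intro K F _ _ _ _ _ n hn hfin S
  have hcz : CharZero (RatFunc K) :=
    charZero_of_injective_algebraMap (R := K) (algebraMap K (RatFunc K)).injective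
  have hfd : FiniteDimensional (RatFunc K) F := Module.finite_of_finrank_pos (by omega)
  have hsep : Algebra.IsSeparable (RatFunc K) F := inferInstance
  let pb : PowerBasis (RatFunc K) F := Field.powerBasisOfFiniteOfSeparable (RatFunc K) F
  have hdim : pb.dim = n := by rw [← hfin, pb.finrank]
  have hsg : IsSeparable (RatFunc K) pb.gen := Algebra.IsSeparable.isSeparable _ _
  have hmon : (minpoly (RatFunc K) pb.gen).Monic := minpoly.monic (Algebra.IsIntegral.isIntegral _)
  have hex : ∀ φ : RatFunc K →+* LaurentSeries K, ∃ N : ℕ, 0 < N ∧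
      ∀ ρ : LaurentSeries K →+* LaurentSeries K, IsPw N ρ →
        (((minpoly (RatFunc K) pb.gen).map φ).map ρ).Splits := by
    intro φ
    exact hPU1 K _ (hmon.map φ)
  choose φ hφ1 hφ2 using fun c : K => lift_fin c
  obtain ⟨χ, hχ1, hχ2⟩ := lift_inf K
  choose N hN0 hN using fun c : K => hex (φ c)
  obtain ⟨M, hM0, hM⟩ := hex χ
  have hP0 : 0 < ∏ c ∈ S, N c := Finset.prod_pos fun c _ => hN0 c
  have hE0 : 0 < (∏ c ∈ S, N c) * M := Nat.mul_pos hP0 hM0
  refine ⟨(∏ c ∈ S, N c) * M, hE0, ?_, ?_⟩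
  · intro c hc
    refine point hPW pb hdim hsg (hφ2 c) (hN0 c) (hN c) hE0
      ((Finset.dvd_prod_of_mem N hc).trans (dvd_mul_right _ _)) fun ρ hρ => ?_
    rw [hφ1]
    exact pw_fin hE0 hρ c
  · refine point hPW pb hdim hsg hχ2 hM0 hM hE0 (dvd_mul_left _ _) fun ρ hρ => ?_
    rw [hχ1]
    exact pw_inf hE0 hρ

end Pool.Agent.N780.SB
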