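import Mathlib
import Pool.Agent.N780.SB.Stm2

set_option autoImplicit false

/-!
The substitution `u ↦ u ^ N`.
-/

namespace Pool.Agent.N780.SB

universe u v w

theorem part_PW : S_PW.{u} := by
  intro K _ N hN
  have hN' : (0 : ℤ) < N := by exact_mod_cast hN
  have hinj : Function.Injective (AddMonoidHom.mulLeft (N : ℤ)) := by
    intro a b h
    exact mul_left_cancel₀ hN'.ne' h
  refine ⟨HahnSeries.embDomainRingHom (AddMonoidHom.mulLeft (N : ℤ)) hinj (fun g g' => ?_),
    fun y => ⟨fun m => ?_, fun m hm => ?_⟩⟩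
  · exact mul_le_mul_iff_right₀ hN'
  · exact HahnSeries.embDomain_coeff (f := ⟨⟨_, hinj⟩, mul_le_mul_iff_right₀ hN'⟩)
  · refine HahnSeries.embDomain_of_notMem_range ?_
    rintro ⟨k, hk⟩
    exact hm ⟨k, hk.symm⟩

end Pool.Agent.N780.SB
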