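import Mathlib
import Pool.Agent.N780.SB.Defs0

set_option autoImplicit false

/-!
Endomorphisms of the first cohomology.
-/

namespace Pool.Agent.N780.SB

universe u v

/-- `α` induces a `K`-linear endomorphism of the subspace `V` of the first cohomology
`H¹_dR(A[1/(x - t)])` (`V` is given by its preimage in the space of forms), which commutes with the
Gauss-Manin connection `T` and maps the holomorphic forms in `V` to holomorphic forms. -/
structure IsEndo {K : Type u} {F : Type v} [Field K] [Field F] [Algebra (RatFunc K) F]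
    (S : Finset K) (t : K) {n : ℕ} (a : Fin n → F) (D T : Derivation ℤ F F)
    (V : AddSubgroup F) (α : F →+ F) : Prop where
  maps : ∀ g ∈ V, α g ∈ V
  exact : ∀ g, IsExact S t a D g → IsExact S t a D (α g)
  smul : ∀ (b : K), ∀ g ∈ V, IsExact S t a D (α (cF F b * g) - cF F b * α g)
  flat : ∀ g ∈ V, IsExact S t a D (T (α g) - α (T g))
  hodge : ∀ g ∈ V, IsHol S t a g → ∃ g', IsHol S t a g' ∧ IsExact S t a D (α g - g')

/-- Part END: semisimple endomorphisms act on the holomorphic forms as scalars. -/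
def S_END : Prop := ∀ (K : Type u) (F : Type v) [Field K] [IsAlgClosed K] [CharZero K] [Field F]
    [Algebra (RatFunc K) F] (n : ℕ) (_ : 0 < n) (δ : Derivation ℤ K K) (t : K) (_ : δ t = 1)
    (S : Finset K) (_ : ∀ c ∈ S, δ c = 0) (a : Fin n → F) (_ : IsAffineCurve S t a)
    (D T : Derivation ℤ F F) (_ : D (xF K F) = 1) (_ : ∀ b : K, D (cF F b) = 0)
    (_ : T (xF K F) = 0) (_ : ∀ b : K, T (cF F b) = cF F (δ b))
    (V : AddSubgroup F) (_ : IsStable S t a D T V)
    (_ : ∀ g ∈ V, IsHol S t a g → Unr t g → g = 0)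
    (α : F →+ F) (_ : IsEndo S t a D T V α)
    (q : Polynomial K) (_ : q.Separable) (_ : ∀ k, δ (q.coeff k) = 0)
    (_ : ∀ g ∈ V, IsExact S t a D (∑ k ∈ Finset.range (q.natDegree + 1),
      cF F (q.coeff k) * α^[k] g)),
    ∃ μ : K, δ μ = 0 ∧ ∀ g ∈ V, IsHol S t a g → IsExact S t a D (α g - cF F μ * g)

end Pool.Agent.N780.SB
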