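import Pool.Agent.N780.SB.TT
import Pool.Agent.N780.SB.Stm4

set_option autoImplicit false

/-!
# SB/TTZ (helper106): a simple zero of the discriminant is a simple branch point, characteristic zero.
The proof is that of helper624 for the characteristic `p > n`, its lemmas are in `SB/TT.lean`.
-/

namespace Pool.Agent.N780.SB

universe u v w

open HahnSeries

open TTaux in
theorem part_TTZ (hPW : S_PW.{u}) (hPUI : S_PUIZ.{u, v}) (hTR : S_TR.{u, v}) :
    S_TTZ.{u, v} := by
  classical
  intro K F _ _ _ _ _ n hn S t ht a ha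
  have hcz : CharZero (RatFunc K) :=
    charZero_of_injective_algebraMap (algebraMap K (RatFunc K)).injective
  have hfd : FiniteDimensional (RatFunc K) F :=
    Module.finite_of_finrank_pos (by rw [ha.rank]; exact hn)
  have : Algebra.IsSeparable (RatFunc K) F := Algebra.IsAlgebraic.isSeparable_of_perfectField
  -- exponents
  obtain ⟨N, hN, hsp, -⟩ := hPUI K F n hn ha.rank {t}
  obtain ⟨σ0, hσ0, hexp0⟩ := hsp t (Finset.mem_singleton_self t)
  obtain ⟨ρ2, hρ2⟩ := hPW K 2 two_pos
  obtain ⟨E, hE⟩ : ∃ E, E = 2 * N := ⟨_, rfl⟩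
  have hE0 : 0 < E := by omega
  obtain ⟨σ, hσdef⟩ : ∃ σ : Fin n → (F →+* LaurentSeries K), σ = fun i => ρ2.comp (σ0 i) :=
    ⟨_, rfl⟩
  have hσ : Function.Injective σ := by
    intro i j hij
    apply hσ0
    ext1 f
    apply ρ2.injective
    have := congrArg (fun s => s f) hij
    rw [hσdef] at this
    exact this
  have hexp : ∀ i, IsExp (atFin E t) (σ i) := by
    intro i
    rw [hσdef, hE]
    refine ⟨?_, fun c => ?_⟩
    · rw [RingHom.comp_apply, (hexp0 i).1, pw_atFin two_pos hρ2]
    · rw [RingHom.comp_apply, (hexp0 i).2, pw_C two_pos hρ2]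
  obtain ⟨hall, -, hdisc⟩ := hTR K F n hn ha.rank (atFin E t) σ hσ hexp
  -- the root of unity
  have hEK : NeZero (E : K) := ⟨Nat.cast_ne_zero.2 hE0.ne'⟩
  obtain ⟨ζ, hζ⟩ := HasEnoughRootsOfUnity.exists_primitiveRoot K E
  have hζ0 : ζ ≠ 0 := hζ.ne_zero hE0.ne'
  -- the permutation
  have hτ : ∀ j, ∃ i, (tau ζ hζ0).comp (σ j) = σ i := by
    intro j
    refine hall _ ⟨?_, fun c => ?_⟩
    · rw [RingHom.comp_apply, (hexp j).1, tau_atFin ζ hζ0 E hζ.pow_eq_one]
    · rw [RingHom.comp_apply, (hexp j).2, tau_C]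
  choose π hπ using hτ
  have hπa : ∀ j f m, (σ (π j) f).coeff m = ζ ^ m * (σ j f).coeff m := by
    intro j f m
    rw [← hπ j]
    rfl
  have hπl : ∀ (l : ℕ) j f m, (σ (π^[l] j) f).coeff m = ζ ^ ((l : ℤ) * m) * (σ j f).coeff m := by
    intro l
    induction l with
    | zero => intro j f m; simp
    | succ l ih =>
      intro j f m
      rw [Function.iterate_succ_apply', hπa, ih, ← mul_assoc, ← zpow_add₀ hζ0]
      congr 2
      push_cast
      ring
  have hper : ∀ j, Function.IsPeriodicPt π E j := by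
    intro j
    apply hσ
    ext1 f
    ext m
    rw [hπl, zpow_mul, zpow_natCast, hζ.pow_eq_one, one_zpow, one_mul]
  -- regularity
  have hreg : ∀ j f, InA S a f → σ j f ∈ PAIR.Rg K := fun j f hf =>
    int_E F S t ht hE0 n a ha (σ j) (hexp j) f hf
  have hak : ∀ k, InA S a (a k) := by
    intro k
    refine ⟨fun i => if i = k then 1 else 0, fun i => ?_, ?_⟩
    · beta_reduce
      split_ifs
      · exact (OO S).one_mem
      · exact (OO S).zero_mem
    · rw [Finset.sum_eq_single k]
      · simp
      · intro i _ hi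
        simp [hi]
      · intro h
        exact absurd (Finset.mem_univ k) h
  have hOO : ∀ r ∈ OO S, InA S a (algebraMap (RatFunc K) F r) := by
    intro r hr
    obtain ⟨q, hq, h1⟩ := ha.one
    refine ⟨fun i => r * q i, fun i => (OO S).mul_mem hr (hq i), ?_⟩
    calc algebraMap (RatFunc K) F r = algebraMap (RatFunc K) F r * 1 := (mul_one _).symm
      _ = algebraMap (RatFunc K) F r * ∑ i, algebraMap (RatFunc K) F (q i) * a i := by rw [← h1]
      _ = ∑ i, algebraMap (RatFunc K) F (r * q i) * a i := by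
        rw [Finset.mul_sum]
        refine Finset.sum_congr rfl fun i _ => ?_
        rw [map_mul]
        ring
  -- the determinant
  obtain ⟨M, hM⟩ : ∃ M : Matrix (Fin n) (Fin n) (LaurentSeries K),
      M = Matrix.of fun j k => σ j (a k) := ⟨_, rfl⟩
  have hMa : ∀ j k, M j k = σ j (a k) := by
    intro j k
    rw [hM, Matrix.of_apply]
  have hMr : ∀ i l, M i l ∈ PAIR.Rg K := by
    intro i l
    rw [hMa]
    exact hreg i _ (hak l)
  obtain ⟨r, hr, hr', hr0, hrd⟩ := ha.disc
  have hD := hdisc a ⟨0, hn⟩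
  rw [← hM, hrd, map_mul, map_mul] at hD
  have hx : σ ⟨0, hn⟩ (algebraMap (RatFunc K) F (RatFunc.X - RatFunc.C t)) =
      single (E : ℤ) 1 := by
    rw [map_sub, map_sub]
    have e1 := (hexp ⟨0, hn⟩).1
    have e2 := (hexp ⟨0, hn⟩).2 t
    unfold xF at e1
    unfold cF at e2
    rw [e1, e2]
    unfold atFin
    rw [add_sub_cancel_left]
  rw [hx] at hD
  have hrr : σ ⟨0, hn⟩ (algebraMap (RatFunc K) F r) * σ ⟨0, hn⟩ (algebraMap (RatFunc K) F r⁻¹) =
      1 := by
    rw [← map_mul, ← map_mul, mul_inv_cancel₀ hr0, map_one, map_one]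
  have hne : (M.det ^ 2).coeff E ≠ 0 := by
    rw [← hD]
    exact unit_coeff (hreg _ _ (hOO r hr)) (hreg _ _ (hOO _ hr')) hrr E
  -- orbits have at most two elements
  have hshort : ∀ j, Function.minimalPeriod π j ≤ 2 := by
    intro j
    by_contra hcon
    push Not at hcon
    obtain ⟨e, he⟩ : ∃ e, e = Function.minimalPeriod π j := ⟨_, rfl⟩
    rw [← he] at hcon
    obtain ⟨h, hh⟩ : e ∣ E := by rw [he]; exact (hper j).minimalPeriod_dvd
    have hh0 : 0 < h := by
      rcases Nat.eq_zero_or_pos h with h0 | h0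
      · subst h0; omega
      · exact h0
    -- the exponents
    have hexpo : ∀ f m, ¬ (h : ℤ) ∣ m → (σ j f).coeff m = 0 := by
      intro f m hm
      have h1 := hπl e j f m
      have h2 : π^[e] j = j := by rw [he]; exact Function.iterate_minimalPeriod
      rw [h2] at h1
      by_contra hne0
      have h3 : ζ ^ ((e : ℤ) * m) = 1 := by
        have h4 : (ζ ^ ((e : ℤ) * m) - 1) * (σ j f).coeff m = 0 := by linear_combination -h1
        have h5 := (mul_eq_zero.1 h4).resolve_right hne0
        linear_combination h5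
      rw [hζ.zpow_eq_one_iff_dvd, hh] at h3
      push_cast at h3
      have he0 : (e : ℤ) ≠ 0 := by
        have : 0 < e := by omega
        exact_mod_cast this.ne'
      exact hm (Int.dvd_of_mul_dvd_mul_left he0 h3)
    -- the other elements of the orbit
    obtain ⟨O, hO⟩ : ∃ O : Finset (Fin n), O = (Finset.Ico 1 e).image (fun l => π^[l] j) :=
      ⟨_, rfl⟩
    have hinj : Set.InjOn (fun l => π^[l] j) (Set.Iio e) := by
      rw [he]; exact Function.iterate_injOn_Iio_minimalPeriod
    have hOc : O.card = e - 1 := by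
      rw [hO, Finset.card_image_of_injOn, Nat.card_Ico]
      intro x hx y hy hxy
      have hx' := (Finset.mem_Ico.1 (Finset.mem_coe.1 hx)).2
      have hy' := (Finset.mem_Ico.1 (Finset.mem_coe.1 hy)).2
      exact hinj hx' hy' hxy
    have hjO : j ∉ O := by
      rw [hO]
      intro hj
      obtain ⟨l, hl, hlj⟩ := Finset.mem_image.1 hj
      rw [Finset.mem_Ico] at hl
      have h0 : l = 0 := hinj (show l < e from hl.2) (show 0 < e by omega) (by simpa using hlj)
      omega
    obtain ⟨M', hM'⟩ : ∃ M' : Matrix (Fin n) (Fin n) (LaurentSeries K),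
        M' = Matrix.of fun i k => M i k - (if i ∈ O then 1 else 0) * M j k := ⟨_, rfl⟩
    have hdet : M.det = M'.det := by
      refine Matrix.det_eq_of_forall_row_eq_smul_add_const (fun i => if i ∈ O then 1 else 0) j
        (by simp [hjO]) ?_
      intro i k
      rw [hM', Matrix.of_apply, Matrix.of_apply, if_neg hjO]
      ring
    have hBl : ∀ i l, VDMaux.Bl (if i ∈ O then (h : ℤ) else 0) (M' i l) := by
      intro i l m hm
      rw [hM', Matrix.of_apply]
      split_ifs at hm ⊢ with hi
      · rw [one_mul, coeff_sub]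
        rw [hO] at hi
        obtain ⟨k, -, rfl⟩ := Finset.mem_image.1 hi
        rw [hMa, hMa]
        rw [hπl]
        by_cases hd : (h : ℤ) ∣ m
        · have hm0 : m ≤ 0 := by
            by_contra hpos
            push Not at hpos
            exact absurd (Int.le_of_dvd hpos hd) (by omega)
          rcases lt_or_eq_of_le hm0 with hlt | heq
          · have h1 := hreg j _ (hak l) m hlt
            rw [h1]
            simp
          · rw [heq]
            simp
        · rw [hexpo _ m hd]
          simp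
      · rw [zero_mul, sub_zero]
        exact hMr i l m hm
    have h1 := det_Bl M' _ hBl
    rw [← hdet] at h1
    have hsum : ∑ i, (if i ∈ O then (h : ℤ) else 0) = ((e - 1 : ℕ) : ℤ) * h := by
      rw [Finset.sum_ite_mem, Finset.univ_inter, Finset.sum_const, hOc, nsmul_eq_mul]
    rw [hsum] at h1
    have h2 := h1.mul h1
    rw [← sq] at h2
    apply hne
    apply h2
    rw [hh]
    have h3 : e * h < (e - 1) * h + (e - 1) * h := by
      obtain ⟨e', rfl⟩ : ∃ e', e = e' + 3 := ⟨e - 3, by omega⟩
      have : e' + 3 - 1 = e' + 2 := by omega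
      rw [this]
      nlinarith
    exact_mod_cast h3
  have hπ2 : ∀ j, π^[2] j = j := by
    intro j
    have h1 := hshort j
    have h2 : 0 < Function.minimalPeriod π j := (hper j).minimalPeriod_pos hE0
    have h3 : Function.minimalPeriod π j ∣ 2 := by
      interval_cases Function.minimalPeriod π j
      · exact one_dvd 2
      · exact dvd_refl 2
    exact Function.isPeriodicPt_iff_minimalPeriod_dvd.2 h3
  have hcoef : ∀ j f m, ¬ (N : ℤ) ∣ m → (σ j f).coeff m = 0 := by
    intro j f m hm
    have h1 := hπl 2 j f m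
    rw [hπ2] at h1
    by_contra hne0
    have h3 : ζ ^ (((2 : ℕ) : ℤ) * m) = 1 := by
      have h4 : (ζ ^ (((2 : ℕ) : ℤ) * m) - 1) * (σ j f).coeff m = 0 := by linear_combination -h1
      have h5 := (mul_eq_zero.1 h4).resolve_right hne0
      linear_combination h5
    rw [hζ.zpow_eq_one_iff_dvd, hE] at h3
    push_cast at h3
    exact hm (Int.dvd_of_mul_dvd_mul_left two_ne_zero h3)
  obtain ⟨ρ, hρ⟩ := hPW K N hN
  choose σ' hσ' using fun j => factor hN hρ (σ j) (hcoef j)
  refine ⟨σ', ?_, fun i => ⟨?_, fun c => ?_⟩⟩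
  · intro i j hij
    apply hσ
    ext1 f
    rw [← hσ' i f, ← hσ' j f, hij]
  · apply ρ.injective
    rw [hσ', (hexp i).1, pw_atFin hN hρ, hE, mul_comm]
  · apply ρ.injective
    rw [hσ', (hexp i).2, pw_C hN hρ]

end Pool.Agent.N780.SB
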