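import Mathlib
import Pool.Agent.N780.SB.Stm

set_option autoImplicit false

/-!
# SB/PAIR (helper271): exactly one pair of expansions is exchanged
-/

namespace Pool.Agent.N780.SB

universe u v w

open HahnSeries

namespace PAIR

variable {K : Type u} [Field K]

/-- the sign -/
def sg (K : Type u) [Field K] (m : ℤ) : K := (-1) ^ m.natAbs

lemma sg_eq (m : ℤ) : sg K m = ((Int.negOnePow m : ℤˣ) : ℤ) := by
  unfold sg
  rcases Int.even_or_odd m with h | h
  · rw [Int.negOnePow_even m h, (Int.natAbs_even.2 h).neg_one_pow]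
    simp
  · rw [Int.negOnePow_odd m h, (Int.natAbs_odd.2 h).neg_one_pow]
    simp

lemma sg_add (m n : ℤ) : sg K (m + n) = sg K m * sg K n := by
  rw [sg_eq, sg_eq, sg_eq, Int.negOnePow_add]
  push_cast
  ring

lemma sg_ne (m : ℤ) : sg K m ≠ 0 := by
  unfold sg
  exact pow_ne_zero _ (by simp)

lemma sg_sq (m : ℤ) : sg K m * sg K m = 1 := by
  unfold sg
  rw [← mul_pow]
  simp

/-- `u ↦ -u` -/
noncomputable def tw (y : LaurentSeries K) : LaurentSeries K where
  coeff m := sg K m * y.coeff m
  isPWO_support' := y.isPWO_support.mono (by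
    intro m hm
    rw [Function.mem_support] at hm
    rw [mem_support]
    intro h
    rw [h, mul_zero] at hm
    exact hm rfl)

lemma tw_coeff (y : LaurentSeries K) (m : ℤ) : (tw y).coeff m = sg K m * y.coeff m := rfl

lemma tw_supp (y : LaurentSeries K) : (tw y).support = y.support := by
  ext m
  rw [mem_support, mem_support, tw_coeff]
  simp [sg_ne]

lemma tw_tw (y : LaurentSeries K) : tw (tw y) = y := by
  ext m
  rw [tw_coeff, tw_coeff, ← mul_assoc, sg_sq, one_mul]

lemma tw_mul (x y : LaurentSeries K) : tw (x * y) = tw x * tw y := by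
  ext m
  rw [tw_coeff, coeff_mul, coeff_mul, Finset.mul_sum]
  refine Finset.sum_congr ?_ ?_
  · ext ij
    simp only [Finset.mem_antidiagonal, tw_supp]
  · intro ij hij
    rw [Finset.mem_antidiagonal] at hij
    rw [tw_coeff, tw_coeff, ← hij.2.2, sg_add]
    ring

/-- `u ↦ -u` as a homomorphism -/
noncomputable def tau (K : Type u) [Field K] : LaurentSeries K →+* LaurentSeries K where
  toFun := tw
  map_one' := by
    ext m
    rw [tw_coeff, coeff_one]
    split_ifs with h
    · subst h
      simp [sg]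
    · simp
  map_mul' := tw_mul
  map_zero' := by
    ext m
    simp [tw_coeff]
  map_add' x y := by
    ext m
    simp [tw_coeff, mul_add]

lemma tau_coeff (y : LaurentSeries K) (m : ℤ) : (tau K y).coeff m = sg K m * y.coeff m := rfl

lemma tau_C (a : K) : tau K (HahnSeries.C a) = HahnSeries.C a := by
  ext m
  rw [tau_coeff, HahnSeries.C_apply, coeff_single]
  split_ifs with h
  · subst h
    simp [sg]
  · simp

lemma tau_atFin (t : K) : tau K (atFin 2 t) = atFin 2 t := by
  unfold atFin
  rw [map_add, tau_C]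
  congr 1
  ext m
  rw [tau_coeff, coeff_single]
  split_ifs with h
  · subst h
    simp [sg]
  · simp

/-- series without negative coefficients -/
def Rg (K : Type u) [Field K] : Subring (LaurentSeries K) where
  carrier := {y | ∀ m : ℤ, m < 0 → y.coeff m = 0}
  mul_mem' := by
    intro x y hx hy m hm
    rw [coeff_mul]
    refine Finset.sum_eq_zero fun ij hij => ?_
    rw [Finset.mem_antidiagonal] at hij
    rcases lt_or_ge ij.1 0 with h | h
    · rw [hx _ h, zero_mul]
    · rw [hy ij.2 (by have := hij.2.2; omega), mul_zero]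
  one_mem' := by
    intro m hm
    rw [coeff_one, if_neg hm.ne]
  add_mem' := by
    intro x y hx hy m hm
    rw [coeff_add, hx m hm, hy m hm, add_zero]
  zero_mem' := by
    intro m _
    exact coeff_zero
  neg_mem' := by
    intro x hx m hm
    rw [coeff_neg, hx m hm, neg_zero]

lemma mem_Rg {y : LaurentSeries K} : y ∈ Rg K ↔ ∀ m : ℤ, m < 0 → y.coeff m = 0 := Iff.rfl

lemma det_mem {R : Type u} [CommRing R] (A : Subring R) {n : ℕ} (M : Matrix (Fin n) (Fin n) R)
    (h : ∀ i j, M i j ∈ A) : M.det ∈ A := by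
  rw [Matrix.det_apply]
  refine A.sum_mem fun s _ => ?_
  rw [Units.smul_def]
  exact A.zsmul_mem (A.prod_mem fun i _ => h _ _) _

/-- the determinant has order one -/
lemma coeff_one_ne {D ρ ρ' : LaurentSeries K} (hρ : ρ ∈ Rg K) (hρ' : ρ' ∈ Rg K)
    (h1 : ρ * ρ' = 1) (h2 : D ^ 2 = ρ * single 2 1) : D.coeff 1 ≠ 0 := by
  have hρ0 : ρ ≠ 0 := left_ne_zero_of_mul_eq_one h1
  have hρ0' : ρ' ≠ 0 := right_ne_zero_of_mul_eq_one h1
  have hs : (single (2 : ℤ) (1 : K)) ≠ 0 := by simp
  have hD : D ≠ 0 := by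
    rintro rfl
    rw [zero_pow two_ne_zero] at h2
    exact mul_ne_zero hρ0 hs h2.symm
  have h3 : 0 ≤ ρ.order := (le_order_iff_forall hρ0).2 fun j hj => hρ j hj
  have h4 : 0 ≤ ρ'.order := (le_order_iff_forall hρ0').2 fun j hj => hρ' j hj
  have h5 : ρ.order + ρ'.order = 0 := by
    rw [← order_mul hρ0 hρ0', h1, order_one]
  have h6 : D.order + D.order = ρ.order + 2 := by
    rw [← order_mul hD hD, ← sq, h2, order_mul hρ0 hs, order_single one_ne_zero]
  have h7 : D.order = 1 := by omega
  rw [← h7]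
  exact fun h => hD (coeff_order_eq_zero.1 h)

/-- two rows divisible by `u` -/
lemma det_two {n : ℕ} (M : Matrix (Fin n) (Fin n) (LaurentSeries K)) {j k : Fin n} (hjk : j ≠ k)
    (h : ∀ i l, M i l ∈ Rg K) (hj : ∀ l, (M j l).coeff 0 = 0) (hk : ∀ l, (M k l).coeff 0 = 0) :
    M.det.coeff 1 = 0 := by
  classical
  obtain ⟨w, hw⟩ : ∃ w : Fin n → LaurentSeries K,
      w = fun i => if i = j ∨ i = k then single (-1) 1 else 1 := ⟨_, rfl⟩
  have h1 : ∀ i l, (Matrix.of fun i l => w i * M i l) i l ∈ Rg K := by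
    intro i l
    rw [Matrix.of_apply, hw]
    beta_reduce
    split_ifs with hi
    · intro m hm
      rw [coeff_single_mul, one_mul]
      rcases lt_or_ge (m - -1) 0 with h2 | h2
      · exact h i l _ h2
      · have h3 : m - -1 = 0 := by omega
        rw [h3]
        rcases hi with rfl | rfl
        · exact hj l
        · exact hk l
    · rw [one_mul]
      exact h i l
  have h2 := det_mem (Rg K) _ h1
  rw [Matrix.det_mul_column] at h2
  have h3 : ∏ i, w i = single (-2) 1 := by
    have h4 : ∏ i, w i = ∏ i ∈ ({j, k} : Finset (Fin n)), w i := by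
      symm
      apply Finset.prod_subset (Finset.subset_univ _)
      intro i _ hi
      rw [hw]
      beta_reduce
      rw [if_neg]
      simpa using hi
    rw [h4, Finset.prod_pair hjk, hw]
    beta_reduce
    rw [if_pos (Or.inl rfl), if_pos (Or.inr rfl), single_mul_single]
    norm_num
  rw [h3] at h2
  have h5 := h2 (-1) (by norm_num)
  rw [coeff_single_mul, one_mul] at h5
  norm_num at h5
  exact h5

end PAIR

open PAIR in
theorem part_PAIR (hTR : S_TR.{u, v}) (hINT : S_INT.{u, v}) : S_PAIR.{u, v} := by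
  classical
  intro K F _ _ _ _ h2 S t ht n hn a ha σ hσ hexp
  obtain ⟨hall, -, hdisc⟩ := hTR K F n hn ha.rank (atFin 2 t) σ hσ hexp
  -- the involution
  have hτ : ∀ j, ∃ i, (tau K).comp (σ j) = σ i := by
    intro j
    refine hall _ ⟨?_, fun c => ?_⟩
    · rw [RingHom.comp_apply, (hexp j).1, tau_atFin]
    · rw [RingHom.comp_apply, (hexp j).2, tau_C]
  choose π hπ using hτ
  have hπa : ∀ j f, tau K (σ j f) = σ (π j) f := by
    intro j f
    rw [← hπ j]
    rfl
  have hππ : ∀ j, π (π j) = j := by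
    intro j
    apply hσ
    rw [← hπ (π j)]
    ext1 f
    rw [RingHom.comp_apply, ← hπa j f]
    exact tw_tw (σ j f)
  -- regularity
  have hreg : ∀ j f, InA S a f → σ j f ∈ Rg K := by
    intro j f hf m hm
    exact hINT K F S t ht n a ha (σ j) (hexp j) f hf m hm
  have hak : ∀ k, InA S a (a k) := by
    intro k
    refine ⟨fun i => if i = k then 1 else 0, fun i => ?_, ?_⟩
    · beta_reduce
      split_ifs
      · exact (OO S).one_mem
      · exact (OO S).zero_mem
    · rw [Finset.sum_eq_single k]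
      · simp
      · intro i _ hi
        simp [hi]
      · intro h
        exact absurd (Finset.mem_univ k) h
  have hOO : ∀ r ∈ OO S, InA S a (algebraMap (RatFunc K) F r) := by
    intro r hr
    obtain ⟨q, hq, h1⟩ := ha.one
    refine ⟨fun i => r * q i, fun i => (OO S).mul_mem hr (hq i), ?_⟩
    calc algebraMap (RatFunc K) F r = algebraMap (RatFunc K) F r * 1 := (mul_one _).symm
      _ = algebraMap (RatFunc K) F r * ∑ i, algebraMap (RatFunc K) F (q i) * a i := by rw [← h1]
      _ = ∑ i, algebraMap (RatFunc K) F (r * q i) * a i := by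
        rw [Finset.mul_sum]
        refine Finset.sum_congr rfl fun i _ => ?_
        rw [map_mul]
        ring
  -- the determinant
  obtain ⟨M, hM⟩ : ∃ M : Matrix (Fin n) (Fin n) (LaurentSeries K),
      M = Matrix.of fun j k => σ j (a k) := ⟨_, rfl⟩
  have hMa : ∀ j k, M j k = σ j (a k) := by
    intro j k
    rw [hM, Matrix.of_apply]
  have hMr : ∀ i l, M i l ∈ Rg K := by
    intro i l
    rw [hMa]
    exact hreg i _ (hak l)
  obtain ⟨r, hr, hr', hr0, hrd⟩ := ha.disc
  have hD := hdisc a ⟨0, hn⟩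
  rw [← hM, hrd, map_mul, map_mul] at hD
  have hx : σ ⟨0, hn⟩ (algebraMap (RatFunc K) F (RatFunc.X - RatFunc.C t)) = single 2 1 := by
    rw [map_sub, map_sub]
    have e1 := (hexp ⟨0, hn⟩).1
    have e2 := (hexp ⟨0, hn⟩).2 t
    unfold xF at e1
    unfold cF at e2
    rw [e1, e2]
    unfold atFin
    rw [add_sub_cancel_left]
    rfl
  rw [hx] at hD
  have hrr : σ ⟨0, hn⟩ (algebraMap (RatFunc K) F r) * σ ⟨0, hn⟩ (algebraMap (RatFunc K) F r⁻¹) =
      1 := by
    rw [← map_mul, ← map_mul, mul_inv_cancel₀ hr0, map_one, map_one]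
  have hne : M.det.coeff 1 ≠ 0 :=
    coeff_one_ne (hreg _ _ (hOO r hr)) (hreg _ _ (hOO _ hr')) hrr hD.symm
  -- fixed indices
  have hfix : ∀ j, π j = j → ∀ (f : F) (m : ℤ), Odd m → (σ j f).coeff m = 0 := by
    intro j hj f m hm
    have h3 := congrArg (fun y => HahnSeries.coeff y m) (hπa j f)
    beta_reduce at h3
    rw [tau_coeff, hj] at h3
    have h4 : sg K m = -1 := by
      unfold sg
      exact (Int.natAbs_odd.2 hm).neg_one_pow
    rw [h4] at h3
    have h5 : 2 * (σ j f).coeff m = 0 := by linear_combination -h3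
    exact (mul_eq_zero.1 h5).resolve_left h2
  -- some index moves
  have hex : ∃ j₁, π j₁ ≠ j₁ := by
    by_contra hcon
    push Not at hcon
    apply hne
    have h3 : tau K M.det = M.det := by
      rw [RingHom.map_det]
      congr 1
      ext1 i l
      rw [RingHom.mapMatrix_apply, Matrix.map_apply, hMa, hπa, hcon]
    have h4 := congrArg (fun y => HahnSeries.coeff y 1) h3
    beta_reduce at h4
    rw [tau_coeff] at h4
    have h5 : sg K 1 = -1 := by simp [sg]
    rw [h5] at h4
    have h6 : 2 * M.det.coeff 1 = 0 := by linear_combination -h4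
    exact (mul_eq_zero.1 h6).resolve_left h2
  obtain ⟨j₁, hj₁⟩ := hex
  refine ⟨j₁, π j₁, hj₁.symm, fun f m => ?_, fun j h3 h4 => hfix j ?_⟩
  · rw [← hπa, tau_coeff]
    rfl
  · by_contra h5
    apply hne
    have h6 : π j ≠ j₁ := by
      intro h
      apply h4
      rw [← h, hππ]
    have hz : ∀ i l, (σ i (a l) - σ (π i) (a l)).coeff 0 = 0 := by
      intro i l
      rw [coeff_sub, ← hπa, tau_coeff]
      simp [sg]
    obtain ⟨M₁, hM₁⟩ : ∃ M₁, M₁ = M.updateRow j₁ (M j₁ + (-1 : LaurentSeries K) • M (π j₁)) :=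
      ⟨_, rfl⟩
    have hd₁ : M₁.det = M.det := by
      rw [hM₁]
      exact Matrix.det_updateRow_add_smul_self M hj₁.symm _
    obtain ⟨M₂, hM₂⟩ : ∃ M₂, M₂ = M₁.updateRow j (M₁ j + (-1 : LaurentSeries K) • M₁ (π j)) :=
      ⟨_, rfl⟩
    have hd₂ : M₂.det = M₁.det := by
      rw [hM₂]
      exact Matrix.det_updateRow_add_smul_self M₁ (Ne.symm h5) _
    have e1 : ∀ l, M₂ j l = σ j (a l) - σ (π j) (a l) := by
      intro l
      rw [hM₂, Matrix.updateRow_self, Pi.add_apply, Pi.smul_apply, hM₁, Matrix.updateRow_ne h3,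
        Matrix.updateRow_ne h6, hMa, hMa]
      simp [sub_eq_add_neg]
    have e2 : ∀ l, M₂ j₁ l = σ j₁ (a l) - σ (π j₁) (a l) := by
      intro l
      rw [hM₂, Matrix.updateRow_ne (Ne.symm h3), hM₁, Matrix.updateRow_self, Pi.add_apply,
        Pi.smul_apply, hMa, hMa]
      simp [sub_eq_add_neg]
    have e3 : ∀ i, i ≠ j → i ≠ j₁ → ∀ l, M₂ i l = σ i (a l) := by
      intro i hi hi' l
      rw [hM₂, Matrix.updateRow_ne hi, hM₁, Matrix.updateRow_ne hi', hMa]
    rw [← hd₁, ← hd₂]
    refine det_two M₂ h3 ?_ ?_ ?_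
    · intro i l
      by_cases hi : i = j
      · rw [hi, e1]
        exact (Rg K).sub_mem (hreg _ _ (hak l)) (hreg _ _ (hak l))
      · by_cases hi' : i = j₁
        · rw [hi', e2]
          exact (Rg K).sub_mem (hreg _ _ (hak l)) (hreg _ _ (hak l))
        · rw [e3 i hi hi']
          exact hreg _ _ (hak l)
    · intro l
      rw [e1]
      exact hz j l
    · intro l
      rw [e2]
      exact hz j₁ l

end Pool.Agent.N780.SB
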