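import Mathlib
import Pool.Agent.N780.SB.Stm
import Pool.Agent.N780.SB.PAIR

set_option autoImplicit false

/-!
# SB/L0 (helper678): the largest subfield unramified at `x = t`
-/

namespace Pool.Agent.N780.SB

universe u v w

namespace L0

open PAIR

variable {K : Type u} [Field K]

lemma sg_even {m : ℤ} (h : Even m) : sg K m = 1 := (Int.natAbs_even.2 h).neg_one_pow

lemma sg_odd {m : ℤ} (h : Odd m) : sg K m = -1 := (Int.natAbs_odd.2 h).neg_one_pow

lemma tau_fix (h2 : (2 : K) ≠ 0) (y : LaurentSeries K) :
    tau K y = y ↔ ∀ m : ℤ, Odd m → y.coeff m = 0 := by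
  constructor
  · intro h m hm
    have h1 : (tau K y).coeff m = y.coeff m := by rw [h]
    rw [tau_coeff, sg_odd hm] at h1
    have h3 : 2 * y.coeff m = 0 := by linear_combination -h1
    exact (mul_eq_zero.1 h3).resolve_left h2
  · intro h
    ext m
    rw [tau_coeff]
    rcases Int.even_or_odd m with hm | hm
    · rw [sg_even hm, one_mul]
    · rw [h m hm, mul_zero]

variable {F : Type v} [Field F] [Algebra (RatFunc K) F]

lemma unr_iff (h2 : (2 : K) ≠ 0) (t : K) (f : F) :
    Unr t f ↔ ∀ σ : F →+* LaurentSeries K, IsExp (atFin 2 t) σ → tau K (σ f) = σ f := by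
  unfold Unr
  refine forall_congr' fun σ => forall_congr' fun _ => ?_
  rw [tau_fix h2]

lemma alg_fix (t : K) (σ : F →+* LaurentSeries K) (hσ : IsExp (atFin 2 t) σ) (r : RatFunc K) :
    tau K (σ (algebraMap (RatFunc K) F r)) = σ (algebraMap (RatFunc K) F r) := by
  have h : ((tau K).comp (σ.comp (algebraMap (RatFunc K) F))) =
      σ.comp (algebraMap (RatFunc K) F) := by
    refine IsLocalization.ringHom_ext (nonZeroDivisors (Polynomial K)) ?_
    refine Polynomial.ringHom_ext (fun a => ?_) ?_
    · simp only [RingHom.comp_apply, RatFunc.algebraMap_C]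
      have h1 : σ (algebraMap (RatFunc K) F (RatFunc.C a)) = HahnSeries.C a := hσ.2 a
      rw [h1, tau_C]
    · simp only [RingHom.comp_apply, RatFunc.algebraMap_X]
      have h1 : σ (algebraMap (RatFunc K) F RatFunc.X) = atFin 2 t := hσ.1
      rw [h1, tau_atFin]
  exact congrArg (fun φ : RatFunc K →+* LaurentSeries K => φ r) h

end L0

open L0 PAIR

/-- **L0** -/
theorem part_L0 : S_L0.{u, v} := by
  intro K F _ _ _ h2 t
  let L : IntermediateField (RatFunc K) F :=
    { carrier := {f | ∀ σ : F →+* LaurentSeries K, IsExp (atFin 2 t) σ → tau K (σ f) = σ f}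
      mul_mem' := by
        intro a b ha hb σ hσ
        rw [map_mul, map_mul, ha σ hσ, hb σ hσ]
      add_mem' := by
        intro a b ha hb σ hσ
        rw [map_add, map_add, ha σ hσ, hb σ hσ]
      algebraMap_mem' := fun r σ hσ => alg_fix t σ hσ r
      inv_mem' := by
        intro a ha σ hσ
        rw [map_inv₀, map_inv₀, ha σ hσ] }
  exact ⟨L, fun f => (unr_iff h2 t f).symm⟩

end Pool.Agent.N780.SB
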