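import Mathlib
import Pool.Agent.N780.SB.Stm

set_option autoImplicit false

/-!
# Part EXPO: the expansions of the derivatives (helper265)
-/

namespace Pool.Agent.N780.SB

universe u v

namespace EXPO_

open Finset

/-- Leibniz rule for iterates -/
theorem iterate_mul {F : Type v} [Field F] (D : Derivation ℤ F F) (n : ℕ) (a b : F) :
    D^[n] (a * b) = ∑ ij ∈ antidiagonal n, n.choose ij.1 • (D^[ij.1] a * D^[ij.2] b) := by
  induction n with
  | zero => simp
  | succ n ih =>
    rw [Finset.sum_antidiagonal_choose_succ_nsmul (M := F) (fun i j => D^[i] a * D^[j] b) n]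
    simp only [Function.iterate_succ_apply', ih, map_sum, map_nsmul, Derivation.leibniz,
      smul_eq_mul, smul_add, Finset.sum_add_distrib]
    congr 1
    refine Finset.sum_congr rfl fun ij hij => ?_
    rw [n.choose_symm_of_eq_add (mem_antidiagonal.1 hij).symm]
    rw [mul_comm]

/-- in characteristic `p` the `p`-th iterate of a derivation satisfies the Leibniz rule -/
theorem iterate_p {F : Type v} [Field F] (D : Derivation ℤ F F) (p : ℕ) (hp : p.Prime)
    [CharP F p] (a b : F) : D^[p] (a * b) = a * D^[p] b + b * D^[p] a := by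
  rw [iterate_mul, ← Nat.succ_pred_eq_of_pos hp.pos, Finset.Nat.sum_antidiagonal_eq_sum_range_succ
    (fun i j => (Nat.succ p.pred).choose i • (D^[i] a * D^[j] b))]
  rw [Finset.sum_range_succ, Finset.sum_range_succ']
  have h : ∑ k ∈ Finset.range p.pred, (Nat.succ p.pred).choose (k + 1) •
      (D^[k + 1] a * D^[p.pred.succ - (k + 1)] b) = 0 := by
    refine Finset.sum_eq_zero fun k hk => ?_
    rw [Finset.mem_range] at hk
    rw [Nat.succ_pred_eq_of_pos hp.pos, nsmul_eq_mul]
    have h1 : ((p.choose (k + 1) : ℕ) : F) = 0 := by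
      rw [CharP.cast_eq_zero_iff F p]
      refine hp.dvd_choose_self (Nat.succ_ne_zero k) ?_
      have := hp.pos
      have h2 : p.pred = p - 1 := rfl
      omega
    rw [h1, zero_mul]
  rw [h, zero_add]
  simp only [Nat.choose_zero_right, one_smul, Function.iterate_zero, id_eq, Nat.sub_zero,
    Nat.choose_self, Nat.sub_self]
  ring

theorem hat_coeff {K : Type u} [Field K] (δ : Derivation ℤ K K) (y : LaurentSeries K) (m : ℤ) :
    (hat δ y).coeff m = δ (y.coeff m) := rfl

theorem hat_add {K : Type u} [Field K] (δ : Derivation ℤ K K) (y z : LaurentSeries K) :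
    hat δ (y + z) = hat δ y + hat δ z := by
  ext m
  rw [HahnSeries.coeff_add, hat_coeff, hat_coeff, hat_coeff, HahnSeries.coeff_add, map_add]

theorem der_add {K : Type u} [Field K] (y z : LaurentSeries K) :
    der (y + z) = der y + der z := map_add _ _ _

theorem hat_C {K : Type u} [Field K] (δ : Derivation ℤ K K) (a : K) :
    hat δ (HahnSeries.C a) = HahnSeries.C (δ a) := by
  ext m
  rw [hat_coeff, HahnSeries.C_apply, HahnSeries.C_apply, HahnSeries.coeff_single,
    HahnSeries.coeff_single]
  split_ifs
  · rfl
  · exact map_zero _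

theorem der_C {K : Type u} [Field K] (hLD : S_LD.{u}) (a : K) :
    der (HahnSeries.C a : LaurentSeries K) = 0 := by
  ext m
  rw [(hLD K).1, HahnSeries.C_apply, HahnSeries.coeff_single, HahnSeries.coeff_zero]
  split_ifs with h
  · rw [h, Int.cast_zero, zero_mul]
  · rw [mul_zero]

end EXPO_

open EXPO_ in
/-- Part EXPO. -/
theorem part_EXPO (hU : S_UNIQ.{u, v, v}) (hU2 : S_UNIQ.{u, v, u}) (hLD : S_LD.{u}) :
    S_EXPO.{u, v} := by
  intro K F _ _ _ _ δ Dx Dt hx1 hxc ht0 htc
  refine ⟨?_, ?_, ?_, ?_⟩
  · intro f
    have h := hU K F F (RingHom.id F) (fun f => Dx (Dt f) - Dt (Dx f)) (fun _ => 0)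
      (fun x y => by simp only [map_add]; ring)
      (fun x y => by
        simp only [Derivation.leibniz, smul_eq_mul, map_add, RingHom.id_apply]
        ring)
      (fun x y => by simp) (fun x y => by simp)
      (by rw [ht0, hx1, map_zero, Derivation.map_one_eq_zero, sub_zero])
      (fun a => by rw [htc, hxc, hxc, map_zero, sub_zero]) f
    exact sub_eq_zero.1 h
  · intro ξ σ hσ f
    refine hU2 K F (LaurentSeries K) σ (fun f => σ (Dx f) * der ξ) (fun f => der (σ f)) ?_ ?_ ?_ ?_
      ?_ ?_ f
    · intro x y
      simp only [map_add]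
      ring
    · intro x y
      simp only [Derivation.leibniz, smul_eq_mul, map_add, map_mul]
      ring
    · intro x y
      simp only [map_add, der_add]
    · intro x y
      simp only [map_mul]
      exact (hLD K).2.1 _ _
    · rw [hx1, map_one, one_mul, hσ.1]
    · intro a
      rw [hxc, map_zero, zero_mul, hσ.2, der_C hLD]
  · intro ξ ω σ hσ hω f
    refine hU2 K F (LaurentSeries K) σ (fun f => σ (Dt f))
      (fun f => hat δ (σ f) - ω * der (σ f)) ?_ ?_ ?_ ?_ ?_ ?_ f
    · intro x y
      simp only [map_add]
    · intro x y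
      simp only [Derivation.leibniz, smul_eq_mul, map_add, map_mul]
    · intro x y
      simp only [map_add, der_add, hat_add]
      ring
    · intro x y
      simp only [map_mul]
      rw [(hLD K).2.1, (hLD K).2.2]
      ring
    · rw [ht0, map_zero, hσ.1, hω, sub_self]
    · intro a
      rw [htc, hσ.2, hσ.2, der_C hLD, hat_C, mul_zero, sub_zero]
  · intro p hp hchar hδ f
    have hcF : CharP F p := by
      have h1 : Function.Injective ((algebraMap (RatFunc K) F).comp
          (RatFunc.C : K →+* RatFunc K)) := RingHom.injective _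
      exact charP_of_injective_ringHom h1 p
    have hcst : ∀ (k : ℕ) (a : K), Dt^[k] (cF F a) = cF F (δ^[k] a) := by
      intro k
      induction k with
      | zero => intro a; rfl
      | succ k ih =>
        intro a
        rw [Function.iterate_succ_apply, Function.iterate_succ_apply, htc, ih]
    have hadd : ∀ (k : ℕ) (x y : F), Dt^[k] (x + y) = Dt^[k] x + Dt^[k] y := by
      intro k
      induction k with
      | zero => intro x y; rfl
      | succ k ih =>
        intro x y
        rw [Function.iterate_succ_apply, Function.iterate_succ_apply, Function.iterate_succ_apply,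
          map_add, ih]
    have hzero : ∀ k : ℕ, Dt^[k] (0 : F) = 0 := by
      intro k
      induction k with
      | zero => rfl
      | succ k ih => rw [Function.iterate_succ_apply, map_zero, ih]
    refine hU K F F (RingHom.id F) (fun f => Dt^[p] f) (fun _ => 0) (hadd p) ?_ ?_ ?_ ?_ ?_ f
    · intro x y
      exact iterate_p Dt p hp x y
    · intro x y
      simp
    · intro x y
      simp
    · obtain ⟨k, rfl⟩ := Nat.exists_eq_succ_of_ne_zero hp.ne_zero
      rw [Function.iterate_succ_apply, ht0, hzero]
    · intro a
      rw [hcst, hδ]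
      unfold cF
      rw [map_zero, map_zero]

end Pool.Agent.N780.SB
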