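import Mathlib
import Pool.Agent.N780.SB.Stm

set_option autoImplicit false

/-!
# Part EXT: derivations of the constants extend to the function field
-/

namespace Pool.Agent.N780.SB

open Polynomial TensorProduct

universe u v w

/-- Derivations extend along formally etale algebras. -/
theorem ext_exists_derivation {A : Type u} {L : Type v} [CommRing A] [CommRing L] [Algebra A L]
    [Algebra.FormallyEtale A L] (D : Derivation ℤ A A) :
    ∃ D' : Derivation ℤ L L, ∀ a, D' (algebraMap A L a) = algebraMap A L (D a) := by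
  let e := KaehlerDifferential.tensorKaehlerEquivOfFormallyEtale ℤ A L
  let φ : (Ω[L⁄ℤ]) →ₗ[L] L :=
    (TensorProduct.AlgebraTensorModule.rid A L L).toLinearMap ∘ₗ
      (D.liftKaehlerDifferential.baseChange L) ∘ₗ e.symm.toLinearMap
  refine ⟨φ.compDer (KaehlerDifferential.D ℤ L), fun a => ?_⟩
  have h1 : e.symm (KaehlerDifferential.D ℤ L (algebraMap A L a)) =
      1 ⊗ₜ KaehlerDifferential.D ℤ A a :=
    KaehlerDifferential.tensorKaehlerEquivOfFormallyEtale_symm_D_algebraMap ℤ A L a
  change φ (KaehlerDifferential.D ℤ L (algebraMap A L a)) = _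
  simp only [φ, LinearMap.comp_apply, LinearEquiv.coe_coe]
  rw [h1, LinearMap.baseChange_tmul, Derivation.liftKaehlerDifferential_comp_D,
    TensorProduct.AlgebraTensorModule.rid_tmul, Algebra.smul_def, mul_one]

/-- coefficientwise derivation -/
noncomputable def extMapD {K : Type u} [Field K] (δ : Derivation ℤ K K) : Derivation ℤ K[X] K[X] :=
  PolynomialModule.equivPolynomialSelf.compDer δ.mapCoeffs

theorem coeff_extMapD {K : Type u} [Field K] (δ : Derivation ℤ K K) (p : K[X]) (i : ℕ) :
    (extMapD δ p).coeff i = δ (p.coeff i) := rfl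

theorem extMapD_C {K : Type u} [Field K] (δ : Derivation ℤ K K) (c : K) :
    extMapD δ (C c) = C (δ c) := by
  ext i
  rw [coeff_extMapD, coeff_C, coeff_C]
  split_ifs
  · rfl
  · exact map_zero δ

theorem extMapD_X {K : Type u} [Field K] (δ : Derivation ℤ K K) : extMapD δ X = 0 := by
  ext i
  rw [coeff_extMapD, coeff_X, coeff_zero]
  split_ifs
  · exact δ.map_one_eq_zero
  · exact map_zero δ

theorem part_EXT : S_EXT.{u, v} := by
  intro K F _ _ _ _ _ δ
  have h1 : Algebra.FormallyEtale K[X] (RatFunc K) :=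
    Algebra.FormallyEtale.of_isLocalization (nonZeroDivisors K[X])
  have h2 : Algebra.FormallyEtale (RatFunc K) F := Algebra.FormallyEtale.of_isSeparable _ _
  obtain ⟨D0, hD0⟩ := ext_exists_derivation (L := RatFunc K) (extMapD δ)
  obtain ⟨D, hD⟩ := ext_exists_derivation (L := F) D0
  have e1 : D0 RatFunc.X = 0 := by
    have h := hD0 X
    have h' : algebraMap K[X] (RatFunc K) (extMapD δ X) = 0 := by
      rw [extMapD_X, map_zero]
    rw [← RatFunc.algebraMap_X]
    exact h.trans h'
  have e2 : ∀ a : K, D0 (RatFunc.C a) = RatFunc.C (δ a) := by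
    intro a
    have h := hD0 (C a)
    have h' : algebraMap K[X] (RatFunc K) (extMapD δ (C a)) = RatFunc.C (δ a) := by
      rw [extMapD_C, RatFunc.algebraMap_C]
    rw [← RatFunc.algebraMap_C a]
    exact h.trans h'
  refine ⟨D, ?_, ?_⟩
  · unfold xF
    rw [hD, e1, map_zero]
  · intro a
    unfold cF
    rw [hD, e2]

end Pool.Agent.N780.SB
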