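import Mathlib
import Pool.Agent.N780.SB.Stm

set_option autoImplicit false

namespace Pool.Agent.N780.SB

universe u v

namespace INTAux

variable {K : Type u} [Field K]

lemma C_mem (c : K) : (HahnSeries.C c : LaurentSeries K) ∈
    (HahnSeries.ofPowerSeries ℤ K).range :=
  ⟨PowerSeries.C c, by simp⟩

lemma atFin_eq (t : K) : (atFin 2 t : LaurentSeries K) =
    HahnSeries.ofPowerSeries ℤ K (PowerSeries.C t + PowerSeries.X ^ 2) := by
  rw [map_add, map_pow, HahnSeries.ofPowerSeries_C, HahnSeries.ofPowerSeries_X]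
  simp [atFin, HahnSeries.single_pow]

/-- part (1) -/
lemma OO_mem {F : Type v} [Field F] [Algebra (RatFunc K) F] {S : Finset K} {t : K} (ht : t ∉ S)
    (σ : F →+* LaurentSeries K) (hσ : IsExp (atFin 2 t) σ) (r : RatFunc K) (hr : r ∈ OO S) :
    σ (algebraMap (RatFunc K) F r) ∈ (HahnSeries.ofPowerSeries ℤ K).range := by
  have key : OO S ≤ ((HahnSeries.ofPowerSeries ℤ K).range).comap
      (σ.comp (algebraMap (RatFunc K) F)) := by
    unfold OO
    rw [Subring.closure_le]
    have hX : σ (algebraMap (RatFunc K) F RatFunc.X) = atFin 2 t := hσ.1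
    have hC : ∀ a : K, σ (algebraMap (RatFunc K) F (RatFunc.C a)) = HahnSeries.C a := hσ.2
    rintro x ((⟨a, rfl⟩ | rfl) | ⟨c, hc, rfl⟩)
    · change σ (algebraMap (RatFunc K) F (RatFunc.C a)) ∈ (HahnSeries.ofPowerSeries ℤ K).range
      rw [hC]; exact C_mem a
    · change σ (algebraMap (RatFunc K) F RatFunc.X) ∈ (HahnSeries.ofPowerSeries ℤ K).range
      rw [hX, atFin_eq]; exact ⟨_, rfl⟩
    · change σ (algebraMap (RatFunc K) F (RatFunc.X - RatFunc.C c)⁻¹) ∈
        (HahnSeries.ofPowerSeries ℤ K).range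
      rw [map_inv₀, map_inv₀, map_sub, map_sub, hX, hC, atFin_eq]
      have h1 : (HahnSeries.C c : LaurentSeries K) =
          HahnSeries.ofPowerSeries ℤ K (PowerSeries.C c) := by simp
      rw [h1, ← map_sub]
      set p : PowerSeries K := PowerSeries.C t + PowerSeries.X ^ 2 - PowerSeries.C c with hp
      have hc0 : PowerSeries.constantCoeff p ≠ 0 := by
        rw [hp]
        simp only [map_sub, map_add, map_pow, PowerSeries.constantCoeff_C,
          PowerSeries.constantCoeff_X]
        intro h
        apply ht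
        have : t = c := by
          have h2 : t + 0 ^ 2 - c = 0 := h
          linear_combination h2
        rw [this]; exact hc
      refine ⟨p⁻¹, ?_⟩
      have h2 : HahnSeries.ofPowerSeries ℤ K p * HahnSeries.ofPowerSeries ℤ K p⁻¹ = 1 := by
        rw [← map_mul, PowerSeries.mul_inv_cancel p hc0, map_one]
      exact (inv_eq_of_mul_eq_one_right h2).symm
  exact key hr

end INTAux

open INTAux in
theorem part_INT : S_INT.{u, v} := by
  intro K F _ _ _ S t ht n a hA σ hσ f hf m hm
  set N : Submodule (PowerSeries K) (LaurentSeries K) :=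
    Submodule.span (PowerSeries K) (Set.range fun i => σ (a i)) with hN
  have hsm : ∀ r ∈ OO S, ∀ y ∈ N, σ (algebraMap (RatFunc K) F r) * y ∈ N := by
    intro r hr y hy
    obtain ⟨p, hp⟩ := OO_mem ht σ hσ r hr
    rw [← hp]
    have : HahnSeries.ofPowerSeries ℤ K p * y = p • y := by
      rw [Algebra.smul_def, LaurentSeries.coe_algebraMap]
    rw [this]
    exact N.smul_mem p hy
  have hmem : ∀ g : F, InA S a g → σ g ∈ N := by
    rintro g ⟨r, hr, rfl⟩
    rw [map_sum]
    refine N.sum_mem fun i _ => ?_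
    rw [map_mul]
    exact hsm _ (hr i) _ (Submodule.subset_span ⟨i, rfl⟩)
  have h1 : (1 : LaurentSeries K) ∈ N := by
    have := hmem 1 hA.one
    rwa [map_one] at this
  have hmul : ∀ x y, x ∈ N → y ∈ N → x * y ∈ N := by
    intro x y hx hy
    have h2 : N * N ≤ N := by
      rw [hN, Submodule.span_mul_span, Submodule.span_le]
      rintro z ⟨_, ⟨i, rfl⟩, _, ⟨j, rfl⟩, rfl⟩
      have := hmem _ (hA.mul i j)
      rw [map_mul] at this
      exact this
    exact h2 (Submodule.mul_mem_mul hx hy)
  have hfg : (N.toSubalgebra h1 hmul).toSubmodule.FG := by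
    rw [Submodule.toSubalgebra_toSubmodule]
    exact Submodule.fg_span (Set.finite_range _)
  have hint : IsIntegral (PowerSeries K) (σ f) :=
    IsIntegral.of_mem_of_fg _ hfg _ (hmem f hf)
  obtain ⟨y, hy⟩ := IsIntegrallyClosed.isIntegral_iff.1 hint
  rw [← hy, LaurentSeries.coe_algebraMap]
  have := PowerSeries.coeff_coe (R := K) y m
  rw [if_pos hm] at this
  exact this

end Pool.Agent.N780.SB
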