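import Pool.Agent.N780.SB.Stm

set_option autoImplicit false

/-!
Part LD: Leibniz rules for Laurent series (by helper814).
-/

namespace Pool.Agent.N780.SB

universe u

open Finset

lemma ld_mul {K : Type u} [Field K] (y z : LaurentSeries K) (N M m : ℤ)
    (hy : ∀ i, i < N → y.coeff i = 0)
    (hM : ∀ i, M < i → z.coeff (m - i) = 0) :
    (y * z).coeff m = ∑ i ∈ Icc N M, y.coeff i * z.coeff (m - i) := by
  classical
  rw [HahnSeries.coeff_mul]
  have h1 : ∑ i ∈ Icc N M, y.coeff i * z.coeff (m - i) =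
      ∑ i ∈ (Icc N M).filter (fun i => y.coeff i ≠ 0 ∧ z.coeff (m - i) ≠ 0),
        y.coeff i * z.coeff (m - i) := by
    rw [Finset.sum_filter_of_ne]
    intro i _ h
    exact ⟨left_ne_zero_of_mul h, right_ne_zero_of_mul h⟩
  rw [h1]
  refine Finset.sum_bij' (fun ij _ => ij.1) (fun i _ => (i, m - i)) ?_ ?_ ?_ ?_ ?_
  · intro ij hij
    rw [Finset.mem_antidiagonal, HahnSeries.mem_support, HahnSeries.mem_support] at hij
    obtain ⟨h2, h3, h4⟩ := hij
    have h5 : m - ij.1 = ij.2 := by omega
    rw [mem_filter, mem_Icc, h5]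
    refine ⟨⟨?_, ?_⟩, h2, h3⟩
    · by_contra hcon
      exact h2 (hy _ (not_le.1 hcon))
    · by_contra hcon
      have := hM _ (not_le.1 hcon)
      rw [h5] at this
      exact h3 this
  · intro i hi
    rw [mem_filter] at hi
    rw [Finset.mem_antidiagonal, HahnSeries.mem_support, HahnSeries.mem_support]
    exact ⟨hi.2.1, hi.2.2, by ring⟩
  · intro ij hij
    rw [Finset.mem_antidiagonal] at hij
    ext
    · rfl
    · simp only
      omega
  · intro i _
    rfl
  · intro ij hij
    rw [Finset.mem_antidiagonal] at hij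
    have h5 : m - ij.1 = ij.2 := by omega
    rw [h5]

lemma ld_der {K : Type u} [Field K] (y : LaurentSeries K) (m : ℤ) :
    (der y).coeff m = ((m + 1 : ℤ) : K) * y.coeff (m + 1) := by
  unfold der
  rw [LaurentSeries.derivative_apply, LaurentSeries.hasseDeriv_coeff, Nat.cast_one,
    Ring.choose_one_right, zsmul_eq_mul]

lemma ld_hat {K : Type u} [Field K] (δ : Derivation ℤ K K) (y : LaurentSeries K) (m : ℤ) :
    (hat δ y).coeff m = δ (y.coeff m) := rfl

/-- Part LD -/
theorem part_LD : S_LD.{u} := by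
  intro K _
  refine ⟨ld_der, ?_, ?_⟩
  · intro y z
    ext m
    obtain ⟨N, hN⟩ : ∃ N : ℤ, N = min y.order z.order := ⟨_, rfl⟩
    have hy : ∀ i, i < N → y.coeff i = 0 := fun i hi =>
      HahnSeries.coeff_eq_zero_of_lt_order (by omega)
    have hz : ∀ i, i < N → z.coeff i = 0 := fun i hi =>
      HahnSeries.coeff_eq_zero_of_lt_order (by omega)
    obtain ⟨M, hM⟩ : ∃ M : ℤ, M = m - N + 1 := ⟨_, rfl⟩
    have e1 : (y * z).coeff (m + 1) = ∑ i ∈ Icc N M, y.coeff i * z.coeff (m + 1 - i) :=
      ld_mul y z N M (m + 1) hy (fun i hi => hz _ (by omega))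
    have e2 : (y * der z).coeff m = ∑ i ∈ Icc N M, y.coeff i * (der z).coeff (m - i) :=
      ld_mul y (der z) N M m hy (fun i hi => by
        rw [ld_der, hz _ (by omega), mul_zero])
    have e3 : (der y * z).coeff m =
        ∑ i ∈ Icc (N - 1) (M - 1), (der y).coeff i * z.coeff (m - i) :=
      ld_mul (der y) z (N - 1) (M - 1) m (fun i hi => by rw [ld_der, hy _ (by omega), mul_zero])
        (fun i hi => hz _ (by omega))
    have e4 : ∑ i ∈ Icc (N - 1) (M - 1), (der y).coeff i * z.coeff (m - i) =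
        ∑ i ∈ Icc N M, ((i : ℤ) : K) * y.coeff i * z.coeff (m + 1 - i) := by
      refine Finset.sum_bij' (fun i _ => i + 1) (fun i _ => i - 1) ?_ ?_ ?_ ?_ ?_
      · intro i hi
        rw [mem_Icc] at hi ⊢
        omega
      · intro i hi
        rw [mem_Icc] at hi ⊢
        omega
      · intro i _
        omega
      · intro i _
        omega
      · intro i _
        rw [ld_der]
        congr 2
        omega
    rw [ld_der, HahnSeries.coeff_add, mul_comm z (der y), e1, e2, e3, e4, Finset.mul_sum,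
      ← Finset.sum_add_distrib]
    refine Finset.sum_congr rfl fun i _ => ?_
    rw [ld_der]
    have e5 : m - i + 1 = m + 1 - i := by omega
    rw [e5]
    push_cast
    ring
  · intro δ y z
    ext m
    obtain ⟨N, hN⟩ : ∃ N : ℤ, N = min y.order z.order := ⟨_, rfl⟩
    have hy : ∀ i, i < N → y.coeff i = 0 := fun i hi =>
      HahnSeries.coeff_eq_zero_of_lt_order (by omega)
    have hz : ∀ i, i < N → z.coeff i = 0 := fun i hi =>
      HahnSeries.coeff_eq_zero_of_lt_order (by omega)
    obtain ⟨M, hM⟩ : ∃ M : ℤ, M = m - N := ⟨_, rfl⟩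
    have e1 : (y * z).coeff m = ∑ i ∈ Icc N M, y.coeff i * z.coeff (m - i) :=
      ld_mul y z N M m hy (fun i hi => hz _ (by omega))
    have e2 : (y * hat δ z).coeff m = ∑ i ∈ Icc N M, y.coeff i * (hat δ z).coeff (m - i) :=
      ld_mul y (hat δ z) N M m hy (fun i hi => by
        rw [ld_hat, hz _ (by omega), map_zero])
    have e3 : (hat δ y * z).coeff m = ∑ i ∈ Icc N M, (hat δ y).coeff i * z.coeff (m - i) :=
      ld_mul (hat δ y) z N M m (fun i hi => by rw [ld_hat, hy _ (by omega), map_zero])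
        (fun i hi => hz _ (by omega))
    rw [ld_hat, HahnSeries.coeff_add, mul_comm z (hat δ y), e1, e2, e3, map_sum,
      ← Finset.sum_add_distrib]
    refine Finset.sum_congr rfl fun i _ => ?_
    rw [ld_hat, ld_hat, Derivation.leibniz, smul_eq_mul, smul_eq_mul]
    ring

end Pool.Agent.N780.SB
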