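import Mathlib
import Pool.Agent.N780.SB.Stm

/-!
Part LOC: the local residues.
-/

set_option autoImplicit false

namespace Pool.Agent.N780.SB

universe u

theorem loc_der {K : Type u} [Field K] (y : LaurentSeries K) (m : ℤ) :
    (der y).coeff m = ((m : K) + 1) * y.coeff (m + 1) := by
  unfold der
  rw [LaurentSeries.derivative_apply, LaurentSeries.hasseDeriv_coeff]
  simp

theorem loc_hat {K : Type u} [Field K] (δ : Derivation ℤ K K) (y : LaurentSeries K) (m : ℤ) :
    (hat δ y).coeff m = δ (y.coeff m) := rfl

theorem part_LOC : S_LOC.{u} := by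
  intro K _ δ y
  refine ⟨fun hy => ?_, fun h2 hy => ?_⟩
  · rw [HahnSeries.coeff_mul]
    refine Finset.sum_eq_zero ?_
    rintro ⟨i, j⟩ hij
    have hs : i + j = -1 := (Finset.mem_antidiagonal.1 hij).2.2
    dsimp only
    by_cases hj : j < 0
    · rw [hy j hj, mul_zero]
    · have h1 := hy (i - 1) (by omega)
      rw [loc_der, sub_add_cancel] at h1
      have h3 : (((i - 1 : ℤ) : K) + 1) = (i : K) := by push_cast; ring
      rw [h3] at h1
      rcases mul_eq_zero.1 h1 with h4 | h4
      · have h5 : ((j : K) + 1) = 0 := by
          have h6 : (i : K) + (j : K) = -1 := by exact_mod_cast congrArg (Int.cast : ℤ → K) hs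
          rw [h4, zero_add] at h6
          rw [h6]; ring
        rw [loc_der, h5, zero_mul, mul_zero]
      · rw [loc_hat, h4, map_zero, zero_mul]
  · have hA : ∀ i : ℤ, (hat δ y - HahnSeries.single (-1 : ℤ) (1 / 2 : K) * der y).coeff i =
        δ (y.coeff i) - 1 / 2 * (((i : K) + 2) * y.coeff (i + 2)) := by
      intro i
      rw [HahnSeries.coeff_sub, loc_hat, HahnSeries.coeff_single_mul, loc_der]
      have h3 : i - -1 + 1 = i + 2 := by ring
      have h4 : (((i - -1 : ℤ) : K) + 1) = (i : K) + 2 := by push_cast; ring
      rw [h3, h4]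
    rw [HahnSeries.coeff_mul, Finset.sum_eq_single ((-1 : ℤ), (0 : ℤ))]
    · dsimp only
      rw [hA, loc_der, hy (-1) (by norm_num), map_zero]
      have h3 : (-1 : ℤ) + 2 = 1 := by norm_num
      have h4 : (0 : ℤ) + 1 = 1 := by norm_num
      rw [h3, h4]
      push_cast
      field_simp
      ring
    · rintro ⟨i, j⟩ hij hne
      have hs : i + j = -1 := (Finset.mem_antidiagonal.1 hij).2.2
      dsimp only
      rcases lt_or_ge j 0 with hj | hj
      · have h3 : (der y).coeff j = 0 := by
          rw [loc_der]
          by_cases h4 : j = -1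
          · rw [h4]; push_cast; ring
          · rw [hy (j + 1) (by omega), mul_zero]
        rw [h3, mul_zero]
      · have hi : i ≠ -1 := by
          rintro rfl
          apply hne
          have : j = 0 := by omega
          rw [this]
        have h3 : (hat δ y - HahnSeries.single (-1 : ℤ) (1 / 2 : K) * der y).coeff i = 0 := by
          rw [hA, hy i (by omega), map_zero]
          by_cases h4 : i = -2
          · rw [h4]; push_cast; ring
          · rw [hy (i + 2) (by omega)]; ring
        rw [h3, zero_mul]
    · intro h
      dsimp only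
      by_contra hne
      apply h
      rw [Finset.mem_antidiagonal]
      refine ⟨?_, ?_, by norm_num⟩
      · exact left_ne_zero_of_mul hne
      · exact right_ne_zero_of_mul hne

end Pool.Agent.N780.SB
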