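import Mathlib
import Pool.Agent.N780.SB.Stm

set_option autoImplicit false

/-!
# Maximality of `A` at `x = t`
-/

namespace Pool.Agent.N780.SB

universe u v

open Matrix

section series

variable {K : Type u} [Field K]

/-- no coefficients below `w` -/
def MaxV (w : ℤ) (y : LaurentSeries K) : Prop := ∀ m : ℤ, m < w → y.coeff m = 0

theorem maxV_order {w : ℤ} {y : LaurentSeries K} (hy : y ≠ 0) : MaxV w y ↔ w ≤ y.order := by
  constructor
  · intro h
    by_contra hc
    exact hy (HahnSeries.coeff_order_eq_zero.mp (h _ (not_le.mp hc)))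
  · intro h m hm
    exact HahnSeries.coeff_eq_zero_of_lt_order (lt_of_lt_of_le hm h)

theorem maxV_mul {w w' : ℤ} {y z : LaurentSeries K} (hy : MaxV w y) (hz : MaxV w' z) :
    MaxV (w + w') (y * z) := by
  rcases eq_or_ne y 0 with h | h
  · subst h
    intro m _
    simp
  rcases eq_or_ne z 0 with h' | h'
  · subst h'
    intro m _
    simp
  rw [maxV_order (mul_ne_zero h h'), HahnSeries.order_mul h h']
  exact add_le_add ((maxV_order h).mp hy) ((maxV_order h').mp hz)

theorem maxV_add {w : ℤ} {y z : LaurentSeries K} (hy : MaxV w y) (hz : MaxV w z) :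
    MaxV w (y + z) := by
  intro m hm
  rw [HahnSeries.coeff_add, hy m hm, hz m hm, add_zero]

theorem maxV_neg {w : ℤ} {y : LaurentSeries K} (hy : MaxV w y) : MaxV w (-y) := by
  intro m hm
  rw [HahnSeries.coeff_neg, hy m hm, neg_zero]

theorem maxV_sum {ι : Type*} (s : Finset ι) {w : ℤ} {y : ι → LaurentSeries K}
    (hy : ∀ i ∈ s, MaxV w (y i)) : MaxV w (∑ i ∈ s, y i) := by
  classical
  induction s using Finset.induction_on with
  | empty => intro m _; simp
  | insert i s his ih =>
    rw [Finset.sum_insert his]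
    exact maxV_add (hy i (Finset.mem_insert_self _ _))
      (ih fun j hj => hy j (Finset.mem_insert_of_mem hj))

theorem maxV_one : MaxV 0 (1 : LaurentSeries K) := by
  intro m hm
  rw [HahnSeries.coeff_one]
  exact if_neg hm.ne

/-- the regular series -/
def maxReg (K : Type u) [Field K] : Subring (LaurentSeries K) where
  carrier := {y | MaxV 0 y}
  mul_mem' := fun {a b} ha hb => by
    have := maxV_mul ha hb
    rwa [add_zero] at this
  one_mem' := maxV_one
  add_mem' := fun ha hb => maxV_add ha hb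
  zero_mem' := fun m _ => by simp
  neg_mem' := fun ha => maxV_neg ha

theorem mem_maxReg {y : LaurentSeries K} : y ∈ maxReg K ↔ MaxV 0 y := Iff.rfl

theorem max_adj {n : ℕ} (M : Matrix (Fin n) (Fin n) (LaurentSeries K)) (hM : ∀ i j, MaxV 0 (M i j))
    (i j : Fin n) : MaxV 0 (M.adjugate i j) := by
  set M' : Matrix (Fin n) (Fin n) (maxReg K) := Matrix.of fun i j => ⟨M i j, hM i j⟩ with hM'
  have e : (maxReg K).subtype.mapMatrix M' = M := by
    ext i j
    rfl
  have h1 := RingHom.map_adjugate (maxReg K).subtype M'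
  rw [e] at h1
  rw [← h1]
  exact (M'.adjugate i j).2

theorem max_single_order : (HahnSeries.single (2 : ℤ) (1 : K)).order = 2 :=
  HahnSeries.order_single one_ne_zero

theorem max_single_ne : (HahnSeries.single (2 : ℤ) (1 : K)) ≠ 0 := by
  intro h
  have := congrArg (fun y : LaurentSeries K => y.coeff 2) h
  simp at this

theorem maxV_single : MaxV 2 (HahnSeries.single (2 : ℤ) (1 : K)) := by
  intro m hm
  exact HahnSeries.coeff_single_of_ne hm.ne

end series

section OO

variable {K : Type u} [Field K]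

/-- evaluation at `t` -/
theorem max_split (S : Finset K) (t : K) (ht : t ∉ S) (r : RatFunc K) (hr : r ∈ OO S) :
    ∃ (b : K), ∃ r' ∈ OO S, r = RatFunc.C b + (RatFunc.X - RatFunc.C t) * r' := by
  have hC : ∀ b : K, RatFunc.C b ∈ OO S := fun b =>
    Subring.subset_closure (Or.inl (Or.inl ⟨b, rfl⟩))
  have hX : RatFunc.X ∈ OO S := Subring.subset_closure (Or.inl (Or.inr rfl))
  unfold OO at hr
  induction hr using Subring.closure_induction with
  | mem y hy =>
    rcases hy with (⟨b, rfl⟩ | rfl) | ⟨c, hc, rfl⟩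
    · exact ⟨b, 0, (OO S).zero_mem, by ring⟩
    · exact ⟨t, 1, (OO S).one_mem, by ring⟩
    · have hct : t - c ≠ 0 := by
        intro h
        rw [sub_eq_zero] at h
        exact ht (h ▸ hc)
      have hinv : (RatFunc.X - RatFunc.C c)⁻¹ ∈ OO S :=
        Subring.subset_closure (Or.inr ⟨c, hc, rfl⟩)
      refine ⟨(t - c)⁻¹, -(RatFunc.C (t - c)⁻¹ * (RatFunc.X - RatFunc.C c)⁻¹),
        (OO S).neg_mem ((OO S).mul_mem (hC _) hinv), ?_⟩
      have h1 : (RatFunc.X - RatFunc.C c : RatFunc K) ≠ 0 := by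
        intro h
        rw [sub_eq_zero] at h
        rw [← RatFunc.algebraMap_X, ← RatFunc.algebraMap_C] at h
        exact Polynomial.X_ne_C c (RatFunc.algebraMap_injective K h)
      have h2 : (RatFunc.C (t - c) : RatFunc K) ≠ 0 := by
        rw [Ne, map_eq_zero]
        exact hct
      have h3 : (RatFunc.C (t - c)⁻¹ : RatFunc K) = (RatFunc.C (t - c))⁻¹ := map_inv₀ _ _
      rw [h3]
      field_simp
      rw [map_sub]
      ring
  | zero => exact ⟨0, 0, (OO S).zero_mem, by simp⟩
  | one => exact ⟨1, 0, (OO S).zero_mem, by simp⟩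
  | add y z _ _ hy hz =>
    obtain ⟨b, r', hr', e⟩ := hy
    obtain ⟨b', s', hs', e'⟩ := hz
    refine ⟨b + b', r' + s', (OO S).add_mem hr' hs', ?_⟩
    rw [e, e', map_add]
    ring
  | neg y _ hy =>
    obtain ⟨b, r', hr', e⟩ := hy
    refine ⟨-b, -r', (OO S).neg_mem hr', ?_⟩
    rw [e, map_neg]
    ring
  | mul y z _ _ hy hz =>
    obtain ⟨b, r', hr', e⟩ := hy
    obtain ⟨b', s', hs', e'⟩ := hz
    refine ⟨b * b', RatFunc.C b * s' + RatFunc.C b' * r' +
      (RatFunc.X - RatFunc.C t) * (r' * s'), ?_, ?_⟩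
    · refine (OO S).add_mem ((OO S).add_mem ((OO S).mul_mem (hC _) hs')
        ((OO S).mul_mem (hC _) hr')) ((OO S).mul_mem ((OO S).sub_mem hX (hC _))
        ((OO S).mul_mem hr' hs'))
    · rw [e, e', map_mul]
      ring

theorem max_ext {L : Type*} [Field L] (φ₁ φ₂ : RatFunc K →+* L) (hX : φ₁ RatFunc.X = φ₂ RatFunc.X)
    (hC : ∀ a, φ₁ (RatFunc.C a) = φ₂ (RatFunc.C a)) : φ₁ = φ₂ := by
  apply IsLocalization.ringHom_ext (nonZeroDivisors (Polynomial K))
  apply Polynomial.ringHom_ext
  · intro a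
    simp only [RingHom.comp_apply, RatFunc.algebraMap_C]
    exact hC a
  · simp only [RingHom.comp_apply, RatFunc.algebraMap_X]
    exact hX

end OO

theorem part_MAX (hTR : S_TR.{u, v}) (hINT : S_INT.{u, v}) : S_MAX.{u, v} := by
  intro K F _ _ _ _ _ S t ht n hn a ha σ hσinj hσ f hf hreg
  classical
  obtain ⟨r, hr, hfr⟩ := hf
  have hC : ∀ b : K, RatFunc.C b ∈ OO S := fun b =>
    Subring.subset_closure (Or.inl (Or.inl ⟨b, rfl⟩))
  -- elements of `O` and the generators are in `A`
  have hOA : ∀ q ∈ OO S, InA S a (algebraMap (RatFunc K) F q) := by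
    intro q hq
    obtain ⟨s, hs, e⟩ := ha.one
    refine ⟨fun i => q * s i, fun i => (OO S).mul_mem hq (hs i), ?_⟩
    have : algebraMap (RatFunc K) F q = algebraMap (RatFunc K) F q * 1 := by rw [mul_one]
    rw [this, e, Finset.mul_sum]
    apply Finset.sum_congr rfl
    intro i _
    rw [map_mul, mul_assoc]
  have hgen : ∀ k, InA S a (a k) := by
    intro k
    refine ⟨fun i => if i = k then 1 else 0, fun i => ?_, ?_⟩
    · rcases eq_or_ne i k with h | h
      · simp only [if_pos h]
        exact (OO S).one_mem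
      · simp only [if_neg h]
        exact (OO S).zero_mem
    · rw [Finset.sum_eq_single k]
      · simp
      · intro b _ hb
        simp [hb]
      · simp
  have hregA : ∀ (j : Fin n) (g : F), InA S a g → MaxV 0 (σ j g) := fun j g hg m hm =>
    hINT K F S t ht n a ha (σ j) (hσ j) g hg m hm
  -- the common restriction
  set ψ : RatFunc K →+* LaurentSeries K := (σ ⟨0, hn⟩).comp (algebraMap (RatFunc K) F) with hψ
  have hψeq : ∀ j, (σ j).comp (algebraMap (RatFunc K) F) = ψ := by
    intro j
    apply max_ext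
    · exact (hσ j).1.trans (hσ _).1.symm
    · intro b
      exact ((hσ j).2 b).trans ((hσ _).2 b).symm
  have hψj : ∀ j (q : RatFunc K), σ j (algebraMap (RatFunc K) F q) = ψ q := fun j q =>
    congrArg (fun φ : RatFunc K →+* LaurentSeries K => φ q) (hψeq j)
  have hψreg : ∀ q ∈ OO S, MaxV 0 (ψ q) := by
    intro q hq
    rw [← hψj ⟨0, hn⟩]
    exact hregA _ _ (hOA q hq)
  have hψX : ψ (RatFunc.X - RatFunc.C t) = HahnSeries.single (2 : ℤ) (1 : K) := by
    have h1 : ψ RatFunc.X = atFin 2 t := (hσ ⟨0, hn⟩).1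
    have h2 : ψ (RatFunc.C t) = HahnSeries.C t := (hσ ⟨0, hn⟩).2 t
    rw [map_sub, h1, h2]
    unfold atFin
    push_cast
    ring
  have hσX : ∀ j, σ j (xF K F - cF F t) = HahnSeries.single (2 : ℤ) (1 : K) := by
    intro j
    have : xF K F - cF F t = algebraMap (RatFunc K) F (RatFunc.X - RatFunc.C t) := by
      rw [map_sub]
      rfl
    rw [this, hψj, hψX]
  -- the matrix
  set M : Matrix (Fin n) (Fin n) (LaurentSeries K) := Matrix.of fun j k => σ j (a k) with hM
  have hMreg : ∀ j k, MaxV 0 (M j k) := fun j k => hregA j _ (hgen k)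
  obtain ⟨q, hq, hq', hq0, hdisc⟩ := ha.disc
  have hdet2 : M.det ^ 2 = ψ q * HahnSeries.single (2 : ℤ) (1 : K) := by
    have h1 := (hTR K F n hn ha.rank (atFin 2 t) σ hσinj hσ).2.2 a ⟨0, hn⟩
    rw [hψj, hdisc, map_mul, hψX] at h1
    exact h1.symm
  have hψq0 : ψ q ≠ 0 := by
    rw [Ne, map_eq_zero]
    exact hq0
  have hψqo : (ψ q).order = 0 := by
    have h1 : 0 ≤ (ψ q).order := (maxV_order hψq0).mp (hψreg q hq)
    have h2 : ψ q⁻¹ ≠ 0 := by
      rw [Ne, map_eq_zero]
      exact inv_ne_zero hq0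
    have h3 : 0 ≤ (ψ q⁻¹).order := (maxV_order h2).mp (hψreg _ hq')
    have h4 : ψ q * ψ q⁻¹ = 1 := by rw [← map_mul, mul_inv_cancel₀ hq0, map_one]
    have h5 := HahnSeries.order_mul hψq0 h2
    rw [h4, HahnSeries.order_one] at h5
    omega
  have hdet0 : M.det ≠ 0 := by
    intro h
    rw [h] at hdet2
    have h1 : ψ q * HahnSeries.single (2 : ℤ) (1 : K) ≠ 0 := mul_ne_zero hψq0 max_single_ne
    apply h1
    rw [← hdet2]
    ring
  have hdeto : M.det.order = 1 := by
    have h1 := congrArg HahnSeries.order hdet2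
    rw [sq, HahnSeries.order_mul hdet0 hdet0, HahnSeries.order_mul hψq0 max_single_ne, hψqo,
      max_single_order] at h1
    omega
  -- the coefficients vanish at `t`
  set w : Fin n → LaurentSeries K := fun k => ψ (r k) with hw
  have hMw : M.mulVec w = fun j => HahnSeries.single (2 : ℤ) (1 : K) * σ j f := by
    funext j
    have h1 := congrArg (σ j) hfr
    rw [map_mul, hσX, map_sum] at h1
    rw [h1]
    simp only [Matrix.mulVec, dotProduct, hM, Matrix.of_apply, hw]
    apply Finset.sum_congr rfl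
    intro k _
    rw [map_mul, hψj, mul_comm]
  have hadj : ∀ k, M.det * w k = ∑ j, M.adjugate k j * (HahnSeries.single (2 : ℤ) (1 : K) * σ j f) := by
    intro k
    have h1 : M.adjugate.mulVec (M.mulVec w) = M.det • w := by
      rw [Matrix.mulVec_mulVec, Matrix.adjugate_mul, Matrix.smul_mulVec, Matrix.one_mulVec]
    rw [hMw] at h1
    have h2 := congrFun h1 k
    simp only [Matrix.mulVec, dotProduct, Pi.smul_apply, smul_eq_mul] at h2
    exact h2.symm
  have hw0 : ∀ k, (w k).coeff 0 = 0 := by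
    intro k
    rcases eq_or_ne (w k) 0 with h0 | h0
    · rw [h0]
      simp
    · have h1 : MaxV 2 (M.det * w k) := by
        rw [hadj k]
        apply maxV_sum
        intro j _
        have h2 := maxV_mul (max_adj M hMreg k j) (maxV_mul (maxV_single (K := K))
          (show MaxV 0 (σ j f) from hreg j))
        have e : (0 : ℤ) + (2 + 0) = 2 := by norm_num
        rwa [e] at h2
      rw [maxV_order (mul_ne_zero hdet0 h0), HahnSeries.order_mul hdet0 h0, hdeto] at h1
      exact HahnSeries.coeff_eq_zero_of_lt_order (by omega)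
  -- division by `x - t`
  have hdiv : ∀ k, ∃ r' ∈ OO S, r k = (RatFunc.X - RatFunc.C t) * r' := by
    intro k
    obtain ⟨b, r', hr', e⟩ := max_split S t ht (r k) (hr k)
    have hb : b = 0 := by
      have h1 : w k = HahnSeries.C b + HahnSeries.single (2 : ℤ) (1 : K) * ψ r' := by
        have h2 : ψ (RatFunc.C b) = HahnSeries.C b := (hσ ⟨0, hn⟩).2 b
        simp only [hw]
        rw [e, map_add, map_mul, hψX, h2]
      have h3 := hw0 k
      have h4 := maxV_mul (maxV_single (K := K)) (hψreg r' hr') 0 (by norm_num)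
      rw [h1, HahnSeries.coeff_add, h4, add_zero] at h3
      simpa using h3
    exact ⟨r', hr', by rw [e, hb, map_zero, zero_add]⟩
  choose r' hr' hrr' using hdiv
  refine ⟨r', hr', ?_⟩
  have hx0 : xF K F - cF F t ≠ 0 := by
    intro h
    have h1 := hσX ⟨0, hn⟩
    rw [h, map_zero] at h1
    exact max_single_ne h1.symm
  apply mul_left_cancel₀ hx0
  rw [hfr, Finset.mul_sum]
  apply Finset.sum_congr rfl
  intro k _
  rw [hrr' k, map_mul, map_sub]
  unfold xF cF
  ring

end Pool.Agent.N780.SB
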