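import Pool.Agent.N780.SB.Stm

set_option autoImplicit false

/-!
Part RES (helper492): the residue theorem on the line.
-/

namespace Pool.Agent.N780.SB

universe u

namespace Res

open HahnSeries

variable {K : Type u} [Field K]

/-- the function `1 / (x - e)` -/
noncomputable def Y (e : K) : RatFunc K := (RatFunc.X - RatFunc.C e)⁻¹

theorem X_sub_ne (e : K) : (RatFunc.X - RatFunc.C e : RatFunc K) ≠ 0 := by
  rw [← RatFunc.algebraMap_X, ← RatFunc.algebraMap_C, ← map_sub]
  exact RatFunc.algebraMap_ne_zero (Polynomial.X_sub_C_ne_zero e)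

theorem X_mul_Y (e : K) : RatFunc.X * Y e = 1 + RatFunc.C e * Y e := by
  have h := mul_inv_cancel₀ (X_sub_ne e)
  unfold Y
  linear_combination h

theorem Y_mul_Y {e c : K} (h : e ≠ c) :
    Y e * Y c = RatFunc.C ((e - c)⁻¹) * (Y e - Y c) := by
  have h1 := mul_inv_cancel₀ (X_sub_ne e)
  have h2 := mul_inv_cancel₀ (X_sub_ne c)
  have h3 : (RatFunc.C e - RatFunc.C c : RatFunc K) ≠ 0 := by
    rw [← map_sub]
    intro h4
    exact sub_ne_zero.2 h (RatFunc.C_injective (h4.trans (map_zero _).symm))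
  rw [map_inv₀, map_sub, eq_inv_mul_iff_mul_eq₀ h3]
  unfold Y
  linear_combination (RatFunc.X - RatFunc.C c)⁻¹ * (-h1) + (RatFunc.X - RatFunc.C e)⁻¹ * h2

/-- the generators of the space of rational functions -/
def Gen (S : Finset K) : Set (RatFunc K) :=
  {r | (∃ (a : K) (m : ℕ), r = RatFunc.C a * RatFunc.X ^ m) ∨
    ∃ (a e : K) (m : ℕ), e ∈ S ∧ r = RatFunc.C a * Y e ^ (m + 1)}

/-- the space of rational functions -/
noncomputable def Vs (S : Finset K) : AddSubgroup (RatFunc K) := AddSubgroup.closure (Gen S)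

theorem mem_X (S : Finset K) (a : K) (m : ℕ) : RatFunc.C a * RatFunc.X ^ m ∈ Vs S :=
  AddSubgroup.subset_closure (Or.inl ⟨a, m, rfl⟩)

theorem mem_Y {S : Finset K} (a : K) {e : K} (he : e ∈ S) (m : ℕ) :
    RatFunc.C a * Y e ^ m ∈ Vs S := by
  rcases m with _ | m
  · have := mem_X S a 0
    rwa [pow_zero] at this ⊢
  · exact AddSubgroup.subset_closure (Or.inr ⟨a, e, m, he, rfl⟩)

theorem closed_gen (S : Finset K) (r : RatFunc K)
    (h : ∀ v ∈ Gen S, r * v ∈ Vs S) : ∀ v ∈ Vs S, r * v ∈ Vs S := by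
  intro v hv
  refine AddSubgroup.closure_induction (p := fun v _ => r * v ∈ Vs S) (fun v hv => h v hv) ?_ ?_ ?_
    hv
  · rw [mul_zero]
    exact (Vs S).zero_mem
  · intro x y _ _ hx hy
    rw [mul_add]
    exact (Vs S).add_mem hx hy
  · intro x _ hx
    rw [mul_neg]
    exact (Vs S).neg_mem hx

theorem closed_C (S : Finset K) (b : K) : ∀ v ∈ Vs S, RatFunc.C b * v ∈ Vs S := by
  refine closed_gen S _ ?_
  rintro v (⟨a, m, rfl⟩ | ⟨a, e, m, he, rfl⟩)
  · rw [← mul_assoc, ← map_mul]
    exact mem_X S _ m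
  · rw [← mul_assoc, ← map_mul]
    exact mem_Y _ he (m + 1)

theorem closed_X (S : Finset K) : ∀ v ∈ Vs S, RatFunc.X * v ∈ Vs S := by
  refine closed_gen S _ ?_
  rintro v (⟨a, m, rfl⟩ | ⟨a, e, m, he, rfl⟩)
  · have h : RatFunc.X * (RatFunc.C a * RatFunc.X ^ m) = RatFunc.C a * RatFunc.X ^ (m + 1) := by
      ring
    rw [h]
    exact mem_X S _ _
  · have h : RatFunc.X * (RatFunc.C a * Y e ^ (m + 1)) =
        RatFunc.C a * Y e ^ m + RatFunc.C (a * e) * Y e ^ (m + 1) := by
      rw [map_mul]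
      linear_combination (RatFunc.C a * Y e ^ m) * X_mul_Y e
    rw [h]
    exact (Vs S).add_mem (mem_Y _ he _) (mem_Y _ he _)

theorem closed_Y {S : Finset K} {e : K} (he : e ∈ S) : ∀ v ∈ Vs S, Y e * v ∈ Vs S := by
  refine closed_gen S _ ?_
  rintro v (⟨a, m, rfl⟩ | ⟨a, c, m, hc, rfl⟩)
  · induction m generalizing a with
    | zero =>
      have h : Y e * (RatFunc.C a * RatFunc.X ^ 0) = RatFunc.C a * Y e ^ 1 := by ring
      rw [h]
      exact mem_Y _ he _
    | succ m ih =>
      have h : Y e * (RatFunc.C a * RatFunc.X ^ (m + 1)) =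
          RatFunc.C a * RatFunc.X ^ m + Y e * (RatFunc.C (a * e) * RatFunc.X ^ m) := by
        rw [map_mul]
        linear_combination (RatFunc.C a * RatFunc.X ^ m) * X_mul_Y e
      rw [h]
      exact (Vs S).add_mem (mem_X S _ _) (ih _)
  · by_cases hec : e = c
    · subst hec
      have h : Y e * (RatFunc.C a * Y e ^ (m + 1)) = RatFunc.C a * Y e ^ (m + 2) := by ring
      rw [h]
      exact mem_Y _ he _
    · induction m generalizing a with
      | zero =>
        have h : Y e * (RatFunc.C a * Y c ^ (0 + 1)) =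
            RatFunc.C (a * (e - c)⁻¹) * Y e ^ 1 - RatFunc.C (a * (e - c)⁻¹) * Y c ^ 1 := by
          rw [map_mul]
          linear_combination (RatFunc.C a) * Y_mul_Y hec
        rw [h]
        exact (Vs S).sub_mem (mem_Y _ he _) (mem_Y _ hc _)
      | succ m ih =>
        have h : Y e * (RatFunc.C a * Y c ^ (m + 1 + 1)) =
            Y e * (RatFunc.C (a * (e - c)⁻¹) * Y c ^ (m + 1)) -
              RatFunc.C (a * (e - c)⁻¹) * Y c ^ (m + 2) := by
          rw [map_mul]
          linear_combination (RatFunc.C a * Y c ^ (m + 1)) * Y_mul_Y hec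
        rw [h]
        exact (Vs S).sub_mem (ih _) (mem_Y _ hc _)

theorem OO_le (S : Finset K) (r : RatFunc K) (hr : r ∈ OO S) : r ∈ Vs S := by
  have key : ∀ v ∈ Vs S, r * v ∈ Vs S := by
    refine Subring.closure_induction (p := fun r _ => ∀ v ∈ Vs S, r * v ∈ Vs S)
      ?_ ?_ ?_ ?_ ?_ ?_ hr
    · rintro x ((⟨a, rfl⟩ | hx) | ⟨c, hc, rfl⟩)
      · exact closed_C S a
      · rw [Set.mem_singleton_iff] at hx
        rw [hx]
        exact closed_X S
      · exact closed_Y hc
    · intro v _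
      rw [zero_mul]
      exact (Vs S).zero_mem
    · intro v hv
      rwa [one_mul]
    · intro x y _ _ hx hy v hv
      rw [add_mul]
      exact (Vs S).add_mem (hx v hv) (hy v hv)
    · intro x _ hx v hv
      rw [neg_mul]
      exact (Vs S).neg_mem (hx v hv)
    · intro x y _ _ hx hy v hv
      rw [mul_assoc]
      exact hx _ (hy v hv)
  have h1 : (1 : RatFunc K) ∈ Vs S := by
    have := mem_X S 1 0
    rwa [pow_zero, mul_one, map_one] at this
  have h2 := key 1 h1
  rwa [mul_one] at h2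

/-! ### Laurent series -/

/-- power series -/
noncomputable def ps (f : PowerSeries K) : LaurentSeries K := HahnSeries.ofPowerSeries ℤ K f

theorem ps_mul (f g : PowerSeries K) : ps (f * g) = ps f * ps g := map_mul _ _ _

theorem ps_pow (f : PowerSeries K) (n : ℕ) : ps (f ^ n) = ps f ^ n := map_pow _ _ _

theorem coeff_ps (f : PowerSeries K) : (ps f).coeff (-1) = 0 := by
  have := PowerSeries.coeff_coe (f := f) (-1)
  simpa [ps] using this

theorem coeff_ps_zero (f : PowerSeries K) : (ps f).coeff 0 = PowerSeries.constantCoeff f := by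
  have := PowerSeries.coeff_coe (f := f) 0
  simpa [ps] using this

theorem ps_inv {f : PowerSeries K} (hf : PowerSeries.constantCoeff f ≠ 0) :
    (ps f)⁻¹ = ps f⁻¹ := by
  refine inv_eq_of_mul_eq_one_right ?_
  rw [← ps_mul, PowerSeries.mul_inv_cancel _ hf]
  exact map_one _

theorem single_nat (n : ℕ) : (HahnSeries.single (n : ℤ) (1 : K) : LaurentSeries K) =
    ps (PowerSeries.X ^ n) := by
  unfold ps
  rw [HahnSeries.ofPowerSeries_X_pow]

theorem C_ps (a : K) : (HahnSeries.C a : LaurentSeries K) = ps (PowerSeries.C a) :=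
  (HahnSeries.ofPowerSeries_C a).symm

theorem ps_add (f g : PowerSeries K) : ps (f + g) = ps f + ps g := map_add _ _ _

theorem ps_sub (f g : PowerSeries K) : ps (f - g) = ps f - ps g := map_sub _ _ _

theorem der_single (n : ℤ) (a : K) :
    der (HahnSeries.single n a : LaurentSeries K) = HahnSeries.single (n - 1) ((n : K) * a) := by
  unfold der
  rw [LaurentSeries.derivative_apply, LaurentSeries.hasseDeriv_single]
  simp

theorem der_fin {E : ℕ} (hE : 0 < E) (c : K) :
    der (atFin E c) = ps (PowerSeries.C (E : K) * PowerSeries.X ^ (E - 1)) := by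
  have h1 : der (atFin E c) = der (HahnSeries.C c) + der (HahnSeries.single (E : ℤ) (1 : K)) := by
    unfold atFin der
    exact map_add _ _ _
  have h2 : der (HahnSeries.C c : LaurentSeries K) = 0 := by
    have : (HahnSeries.C c : LaurentSeries K) = HahnSeries.single 0 c := rfl
    rw [this, der_single]
    simp
  have h3 : ((E : ℤ) - 1) = ((E - 1 : ℕ) : ℤ) := by omega
  have h4 : (HahnSeries.C (E : K) : LaurentSeries K) = HahnSeries.single 0 (E : K) := rfl
  rw [h1, h2, zero_add, der_single, ps_mul, ← C_ps, ← single_nat, h3, h4,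
    HahnSeries.single_mul_single, zero_add]
  simp

theorem der_inf (E : ℕ) :
    der (atInf K E) = HahnSeries.single (-(E : ℤ) - 1) (-(E : K)) := by
  unfold atInf
  rw [der_single]
  simp

theorem fin_X {E : ℕ} (hE : 0 < E) (c : K) {φ : RatFunc K →+* LaurentSeries K}
    (hX : φ RatFunc.X = atFin E c) (m : ℕ) :
    (φ (RatFunc.X ^ m) * der (atFin E c)).coeff (-1) = 0 := by
  rw [map_pow, hX, der_fin hE]
  have h1 : atFin E c = ps (PowerSeries.C c + PowerSeries.X ^ E) := by
    rw [ps_add, ← C_ps, ← single_nat]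
    rfl
  rw [h1, ← ps_pow, ← ps_mul]
  exact coeff_ps _

theorem map_Y {ξ : LaurentSeries K} {φ : RatFunc K →+* LaurentSeries K}
    (hX : φ RatFunc.X = ξ) (hC : ∀ a : K, φ (RatFunc.C a) = HahnSeries.C a) (e : K) (m : ℕ) :
    φ (Y e ^ m) = ((ξ - HahnSeries.C e)⁻¹) ^ m := by
  unfold Y
  rw [map_pow, map_inv₀, map_sub, hX, hC]

theorem fin_Y_ne {E : ℕ} (hE : 0 < E) {c e : K} (hce : c ≠ e)
    {φ : RatFunc K →+* LaurentSeries K}
    (hX : φ RatFunc.X = atFin E c) (hC : ∀ a : K, φ (RatFunc.C a) = HahnSeries.C a) (m : ℕ) :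
    (φ (Y e ^ m) * der (atFin E c)).coeff (-1) = 0 := by
  rw [map_Y hX hC, der_fin hE]
  have h1 : atFin E c - HahnSeries.C e = ps (PowerSeries.C (c - e) + PowerSeries.X ^ E) := by
    rw [ps_add, ← C_ps, ← single_nat, map_sub]
    unfold atFin
    ring
  have h2 : PowerSeries.constantCoeff (PowerSeries.C (c - e) + PowerSeries.X ^ E) ≠ 0 := by
    rw [map_add, map_pow, PowerSeries.constantCoeff_C, PowerSeries.constantCoeff_X,
      zero_pow hE.ne', add_zero]
    exact sub_ne_zero.2 hce
  rw [h1, ps_inv h2, ← ps_pow, ← ps_mul]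
  exact coeff_ps _

theorem fin_Y_eq {E : ℕ} (hE : 0 < E) (c : K)
    {φ : RatFunc K →+* LaurentSeries K}
    (hX : φ RatFunc.X = atFin E c) (hC : ∀ a : K, φ (RatFunc.C a) = HahnSeries.C a) (m : ℕ) :
    (φ (Y c ^ (m + 1)) * der (atFin E c)).coeff (-1) = if m = 0 then (E : K) else 0 := by
  rw [map_Y hX hC]
  have h1 : atFin E c - HahnSeries.C c = HahnSeries.single (E : ℤ) (1 : K) := by
    unfold atFin
    ring
  have h2 : (HahnSeries.single (E : ℤ) (1 : K) : LaurentSeries K)⁻¹ =
      HahnSeries.single (-(E : ℤ)) 1 := by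
    refine inv_eq_of_mul_eq_one_right ?_
    rw [HahnSeries.single_mul_single]
    simp
  have h3 : der (atFin E c) = HahnSeries.single ((E : ℤ) - 1) (E : K) := by
    have g1 : der (atFin E c) = der (HahnSeries.C c) +
        der (HahnSeries.single (E : ℤ) (1 : K)) := by
      unfold atFin der
      exact map_add _ _ _
    have g2 : der (HahnSeries.C c : LaurentSeries K) = 0 := by
      have : (HahnSeries.C c : LaurentSeries K) = HahnSeries.single 0 c := rfl
      rw [this, der_single]
      simp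
    rw [g1, g2, zero_add, der_single]
    simp
  rw [h1, h2, h3, HahnSeries.single_pow, HahnSeries.single_mul_single, one_pow, one_mul]
  split_ifs with h
  · subst h
    have h4 : (0 + 1) • (-(E : ℤ)) + ((E : ℤ) - 1) = -1 := by
      rw [zero_add, one_smul]
      ring
    rw [h4, HahnSeries.coeff_single_same]
  · refine HahnSeries.coeff_single_of_ne ?_
    intro h4
    rw [nsmul_eq_mul] at h4
    push_cast at h4
    have h5 : ((m : ℤ)) * (E : ℤ) = 0 := by linarith
    rcases mul_eq_zero.1 h5 with h6 | h6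
    · exact h (by exact_mod_cast h6)
    · have : E = 0 := by exact_mod_cast h6
      omega

theorem inf_X {E : ℕ} (hE : 0 < E) {φ : RatFunc K →+* LaurentSeries K}
    (hX : φ RatFunc.X = atInf K E) (m : ℕ) :
    (φ (RatFunc.X ^ m) * der (atInf K E)).coeff (-1) = 0 := by
  rw [map_pow, hX, der_inf]
  unfold atInf
  rw [HahnSeries.single_pow, HahnSeries.single_mul_single]
  refine HahnSeries.coeff_single_of_ne ?_
  intro h4
  rw [nsmul_eq_mul] at h4
  have h5 : ((m : ℤ) + 1) * (E : ℤ) = 0 := by linarith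
  rcases mul_eq_zero.1 h5 with h6 | h6
  · omega
  · have : E = 0 := by exact_mod_cast h6
    omega

theorem inf_Y {E : ℕ} (hE : 0 < E) (e : K) {φ : RatFunc K →+* LaurentSeries K}
    (hX : φ RatFunc.X = atInf K E) (hC : ∀ a : K, φ (RatFunc.C a) = HahnSeries.C a) (m : ℕ) :
    (φ (Y e ^ (m + 1)) * der (atInf K E)).coeff (-1) = if m = 0 then -(E : K) else 0 := by
  rw [map_Y hX hC, der_inf]
  set f : PowerSeries K := 1 - PowerSeries.C e * PowerSeries.X ^ E with hf
  have h0 : PowerSeries.constantCoeff f = 1 := by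
    rw [hf, map_sub, map_mul, map_pow, PowerSeries.constantCoeff_C, PowerSeries.constantCoeff_X,
      zero_pow hE.ne', mul_zero, sub_zero, map_one]
  have h0' : PowerSeries.constantCoeff f ≠ 0 := by
    rw [h0]
    exact one_ne_zero
  have hs : (HahnSeries.single (-(E : ℤ)) (1 : K) : LaurentSeries K) *
      HahnSeries.single (E : ℤ) 1 = 1 := by
    rw [HahnSeries.single_mul_single]
    simp
  have h1 : atInf K E - HahnSeries.C e = HahnSeries.single (-(E : ℤ)) (1 : K) * ps f := by
    rw [hf, ps_sub, ps_mul, ← single_nat, ← C_ps]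
    have h2 : ps (1 : PowerSeries K) = 1 := map_one _
    rw [h2]
    unfold atInf
    linear_combination (HahnSeries.C e : LaurentSeries K) * hs
  have h3 : (HahnSeries.single (-(E : ℤ)) (1 : K) : LaurentSeries K)⁻¹ =
      HahnSeries.single (E : ℤ) 1 := inv_eq_of_mul_eq_one_right hs
  have h4 : ((atInf K E - HahnSeries.C e)⁻¹) ^ (m + 1) *
      HahnSeries.single (-(E : ℤ) - 1) (-(E : K)) =
      HahnSeries.single ((m * E : ℕ) - 1 : ℤ) (-(E : K)) * ps (f⁻¹ ^ (m + 1)) := by
    rw [h1, mul_inv, h3, ps_inv h0', mul_pow, HahnSeries.single_pow, ps_pow, one_pow]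
    have h5 : (HahnSeries.single ((m * E : ℕ) - 1 : ℤ) (-(E : K)) : LaurentSeries K) =
        HahnSeries.single ((m + 1) • (E : ℤ)) 1 * HahnSeries.single (-(E : ℤ) - 1) (-(E : K)) := by
      rw [HahnSeries.single_mul_single, one_mul]
      congr 1
      rw [nsmul_eq_mul]
      push_cast
      ring
    rw [h5]
    ring
  rw [h4]
  have h6 : (HahnSeries.single ((m * E : ℕ) - 1 : ℤ) (-(E : K)) * ps (f⁻¹ ^ (m + 1))).coeff (-1) =
      -(E : K) * (ps (f⁻¹ ^ (m + 1))).coeff (-((m * E : ℕ) : ℤ)) := by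
    have := HahnSeries.coeff_single_mul_add (r := -(E : K)) (x := ps (f⁻¹ ^ (m + 1)))
      (a := -((m * E : ℕ) : ℤ)) (b := ((m * E : ℕ) - 1 : ℤ))
    rw [← this]
    congr 1
    ring
  rw [h6]
  split_ifs with h
  · subst h
    rw [zero_mul, Nat.cast_zero, neg_zero, coeff_ps_zero, map_pow, PowerSeries.constantCoeff_inv,
      h0]
    simp
  · have h7 : (ps (f⁻¹ ^ (m + 1))).coeff (-((m * E : ℕ) : ℤ)) = 0 := by
      have h8 := PowerSeries.coeff_coe (f := f⁻¹ ^ (m + 1)) (-((m * E : ℕ) : ℤ))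
      have h9 : 0 < m * E := Nat.mul_pos (Nat.pos_of_ne_zero h) hE
      rw [if_pos (by omega)] at h8
      exact h8
    rw [h7, mul_zero]

end Res

open Res in
theorem part_RES : S_RES.{u} := by
  intro K _ S t ht E hE φ ψ χ hφ hψ hχ R k hR
  classical
  -- the functional
  set Λ : RatFunc K → K := fun R => 2 * ∑ c ∈ S, (φ c R * der (atFin E c)).coeff (-1) +
    (E : K) * (ψ R * der (atFin 2 t)).coeff (-1) + 2 * (χ R * der (atInf K E)).coeff (-1) with hΛ
  have hadd : ∀ R R', Λ (R + R') = Λ R + Λ R' := by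
    intro R R'
    simp only [hΛ, map_add, add_mul, HahnSeries.coeff_add, Finset.sum_add_distrib]
    ring
  have hzero : Λ 0 = 0 := by
    simp [hΛ]
  have hneg : ∀ R, Λ (-R) = -Λ R := by
    intro R
    simp only [hΛ, map_neg, neg_mul, HahnSeries.coeff_neg, Finset.sum_neg_distrib]
    ring
  have hC : ∀ (a : K) (R : RatFunc K), Λ (RatFunc.C a * R) = a * Λ R := by
    intro a R
    have h1 : ∀ c ∈ S, (φ c (RatFunc.C a * R) * der (atFin E c)).coeff (-1) =
        a * (φ c R * der (atFin E c)).coeff (-1) := by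
      intro c hc
      rw [map_mul, (hφ c hc).2, mul_assoc, HahnSeries.C_mul_eq_smul, HahnSeries.coeff_smul,
        smul_eq_mul]
    simp only [hΛ]
    rw [Finset.sum_congr rfl h1, map_mul, hψ.2, mul_assoc, HahnSeries.C_mul_eq_smul,
      HahnSeries.coeff_smul, map_mul, hχ.2, mul_assoc (HahnSeries.C a), HahnSeries.C_mul_eq_smul,
      HahnSeries.coeff_smul, ← Finset.mul_sum, smul_eq_mul, smul_eq_mul]
    ring
  have hgen : ∀ v ∈ Gen (insert t S), Λ v = 0 := by
    rintro v (⟨a, m, rfl⟩ | ⟨a, e, m, he, rfl⟩)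
    · rw [hC]
      simp only [hΛ]
      rw [Finset.sum_eq_zero fun c hc => fin_X hE c (hφ c hc).1 m,
        fin_X (by norm_num) t hψ.1 m, inf_X hE hχ.1 m]
      ring
    · rw [hC]
      simp only [hΛ]
      rw [inf_Y hE e hχ.1 hχ.2 m]
      rcases Finset.mem_insert.1 he with rfl | heS
      · rw [Finset.sum_eq_zero fun c hc => fin_Y_ne hE (fun h => ht (by rw [← h]; exact hc))
          (hφ c hc).1 (hφ c hc).2 (m + 1), fin_Y_eq (by norm_num) e hψ.1 hψ.2 m]
        split_ifs
        · push_cast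
          ring
        · ring
      · rw [Finset.sum_eq_single_of_mem e heS fun c hc hce => fin_Y_ne hE hce (hφ c hc).1
          (hφ c hc).2 (m + 1), fin_Y_eq hE e (hφ e heS).1 (hφ e heS).2 m,
          fin_Y_ne (by norm_num) (fun h => ht (by rw [h]; exact heS)) hψ.1 hψ.2 (m + 1)]
        split_ifs
        · ring
        · ring
  have hV : ∀ v ∈ Vs (insert t S), Λ v = 0 := by
    intro v hv
    refine AddSubgroup.closure_induction (p := fun v _ => Λ v = 0) (fun v hv => hgen v hv) hzero
      ?_ ?_ hv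
    · intro x y _ _ hx hy
      rw [hadd, hx, hy, add_zero]
    · intro x _ hx
      rw [hneg, hx, neg_zero]
  have hR' : R ∈ OO (insert t S) := by
    have h1 : OO S ≤ OO (insert t S) := by
      unfold OO
      refine Subring.closure_mono ?_
      rintro x (hx | ⟨c, hc, rfl⟩)
      · exact Or.inl hx
      · exact Or.inr ⟨c, Finset.mem_insert_of_mem hc, rfl⟩
    have h2 : (RatFunc.X - RatFunc.C t : RatFunc K)⁻¹ ∈ OO (insert t S) :=
      Subring.subset_closure (Or.inr ⟨t, Finset.mem_insert_self _ _, rfl⟩)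
    have h3 : R = ((RatFunc.X - RatFunc.C t : RatFunc K)⁻¹) ^ k *
        ((RatFunc.X - RatFunc.C t) ^ k * R) := by
      rw [← mul_assoc, ← mul_pow, inv_mul_cancel₀ (X_sub_ne t), one_pow, one_mul]
    rw [h3]
    exact Subring.mul_mem _ (Subring.pow_mem _ h2 k) (h1 hR)
  exact hV R (OO_le _ R hR')

end Pool.Agent.N780.SB
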