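import Mathlib
import Pool.Agent.N780.SB.Stm

/-!
# SB/UNIQ (helper767): a derivation is determined by its values on `x` and the constants
-/

set_option autoImplicit false

namespace Pool.Agent.N780.SB

universe u v w

namespace UNIQ

section

variable {F : Type v} {L : Type w} [Field F] [Field L] {σ : F →+* L} {e : F → L}

lemma e_zero (ha : ∀ x y, e (x + y) = e x + e y) : e 0 = 0 := by
  have h := ha 0 0
  rw [add_zero] at h
  exact left_eq_add.1 h

lemma e_one (hm : ∀ x y, e (x * y) = σ x * e y + σ y * e x) : e 1 = 0 := by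
  have h := hm 1 1
  rw [mul_one, map_one, one_mul] at h
  exact left_eq_add.1 h

lemma e_pow (hm : ∀ x y, e (x * y) = σ x * e y + σ y * e x) (f : F) (n : ℕ) :
    e (f ^ n) = (n : L) * σ f ^ (n - 1) * e f := by
  induction n with
  | zero =>
    rw [pow_zero, e_one hm]
    simp
  | succ n ih =>
    rw [pow_succ, hm, ih, map_pow]
    rcases Nat.eq_zero_or_pos n with rfl | hn
    · simp
    · have h1 : σ f * ((n : L) * σ f ^ (n - 1) * e f) = (n : L) * σ f ^ n * e f := by
        have h2 : σ f ^ n = σ f ^ (n - 1) * σ f := by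
          rw [← pow_succ]
          congr 1
          omega
        rw [h2]
        ring
      rw [h1, Nat.add_sub_cancel]
      push_cast
      ring

end

section

variable {K : Type u} {F : Type v} {L : Type w} [Field K] [Field F] [Field L]
  [Algebra (RatFunc K) F] {σ : F →+* L} {e : F → L}

lemma e_poly (ha : ∀ x y, e (x + y) = e x + e y) (hm : ∀ x y, e (x * y) = σ x * e y + σ y * e x)
    (hx : e (xF K F) = 0) (hc : ∀ a : K, e (cF F a) = 0) (P : Polynomial K) :
    e (algebraMap (RatFunc K) F (algebraMap (Polynomial K) (RatFunc K) P)) = 0 := by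
  induction P using Polynomial.induction_on' with
  | add p q hp hq => rw [map_add, map_add, ha, hp, hq, add_zero]
  | monomial n a =>
    rw [← Polynomial.C_mul_X_pow_eq_monomial, map_mul, map_pow, RatFunc.algebraMap_C,
      RatFunc.algebraMap_X, map_mul, map_pow]
    have h1 : e (algebraMap (RatFunc K) F (RatFunc.C a) * algebraMap (RatFunc K) F RatFunc.X ^ n)
        = 0 := by
      rw [hm, e_pow hm]
      have h2 : e (algebraMap (RatFunc K) F RatFunc.X) = 0 := hx
      have h3 : e (algebraMap (RatFunc K) F (RatFunc.C a)) = 0 := hc a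
      rw [h2, h3]
      simp
    exact h1

lemma e_rat (ha : ∀ x y, e (x + y) = e x + e y) (hm : ∀ x y, e (x * y) = σ x * e y + σ y * e x)
    (hx : e (xF K F) = 0) (hc : ∀ a : K, e (cF F a) = 0) (r : RatFunc K) :
    e (algebraMap (RatFunc K) F r) = 0 := by
  have hq : (algebraMap (Polynomial K) (RatFunc K) r.denom) ≠ 0 := by
    rw [ne_eq, map_eq_zero_iff _ (RatFunc.algebraMap_injective K)]
    exact r.denom_ne_zero
  have h1 : algebraMap (Polynomial K) (RatFunc K) r.num =
      algebraMap (Polynomial K) (RatFunc K) r.denom * r := by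
    have h0 := r.num_div_denom
    rw [div_eq_iff hq] at h0
    rw [mul_comm]
    exact h0
  have h2 := e_poly (F := F) ha hm hx hc r.num
  rw [h1, map_mul, hm, e_poly ha hm hx hc r.denom, mul_zero, add_zero, mul_eq_zero] at h2
  rcases h2 with h2 | h2
  · exfalso
    rw [map_eq_zero, map_eq_zero] at h2
    exact hq h2
  · exact h2

lemma e_aeval (ha : ∀ x y, e (x + y) = e x + e y) (hm : ∀ x y, e (x * y) = σ x * e y + σ y * e x)
    (hr : ∀ r : RatFunc K, e (algebraMap (RatFunc K) F r) = 0) (f : F)
    (P : Polynomial (RatFunc K)) :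
    e (Polynomial.aeval f P) = σ (Polynomial.aeval f (Polynomial.derivative P)) * e f := by
  induction P using Polynomial.induction_on' with
  | add p q hp hq => rw [map_add, ha, hp, hq, Polynomial.derivative_add, map_add, map_add, add_mul]
  | monomial n a =>
    rw [Polynomial.aeval_monomial, hm, hr, mul_zero, add_zero, e_pow hm,
      Polynomial.derivative_monomial, Polynomial.aeval_monomial]
    simp only [map_mul, map_natCast, map_pow]
    ring

end

end UNIQ

open UNIQ in
theorem part_UNIQ : S_UNIQ.{u, v, w} := by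
  intro K F L _ _ _ _ _ σ d₁ d₂ ha1 hm1 ha2 hm2 hx hc f
  set e : F → L := fun f => d₁ f - d₂ f with he
  have ha : ∀ x y, e (x + y) = e x + e y := by
    intro x y
    simp only [he]
    rw [ha1, ha2]
    ring
  have hm : ∀ x y, e (x * y) = σ x * e y + σ y * e x := by
    intro x y
    simp only [he]
    rw [hm1, hm2]
    ring
  have hr : ∀ r : RatFunc K, e (algebraMap (RatFunc K) F r) = 0 :=
    e_rat ha hm (sub_eq_zero.2 hx) (fun a => sub_eq_zero.2 (hc a))
  have h1 := e_aeval ha hm hr f (minpoly (RatFunc K) f)
  rw [minpoly.aeval, e_zero ha] at h1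
  have hsep : (minpoly (RatFunc K) f).Separable := Algebra.IsSeparable.isSeparable (RatFunc K) f
  have h2 : Polynomial.aeval f (Polynomial.derivative (minpoly (RatFunc K) f)) ≠ 0 :=
    hsep.aeval_derivative_ne_zero (minpoly.aeval _ _)
  have h3 : σ (Polynomial.aeval f (Polynomial.derivative (minpoly (RatFunc K) f))) ≠ 0 := by
    rw [ne_eq, map_eq_zero]
    exact h2
  have h4 : e f = 0 := by
    rcases mul_eq_zero.1 h1.symm with h | h
    · exact absurd h h3
    · exact h
  exact sub_eq_zero.1 h4

end Pool.Agent.N780.SB
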