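import Mathlib
import Pool.Agent.N780.SB.Stm
import Pool.Agent.N780.SB.ALG
import Pool.Agent.N780.SB.DISC
import Pool.Agent.N780.SB.DOO
import Pool.Agent.N780.SB.EXPO
import Pool.Agent.N780.SB.EXT
import Pool.Agent.N780.SB.INT
import Pool.Agent.N780.SB.LD
import Pool.Agent.N780.SB.LOC
import Pool.Agent.N780.SB.MAX
import Pool.Agent.N780.SB.PAIR
import Pool.Agent.N780.SB.RES
import Pool.Agent.N780.SB.RF
import Pool.Agent.N780.SB.SEP
import Pool.Agent.N780.SB.TR
import Pool.Agent.N780.SB.UNIQ
import Pool.Agent.N780.SB.VDM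

set_option autoImplicit false

/-!
Covers of the line with a moving simple branch point: assembly (helper780).
-/

namespace Pool.Agent.N780.SB

universe u v w

section series

variable {K : Type u} [Field K]

lemma der_coeff (y : LaurentSeries K) (m : ℤ) :
    (der y).coeff m = ((m + 1 : ℤ) : K) * y.coeff (m + 1) := (part_LD K).1 y m

lemma hat_coeff (δ : Derivation ℤ K K) (y : LaurentSeries K) (m : ℤ) :
    (hat δ y).coeff m = δ (y.coeff m) := rfl

lemma mul_single_coeff (y : LaurentSeries K) (e m : ℤ) (b : K) :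
    (y * HahnSeries.single e b).coeff m = y.coeff (m - e) * b := by
  have h := HahnSeries.coeff_mul_single_add (r := b) (x := y) (a := m - e) (b := e)
  rwa [sub_add_cancel] at h

lemma single_mul_coeff (y : LaurentSeries K) (e m : ℤ) (b : K) :
    (HahnSeries.single e b * y).coeff m = b * y.coeff (m - e) := by
  have h := HahnSeries.coeff_single_mul_add (r := b) (x := y) (a := m - e) (b := e)
  rwa [sub_add_cancel] at h

lemma atFin_coeff (E : ℕ) (c : K) (m : ℤ) :
    (atFin E c).coeff m = (if m = 0 then c else 0) + (if m = (E : ℤ) then 1 else 0) := by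
  unfold atFin
  rw [HahnSeries.coeff_add, HahnSeries.C_apply, HahnSeries.coeff_single, HahnSeries.coeff_single]
  split_ifs <;> rfl

lemma atInf_coeff (E : ℕ) (m : ℤ) :
    (atInf K E).coeff m = if m = -(E : ℤ) then 1 else 0 := by
  unfold atInf
  rw [HahnSeries.coeff_single]
  split_ifs <;> rfl

lemma der_atFin (E : ℕ) (c : K) :
    der (atFin E c) = HahnSeries.single ((E : ℤ) - 1) (E : K) := by
  ext m
  rw [der_coeff, atFin_coeff, HahnSeries.coeff_single]
  by_cases h1 : m + 1 = 0
  · rw [h1, Int.cast_zero, zero_mul]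
    split_ifs with h2
    · have h3 : (E : ℤ) = 0 := by omega
      have h4 : E = 0 := by exact_mod_cast h3
      simp [h4]
    · rfl
  · rw [if_neg h1, zero_add]
    by_cases h2 : m + 1 = (E : ℤ)
    · rw [if_pos h2, h2, if_pos (by omega)]; simp
    · rw [if_neg h2, if_neg (by omega), mul_zero]

lemma der_atInf (E : ℕ) :
    der (atInf K E) = HahnSeries.single (-(E : ℤ) - 1) (-(E : K)) := by
  ext m
  rw [der_coeff, atInf_coeff, HahnSeries.coeff_single]
  by_cases h2 : m + 1 = -(E : ℤ)
  · rw [if_pos h2, h2, if_pos (by omega)]; simp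
  · rw [if_neg h2, if_neg (by omega), mul_zero]

lemma hat_atFin (δ : Derivation ℤ K K) (E : ℕ) (c : K) (h : δ c = 0) : hat δ (atFin E c) = 0 := by
  ext m
  rw [hat_coeff, atFin_coeff]
  split_ifs <;> simp [h]

lemma hat_atInf (δ : Derivation ℤ K K) (E : ℕ) : hat δ (atInf K E) = 0 := by
  ext m
  rw [hat_coeff, atInf_coeff]
  split_ifs <;> simp

lemma hat_atFin_two (δ : Derivation ℤ K K) (h2 : (2 : K) ≠ 0) (t : K) (h : δ t = 1) :
    hat δ (atFin 2 t) = HahnSeries.single (-1 : ℤ) (1 / 2 : K) * der (atFin 2 t) := by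
  rw [der_atFin, HahnSeries.single_mul_single]
  ext m
  rw [hat_coeff, atFin_coeff, HahnSeries.coeff_single]
  by_cases h0 : m = 0
  · subst h0
    simp [h, h2]
  · have h3 : ¬ m = -1 + (((2 : ℕ) : ℤ) - 1) := by push_cast; omega
    rw [if_neg h0]
    split_ifs <;> simp_all

end series

section main

variable {K : Type u} {F : Type v} [Field K] [Field F] [Algebra (RatFunc K) F]

lemma C_mem_OO (S : Finset K) (b : K) : RatFunc.C b ∈ OO S :=
  Subring.subset_closure (Or.inl (Or.inl ⟨b, rfl⟩))

lemma X_mem_OO (S : Finset K) : (RatFunc.X : RatFunc K) ∈ OO S :=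
  Subring.subset_closure (Or.inl (Or.inr rfl))

/-- elements of `A` are integral over `O` -/
lemma exists_poly {S : Finset K} {n : ℕ} {a : Fin n → F}
    (h1 : InA S a 1) (hA : ∀ f g, InA S a f → InA S a g → InA S a (f + g))
    (hM : ∀ f g, InA S a f → InA S a g → InA S a (f * g))
    (hO : ∀ r ∈ OO S, InA S a (algebraMap (RatFunc K) F r)) (g : F) (hg : InA S a g) :
    ∃ q : Polynomial (RatFunc K), q.Monic ∧ (∀ i, q.coeff i ∈ OO S) ∧
      Polynomial.aeval g q = 0 := by
  let B : Subalgebra (OO S) F :=
    { carrier := {f | InA S a f}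
      mul_mem' := fun {x y} hx hy => hM x y hx hy
      add_mem' := fun {x y} hx hy => hA x y hx hy
      algebraMap_mem' := fun r => hO r.1 r.2 }
  have hB : (Subalgebra.toSubmodule B).FG := by
    classical
    refine ⟨Finset.univ.image a, ?_⟩
    apply le_antisymm
    · rw [Submodule.span_le]
      intro x hx
      simp only [Finset.coe_image, Finset.coe_univ, Set.image_univ, Set.mem_range] at hx
      obtain ⟨i, rfl⟩ := hx
      change InA S a (a i)
      refine ⟨fun j => if j = i then 1 else 0, fun j => ?_, ?_⟩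
      · dsimp only
        split_ifs
        · exact (OO S).one_mem
        · exact (OO S).zero_mem
      · simp
    · rintro x ⟨r, hr, rfl⟩
      refine Submodule.sum_mem _ fun i _ => ?_
      have : algebraMap (RatFunc K) F (r i) * a i = (⟨r i, hr i⟩ : OO S) • a i := by
        rw [Algebra.smul_def]; rfl
      rw [this]
      refine Submodule.smul_mem _ _ (Submodule.subset_span ?_)
      simp
  obtain ⟨q, hq1, hq2⟩ := IsIntegral.of_mem_of_fg B hB g hg
  refine ⟨q.map (OO S).subtype, hq1.map _, fun i => ?_, ?_⟩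
  · rw [Polynomial.coeff_map]; exact (q.coeff i).2
  · rw [Polynomial.aeval_def, Polynomial.eval₂_map]
    exact hq2

end main

end Pool.Agent.N780.SB
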