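import Mathlib
import Pool.Agent.N780.SB.Defs0
import Pool.Agent.N780.SB.Main
import Pool.Agent.N780.SB.L0
import Pool.Agent.N780.SB.Stm4

set_option autoImplicit false

/-!
Jacobians of covers of the line with a moving simple branch point, characteristic zero (helper780).
-/

namespace Pool.Agent.N780.SB

universe u v w

lemma coeff_zero_mul {K : Type u} [Field K] (y z : LaurentSeries K)
    (hy : ∀ m : ℤ, m < 0 → y.coeff m = 0) (hz : ∀ m : ℤ, m < 0 → z.coeff m = 0) :
    (y * z).coeff 0 = y.coeff 0 * z.coeff 0 := by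
  rw [HahnSeries.coeff_mul]
  refine Finset.sum_eq_single (0, 0) ?_ ?_
  · rintro ⟨i, j⟩ hij hne
    rw [Finset.mem_antidiagonal] at hij
    obtain ⟨h1, h2, h3⟩ := hij
    have h4 : 0 ≤ i := by
      by_contra h
      exact h1 (hy i (not_le.1 h))
    have h5 : 0 ≤ j := by
      by_contra h
      exact h2 (hz j (not_le.1 h))
    exfalso
    apply hne
    have h3' : i + j = 0 := h3
    have : i = 0 := by omega
    have : j = 0 := by omega
    simp [*]
  · intro h
    rw [Finset.mem_antidiagonal] at h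
    by_contra hne
    apply h
    refine ⟨fun h0 => hne ?_, fun h0 => hne ?_, by simp⟩
    · dsimp only at h0 ⊢
      rw [h0, zero_mul]
    · dsimp only at h0 ⊢
      rw [h0, mul_zero]

lemma coeff_neg_one_mul {K : Type u} [Field K] (y z : LaurentSeries K)
    (hy : ∀ m : ℤ, m < -1 → y.coeff m = 0) (hz : ∀ m : ℤ, m < 0 → z.coeff m = 0) :
    (y * z).coeff (-1) = y.coeff (-1) * z.coeff 0 := by
  have h1 := coeff_zero_mul (HahnSeries.single (1 : ℤ) (1 : K) * y) z
    (fun m hm => by rw [single_mul_coeff, hy _ (by linarith), mul_zero]) hz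
  rw [mul_assoc, single_mul_coeff, single_mul_coeff, one_mul, one_mul] at h1
  exact h1

/-- the local and global facts in characteristic zero -/
theorem facts (hCONST : S_CONST.{u, v}) (hPUI : S_PUIZ.{u, v}) (hTT : S_TTZ.{u, v})
    (K : Type u) (F : Type v) [Field K] [IsAlgClosed K] [CharZero K] [Field F]
    [Algebra (RatFunc K) F] (n : ℕ) (hn : 0 < n) (δ : Derivation ℤ K K) (t : K) (ht : δ t = 1)
    (S : Finset K) (hS : ∀ c ∈ S, δ c = 0) (a : Fin n → F) (hA : IsAffineCurve S t a)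
    (D T : Derivation ℤ F F) (hD1 : D (xF K F) = 1) (hD2 : ∀ b : K, D (cF F b) = 0)
    (hT1 : T (xF K F) = 0) (hT2 : ∀ b : K, T (cF F b) = cF F (δ b)) :
    ∃ (σt : Fin n → (F →+* LaurentSeries K)) (j₁ j₂ : Fin n),
      (∀ i, IsExp (atFin 2 t) (σt i)) ∧
      (∀ τ : F →+* LaurentSeries K, IsExp (atFin 2 t) τ → ∃ i, τ = σt i) ∧ j₁ ≠ j₂ ∧
      Function.Injective σt ∧
      (∀ (f : F) (m : ℤ), (σt j₂ f).coeff m = (-1) ^ m.natAbs * (σt j₁ f).coeff m) ∧
      (∀ j, j ≠ j₁ → j ≠ j₂ → ∀ (f : F) (m : ℤ), Odd m → (σt j f).coeff m = 0) ∧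
      (∀ j f m, (σt j (T f)).coeff m =
        δ ((σt j f).coeff m) - 1 / 2 * (((m + 2 : ℤ) : K) * (σt j f).coeff (m + 2))) ∧
      -- exact holomorphic forms vanish
      (∀ g, IsHol S t a g → IsExact S t a D g → g = 0) ∧
      -- the derivative of a holomorphic form vanishing at `P` is holomorphic
      (∀ g, IsHol S t a g → (σt j₁ g).coeff (-1) = 0 → IsHol S t a (T g)) ∧
      -- a holomorphic form whose derivative is holomorphic modulo exact forms vanishes at `P`
      (∀ g, IsHol S t a g → (∃ g', IsHol S t a g' ∧ IsExact S t a D (T g - g')) →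
        (σt j₁ g).coeff (-1) = 0) ∧
      -- rational holomorphic forms vanish
      (∀ r : RatFunc K, IsHol S t a (algebraMap (RatFunc K) F r) → r = 0) ∧
      -- the functions on the affine curve are closed under the operations
      (∀ g g', InAt S t a g → InAt S t a g' → InAt S t a (g + g')) ∧
      (∀ (b : K) (g : F), InAt S t a g → InAt S t a (cF F b * g)) ∧
      Algebra.IsSeparable (RatFunc K) F := by
  have hsep : Algebra.IsSeparable (RatFunc K) F := by
    have : CharZero (RatFunc K) := charZero_of_injective_algebraMap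
      (algebraMap K (RatFunc K)).injective
    have : FiniteDimensional (RatFunc K) F :=
      FiniteDimensional.of_finrank_pos (by rw [hA.rank]; exact hn)
    infer_instance
  have h2 : (2 : K) ≠ 0 := two_ne_zero
  have htS : t ∉ S := fun h => by
    have := hS t h
    rw [ht] at this
    exact one_ne_zero this
  obtain ⟨E, hE0, hSp, hInf⟩ := hPUI K F n hn hA.rank S
  obtain ⟨σt, hσt1, hσt2⟩ := hTT K F n hn S t htS a hA
  have hSp0 := hSp
  have hInf0 := hInf
  have hEK : (E : K) ≠ 0 := by exact_mod_cast hE0.ne'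
  obtain ⟨hcomm, hDxe, hDte, -⟩ :=
    part_EXPO part_UNIQ part_UNIQ part_LD K F δ D T hD1 hD2 hT1 hT2
  obtain ⟨hAO, hAadd, hAmul, hAtr⟩ := part_ALG K F S t n a hA
  obtain ⟨σi, hσi1, hσi2⟩ := hInf
  have hSp' : ∀ c : K, ∃ σ : Fin n → (F →+* LaurentSeries K),
      c ∈ S → Function.Injective σ ∧ ∀ i, IsExp (atFin E c) (σ i) := by
    intro c
    by_cases h : c ∈ S
    · obtain ⟨σ, h1, h2⟩ := hSp c h
      exact ⟨σ, fun _ => ⟨h1, h2⟩⟩
    · exact ⟨σi, fun h' => absurd h' h⟩
  choose σc hσc using hSp'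
  obtain ⟨j₁, j₂, hj, hpair, hoth⟩ :=
    part_PAIR part_TR part_INT K F h2 S t htS n hn a hA σt hσt1 hσt2
  let i0 : Fin n := ⟨0, hn⟩
  obtain ⟨hTR1, hTR2, -⟩ := part_TR K F n hn hA.rank (atFin 2 t) σt hσt1 hσt2
  have hXt : (RatFunc.X - RatFunc.C t : RatFunc K) ≠ 0 := by
    intro h
    have h3 := congrArg (fun r => σt i0 (algebraMap (RatFunc K) F r)) h
    simp only [map_sub, map_zero] at h3
    have h4 : σt i0 (algebraMap (RatFunc K) F RatFunc.X) = atFin 2 t := (hσt2 i0).1
    have h5 : σt i0 (algebraMap (RatFunc K) F (RatFunc.C t)) = HahnSeries.C t := (hσt2 i0).2 t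
    rw [h4, h5] at h3
    have h6 := congrArg (fun y : LaurentSeries K => y.coeff 2) h3
    simp [atFin, HahnSeries.C_apply] at h6
  have hdisc : ∀ D : Derivation ℤ F F,
      (∃ r ∈ OO S, D (xF K F) = algebraMap (RatFunc K) F r) →
      (∀ b : K, ∃ r ∈ OO S, D (cF F b) = algebraMap (RatFunc K) F r) →
      ∀ f, InA S a f → InA S a ((xF K F - cF F t) * D f) := by
    intro D h1 h2 f hf
    obtain ⟨r, hr, hri, hr0, hd⟩ := hA.disc
    have h3 := part_DISC K F S n a hA.rank hA.one hA.mul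
      (by rw [hd]; exact mul_ne_zero hr0 hXt) D (part_DOO K F S D h1 h2) f hf
    rw [hd] at h3
    have h4 := hAmul _ _ (hAO r⁻¹ hri) h3
    have h5 : algebraMap (RatFunc K) F r⁻¹ *
        (algebraMap (RatFunc K) F (r * (RatFunc.X - RatFunc.C t)) * D f) =
        (xF K F - cF F t) * D f := by
      have h6 : algebraMap (RatFunc K) F r ≠ 0 := by
        rw [Ne, map_eq_zero]; exact hr0
      unfold xF cF
      rw [map_mul, map_sub, map_inv₀]
      field_simp
    rwa [h5] at h4
  have hDx1 : ∃ r ∈ OO S, D (xF K F) = algebraMap (RatFunc K) F r :=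
    ⟨1, (OO S).one_mem, by rw [hD1, map_one]⟩
  have hDx2 : ∀ b : K, ∃ r ∈ OO S, D (cF F b) = algebraMap (RatFunc K) F r :=
    fun b => ⟨0, (OO S).zero_mem, by rw [hD2, map_zero]⟩
  have hDt1' : ∃ r ∈ OO S, T (xF K F) = algebraMap (RatFunc K) F r :=
    ⟨0, (OO S).zero_mem, by rw [hT1, map_zero]⟩
  have hDt2' : ∀ b : K, ∃ r ∈ OO S, T (cF F b) = algebraMap (RatFunc K) F r :=
    fun b => ⟨RatFunc.C (δ b), C_mem_OO S _, by rw [hT2]; rfl⟩
  have hxA : ∀ f, InA S a f → InA S a ((xF K F - cF F t) * D f) := hdisc D hDx1 hDx2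
  have htA : ∀ f, InA S a f → InA S a ((xF K F - cF F t) * T f) := hdisc T hDt1' hDt2'
  set y : F := xF K F - cF F t with hy
  have hyA : InA S a y := by
    have := hAO (RatFunc.X - RatFunc.C t) ((OO S).sub_mem (X_mem_OO S) (C_mem_OO S t))
    rwa [map_sub] at this
  have hyp : ∀ N : ℕ, InA S a (y ^ N) := by
    intro N
    induction N with
    | zero => rw [pow_zero]; exact hA.one
    | succ N ih => rw [pow_succ]; exact hAmul _ _ ih hyA
  have hy0 : y ≠ 0 := by
    have h3 : algebraMap (RatFunc K) F (RatFunc.X - RatFunc.C t) ≠ 0 := by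
      rw [Ne, map_eq_zero]; exact hXt
    rwa [map_sub] at h3
  -- `A[1/y]` is stable under the derivations
  have hup : ∀ (N N' : ℕ) (g : F), N ≤ N' → InA S a (y ^ N * g) → InA S a (y ^ N' * g) := by
    intro N N' g hN h
    obtain ⟨k, rfl⟩ := Nat.exists_eq_add_of_le hN
    have := hAmul _ _ (hyp k) h
    rwa [show y ^ k * (y ^ N * g) = y ^ (N + k) * g by ring] at this
  have hTt : ∀ (D' : Derivation ℤ F F) (e : F), InA S a e → D' y = e →
      (∀ f, InA S a f → InA S a (y * D' f)) → ∀ g, InAt S t a g → InAt S t a (D' g) := by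
    rintro D' e he hDy hDA g ⟨N, hN⟩
    refine ⟨N + 1, ?_⟩
    have h1 := hDA _ hN
    have h3 : y * D' (y ^ N * g) = N * (e * (y ^ N * g)) + y ^ (N + 1) * D' g := by
      rw [Derivation.leibniz, Derivation.leibniz_pow, hDy]
      simp only [smul_eq_mul, nsmul_eq_mul]
      rcases N with _ | N
      · simp
      · rw [Nat.add_sub_cancel]
        push_cast
        ring
    rw [h3] at h1
    have h4 : InA S a (-((N : F) * (e * (y ^ N * g)))) := by
      have h5 := hAO (RatFunc.C (-(N : K))) (C_mem_OO S _)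
      have h6 := hAmul _ _ h5 (hAmul _ _ he hN)
      have h7 : algebraMap (RatFunc K) F (RatFunc.C (-(N : K))) = -(N : F) := by
        rw [map_neg, map_neg, map_natCast, map_natCast]
      rw [h7] at h6
      rwa [neg_mul] at h6
    have h8 := hAadd _ _ h4 h1
    rwa [show -((N : F) * (e * (y ^ N * g))) + (N * (e * (y ^ N * g)) + y ^ (N + 1) * D' g) =
      y ^ (N + 1) * D' g by ring] at h8
  have hDat : ∀ g, InAt S t a g → InAt S t a (D g) := by
    refine hTt D 1 hA.one ?_ hxA
    rw [hy, map_sub, hD1, hD2, sub_zero]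
  have hTat : ∀ g, InAt S t a g → InAt S t a (T g) := by
    refine hTt T (-1) ?_ ?_ htA
    · have := hAO (RatFunc.C (-1)) (C_mem_OO S _)
      rwa [map_neg, map_neg, map_one, map_one] at this
    · rw [hy, map_sub, hT1, hT2, ht]
      unfold cF
      rw [map_one, map_one, zero_sub]
  -- regularity at t
  have hreg : ∀ f, InA S a f → ∀ j, ∀ m : ℤ, m < 0 → (σt j f).coeff m = 0 :=
    fun f hf j m hm => part_INT K F S t htS n a hA (σt j) (hσt2 j) f hf m hm
  have hDxc : ∀ j f m, (σt j (D f)).coeff m * 2 = ((m + 2 : ℤ) : K) * (σt j f).coeff (m + 2) := by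
    intro j f m
    have h := congrArg (fun y : LaurentSeries K => y.coeff (m + 1))
      (hDxe (atFin 2 t) (σt j) (hσt2 j) f)
    simp only [der_atFin, mul_single_coeff, der_coeff] at h
    have e1 : m + 1 - (((2 : ℕ) : ℤ) - 1) = m := by push_cast; ring
    have e2 : m + 1 + 1 = m + 2 := by ring
    rw [e1, e2] at h
    exact_mod_cast h
  have hDtc : ∀ j f m, (σt j (T f)).coeff m =
      δ ((σt j f).coeff m) - 1 / 2 * (((m + 2 : ℤ) : K) * (σt j f).coeff (m + 2)) := by
    intro j f m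
    have h := congrArg (fun y : LaurentSeries K => y.coeff m)
      (hDte (atFin 2 t) _ (σt j) (hσt2 j) (hat_atFin_two δ h2 t ht) f)
    simp only [HahnSeries.coeff_sub, single_mul_coeff, hat_coeff, der_coeff] at h
    rw [h]
    have e1 : m - -1 + 1 = m + 2 := by ring
    rw [e1]
  -- functions in A[1/y] regular at t lie in A
  have hmax : ∀ N : ℕ, ∀ f, InA S a (y ^ N * f) → (∀ j, ∀ m : ℤ, m < 0 → (σt j f).coeff m = 0) →
      InA S a f := by
    intro N
    induction N with
    | zero => intro f h _; rwa [pow_zero, one_mul] at h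
    | succ N ih =>
      intro f h hf
      apply ih f ?_ hf
      refine part_MAX part_TR part_INT K F h2 S t htS n hn a hA σt hσt1 hσt2 (y ^ N * f) ?_ ?_
      · rw [← hy, ← mul_assoc, ← pow_succ']
        exact h
      · intro j m hm
        rw [map_mul]
        have h5 : σt j y = HahnSeries.single 2 1 := by
          rw [hy, map_sub, (hσt2 j).1, (hσt2 j).2 t]
          simp [atFin]
        rw [map_pow, h5, HahnSeries.single_pow, one_pow, single_mul_coeff, one_mul]
        apply hf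
        simp only [nsmul_eq_mul]
        have : (0 : ℤ) ≤ (N : ℤ) * 2 := by positivity
        omega
  -- local computations: no polar parts
  have hder0 : ∀ z : LaurentSeries K, (∀ m : ℤ, m < 0 → (der z).coeff m = 0) →
      ∀ m : ℤ, m < 0 → z.coeff m = 0 := by
    intro z hz m hm
    have h3 := hz (m - 1) (by omega)
    rw [der_coeff] at h3
    have e1 : m - 1 + 1 = m := by ring
    rw [e1] at h3
    have h4 : ((m : ℤ) : K) ≠ 0 := by
      rw [Int.cast_ne_zero]; omega
    exact (mul_eq_zero.1 h3).resolve_left h4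
  have hfinreg : ∀ (E' : ℕ) (c : K) (h : F), 0 < E' → HolFin E' c (D h) →
      ∀ σ : F →+* LaurentSeries K, IsExp (atFin E' c) σ → ∀ m : ℤ, m < 0 → (σ h).coeff m = 0 := by
    intro E' c h _ hh σ hσ
    apply hder0
    intro m hm
    rw [← hDxe (atFin E' c) σ hσ h, der_atFin, mul_single_coeff, hh σ hσ _ (by linarith), zero_mul]
  have hinfreg : ∀ (E' : ℕ) (h : F), 0 < E' → HolInf K E' (D h) →
      ∀ σ : F →+* LaurentSeries K, IsExp (atInf K E') σ → ∀ m : ℤ, m < 0 → (σ h).coeff m = 0 := by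
    intro E' h _ hh σ hσ
    apply hder0
    intro m hm
    rw [← hDxe (atInf K E') σ hσ h, der_atInf, mul_single_coeff, hh σ hσ _ (by linarith), zero_mul]
  refine ⟨σt, j₁, j₂, hσt2, hTR1, hj, hσt1, hpair, hoth, hDtc, ?_, ?_, ?_, ?_, ?_, ?_, hsep⟩
  · -- exact holomorphic forms
    rintro g ⟨_, hgt, hg⟩ ⟨h, ⟨N, hN⟩, rfl⟩
    have h3 : InA S a h := hmax N h hN fun j m hm =>
      hfinreg 2 t h (by norm_num) hgt (σt j) (hσt2 j) m hm
    obtain ⟨b, hb⟩ := hCONST K F n E hn hE0 S t a hA hSp0 hInf0 h h3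
      (fun c hc σ hσ m hm => hfinreg E c h hE0 ((hg E hE0).1 c hc) σ hσ m hm)
      (fun σ hσ m hm => hinfreg E h hE0 (hg E hE0).2 σ hσ m hm)
    rw [hb, hD2]
  · -- derivatives
    rintro g ⟨hg1, hg2, hg3⟩ hβ
    refine ⟨hTat g hg1, ?_, fun E' hE' => ⟨?_, ?_⟩⟩
    · intro σ hσ m hm
      obtain ⟨j, rfl⟩ := hTR1 σ hσ
      rw [hDtc, hg2 (σt j) hσ m hm, map_zero]
      have hm' : m < -1 := by push_cast at hm; linarith
      have h4 : ((m + 2 : ℤ) : K) * (σt j g).coeff (m + 2) = 0 := by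
        rcases lt_trichotomy m (-3) with h5 | h5 | h5
        · rw [hg2 (σt j) hσ (m + 2) (by push_cast; omega), mul_zero]
        · subst h5
          rw [show (-3 + 2 : ℤ) = -1 by norm_num]
          by_cases h6 : j = j₁
          · rw [h6, hβ, mul_zero]
          · by_cases h7 : j = j₂
            · rw [h7, hpair g (-1), hβ, mul_zero, mul_zero]
            · rw [hoth j h6 h7 g (-1) (by decide), mul_zero]
        · have h6 : m = -2 := by omega
          subst h6; simp
      rw [h4]; simp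
    · intro c hc σ hσ m hm
      rw [hDte (atFin E' c) 0 σ hσ (by rw [hat_atFin δ E' c (hS c hc), zero_mul]) g,
        zero_mul, sub_zero, hat_coeff, (hg3 E' hE').1 c hc σ hσ m hm, map_zero]
    · intro σ hσ m hm
      rw [hDte (atInf K E') 0 σ hσ (by rw [hat_atInf δ E', zero_mul]) g,
        zero_mul, sub_zero, hat_coeff, (hg3 E' hE').2 σ hσ m hm, map_zero]
  · rintro g ⟨⟨M, hM⟩, hg2, hg3⟩ ⟨g', ⟨_, hg2', hg3'⟩, h, ⟨N, hN⟩, hh⟩
    set R := Algebra.trace (RatFunc K) F (h * g) with hRdef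
    have hR : (RatFunc.X - RatFunc.C t) ^ (N + M) * R ∈ OO S := by
      have h4 := hAtr _ (hAmul _ _ hN hM)
      have h5 : y ^ N * h * (y ^ M * g) =
          ((RatFunc.X - RatFunc.C t) ^ (N + M) : RatFunc K) • (h * g) := by
        rw [Algebra.smul_def, map_pow, map_sub, hy]
        unfold xF cF
        ring
      rw [h5, map_smul, smul_eq_mul] at h4
      exact h4
    have hres := part_RES K S t htS E hE0 (fun c => (σc c i0).comp (algebraMap (RatFunc K) F))
      ((σt i0).comp (algebraMap (RatFunc K) F)) ((σi i0).comp (algebraMap (RatFunc K) F))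
      (fun c hcS => ⟨((hσc c hcS).2 i0).1, ((hσc c hcS).2 i0).2⟩)
      ⟨(hσt2 i0).1, (hσt2 i0).2⟩ ⟨(hσi2 i0).1, (hσi2 i0).2⟩ R (N + M) hR
    have hloc0 : ∀ (ξ : LaurentSeries K) (σ : Fin n → (F →+* LaurentSeries K)),
        Function.Injective σ → (∀ i, IsExp ξ (σ i)) →
        (∀ j, ∀ m : ℤ, m < 0 → (σ j g * der ξ).coeff m = 0) →
        (∀ j, ∀ m : ℤ, m < 0 → (σ j h).coeff m = 0) →
        (σ i0 (algebraMap (RatFunc K) F R) * der ξ).coeff (-1) = 0 := by
      intro ξ σ hσ1 hσ2 hhol hreg'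
      obtain ⟨-, hTR, -⟩ := part_TR K F n hn hA.rank ξ σ hσ1 hσ2
      rw [hRdef, hTR, Finset.sum_mul, HahnSeries.coeff_sum]
      refine Finset.sum_eq_zero fun j _ => ?_
      rw [map_mul, mul_assoc, coeff_neg_one_mul _ _ (fun m hm => hreg' j m (by omega)) (hhol j),
        hreg' j (-1) (by norm_num), zero_mul]
    have hc0 : ∀ c ∈ S, (σc c i0 (algebraMap (RatFunc K) F R) * der (atFin E c)).coeff (-1) = 0 := by
      intro c hcS
      refine hloc0 (atFin E c) (σc c) (hσc c hcS).1 (hσc c hcS).2 ?_ ?_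
      · intro j m hm
        rw [der_atFin, mul_single_coeff,
          (hg3 E hE0).1 c hcS (σc c j) ((hσc c hcS).2 j) _ (by linarith), zero_mul]
      · intro j m hm
        refine hfinreg E c h hE0 ?_ (σc c j) ((hσc c hcS).2 j) m hm
        intro σ hσ m' hm'
        rw [← hh, map_sub, HahnSeries.coeff_sub, (hg3' E hE0).1 c hcS σ hσ m' hm', sub_zero,
          hDte (atFin E c) 0 σ hσ (by rw [hat_atFin δ E c (hS c hcS), zero_mul]) g,
          zero_mul, sub_zero, hat_coeff, (hg3 E hE0).1 c hcS σ hσ m' hm', map_zero]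
    have hi0 : (σi i0 (algebraMap (RatFunc K) F R) * der (atInf K E)).coeff (-1) = 0 := by
      refine hloc0 (atInf K E) σi hσi1 hσi2 ?_ ?_
      · intro j m hm
        rw [der_atInf, mul_single_coeff, (hg3 E hE0).2 (σi j) (hσi2 j) _ (by linarith), zero_mul]
      · intro j m hm
        refine hinfreg E h hE0 ?_ (σi j) (hσi2 j) m hm
        intro σ hσ m' hm'
        rw [← hh, map_sub, HahnSeries.coeff_sub, (hg3' E hE0).2 σ hσ m' hm', sub_zero,
          hDte (atInf K E) 0 σ hσ (by rw [hat_atInf δ E, zero_mul]) g,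
          zero_mul, sub_zero, hat_coeff, (hg3 E hE0).2 σ hσ m' hm', map_zero]
    -- the polar part of `h` at `t`
    have hh1 : ∀ j m, ((m + 2 : ℤ) : K) * (σt j h).coeff (m + 2) =
        2 * (δ ((σt j g).coeff m) - 1 / 2 * (((m + 2 : ℤ) : K) * (σt j g).coeff (m + 2)) -
          (σt j g').coeff m) := by
      intro j m
      rw [← hDxc j h m, ← hh, map_sub, HahnSeries.coeff_sub, hDtc]
      ring
    have hh2 : ∀ j, ∀ m : ℤ, m < -1 → (σt j h).coeff m = 0 := by
      intro j m hm
      have h3 := hh1 j (m - 2)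
      have e1 : m - 2 + 2 = m := by ring
      rw [e1, hg2 (σt j) (hσt2 j) (m - 2) (by push_cast; omega),
        hg2 (σt j) (hσt2 j) m (by push_cast; omega),
        hg2' (σt j) (hσt2 j) (m - 2) (by push_cast; omega), map_zero] at h3
      have h4 : ((m : ℤ) : K) ≠ 0 := by
        rw [Int.cast_ne_zero]; omega
      have h5 : ((m : ℤ) : K) * (σt j h).coeff m = 0 := by rw [h3]; ring
      exact (mul_eq_zero.1 h5).resolve_left h4
    have hh3 : ∀ j, (σt j h).coeff (-1) = -(σt j g).coeff (-1) := by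
      intro j
      have h3 := hh1 j (-3)
      rw [show (-3 + 2 : ℤ) = -1 by norm_num,
        hg2 (σt j) (hσt2 j) (-3) (by norm_num),
        hg2' (σt j) (hσt2 j) (-3) (by norm_num), map_zero] at h3
      push_cast at h3
      linear_combination -h3
    have ht0 : (σt i0 (algebraMap (RatFunc K) F R) * der (atFin 2 t)).coeff (-1) =
        -4 * ((σt j₁ g).coeff (-1)) ^ 2 := by
      rw [hRdef, hTR2, Finset.sum_mul, HahnSeries.coeff_sum]
      have e1 : ∀ j, (σt j (h * g) * der (atFin 2 t)).coeff (-1) =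
          -2 * ((σt j g).coeff (-1)) ^ 2 := by
        intro j
        rw [map_mul, mul_assoc, coeff_neg_one_mul _ _ (hh2 j), hh3 j, der_atFin, mul_single_coeff]
        · rw [show (0 - (((2 : ℕ) : ℤ) - 1) : ℤ) = -1 by norm_num]
          push_cast
          ring
        · intro m hm
          rw [der_atFin, mul_single_coeff, hg2 (σt j) (hσt2 j) _ (by push_cast; linarith), zero_mul]
      rw [Fintype.sum_eq_add j₁ j₂ hj]
      · rw [e1, e1, hpair g (-1)]
        simp
        ring
      · intro j hjj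
        rw [e1, hoth j hjj.1 hjj.2 g (-1) (by decide)]
        simp
    simp only [RingHom.comp_apply] at hres
    rw [Finset.sum_eq_zero hc0, hi0, ht0] at hres
    have h7 : (E : K) * ((σt j₁ g).coeff (-1)) ^ 2 = 0 := by
      have h8 : (4 : K) ≠ 0 := by norm_num
      have h9 : (4 : K) * ((E : K) * ((σt j₁ g).coeff (-1)) ^ 2) = 0 := by
        linear_combination -hres
      exact (mul_eq_zero.1 h9).resolve_left h8
    rcases mul_eq_zero.1 h7 with h8 | h8
    · exact absurd h8 hEK
    · exact pow_eq_zero_iff (two_ne_zero) |>.1 h8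
  · -- rational forms
    rintro r ⟨⟨N, hN⟩, hg2, hg3⟩
    obtain ⟨L, hL⟩ := part_L0 K F h2 t
    have hunr : Unr t (algebraMap (RatFunc K) F r) := (hL _).1 (L.algebraMap_mem r)
    have hA1 : InA S a (algebraMap (RatFunc K) F r) := by
      refine hmax N _ hN fun j m hm => ?_
      by_cases h3 : m = -1
      · exact hunr (σt j) (hσt2 j) m (by rw [h3]; decide)
      · exact hg2 (σt j) (hσt2 j) m (by push_cast; omega)
    have hr : r ∈ OO S := by
      have h5 := hAtr _ hA1
      rw [Algebra.trace_algebraMap, hA.rank] at h5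
      have h6 := (OO S).mul_mem (C_mem_OO S (n : K)⁻¹) h5
      have hnK : (n : K) ≠ 0 := by exact_mod_cast hn.ne'
      have h7 : RatFunc.C (n : K)⁻¹ * n • r = r := by
        rw [nsmul_eq_mul, ← mul_assoc, ← map_natCast (RatFunc.C : K →+* RatFunc K) n, ← map_mul,
          inv_mul_cancel₀ hnK, map_one, one_mul]
      rwa [h7] at h6
    exact (part_RF K S t htS E hE0 (fun c => (σc c i0).comp (algebraMap (RatFunc K) F))
      ((σt i0).comp (algebraMap (RatFunc K) F)) ((σi i0).comp (algebraMap (RatFunc K) F))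
      (fun c hcS => ⟨((hσc c hcS).2 i0).1, ((hσc c hcS).2 i0).2⟩)
      ⟨(hσt2 i0).1, (hσt2 i0).2⟩ ⟨(hσi2 i0).1, (hσi2 i0).2⟩ r hr 1 one_pos
      (fun c hcS m hm => (hg3 E hE0).1 c hcS (σc c i0) ((hσc c hcS).2 i0) m
        (by push_cast at hm; linarith))
      (fun m hm => (hg3 E hE0).2 (σi i0) (hσi2 i0) m (by push_cast at hm; linarith))).2 rfl
  · rintro g g' ⟨N, hN⟩ ⟨N', hN'⟩
    refine ⟨N + N', ?_⟩
    have h3 := hAadd _ _ (hup N (N + N') g (by omega) hN) (hup N' (N + N') g' (by omega) hN')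
    rwa [← mul_add] at h3
  · rintro b g ⟨N, hN⟩
    refine ⟨N, ?_⟩
    have h3 := hAmul _ _ (hAO (RatFunc.C b) (C_mem_OO S b)) hN
    have h4 : algebraMap (RatFunc K) F (RatFunc.C b) * ((xF K F - cF F t) ^ N * g) =
        (xF K F - cF F t) ^ N * (cF F b * g) := by
      unfold cF
      ring
    rwa [h4] at h3

/-- The final statement in characteristic zero -/
def S_ZERO : Prop := ∀ (K : Type u) (F : Type v) [Field K] [IsAlgClosed K] [CharZero K] [Field F]
    [Algebra (RatFunc K) F] (n : ℕ) (_ : 0 < n) (δ : Derivation ℤ K K) (t : K) (_ : δ t = 1)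
    (S : Finset K) (_ : ∀ c ∈ S, δ c = 0) (a : Fin n → F) (_ : IsAffineCurve S t a)
    (D T : Derivation ℤ F F) (_ : D (xF K F) = 1) (_ : ∀ b : K, D (cF F b) = 0)
    (_ : T (xF K F) = 0) (_ : ∀ b : K, T (cF F b) = cF F (δ b)),
    (∀ W : AddSubgroup F, (∀ g ∈ W, IsHol S t a g) →
      (∀ g ∈ W, ∃ g' ∈ W, IsExact S t a D (T g - g')) → ∀ g ∈ W, Unr t g) ∧
    (∀ (ι : Type) [Fintype ι] (V : ι → AddSubgroup F), (∀ i, IsStable S t a D T (V i)) →
      (∀ g : ι → F, (∀ i, g i ∈ V i) → IsExact S t a D (∑ i, g i) → ∀ i, IsExact S t a D (g i)) →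
      (∀ g : ι → F, (∀ i, g i ∈ V i) → IsHol S t a (∑ i, g i) → ∃ g' : ι → F,
        (∀ i, g' i ∈ V i ∧ IsHol S t a (g' i)) ∧ ∑ i, g i = ∑ i, g' i) →
      ∀ i j, i ≠ j → (∀ g ∈ V i, IsHol S t a g → Unr t g) ∨
        (∀ g ∈ V j, IsHol S t a g → Unr t g)) ∧
    ((∀ L : IntermediateField (RatFunc K) F, L = ⊥ ∨ L = ⊤) →
      ∀ g, IsHol S t a g → Unr t g → g = 0)

theorem zero_of (hCONST : S_CONST.{u, v}) (hPUI : S_PUIZ.{u, v}) (hTT : S_TTZ.{u, v}) :
    S_ZERO.{u, v} := by
  intro K F _ _ _ _ _ n hn δ t ht S hS a hA D T hD1 hD2 hT1 hT2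
  obtain ⟨σt, j₁, j₂, hσ, hall, hj, hinj, hpair, hoth, hTc, hEX, hDER, hPAIR, hRAT, hadd, hsm,
    hsep⟩ := facts hCONST hPUI hTT K F n hn δ t ht S hS a hA D T hD1 hD2 hT1 hT2
  have h2 : (2 : K) ≠ 0 := two_ne_zero
  -- holomorphic forms are a `K`-space
  have hHadd : ∀ g g', IsHol S t a g → IsHol S t a g' → IsHol S t a (g + g') := by
    rintro g g' ⟨a1, a2, a3⟩ ⟨b1, b2, b3⟩
    refine ⟨hadd _ _ a1 b1, ?_, fun E hE => ⟨?_, ?_⟩⟩
    · intro σ hσ' m hm
      rw [map_add, HahnSeries.coeff_add, a2 σ hσ' m hm, b2 σ hσ' m hm, add_zero]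
    · intro c hc σ hσ' m hm
      rw [map_add, HahnSeries.coeff_add, (a3 E hE).1 c hc σ hσ' m hm,
        (b3 E hE).1 c hc σ hσ' m hm, add_zero]
    · intro σ hσ' m hm
      rw [map_add, HahnSeries.coeff_add, (a3 E hE).2 σ hσ' m hm, (b3 E hE).2 σ hσ' m hm, add_zero]
  have hHsm : ∀ (b : K) g, IsHol S t a g → IsHol S t a (cF F b * g) := by
    rintro b g ⟨a1, a2, a3⟩
    have key : ∀ (ξ : LaurentSeries K) (σ : F →+* LaurentSeries K), IsExp ξ σ → ∀ m : ℤ,
        (σ g).coeff m = 0 → (σ (cF F b * g)).coeff m = 0 := by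
      intro ξ σ hσ' m hm
      rw [map_mul, hσ'.2 b, HahnSeries.C_mul_eq_smul, HahnSeries.coeff_smul, hm, smul_zero]
    refine ⟨hsm _ _ a1, ?_, fun E hE => ⟨?_, ?_⟩⟩
    · intro σ hσ' m hm
      exact key _ σ hσ' m (a2 σ hσ' m hm)
    · intro c hc σ hσ' m hm
      exact key _ σ hσ' m ((a3 E hE).1 c hc σ hσ' m hm)
    · intro σ hσ' m hm
      exact key _ σ hσ' m ((a3 E hE).2 σ hσ' m hm)
  have hcm : cF F (-1 : K) = -1 := by
    unfold cF; rw [map_neg, map_neg, map_one, map_one]
  have hHneg : ∀ g, IsHol S t a g → IsHol S t a (-g) := by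
    intro g hg
    have := hHsm (-1) g hg
    rwa [hcm, neg_one_mul] at this
  have hHsub : ∀ g g', IsHol S t a g → IsHol S t a g' → IsHol S t a (g - g') := by
    intro g g' hg hg'
    rw [sub_eq_add_neg]
    exact hHadd _ _ hg (hHneg _ hg')
  -- spaces of forms vanishing at `P` and stable under `T`
  have hord : ∀ W : F → Prop, (∀ g, W g → IsHol S t a g) →
      (∀ g, W g → (σt j₁ g).coeff (-1) = 0) → (∀ g, W g → W (T g)) → ∀ g, W g → Unr t g := by
    intro W hW1 hW2 hW3
    have key : ∀ k : ℕ, ∀ g, W g → ∀ j, (σt j g).coeff (2 * (k : ℤ) - 1) = 0 := by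
      intro k
      induction k with
      | zero =>
        intro g hg j
        simp only [Nat.cast_zero, mul_zero, zero_sub]
        by_cases h6 : j = j₁
        · rw [h6]; exact hW2 g hg
        · by_cases h7 : j = j₂
          · rw [h7, hpair g (-1), hW2 g hg, mul_zero]
          · exact hoth j h6 h7 g (-1) (by decide)
      | succ k ih =>
        intro g hg j
        have h3 := hTc j g (2 * (k : ℤ) - 1)
        rw [ih g hg j, ih (T g) (hW3 g hg) j, map_zero, zero_sub] at h3
        have h4 : ((2 * (k : ℤ) - 1 + 2 : ℤ) : K) ≠ 0 := by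
          rw [Int.cast_ne_zero]; omega
        have e1 : (2 * ((k + 1 : ℕ) : ℤ) - 1) = 2 * (k : ℤ) - 1 + 2 := by push_cast; ring
        rw [e1]
        have h5 : (1 / 2 : K) * (((2 * (k : ℤ) - 1 + 2 : ℤ) : K) *
            (σt j g).coeff (2 * (k : ℤ) - 1 + 2)) = 0 := by linear_combination h3
        have h6 := (mul_eq_zero.1 h5).resolve_left (by simp)
        exact (mul_eq_zero.1 h6).resolve_left h4
    intro g hg σ hσ' m hm
    obtain ⟨j, rfl⟩ := hall σ hσ'
    rcases lt_or_ge m (-1) with h3 | h3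
    · exact (hW1 g hg).2.1 (σt j) (hσ j) m (by push_cast; linarith)
    · obtain ⟨k, hk⟩ := hm
      obtain ⟨k', hk'⟩ : ∃ k' : ℕ, m = 2 * (k' : ℤ) - 1 := ⟨(k + 1).toNat, by omega⟩
      rw [hk']
      exact key k' g hg j
  refine ⟨?_, ?_, ?_⟩
  · intro W hW1 hW2
    have hβ : ∀ g ∈ W, (σt j₁ g).coeff (-1) = 0 := by
      intro g hg
      obtain ⟨g', hg', hex⟩ := hW2 g hg
      exact hPAIR g (hW1 g hg) ⟨g', hW1 g' hg', hex⟩
    refine hord (fun g => g ∈ W) (fun g hg => hW1 g hg) hβ ?_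
    intro g hg
    obtain ⟨g', hg', hex⟩ := hW2 g hg
    have h3 := hEX _ (hHsub _ _ (hDER g (hW1 g hg) (hβ g hg)) (hW1 g' hg')) hex
    rw [sub_eq_zero.1 h3]
    exact hg'
  · intro ι _ V hV hind hdec i j hij
    classical
    have hone : ∀ i, (∀ g ∈ V i, IsHol S t a g → (σt j₁ g).coeff (-1) = 0) →
        ∀ g ∈ V i, IsHol S t a g → Unr t g := by
      intro i h g hg1 hg2
      refine hord (fun g => g ∈ V i ∧ IsHol S t a g) (fun g hg => hg.2) (fun g hg => h g hg.1 hg.2)
        (fun g hg => ⟨(hV i).flat g hg.1, hDER g hg.2 (h g hg.1 hg.2)⟩) g ⟨hg1, hg2⟩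
    by_contra hcon
    rw [not_or] at hcon
    obtain ⟨hci, hcj⟩ := hcon
    have hi : ∃ g ∈ V i, IsHol S t a g ∧ (σt j₁ g).coeff (-1) ≠ 0 := by
      by_contra h
      apply hci
      apply hone
      intro g hg1 hg2
      by_contra h3
      exact h ⟨g, hg1, hg2, h3⟩
    have hj' : ∃ g ∈ V j, IsHol S t a g ∧ (σt j₁ g).coeff (-1) ≠ 0 := by
      by_contra h
      apply hcj
      apply hone
      intro g hg1 hg2
      by_contra h3
      exact h ⟨g, hg1, hg2, h3⟩
    obtain ⟨u, hu1, hu2, hu3⟩ := hi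
    obtain ⟨v, hv1, hv2, hv3⟩ := hj'
    set b : K := (σt j₁ u).coeff (-1) / (σt j₁ v).coeff (-1) with hb
    have hw : IsHol S t a (u - cF F b * v) := hHsub _ _ hu2 (hHsm b v hv2)
    have hw0 : (σt j₁ (u - cF F b * v)).coeff (-1) = 0 := by
      rw [map_sub, map_mul, (hσ j₁).2 b, HahnSeries.coeff_sub, HahnSeries.C_mul_eq_smul,
        HahnSeries.coeff_smul, smul_eq_mul, hb]
      field_simp
      ring
    have hTw : T (u - cF F b * v) = ∑ k, ((if k = i then T u else 0) -
        (if k = j then T (cF F b * v) else 0)) := by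
      rw [Finset.sum_sub_distrib]
      simp
    obtain ⟨g', hg', hsum⟩ := hdec (fun k => (if k = i then T u else 0) -
      (if k = j then T (cF F b * v) else 0)) (fun k => by
          refine (V k).sub_mem ?_ ?_
          · split_ifs with h
            · rw [h]; exact (hV i).flat u hu1
            · exact (V k).zero_mem
          · split_ifs with h
            · rw [h]; exact (hV j).flat _ ((hV j).smul b v hv1)
            · exact (V k).zero_mem) (by rw [← hTw]; exact hDER _ hw hw0)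
    rw [← hTw] at hsum
    have h5 := hind (fun k => (if k = i then T u else 0) - (if k = j then T (cF F b * v) else 0) -
        g' k) (fun k => by
          refine (V k).sub_mem ((V k).sub_mem ?_ ?_) (hg' k).1
          · split_ifs with h
            · rw [h]; exact (hV i).flat u hu1
            · exact (V k).zero_mem
          · split_ifs with h
            · rw [h]; exact (hV j).flat _ ((hV j).smul b v hv1)
            · exact (V k).zero_mem) ?_ i
    · simp only [if_true, if_neg hij, sub_zero] at h5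
      exact hu3 (hPAIR u hu2 ⟨g' i, (hg' i).2, h5⟩)
    · have h6 : ∑ k, ((if k = i then T u else 0) - (if k = j then T (cF F b * v) else 0) - g' k) =
          0 := by
        rw [Finset.sum_sub_distrib, Finset.sum_sub_distrib, ← hsum]
        simp
      rw [h6]
      exact ⟨0, ⟨0, by
        rw [mul_zero]
        exact ⟨fun _ => 0, fun _ => (OO S).zero_mem, by simp⟩⟩, by rw [map_zero]⟩
  · intro hmin g hg hunr
    obtain ⟨L, hL⟩ := part_L0 K F h2 t
    have hbot : L = ⊥ := by
      rcases hmin L with h | h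
      · exact h
      · exfalso
        apply hj
        apply hinj
        ext1 f
        have h5 : Unr t f := by rw [← hL, h]; trivial
        ext m
        rw [hpair f m]
        rcases Int.even_or_odd m with h6 | h6
        · have h7 : Even m.natAbs := by rw [Int.natAbs_even]; exact h6
          rw [h7.neg_one_pow, one_mul]
        · rw [h5 (σt j₁) (hσ j₁) m h6, mul_zero]
    have hfL : g ∈ L := (hL g).2 hunr
    rw [hbot, IntermediateField.mem_bot] at hfL
    obtain ⟨r, rfl⟩ := hfL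
    rw [hRAT r hg, map_zero]

end Pool.Agent.N780.SB
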