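import Mathlib
import Pool.Agent.N780.SB.Zero
import Pool.Agent.N780.SB.Stm5
import Pool.Agent.N780.SB.CONST
import Pool.Agent.N780.SB.PU2Z
import Pool.Agent.N780.SB.PU1Z
import Pool.Agent.N780.SB.PW
import Pool.Agent.N780.SB.TTZ

set_option autoImplicit false

/-!
Part END: semisimple endomorphisms act on the holomorphic forms as scalars.
-/

namespace Pool.Agent.N780.SB

universe u v w

namespace END

open Polynomial in
/-- Decomposition by an annihilating separable polynomial. -/
theorem LA {K : Type u} {M : Type w} [Field K] [IsAlgClosed K] [AddCommGroup M] [Module K M]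
    (A : Module.End K M) (q : K[X]) (hq : q.Separable) (hA : aeval A q = 0) :
    ∃ (r : ℕ) (μ : Fin r → K) (e : Fin r → Module.End K M), (∀ i, q.eval (μ i) = 0) ∧
      (∀ m, ∑ i, e i m = m) ∧ (∀ i m, A (e i m) = μ i • e i m) ∧
      (∀ i j m, A m = μ j • m → e i m = if i = j then m else 0) ∧
      (∀ p : Submodule K M, (∀ m ∈ p, A m ∈ p) → ∀ i, ∀ m ∈ p, e i m ∈ p) := by
  classical
  have hq0 : q ≠ 0 := hq.ne_zero
  set s := q.roots.toFinset with hs
  let ε := s.equivFin
  let μ : Fin s.card → K := fun i => (ε.symm i : K)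
  have hinj : Function.Injective μ := Subtype.val_injective.comp ε.symm.injective
  have hmem : ∀ a ∈ s, q.eval a = 0 := fun a ha => by
    rw [hs, Multiset.mem_toFinset, mem_roots hq0] at ha
    exact ha
  have hroot : ∀ i, q.eval (μ i) = 0 := fun i => hmem _ (ε.symm i).2
  have hsurj : ∀ a ∈ q.roots, ∃ i, μ i = a := fun a ha =>
    ⟨ε ⟨a, by rw [hs, Multiset.mem_toFinset]; exact ha⟩, by simp [μ]⟩
  have hev : ∀ (P : K[X]) (j : Fin s.card) (m : M), A m = μ j • m →
      aeval A P m = P.eval (μ j) • m := by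
    intro P j m hm
    by_cases h0 : m = 0
    · rw [h0, map_zero, smul_zero]
    · exact Module.End.aeval_apply_of_hasEigenvector
        ⟨Module.End.mem_eigenspace_iff.mpr hm, h0⟩
  refine ⟨s.card, μ, fun i => aeval A (Lagrange.basis Finset.univ μ i), hroot, ?_, ?_, ?_, ?_⟩
  · intro m
    rcases Nat.eq_zero_or_pos s.card with h0 | h0
    · -- `q` is a nonzero constant
      have h1 : q.roots = 0 := by
        have : s = ∅ := Finset.card_eq_zero.mp h0
        rw [hs, Multiset.toFinset_eq_empty] at this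
        exact this
      have h2 : q.degree = 0 := by
        by_contra hcon
        obtain ⟨a, ha⟩ := IsAlgClosed.exists_root q hcon
        have : a ∈ q.roots := (mem_roots hq0).mpr ha
        rw [h1] at this
        simp at this
      rw [eq_C_of_degree_eq_zero h2] at hA
      have h3 : q.coeff 0 ≠ 0 := by
        intro h
        rw [eq_C_of_degree_eq_zero h2, h, map_zero] at hq0
        exact hq0 rfl
      rw [aeval_C] at hA
      have h4 : q.coeff 0 • m = 0 := by
        have := LinearMap.congr_fun hA m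
        simpa [Algebra.algebraMap_eq_smul_one] using this
      have h5 : m = 0 := (smul_eq_zero.mp h4).resolve_left h3
      rw [h5]
      simp
    · have hne : (Finset.univ : Finset (Fin s.card)).Nonempty := ⟨⟨0, h0⟩, Finset.mem_univ _⟩
      have h1 := Lagrange.sum_basis (s := Finset.univ) (v := μ) hinj.injOn hne
      have h2 : ∑ i, aeval A (Lagrange.basis Finset.univ μ i) = (1 : Module.End K M) := by
        rw [← map_sum, h1, map_one]
      have h3 := LinearMap.congr_fun h2 m
      simpa using h3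
  · intro i m
    have hbne : Lagrange.basis Finset.univ μ i ≠ 0 :=
      Lagrange.basis_ne_zero hinj.injOn (Finset.mem_univ i)
    have hdvd : q ∣ (X - C (μ i)) * Lagrange.basis Finset.univ μ i := by
      refine (IsAlgClosed.splits q).dvd_of_roots_le_roots hq0 ?_
      rw [Multiset.le_iff_subset (nodup_roots hq)]
      intro a ha
      obtain ⟨j, rfl⟩ := hsurj a ha
      rw [mem_roots (mul_ne_zero (X_sub_C_ne_zero _) hbne), IsRoot, eval_mul]
      by_cases hij : i = j
      · rw [hij]
        simp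
      · rw [Lagrange.eval_basis_of_ne hij (Finset.mem_univ j), mul_zero]
    obtain ⟨P, hP⟩ := hdvd
    have h1 : aeval A ((X - C (μ i)) * Lagrange.basis Finset.univ μ i) = 0 := by
      rw [hP, map_mul, hA, zero_mul]
    rw [map_mul, map_sub, aeval_X, aeval_C] at h1
    have h2 := LinearMap.congr_fun h1 m
    rw [Module.End.mul_apply, LinearMap.sub_apply, Module.algebraMap_end_apply,
      LinearMap.zero_apply, sub_eq_zero] at h2
    exact h2
  · intro i j m hm
    rw [hev _ j m hm]
    by_cases hij : i = j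
    · rw [if_pos hij, hij, Lagrange.eval_basis_self hinj.injOn (Finset.mem_univ j), one_smul]
    · rw [if_neg hij, Lagrange.eval_basis_of_ne hij (Finset.mem_univ j), zero_smul]
  · intro p hp i m hm
    have hpow : ∀ k : ℕ, (A ^ k) m ∈ p := by
      intro k
      induction k with
      | zero => simpa using hm
      | succ k ih =>
        rw [pow_succ', Module.End.mul_apply]
        exact hp _ ih
    show aeval A (Lagrange.basis Finset.univ μ i) m ∈ p
    rw [aeval_eq_sum_range, LinearMap.sum_apply]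
    exact Submodule.sum_mem _ fun k _ => Submodule.smul_mem _ _ (hpow k)

open Polynomial in
/-- The derivation of a root. -/
theorem der_root {K : Type u} [Field K] (δ : Derivation ℤ K K) (q : K[X]) (hq : q.Separable)
    (h : ∀ k, δ (q.coeff k) = 0) (μ : K) (hμ : q.eval μ = 0) : δ μ = 0 := by
  have h1 : δ (q.eval μ) = q.derivative.eval μ * δ μ := by
    rw [eval_eq_sum, derivative_eval, Polynomial.sum, Polynomial.sum, map_sum, Finset.sum_mul]
    refine Finset.sum_congr rfl fun k _ => ?_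
    rw [Derivation.leibniz, h k, smul_zero, add_zero, Derivation.leibniz_pow]
    simp only [smul_eq_mul, nsmul_eq_mul]
    ring
  rw [hμ, map_zero] at h1
  have h2 : q.derivative.eval μ ≠ 0 := by
    have := hq.aeval_derivative_ne_zero (x := μ) (by rw [coe_aeval_eq_eval]; exact hμ)
    rwa [coe_aeval_eq_eval] at this
  exact (mul_eq_zero.mp h1.symm).resolve_left h2

/-- `F` as a `K`-module. -/
@[reducible] noncomputable def modF (K : Type u) (F : Type v) [Field K] [Field F]
    [Algebra (RatFunc K) F] : Module K F :=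
  Module.compHom F ((algebraMap (RatFunc K) F).comp (RatFunc.C : K →+* RatFunc K))

/-- The derivation `T` of the functions on the affine curve. -/
theorem tat (K : Type u) (F : Type v) [Field K] [IsAlgClosed K] [CharZero K] [Field F]
    [Algebra (RatFunc K) F] (n : ℕ) (hn : 0 < n) (δ : Derivation ℤ K K) (t : K) (ht : δ t = 1)
    (S : Finset K) (a : Fin n → F) (hA : IsAffineCurve S t a)
    (D T : Derivation ℤ F F) (hD1 : D (xF K F) = 1) (hD2 : ∀ b : K, D (cF F b) = 0)
    (hT1 : T (xF K F) = 0) (hT2 : ∀ b : K, T (cF F b) = cF F (δ b)) :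
    (∀ g, InAt S t a g → InAt S t a (T g)) ∧ ∀ f, D (T f) = T (D f) := by
  have hsep : Algebra.IsSeparable (RatFunc K) F := by
    have : CharZero (RatFunc K) := charZero_of_injective_algebraMap
      (algebraMap K (RatFunc K)).injective
    have : FiniteDimensional (RatFunc K) F :=
      FiniteDimensional.of_finrank_pos (by rw [hA.rank]; exact hn)
    infer_instance
  obtain ⟨hcomm, -, -, -⟩ :=
    part_EXPO part_UNIQ part_UNIQ part_LD K F δ D T hD1 hD2 hT1 hT2
  refine ⟨?_, hcomm⟩
  obtain ⟨hAO, hAadd, hAmul, -⟩ := part_ALG K F S t n a hA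
  have hXt : (RatFunc.X - RatFunc.C t : RatFunc K) ≠ 0 := by
    intro h
    have h3 : D (algebraMap (RatFunc K) F (RatFunc.X - RatFunc.C t)) = 0 := by
      rw [h, map_zero, map_zero]
    rw [map_sub, map_sub] at h3
    have h4 : D (algebraMap (RatFunc K) F RatFunc.X) = 1 := hD1
    have h5 : D (algebraMap (RatFunc K) F (RatFunc.C t)) = 0 := hD2 t
    rw [h4, h5, sub_zero] at h3
    exact one_ne_zero h3
  have hdisc : ∀ D : Derivation ℤ F F,
      (∃ r ∈ OO S, D (xF K F) = algebraMap (RatFunc K) F r) →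
      (∀ b : K, ∃ r ∈ OO S, D (cF F b) = algebraMap (RatFunc K) F r) →
      ∀ f, InA S a f → InA S a ((xF K F - cF F t) * D f) := by
    intro D h1 h2 f hf
    obtain ⟨r, hr, hri, hr0, hd⟩ := hA.disc
    have h3 := part_DISC K F S n a hA.rank hA.one hA.mul
      (by rw [hd]; exact mul_ne_zero hr0 hXt) D (part_DOO K F S D h1 h2) f hf
    rw [hd] at h3
    have h4 := hAmul _ _ (hAO r⁻¹ hri) h3
    have h5 : algebraMap (RatFunc K) F r⁻¹ *
        (algebraMap (RatFunc K) F (r * (RatFunc.X - RatFunc.C t)) * D f) =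
        (xF K F - cF F t) * D f := by
      have h6 : algebraMap (RatFunc K) F r ≠ 0 := by
        rw [Ne, map_eq_zero]; exact hr0
      unfold xF cF
      rw [map_mul, map_sub, map_inv₀]
      field_simp
    rwa [h5] at h4
  have hDt1' : ∃ r ∈ OO S, T (xF K F) = algebraMap (RatFunc K) F r :=
    ⟨0, (OO S).zero_mem, by rw [hT1, map_zero]⟩
  have hDt2' : ∀ b : K, ∃ r ∈ OO S, T (cF F b) = algebraMap (RatFunc K) F r :=
    fun b => ⟨RatFunc.C (δ b), C_mem_OO S _, by rw [hT2]; rfl⟩
  have htA : ∀ f, InA S a f → InA S a ((xF K F - cF F t) * T f) := hdisc T hDt1' hDt2'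
  set y : F := xF K F - cF F t with hy
  have hTt : ∀ (D' : Derivation ℤ F F) (e : F), InA S a e → D' y = e →
      (∀ f, InA S a f → InA S a (y * D' f)) → ∀ g, InAt S t a g → InAt S t a (D' g) := by
    rintro D' e he hDy hDA g ⟨N, hN⟩
    refine ⟨N + 1, ?_⟩
    have h1 := hDA _ hN
    have h3 : y * D' (y ^ N * g) = N * (e * (y ^ N * g)) + y ^ (N + 1) * D' g := by
      rw [Derivation.leibniz, Derivation.leibniz_pow, hDy]
      simp only [smul_eq_mul, nsmul_eq_mul]
      rcases N with _ | N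
      · simp
      · rw [Nat.add_sub_cancel]
        push_cast
        ring
    rw [h3] at h1
    have h4 : InA S a (-((N : F) * (e * (y ^ N * g)))) := by
      have h5 := hAO (RatFunc.C (-(N : K))) (C_mem_OO S _)
      have h6 := hAmul _ _ h5 (hAmul _ _ he hN)
      have h7 : algebraMap (RatFunc K) F (RatFunc.C (-(N : K))) = -(N : F) := by
        rw [map_neg, map_neg, map_natCast, map_natCast]
      rw [h7] at h6
      rwa [neg_mul] at h6
    have h8 := hAadd _ _ h4 h1
    rwa [show -((N : F) * (e * (y ^ N * g))) + (N * (e * (y ^ N * g)) + y ^ (N + 1) * D' g) =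
      y ^ (N + 1) * D' g by ring] at h8
  refine hTt T (-1) ?_ ?_ htA
  · have := hAO (RatFunc.C (-1)) (C_mem_OO S _)
    rwa [map_neg, map_neg, map_one, map_one] at this
  · rw [hy, map_sub, hT1, hT2, ht]
    unfold cF
    rw [map_one, map_one, zero_sub]

end END

open END in
theorem part_END (hZ : S_ZERO.{u, v}) : S_END.{u, v} := by
  classical
  intro K F _ _ _ _ _ n hn δ t ht S hS a hA D T hD1 hD2 hT1 hT2 V hV hV0 α hα q hq hδq hqα
  let _ := modF K F
  have smul_def : ∀ (b : K) (g : F), b • g = cF F b * g := fun _ _ => rfl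
  obtain ⟨-, hZ2, -⟩ := hZ K F n hn δ t ht S hS a hA D T hD1 hD2 hT1 hT2
  obtain ⟨hTat, hcomm⟩ := tat K F n hn δ t ht S a hA D T hD1 hD2 hT1 hT2
  have hPUI : S_PUIZ.{u, v} := part_PU2Z part_PW (part_PU1Z part_PW)
  obtain ⟨-, -, -, -, -, -, -, -, -, -, hEX, -, -, -, hadd, hsm, -⟩ :=
    facts (part_CONST part_TR) hPUI (part_TTZ part_PW hPUI part_TR) K F n hn δ t ht S hS a hA D T
      hD1 hD2 hT1 hT2
  -- holomorphic forms are a `K`-space
  have hHadd : ∀ g g', IsHol S t a g → IsHol S t a g' → IsHol S t a (g + g') := by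
    rintro g g' ⟨a1, a2, a3⟩ ⟨b1, b2, b3⟩
    refine ⟨hadd _ _ a1 b1, ?_, fun E hE => ⟨?_, ?_⟩⟩
    · intro σ hσ' m hm
      rw [map_add, HahnSeries.coeff_add, a2 σ hσ' m hm, b2 σ hσ' m hm, add_zero]
    · intro c hc σ hσ' m hm
      rw [map_add, HahnSeries.coeff_add, (a3 E hE).1 c hc σ hσ' m hm,
        (b3 E hE).1 c hc σ hσ' m hm, add_zero]
    · intro σ hσ' m hm
      rw [map_add, HahnSeries.coeff_add, (a3 E hE).2 σ hσ' m hm, (b3 E hE).2 σ hσ' m hm, add_zero]
  have hHsm : ∀ (b : K) g, IsHol S t a g → IsHol S t a (cF F b * g) := by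
    rintro b g ⟨a1, a2, a3⟩
    have key : ∀ (ξ : LaurentSeries K) (σ : F →+* LaurentSeries K), IsExp ξ σ → ∀ m : ℤ,
        (σ g).coeff m = 0 → (σ (cF F b * g)).coeff m = 0 := by
      intro ξ σ hσ' m hm
      rw [map_mul, hσ'.2 b, HahnSeries.C_mul_eq_smul, HahnSeries.coeff_smul, hm, smul_zero]
    refine ⟨hsm _ _ a1, ?_, fun E hE => ⟨?_, ?_⟩⟩
    · intro σ hσ' m hm
      exact key _ σ hσ' m (a2 σ hσ' m hm)
    · intro c hc σ hσ' m hm
      exact key _ σ hσ' m ((a3 E hE).1 c hc σ hσ' m hm)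
    · intro σ hσ' m hm
      exact key _ σ hσ' m ((a3 E hE).2 σ hσ' m hm)
  have hIn0 : InAt S t a (0 : F) := ⟨0, by
    rw [mul_zero]
    exact ⟨fun _ => 0, fun _ => (OO S).zero_mem, by simp⟩⟩
  have hH0 : IsHol S t a (0 : F) := by
    refine ⟨hIn0, ?_, fun E hE => ⟨?_, ?_⟩⟩
    · intro σ hσ' m hm
      rw [map_zero, HahnSeries.coeff_zero]
    · intro c hc σ hσ' m hm
      rw [map_zero, HahnSeries.coeff_zero]
    · intro σ hσ' m hm
      rw [map_zero, HahnSeries.coeff_zero]
  let Hsub : Submodule K F :=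
    { carrier := {g | IsHol S t a g}
      add_mem' := fun {g g'} h h' => hHadd g g' h h'
      zero_mem' := hH0
      smul_mem' := fun b g h => hHsm b g h }
  let Esub : Submodule K F :=
    { carrier := {g | IsExact S t a D g}
      add_mem' := by
        rintro _ _ ⟨h, hh, rfl⟩ ⟨h', hh', rfl⟩
        exact ⟨h + h', hadd _ _ hh hh', by rw [map_add]⟩
      zero_mem' := ⟨0, hIn0, by rw [map_zero]⟩
      smul_mem' := by
        rintro b _ ⟨h, hh, rfl⟩
        refine ⟨cF F b * h, hsm _ _ hh, ?_⟩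
        rw [Derivation.leibniz, hD2, smul_zero, add_zero, smul_eq_mul]
        rfl }
  have hTE : ∀ g, IsExact S t a D g → IsExact S t a D (T g) := by
    rintro _ ⟨h, hh, rfl⟩
    exact ⟨T h, hTat h hh, (hcomm h).symm⟩
  let Vsub : Submodule K F :=
    { carrier := V
      add_mem' := fun h h' => V.add_mem h h'
      zero_mem' := V.zero_mem
      smul_mem' := fun b g h => hV.smul b g h }
  let N : Submodule K Vsub := Esub.comap Vsub.subtype
  have hmk : ∀ v w : Vsub, N.mkQ v = N.mkQ w ↔ IsExact S t a D ((v : F) - w) := by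
    intro v w
    rw [Submodule.mkQ_apply, Submodule.mkQ_apply, Submodule.Quotient.eq]
    exact Iff.rfl
  have hmk0 : ∀ v : Vsub, N.mkQ v = 0 ↔ IsExact S t a D (v : F) := by
    intro v
    rw [Submodule.mkQ_apply, Submodule.Quotient.mk_eq_zero]
    exact Iff.rfl
  let αV : Vsub → Vsub := fun v => ⟨α v, hα.maps v v.2⟩
  let α0 : Vsub →ₗ[K] (Vsub ⧸ N) :=
    { toFun := fun v => N.mkQ (αV v)
      map_add' := by
        intro v w
        rw [← map_add]
        congr 1
        exact Subtype.ext (map_add α (v : F) (w : F))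
      map_smul' := by
        intro b v
        rw [RingHom.id_apply, ← map_smul, hmk]
        exact hα.smul b v v.2 }
  have hker : N ≤ LinearMap.ker α0 := by
    intro v hv
    rw [LinearMap.mem_ker]
    exact (hmk0 _).mpr (hα.exact _ hv)
  let A : Module.End K (Vsub ⧸ N) := N.liftQ α0 hker
  have hAmk : ∀ v : Vsub, A (N.mkQ v) = N.mkQ (αV v) := fun v => rfl
  have hiter : ∀ (k : ℕ) (v : Vsub), ((αV^[k] v : Vsub) : F) = α^[k] (v : F) ∧
      (A ^ k) (N.mkQ v) = N.mkQ (αV^[k] v) := by
    intro k v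
    induction k with
    | zero => exact ⟨rfl, rfl⟩
    | succ k ih =>
      rw [Function.iterate_succ_apply', Function.iterate_succ_apply', pow_succ',
        Module.End.mul_apply, ih.2, hAmk]
      exact ⟨by rw [← ih.1], rfl⟩
  have hAq : Polynomial.aeval A q = 0 := by
    refine LinearMap.ext fun x => ?_
    obtain ⟨v, rfl⟩ := N.mkQ_surjective x
    rw [Polynomial.aeval_eq_sum_range, LinearMap.sum_apply, LinearMap.zero_apply]
    have h1 : ∀ k ∈ Finset.range (q.natDegree + 1), (q.coeff k • A ^ k) (N.mkQ v) =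
        N.mkQ (q.coeff k • (αV^[k] v)) := by
      intro k _
      rw [LinearMap.smul_apply, (hiter k v).2, map_smul]
    rw [Finset.sum_congr rfl h1, ← map_sum, hmk0, Submodule.coe_sum]
    have h2 := hqα v v.2
    have h3 : ∑ k ∈ Finset.range (q.natDegree + 1), ((q.coeff k • (αV^[k] v) : Vsub) : F) =
        ∑ k ∈ Finset.range (q.natDegree + 1), cF F (q.coeff k) * α^[k] (v : F) := by
      refine Finset.sum_congr rfl fun k _ => ?_
      rw [Submodule.coe_smul, smul_def, (hiter k v).1]
    rw [h3]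
    exact h2
  obtain ⟨r, μ, e, hμ, hsum, hAe, hei, hinv⟩ := LA A q hq hAq
  have hδμ : ∀ i, δ (μ i) = 0 := fun i => der_root δ q hq hδq _ (hμ i)
  -- the eigenspaces
  let W : Fin r → AddSubgroup F := fun i =>
    (((Module.End.eigenspace A (μ i)).comap N.mkQ).map Vsub.subtype).toAddSubgroup
  have hW : ∀ i g, g ∈ W i ↔ ∃ hg : g ∈ V, IsExact S t a D (α g - cF F (μ i) * g) := by
    intro i g
    have h1 : ∀ v : Vsub, N.mkQ v ∈ Module.End.eigenspace A (μ i) ↔
        IsExact S t a D (α (v : F) - cF F (μ i) * (v : F)) := by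
      intro v
      rw [Module.End.mem_eigenspace_iff, hAmk, ← map_smul, hmk]
      exact Iff.rfl
    constructor
    · rintro ⟨v, hv, rfl⟩
      exact ⟨v.2, (h1 v).mp hv⟩
    · rintro ⟨hg, hx⟩
      exact ⟨⟨g, hg⟩, (h1 ⟨g, hg⟩).mpr hx, rfl⟩
  have hWst : ∀ i, IsStable S t a D T (W i) := by
    intro i
    refine ⟨?_, ?_, ?_, ?_⟩
    · intro g hg
      exact hV.sub g ((hW i g).mp hg).1
    · intro b g hg
      exact Submodule.smul_mem
        (((Module.End.eigenspace A (μ i)).comap N.mkQ).map Vsub.subtype) b hg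
    · intro g hg
      exact (hW i g).mpr ⟨hV.exact g hg, Esub.sub_mem (hα.exact g hg) (Esub.smul_mem (μ i) hg)⟩
    · intro g hg
      obtain ⟨h1, h2⟩ := (hW i g).mp hg
      refine (hW i _).mpr ⟨hV.flat g h1, ?_⟩
      have h3 : α (T g) - cF F (μ i) * T g =
          T (α g - cF F (μ i) * g) - (T (α g) - α (T g)) := by
        rw [map_sub, Derivation.leibniz, hT2, hδμ i]
        have h0 : cF F (0 : K) = 0 := by unfold cF; rw [map_zero, map_zero]
        rw [h0, smul_zero, add_zero, smul_eq_mul]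
        ring
      rw [h3]
      exact Esub.sub_mem (hTE _ h2) (hα.flat g h1)
  have hind : ∀ g : Fin r → F, (∀ i, g i ∈ W i) → IsExact S t a D (∑ i, g i) →
      ∀ i, IsExact S t a D (g i) := by
    intro g hg hx j
    let v : Fin r → Vsub := fun i => ⟨g i, ((hW i _).mp (hg i)).1⟩
    have h1 : ∑ i, N.mkQ (v i) = 0 := by
      rw [← map_sum, hmk0, Submodule.coe_sum]
      exact hx
    have h2 : ∀ i, A (N.mkQ (v i)) = μ i • N.mkQ (v i) := by
      intro i
      rw [hAmk, ← map_smul, hmk]
      exact ((hW i _).mp (hg i)).2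
    have h3 : e j (∑ i, N.mkQ (v i)) = N.mkQ (v j) := by
      rw [map_sum]
      rw [Finset.sum_congr rfl fun i _ => hei j i _ (h2 i)]
      simp
    rw [h1, map_zero] at h3
    exact (hmk0 (v j)).mp h3.symm
  -- holomorphic forms
  let Hbar : Submodule K (Vsub ⧸ N) := (Hsub.comap Vsub.subtype).map N.mkQ
  have hHbar : ∀ m ∈ Hbar, A m ∈ Hbar := by
    rintro _ ⟨v, hv, rfl⟩
    obtain ⟨g', hg', hx⟩ := hα.hodge v v.2 hv
    have hg'V : g' ∈ V := by
      have h1 := V.sub_mem (hα.maps v v.2) (hV.exact _ hx)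
      rwa [sub_sub_cancel] at h1
    refine ⟨⟨g', hg'V⟩, hg', ?_⟩
    rw [hAmk]
    symm
    rw [hmk]
    exact hx
  have hdec : ∀ g ∈ V, IsHol S t a g → ∃ g' : Fin r → F,
      (∀ i, g' i ∈ W i ∧ IsHol S t a (g' i)) ∧ g = ∑ i, g' i := by
    intro g hgV hg
    let v : Vsub := ⟨g, hgV⟩
    have h1 : N.mkQ v ∈ Hbar := ⟨v, hg, rfl⟩
    have h2 : ∀ i, ∃ w : Vsub, IsHol S t a (w : F) ∧ N.mkQ w = e i (N.mkQ v) := fun i => by
      obtain ⟨w, hw1, hw2⟩ := hinv Hbar hHbar i _ h1
      exact ⟨w, hw1, hw2⟩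
    choose w hw1 hw2 using h2
    refine ⟨fun i => w i, fun i => ⟨(hW i _).mpr ⟨(w i).2, ?_⟩, hw1 i⟩, ?_⟩
    · have h3 : A (N.mkQ (w i)) = μ i • N.mkQ (w i) := by rw [hw2 i]; exact hAe i _
      rw [hAmk, ← map_smul, hmk] at h3
      exact h3
    · have h3 : N.mkQ v = N.mkQ (∑ i, w i) := by
        rw [map_sum]
        simp only [hw2]
        exact (hsum _).symm
      rw [hmk, Submodule.coe_sum] at h3
      have h4 : IsHol S t a (g - ∑ i, (w i : F)) :=
        Hsub.sub_mem hg (Hsub.sum_mem fun i _ => hw1 i)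
      exact sub_eq_zero.mp (hEX _ h4 h3)
  have htwo := hZ2 (Fin r) W hWst hind (fun g hg hh => hdec _
    (V.sum_mem fun i _ => ((hW i _).mp (hg i)).1) hh)
  by_cases hall : ∀ g ∈ V, IsHol S t a g → g = 0
  · refine ⟨0, map_zero δ, fun g hgV hg => ?_⟩
    rw [hall g hgV hg]
    have h0 : α 0 - cF F (0 : K) * 0 = 0 := by rw [map_zero, mul_zero, sub_zero]
    rw [h0]
    exact Esub.zero_mem
  · push Not at hall
    obtain ⟨g0, hg0V, hg0, hne⟩ := hall
    obtain ⟨h, hh, hgh⟩ := hdec g0 hg0V hg0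
    have hex : ∃ i, h i ≠ 0 := by
      by_contra hcon
      push Not at hcon
      apply hne
      rw [hgh]
      exact Finset.sum_eq_zero fun i _ => hcon i
    obtain ⟨i0, hi0⟩ := hex
    have hWV : ∀ i g, g ∈ W i → g ∈ V := fun i g hg => ((hW i g).mp hg).1
    have hother : ∀ j, i0 ≠ j → ∀ g ∈ W j, IsHol S t a g → g = 0 := by
      intro j hj g hg1 hg2
      rcases htwo i0 j hj with h1 | h1
      · exact absurd (hV0 _ (hWV i0 _ (hh i0).1) (hh i0).2 (h1 _ (hh i0).1 (hh i0).2)) hi0
      · exact hV0 g (hWV j g hg1) hg2 (h1 g hg1 hg2)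
    refine ⟨μ i0, hδμ i0, fun g hgV hg => ?_⟩
    obtain ⟨k, hk, hgk⟩ := hdec g hgV hg
    have h1 : g = k i0 := by
      rw [hgk]
      refine Finset.sum_eq_single i0 (fun j _ hj => hother j (Ne.symm hj) _ (hk j).1 (hk j).2) ?_
      intro hcon
      exact absurd (Finset.mem_univ _) hcon
    rw [h1]
    exact ((hW i0 _).mp (hk i0).1).2

end Pool.Agent.N780.SB
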