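import Mathlib
import Pool.Agent.N780.SB.Stm7

set_option autoImplicit false

/-!
Fibres of `x`: statements of the parts.
-/

namespace Pool.Agent.N780.SB

universe u v w

/-- Part FIBC: the fibre over a point `c` outside `S`, `t` and infinity consists of `n` points. -/
def S_FIBC : Prop := ∀ (K : Type u) (F : Type v) [Field K] [IsAlgClosed K] [CharZero K] [Field F]
  [Algebra (RatFunc K) F] (n : ℕ) (_ : 0 < n) (S : Finset K) (t : K) (_ : t ∉ S) (a : Fin n → F)
  (_ : IsAffineCurve S t a) (c : K) (_ : c ∉ S) (_ : c ≠ t),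
  {v : Point K F | 0 < v.1 (xF K F - cF F c)}.encard = n ∧
  (∀ v : Point K F, 0 < v.1 (xF K F - cF F c) → v.1 (xF K F - cF F c) = 1) ∧
  ∀ v v' : Point K F, 0 < v.1 (xF K F - cF F c) → 0 < v'.1 (xF K F - cF F c) →
    ∀ r : RatFunc K, v.1 (algebraMap (RatFunc K) F r) = v'.1 (algebraMap (RatFunc K) F r)

/-- Part FIN: the fibres are finite. -/
def S_FIN : Prop := ∀ (K : Type u) (F : Type v) [Field K] [IsAlgClosed K] [CharZero K] [Field F]
  [Algebra (RatFunc K) F] (n : ℕ) (_ : 0 < n) (_ : Module.finrank (RatFunc K) F = n),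
  (∀ c : K, {v : Point K F | 0 < v.1 (xF K F - cF F c)}.Finite) ∧
  {v : Point K F | v.1 (xF K F) < 0}.Finite

end Pool.Agent.N780.SB
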