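import Mathlib
import Pool.Agent.N780.SB.Stm8
import Pool.Agent.N780.SB.Main
import Pool.Agent.N780.SB.PW
import Pool.Agent.N780.SB.TR

set_option autoImplicit false

/-!
SB/FIBC (helper247 for project SB of helper780): the fibre over `c` has `n` points.
-/

namespace Pool.Agent.N780.SB

universe u v w

namespace FIBC247

section series

variable {K : Type u} [Field K]

/-- a series whose exponents are divisible by `E` is a series in `u ^ E` -/
lemma exists_root {E : ℕ} (hE : 0 < E) (ρ : LaurentSeries K →+* LaurentSeries K) (hρ : IsPw E ρ)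
    (y : LaurentSeries K) (hy : ∀ m : ℤ, y.coeff m ≠ 0 → (E : ℤ) ∣ m) : ∃ z, ρ z = y := by
  have hE' : (0 : ℤ) < E := by exact_mod_cast hE
  refine ⟨HahnSeries.ofSuppBddBelow (fun k : ℤ => y.coeff ((E : ℤ) * k)) ⟨min y.order 0, ?_⟩, ?_⟩
  · intro k hk
    rw [Function.mem_support] at hk
    have h1 : y.order ≤ (E : ℤ) * k := HahnSeries.order_le_of_coeff_ne_zero hk
    rcases le_or_gt 0 k with h | h
    · exact (min_le_right _ _).trans h
    · refine (min_le_left _ _).trans (h1.trans ?_)
      nlinarith
  · ext m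
    by_cases hm : (E : ℤ) ∣ m
    · obtain ⟨k, rfl⟩ := hm
      rw [(hρ _).1 k]
      rfl
    · rw [(hρ _).2 m hm]
      by_contra h
      exact hm (hy m (Ne.symm h))

/-- division of the exponents by `E` -/
lemma exists_lift {F : Type v} [Field F] {E : ℕ} (hE : 0 < E)
    (ρ : LaurentSeries K →+* LaurentSeries K) (hρ : IsPw E ρ) (τ : F →+* LaurentSeries K)
    (hτ : ∀ f (m : ℤ), (τ f).coeff m ≠ 0 → (E : ℤ) ∣ m) :
    ∃ φ : F →+* LaurentSeries K, ∀ f, ρ (φ f) = τ f := by
  have hinj : Function.Injective ρ := ρ.injective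
  choose g hg using fun f => exists_root hE ρ hρ (τ f) (hτ f)
  refine ⟨{ toFun := g, map_one' := ?_, map_mul' := ?_, map_zero' := ?_, map_add' := ?_ }, hg⟩
  · apply hinj; rw [hg, map_one, map_one]
  · intro x y; apply hinj; rw [hg, map_mul, map_mul, hg, hg]
  · apply hinj; rw [hg, map_zero, map_zero]
  · intro x y; apply hinj; rw [hg, map_add, map_add, hg, hg]

end series

section main

variable {K : Type u} {F : Type v} [Field K] [Field F] [Algebra (RatFunc K) F]

lemma exp_sub {c : K} {φ : F →+* LaurentSeries K} (h : IsExp (atFin 1 c) φ) :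
    φ (xF K F - cF F c) = HahnSeries.single 1 1 := by
  rw [map_sub, h.1, h.2]
  unfold atFin
  rw [add_sub_cancel_left]
  rfl

/-- two expansions in `x - c` with the same orders have the same coefficients -/
lemma coeff_eq {c : K} {φ ψ : F →+* LaurentSeries K} (hφ : IsExp (atFin 1 c) φ)
    (hψ : IsExp (atFin 1 c) ψ) (h : ∀ f, (φ f).order = (ψ f).order) (k : ℕ) :
    ∀ f : F, 0 ≤ (φ f).order → ∀ m : ℤ, m < k → (φ f).coeff m = (ψ f).coeff m := by
  induction k with
  | zero =>
    intro f hf m hm
    have hm' : m < 0 := by exact_mod_cast hm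
    rw [HahnSeries.coeff_eq_zero_of_lt_order (lt_of_lt_of_le hm' hf),
      HahnSeries.coeff_eq_zero_of_lt_order (lt_of_lt_of_le hm' (by rw [← h]; exact hf))]
  | succ k ih =>
    intro f hf m hm
    set b : K := (φ f).coeff 0 with hb
    set f₁ : F := f - cF F b with hf₁
    have e1 : φ f₁ = φ f - HahnSeries.C b := by rw [hf₁, map_sub, hφ.2]
    have e2 : ψ f₁ = ψ f - HahnSeries.C b := by rw [hf₁, map_sub, hψ.2]
    have e3 : φ f = φ f₁ + HahnSeries.C b := by rw [e1, sub_add_cancel]
    have e4 : ψ f = ψ f₁ + HahnSeries.C b := by rw [e2, sub_add_cancel]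
    rw [e3, e4, HahnSeries.coeff_add, HahnSeries.coeff_add]
    congr 1
    by_cases h0 : f₁ = 0
    · rw [h0, map_zero, map_zero]
    · have hne : φ f₁ ≠ 0 := by rwa [Ne, map_eq_zero]
      have hc : ∀ m : ℤ, (φ f₁).coeff m = (φ f).coeff m - if m = 0 then b else 0 := by
        intro m
        rw [e1, HahnSeries.coeff_sub, HahnSeries.C_apply, HahnSeries.coeff_single]
        split_ifs <;> rfl
      have hord : 1 ≤ (φ f₁).order := by
        by_contra hlt
        rw [not_le] at hlt
        apply hne
        rw [← HahnSeries.coeff_order_eq_zero, hc]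
        rcases lt_or_eq_of_le (show (φ f₁).order ≤ 0 by omega) with h1 | h1
        · rw [HahnSeries.coeff_eq_zero_of_lt_order (lt_of_lt_of_le h1 hf), if_neg h1.ne, sub_zero]
        · rw [h1, if_pos rfl, ← hb, sub_self]
      have hx0 : (xF K F - cF F c) ≠ 0 := by
        intro h1
        have h2 := exp_sub hφ
        rw [h1, map_zero] at h2
        exact HahnSeries.single_ne_zero (one_ne_zero) h2.symm
      set g : F := f₁ / (xF K F - cF F c) with hg
      have hgf : f₁ = g * (xF K F - cF F c) := by rw [hg, div_mul_cancel₀ _ hx0]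
      have hg0 : g ≠ 0 := by
        intro h1
        rw [h1, zero_mul] at hgf
        exact h0 hgf
      have hφg : φ g ≠ 0 := by rwa [Ne, map_eq_zero]
      have hog : 0 ≤ (φ g).order := by
        have h1 : (φ f₁).order = (φ g).order + 1 := by
          rw [hgf, map_mul, exp_sub hφ, HahnSeries.order_mul hφg
            (HahnSeries.single_ne_zero one_ne_zero), HahnSeries.order_single one_ne_zero]
        omega
      rw [hgf, map_mul, map_mul, exp_sub hφ, exp_sub hψ, mul_single_coeff, mul_single_coeff,
        ih g hog (m - 1) (by push_cast at hm; omega)]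

/-- an expansion in `x - c` is determined by the orders -/
lemma ext_of_order {c : K} {φ ψ : F →+* LaurentSeries K} (hφ : IsExp (atFin 1 c) φ)
    (hψ : IsExp (atFin 1 c) ψ) (h : ∀ f, (φ f).order = (ψ f).order) : φ = ψ := by
  have key : ∀ f : F, 0 ≤ (φ f).order → φ f = ψ f := by
    intro f hf
    ext m
    exact coeff_eq hφ hψ h (m.toNat + 1) f hf m (by push_cast; omega)
  ext1 f
  by_cases h0 : f = 0
  · rw [h0, map_zero, map_zero]
  · have hφf : φ f ≠ 0 := by rwa [Ne, map_eq_zero]
    set N : ℕ := (-(φ f).order).toNat with hN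
    have hs : ∀ χ : F →+* LaurentSeries K, IsExp (atFin 1 c) χ →
        χ (f * (xF K F - cF F c) ^ N) = χ f * HahnSeries.single (N : ℤ) 1 := by
      intro χ hχ
      rw [map_mul, map_pow, exp_sub hχ, HahnSeries.single_pow, one_pow, nsmul_eq_mul, mul_one]
    have hne : (HahnSeries.single (N : ℤ) 1 : LaurentSeries K) ≠ 0 :=
      HahnSeries.single_ne_zero one_ne_zero
    have h1 := key (f * (xF K F - cF F c) ^ N) (by
      rw [hs φ hφ, HahnSeries.order_mul hφf hne, HahnSeries.order_single one_ne_zero]
      omega)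
    rw [hs φ hφ, hs ψ hψ] at h1
    exact mul_right_cancel₀ hne h1

end main

end FIBC247

open FIBC247 in
/-- Part FIBC: the fibre over a point `c` outside `S`, `t` and infinity consists of `n` points. -/
theorem part_FIBC (hTR : S_TR.{u, v}) (hPUI : S_PUIZ.{u, v}) (hUNRM : S_UNRM.{u, v}) :
    S_FIBC.{u, v} := by
  intro K F _ _ _ _ _ n hn S t ht a hA c hcS hct
  have hsep : Algebra.IsSeparable (RatFunc K) F := by
    have : CharZero (RatFunc K) := charZero_of_injective_algebraMap
      (algebraMap K (RatFunc K)).injective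
    have : FiniteDimensional (RatFunc K) F :=
      FiniteDimensional.of_finrank_pos (by rw [hA.rank]; exact hn)
    infer_instance
  obtain ⟨E, hE, hSp, -⟩ := hPUI K F n hn hA.rank {c}
  obtain ⟨τ, hτi, hτ⟩ := hSp c (Finset.mem_singleton_self c)
  obtain ⟨ρ, hρ⟩ := part_PW K E hE
  have hE' : (0 : ℤ) < E := by exact_mod_cast hE
  have hlift : ∀ j, ∃ φ : F →+* LaurentSeries K, ∀ f, ρ (φ f) = τ j f := fun j =>
    exists_lift hE ρ hρ (τ j) fun f m hm =>
      hUNRM K F n hn S t ht a hA c hcS hct E hE (τ j) (hτ j) f m hm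
  choose φ hφ using hlift
  have hcoef : ∀ j f (k : ℤ), (φ j f).coeff k = (τ j f).coeff ((E : ℤ) * k) := by
    intro j f k
    rw [← (hρ (φ j f)).1 k, hφ]
  have hexp : ∀ j, IsExp (atFin 1 c) (φ j) := by
    intro j
    refine ⟨?_, fun b => ?_⟩
    · ext k
      rw [hcoef, (hτ j).1, atFin_coeff, atFin_coeff]
      congr 1
      · have : ((E : ℤ) * k = 0) ↔ k = 0 := by
          constructor
          · intro h
            rcases mul_eq_zero.1 h with h | h
            · omega
            · exact h
          · rintro rfl; rw [mul_zero]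
        by_cases hk : k = 0
        · rw [if_pos (this.2 hk), if_pos hk]
        · rw [if_neg (fun h => hk (this.1 h)), if_neg hk]
      · have : ((E : ℤ) * k = (E : ℤ)) ↔ k = ((1 : ℕ) : ℤ) := by
          constructor
          · intro h
            have h1 : (E : ℤ) * k = (E : ℤ) * 1 := by rw [h, mul_one]
            have := mul_left_cancel₀ hE'.ne' h1
            exact_mod_cast this
          · rintro rfl; simp
        by_cases hk : k = ((1 : ℕ) : ℤ)
        · rw [if_pos (this.2 hk), if_pos hk]
        · rw [if_neg (fun h => hk (this.1 h)), if_neg hk]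
    · ext k
      rw [hcoef, (hτ j).2, HahnSeries.C_apply, HahnSeries.coeff_single, HahnSeries.coeff_single]
      have : ((E : ℤ) * k = 0) ↔ k = 0 := by
        constructor
        · intro h
          rcases mul_eq_zero.1 h with h | h
          · omega
          · exact h
        · rintro rfl; rw [mul_zero]
      by_cases hk : k = 0
      · rw [if_pos (this.2 hk), if_pos hk]
      · rw [if_neg (fun h => hk (this.1 h)), if_neg hk]
  have hφi : Function.Injective φ := by
    intro i j hij
    apply hτi
    ext1 f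
    rw [← hφ i f, ← hφ j f, hij]
  have hord1 : ∀ j, (φ j (xF K F - cF F c)).order = 1 := by
    intro j
    rw [exp_sub (hexp j), HahnSeries.order_single one_ne_zero]
  let pt : Fin n → Point K F := fun j => ⟨fun f => (φ j f).order,
    φ j, Or.inl ⟨1, c, one_pos, hexp j⟩, ⟨_, hord1 j⟩, fun _ => rfl⟩
  have hpt : ∀ j f, (pt j).1 f = (φ j f).order := fun _ _ => rfl
  have hpti : Function.Injective pt := by
    intro i j hij
    apply hφi
    refine ext_of_order (hexp i) (hexp j) fun f => ?_
    rw [← hpt i f, ← hpt j f, hij]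
  have hall : ∀ v : Point K F, 0 < v.1 (xF K F - cF F c) → ∃ j, v = pt j := by
    rintro ⟨v, σ, hcase, ⟨f₁, hf₁⟩, hv⟩ hpos
    have hpos' : 0 < (σ (xF K F - cF F c)).order := by rw [← hv]; exact hpos
    rcases hcase with ⟨e, c', he, hσ⟩ | ⟨e, he, hσ⟩
    · have he' : (0 : ℤ) < e := by exact_mod_cast he
      have hcc : c' = c := by
        by_contra hne
        have h1 : (σ (xF K F - cF F c)).coeff 0 ≠ 0 := by
          rw [map_sub, hσ.1, hσ.2, HahnSeries.coeff_sub, atFin_coeff, HahnSeries.C_apply,
            HahnSeries.coeff_single, if_pos rfl, if_neg he'.ne, if_pos rfl, add_zero]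
          exact sub_ne_zero.2 hne
        have h2 := HahnSeries.order_le_of_coeff_ne_zero h1
        omega
      subst hcc
      have h1 : (σ f₁).coeff 1 ≠ 0 := by
        intro h2
        rw [← hf₁] at h2
        rw [HahnSeries.coeff_order_eq_zero] at h2
        rw [h2, HahnSeries.order_zero] at hf₁
        exact zero_ne_one hf₁
      have h2 := hUNRM K F n hn S t ht a hA c' hcS hct e he σ hσ f₁ 1 h1
      have he1 : e = 1 := by
        have h3 : e ∣ 1 := by exact_mod_cast h2
        exact Nat.dvd_one.1 h3
      subst he1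
      obtain ⟨j, hj⟩ := (hTR K F n hn hA.rank (atFin 1 c') φ hφi hexp).1 σ hσ
      refine ⟨j, Subtype.ext ?_⟩
      funext f
      show v f = (φ j f).order
      rw [hv, hj]
    · exfalso
      have he' : (0 : ℤ) < e := by exact_mod_cast he
      have h1 : (σ (xF K F - cF F c)).coeff (-(e : ℤ)) ≠ 0 := by
        rw [map_sub, hσ.1, hσ.2, HahnSeries.coeff_sub, atInf_coeff, HahnSeries.C_apply,
          HahnSeries.coeff_single, if_pos rfl, if_neg (by omega), sub_zero]
        exact one_ne_zero
      have h2 := HahnSeries.order_le_of_coeff_ne_zero h1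
      omega
  refine ⟨?_, ?_, ?_⟩
  · have hset : {v : Point K F | 0 < v.1 (xF K F - cF F c)} = Set.range pt := by
      ext v
      constructor
      · intro h
        obtain ⟨j, hj⟩ := hall v h
        exact ⟨j, hj.symm⟩
      · rintro ⟨j, rfl⟩
        show 0 < (φ j (xF K F - cF F c)).order
        rw [hord1]
        exact one_pos
    rw [hset, ← Set.image_univ, hpti.encard_image, Set.encard_univ]
    simp
  · intro v h
    obtain ⟨j, rfl⟩ := hall v h
    exact hord1 j
  · intro v v' h h' r
    obtain ⟨i, rfl⟩ := hall v h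
    obtain ⟨j, rfl⟩ := hall v' h'
    show (φ i (algebraMap (RatFunc K) F r)).order = (φ j (algebraMap (RatFunc K) F r)).order
    have e : (φ i).comp (algebraMap (RatFunc K) F) = (φ j).comp (algebraMap (RatFunc K) F) := by
      refine TR933.ratExt _ _ ?_ fun b => ?_
      · exact (hexp i).1.trans (hexp j).1.symm
      · exact ((hexp i).2 b).trans ((hexp j).2 b).symm
    have e' := RingHom.congr_fun e r
    simp only [RingHom.comp_apply] at e'
    rw [e']

end Pool.Agent.N780.SB
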