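import Mathlib
import Pool.Agent.N780.SB.PW
import Pool.Agent.N780.SB.Stm7

set_option autoImplicit false

/-!
Part RAMT (helper255): the ramification over the moving branch point is at most two.
-/

namespace Pool.Agent.N780.SB

universe u v w

namespace RAMT

/-- The substitution maps `c + u ^ k` to `c + u ^ (N k)`. -/
lemma pw_atFin {K : Type u} [Field K] (N : ℕ) (hN : 0 < N)
    (ρ : LaurentSeries K →+* LaurentSeries K)
    (hρ : ∀ y : LaurentSeries K, (∀ m : ℤ, (ρ y).coeff (N * m) = y.coeff m) ∧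
      ∀ m : ℤ, ¬ (N : ℤ) ∣ m → (ρ y).coeff m = 0) :
    (∀ b : K, ρ (HahnSeries.C b) = HahnSeries.C b) ∧
    ∀ (k : ℕ) (c : K), ρ (atFin k c) = atFin (N * k) c := by
  have hN' : (N : ℤ) ≠ 0 := by exact_mod_cast hN.ne'
  have hs : ∀ (k : ℤ) (b : K), ρ (HahnSeries.single k b) = HahnSeries.single ((N : ℤ) * k) b := by
    intro k b
    ext m
    by_cases h : (N : ℤ) ∣ m
    · obtain ⟨l, rfl⟩ := h
      rw [(hρ _).1]
      by_cases hl : l = k
      · subst hl
        rw [HahnSeries.coeff_single_same, HahnSeries.coeff_single_same]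
      · rw [HahnSeries.coeff_single_of_ne hl, HahnSeries.coeff_single_of_ne]
        intro h'
        exact hl (mul_left_cancel₀ hN' h')
    · rw [(hρ _).2 m h, HahnSeries.coeff_single_of_ne]
      intro h'
      exact h ⟨k, h'⟩
  have hC : ∀ b : K, ρ (HahnSeries.C b) = HahnSeries.C b := by
    intro b
    have h := hs 0 b
    rw [mul_zero] at h
    exact h
  refine ⟨hC, fun k c => ?_⟩
  unfold atFin
  rw [map_add, hC, hs]
  push_cast
  rfl

lemma pw_inj {K : Type u} [Field K] (N : ℕ)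
    (ρ : LaurentSeries K →+* LaurentSeries K)
    (hρ : ∀ y : LaurentSeries K, (∀ m : ℤ, (ρ y).coeff (N * m) = y.coeff m) ∧
      ∀ m : ℤ, ¬ (N : ℤ) ∣ m → (ρ y).coeff m = 0) : Function.Injective ρ := by
  intro y z h
  ext m
  rw [← (hρ y).1 m, ← (hρ z).1 m, h]

end RAMT

theorem part_RAMT (hTR : S_TR.{u, v}) (hPAIR : S_PAIR.{u, v}) (hTT : S_TTZ.{u, v}) :
    S_RAMT.{u, v} := by
  intro K F _ _ _ _ _ n hn S t ht a hA e he σ hσ ⟨f, hf⟩
  have hsep : Algebra.IsSeparable (RatFunc K) F := by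
    have : CharZero (RatFunc K) := charZero_of_injective_algebraMap
      (algebraMap K (RatFunc K)).injective
    have : FiniteDimensional (RatFunc K) F :=
      FiniteDimensional.of_finrank_pos (by rw [hA.rank]; exact hn)
    infer_instance
  obtain ⟨τ, hτ1, hτ2⟩ := hTT K F n hn S t ht a hA
  obtain ⟨ρ2, hρ2⟩ := part_PW K 2 (by norm_num)
  obtain ⟨ρe, hρe⟩ := part_PW K e he
  obtain ⟨hC2, hF2⟩ := RAMT.pw_atFin 2 (by norm_num) ρ2 hρ2
  obtain ⟨hCe, hFe⟩ := RAMT.pw_atFin e he ρe hρe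
  have h1 : IsExp (atFin (2 * e) t) (ρ2.comp σ) := by
    refine ⟨?_, fun b => ?_⟩
    · rw [RingHom.comp_apply, hσ.1, hF2]
    · rw [RingHom.comp_apply, hσ.2, hC2]
  have h2 : ∀ i, IsExp (atFin (2 * e) t) (ρe.comp (τ i)) := by
    intro i
    refine ⟨?_, fun b => ?_⟩
    · rw [RingHom.comp_apply, (hτ2 i).1, hFe, mul_comm]
    · rw [RingHom.comp_apply, (hτ2 i).2, hCe]
  have h3 : Function.Injective fun i => ρe.comp (τ i) := by
    intro i j hij
    apply hτ1
    ext1 x
    apply RAMT.pw_inj e ρe hρe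
    exact congrArg (fun g : F →+* LaurentSeries K => g x) hij
  obtain ⟨j, hj⟩ := (hTR K F n hn hA.rank (atFin (2 * e) t) _ h3 h2).1 (ρ2.comp σ) h1
  have h4 : (σ f).coeff 1 ≠ 0 := by
    have h5 : σ f ≠ 0 := by
      intro h0
      rw [h0, HahnSeries.order_zero] at hf
      exact one_ne_zero hf.symm
    have h6 : (σ f).coeff (σ f).order ≠ 0 := fun h => h5 (HahnSeries.coeff_order_eq_zero.1 h)
    rwa [hf] at h6
  have h7 : (ρ2 (σ f)).coeff 2 ≠ 0 := by
    have h8 := (hρ2 (σ f)).1 1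
    rw [mul_one] at h8
    have h9 : (ρ2 (σ f)).coeff 2 = (σ f).coeff 1 := h8
    rw [h9]
    exact h4
  have h10 : ρ2 (σ f) = ρe (τ j f) := congrArg (fun g : F →+* LaurentSeries K => g f) hj
  have h11 : (e : ℤ) ∣ 2 := by
    by_contra h
    apply h7
    rw [h10]
    exact (hρe (τ j f)).2 2 h
  have h12 : e ∣ 2 := by exact_mod_cast h11
  exact (Nat.dvd_prime Nat.prime_two).1 h12

end Pool.Agent.N780.SB
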