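import Mathlib
import Pool.Agent.N780.SB.PW
import Pool.Agent.N780.SB.RAMT
import Pool.Agent.N780.SB.Stm8

set_option autoImplicit false

/-!
Part FIN (helper700): the fibres are finite.
-/

namespace Pool.Agent.N780.SB

universe u v w

namespace FINP

lemma pw_single {K : Type u} [Field K] (N : ℕ) (hN : 0 < N)
    (ρ : LaurentSeries K →+* LaurentSeries K) (hρ : IsPw N ρ) (k : ℤ) (b : K) :
    ρ (HahnSeries.single k b) = HahnSeries.single ((N : ℤ) * k) b := by
  have hN' : (N : ℤ) ≠ 0 := by exact_mod_cast hN.ne'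
  ext m
  by_cases h : (N : ℤ) ∣ m
  · obtain ⟨l, rfl⟩ := h
    rw [(hρ _).1]
    by_cases hl : l = k
    · subst hl
      rw [HahnSeries.coeff_single_same, HahnSeries.coeff_single_same]
    · rw [HahnSeries.coeff_single_of_ne hl, HahnSeries.coeff_single_of_ne]
      intro h'
      exact hl (mul_left_cancel₀ hN' h')
  · rw [(hρ _).2 m h, HahnSeries.coeff_single_of_ne]
    intro h'
    exact h ⟨k, h'⟩

lemma pw_atInf {K : Type u} [Field K] (N : ℕ) (hN : 0 < N)
    (ρ : LaurentSeries K →+* LaurentSeries K) (hρ : IsPw N ρ) (k : ℕ) :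
    ρ (atInf K k) = atInf K (N * k) := by
  unfold atInf
  have h : (N : ℤ) * -(k : ℤ) = -((N * k : ℕ) : ℤ) := by
    push_cast
    ring
  rw [pw_single N hN ρ hρ, h]

lemma pw_order {K : Type u} [Field K] (N : ℕ) (hN : 0 < N)
    (ρ : LaurentSeries K →+* LaurentSeries K) (hρ : IsPw N ρ) (y : LaurentSeries K) :
    (ρ y).order = N * y.order := by
  have hN' : (0 : ℤ) < N := by exact_mod_cast hN
  by_cases hy : y = 0
  · rw [hy, map_zero, HahnSeries.order_zero, mul_zero]
  · have h1 : y.coeff y.order ≠ 0 := fun h => hy (HahnSeries.coeff_order_eq_zero.1 h)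
    have h2 : (ρ y).coeff ((N : ℤ) * y.order) ≠ 0 := by
      rw [(hρ y).1]
      exact h1
    have h3 : ρ y ≠ 0 := by
      intro h
      rw [h] at h2
      exact h2 rfl
    have h4 : (ρ y).coeff (ρ y).order ≠ 0 := fun h => h3 (HahnSeries.coeff_order_eq_zero.1 h)
    apply le_antisymm (HahnSeries.order_le_of_coeff_ne_zero h2)
    by_cases h5 : (N : ℤ) ∣ (ρ y).order
    · obtain ⟨l, hl⟩ := h5
      rw [hl, (hρ y).1] at h4
      have h6 := HahnSeries.order_le_of_coeff_ne_zero h4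
      rw [hl]
      exact mul_le_mul_of_nonneg_left h6 hN'.le
    · exact absurd ((hρ y).2 _ h5) h4

/-- a family of expansions of `x` compatible with the substitutions -/
def Good {K : Type u} [Field K] (ξ : ℕ → LaurentSeries K) : Prop :=
  ∀ (N : ℕ), 0 < N → ∀ ρ : LaurentSeries K →+* LaurentSeries K, IsPw N ρ →
    ∀ k, ρ (ξ k) = ξ (N * k)

lemma key {K : Type u} {F : Type v} [Field K] [Field F] [Algebra (RatFunc K) F]
    [Algebra.IsSeparable (RatFunc K) F] (hTR : S_TR.{u, v}) {n : ℕ} (hn : 0 < n)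
    (hr : Module.finrank (RatFunc K) F = n) {ξ : ℕ → LaurentSeries K} (hξ : Good ξ)
    {E : ℕ} (hE : 0 < E) {τ : Fin n → (F →+* LaurentSeries K)} (hτ1 : Function.Injective τ)
    (hτ2 : ∀ i, IsExp (ξ E) (τ i)) {e : ℕ} (he : 0 < e) {σ : F →+* LaurentSeries K}
    (hσ : IsExp (ξ e) σ) : ∃ j, ∀ f, (E : ℤ) * (σ f).order = e * (τ j f).order := by
  obtain ⟨ρE, hρE⟩ := part_PW K E hE
  obtain ⟨ρe, hρe⟩ := part_PW K e he
  have hCE := (RAMT.pw_atFin E hE ρE hρE).1
  have hCe := (RAMT.pw_atFin e he ρe hρe).1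
  have h1 : IsExp (ξ (E * e)) (ρE.comp σ) := by
    refine ⟨?_, fun b => ?_⟩
    · rw [RingHom.comp_apply, hσ.1, hξ E hE ρE hρE]
    · rw [RingHom.comp_apply, hσ.2, hCE]
  have h2 : ∀ i, IsExp (ξ (E * e)) (ρe.comp (τ i)) := by
    intro i
    refine ⟨?_, fun b => ?_⟩
    · rw [RingHom.comp_apply, (hτ2 i).1, hξ e he ρe hρe, mul_comm]
    · rw [RingHom.comp_apply, (hτ2 i).2, hCe]
  have h3 : Function.Injective fun i => ρe.comp (τ i) := by
    intro i j hij
    apply hτ1
    ext1 x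
    apply RAMT.pw_inj e ρe hρe
    exact congrArg (fun g : F →+* LaurentSeries K => g x) hij
  obtain ⟨j, hj⟩ := (hTR K F n hn hr (ξ (E * e)) _ h3 h2).1 (ρE.comp σ) h1
  refine ⟨j, fun f => ?_⟩
  have h4 : ρE (σ f) = ρe (τ j f) := congrArg (fun g : F →+* LaurentSeries K => g f) hj
  rw [← pw_order E hE ρE hρE, h4, pw_order e he ρe hρe]

lemma fin_key {K : Type u} {F : Type v} [Field K] [Field F] [Algebra (RatFunc K) F]
    [Algebra.IsSeparable (RatFunc K) F] (hTR : S_TR.{u, v}) {n : ℕ} (hn : 0 < n)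
    (hr : Module.finrank (RatFunc K) F = n) {ξ : ℕ → LaurentSeries K} (hξ : Good ξ)
    {E : ℕ} (hE : 0 < E) (hS : Splits F n (ξ E)) (A : Set (Point K F))
    (hA : ∀ v ∈ A, ∃ (σ : F →+* LaurentSeries K) (e : ℕ), 0 < e ∧ IsExp (ξ e) σ ∧
      (∃ f, (σ f).order = 1) ∧ ∀ f, v.1 f = (σ f).order) : A.Finite := by
  obtain ⟨τ, hτ1, hτ2⟩ := hS
  have h1 : A ⊆ ⋃ j : Fin n, {v : Point K F | ∃ e : ℕ, 0 < e ∧ (∃ f, v.1 f = 1) ∧
      ∀ f, (E : ℤ) * v.1 f = e * (τ j f).order} := by
    intro v hv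
    obtain ⟨σ, e, he, hσ, ⟨f1, hf1⟩, hv2⟩ := hA v hv
    obtain ⟨j, hj⟩ := key hTR hn hr hξ hE hτ1 hτ2 he hσ
    refine Set.mem_iUnion.2 ⟨j, e, he, ⟨f1, ?_⟩, fun f => ?_⟩
    · rw [hv2, hf1]
    · rw [hv2, hj]
  refine (Set.finite_iUnion fun j => Set.Subsingleton.finite ?_).subset h1
  rintro v ⟨e, he, ⟨f1, hf1⟩, h2⟩ v' ⟨e', he', ⟨f1', hf1'⟩, h3⟩
  have hE' : (E : ℤ) ≠ 0 := by exact_mod_cast hE.ne'
  have h4 : ∀ f, (e' : ℤ) * v.1 f = e * v'.1 f := by
    intro f
    apply mul_left_cancel₀ hE'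
    calc (E : ℤ) * (e' * v.1 f) = e' * (E * v.1 f) := by ring
      _ = e' * (e * (τ j f).order) := by rw [h2]
      _ = e * (e' * (τ j f).order) := by ring
      _ = e * (E * v'.1 f) := by rw [h3]
      _ = _ := by ring
  have h5 : e ∣ e' := by
    have h6 := h4 f1
    rw [hf1, mul_one] at h6
    have h7 : (e : ℤ) ∣ e' := ⟨_, h6⟩
    exact_mod_cast h7
  have h6 : e' ∣ e := by
    have h6 := h4 f1'
    rw [hf1', mul_one] at h6
    have h7 : (e' : ℤ) ∣ e := ⟨_, h6.symm⟩
    exact_mod_cast h7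
  have h7 : e = e' := Nat.dvd_antisymm h5 h6
  subst h7
  have he0 : (e : ℤ) ≠ 0 := by exact_mod_cast he.ne'
  exact Subtype.ext (funext fun f => mul_left_cancel₀ he0 (h4 f))

end FINP

theorem part_FIN (hTR : S_TR.{u, v}) (hPUI : S_PUIZ.{u, v}) : S_FIN.{u, v} := by
  intro K F _ _ _ _ _ n hn hr
  have hsep : Algebra.IsSeparable (RatFunc K) F := by
    have : CharZero (RatFunc K) := charZero_of_injective_algebraMap
      (algebraMap K (RatFunc K)).injective
    have : FiniteDimensional (RatFunc K) F :=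
      FiniteDimensional.of_finrank_pos (by rw [hr]; exact hn)
    infer_instance
  constructor
  · intro c
    obtain ⟨E, hE, hS, -⟩ := hPUI K F n hn hr {c}
    refine FINP.fin_key hTR hn hr (ξ := fun k => atFin k c)
      (fun N hN ρ hρ k => (RAMT.pw_atFin N hN ρ hρ).2 k c) hE
      (hS c (Finset.mem_singleton_self c)) _ ?_
    rintro v hv
    obtain ⟨σ, hσ, hf, hv2⟩ := v.2
    have h1 : 0 < (σ (xF K F - cF F c)).order := by
      rw [← hv2]
      exact hv
    rcases hσ with ⟨e, c', he, hσ⟩ | ⟨e, he, hσ⟩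
    · by_cases hc : c' = c
      · subst hc
        exact ⟨σ, e, he, hσ, hf, hv2⟩
      · exfalso
        rw [map_sub, hσ.1, hσ.2] at h1
        have he' : (e : ℤ) ≠ 0 := by exact_mod_cast he.ne'
        have h2 : (atFin e c' - HahnSeries.C c).coeff 0 ≠ 0 := by
          unfold atFin
          rw [HahnSeries.coeff_sub, HahnSeries.coeff_add, HahnSeries.coeff_single_of_ne he'.symm,
            add_zero]
          have e1 : (HahnSeries.C c' : LaurentSeries K).coeff 0 = c' := HahnSeries.coeff_single_same _ _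
          have e2 : (HahnSeries.C c : LaurentSeries K).coeff 0 = c := HahnSeries.coeff_single_same _ _
          rw [e1, e2]
          exact sub_ne_zero.2 hc
        have h3 := HahnSeries.order_le_of_coeff_ne_zero h2
        linarith
    · exfalso
      rw [map_sub, hσ.1, hσ.2] at h1
      have he' : (-(e : ℤ)) ≠ 0 := by
        have : (e : ℤ) ≠ 0 := by exact_mod_cast he.ne'
        omega
      have h2 : (atInf K e - HahnSeries.C c).coeff (-(e : ℤ)) ≠ 0 := by
        unfold atInf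
        have e2 : (HahnSeries.C c : LaurentSeries K).coeff (-(e : ℤ)) = 0 :=
          HahnSeries.coeff_single_of_ne he'
        rw [HahnSeries.coeff_sub, HahnSeries.coeff_single_same, e2, sub_zero]
        exact one_ne_zero
      have h3 := HahnSeries.order_le_of_coeff_ne_zero h2
      have h4 : (0 : ℤ) < e := by exact_mod_cast he
      linarith
  · obtain ⟨E, hE, -, hS⟩ := hPUI K F n hn hr ∅
    refine FINP.fin_key hTR hn hr (ξ := fun k => atInf K k)
      (fun N hN ρ hρ k => FINP.pw_atInf N hN ρ hρ k) hE hS _ ?_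
    rintro v hv
    obtain ⟨σ, hσ, hf, hv2⟩ := v.2
    have h1 : (σ (xF K F)).order < 0 := by
      rw [← hv2]
      exact hv
    rcases hσ with ⟨e, c', he, hσ⟩ | ⟨e, he, hσ⟩
    · exfalso
      rw [hσ.1] at h1
      have h2 : atFin e c' ≠ 0 := by
        intro h
        rw [h, HahnSeries.order_zero] at h1
        exact lt_irrefl _ h1
      have h3 : (atFin e c').coeff (atFin e c').order ≠ 0 := fun h =>
        h2 (HahnSeries.coeff_order_eq_zero.1 h)
      apply h3
      obtain ⟨m, hm⟩ : ∃ m, m = (atFin e c').order := ⟨_, rfl⟩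
      rw [← hm] at h1 ⊢
      have e1 : (HahnSeries.C c' : LaurentSeries K).coeff m = 0 :=
        HahnSeries.coeff_single_of_ne h1.ne
      unfold atFin
      rw [HahnSeries.coeff_add, e1, HahnSeries.coeff_single_of_ne (by omega), add_zero]
    · exact ⟨σ, e, he, hσ, hf, hv2⟩

end Pool.Agent.N780.SB
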