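import Mathlib
import Pool.Agent.N780.SB.Zero
import Pool.Agent.N780.SB.Stm7

set_option autoImplicit false

/-!
Functions with few zeros and poles on coverings with a moving simple branch point (helper780).
-/

namespace Pool.Agent.N780.SB

universe u v w

lemma coeff_order_ne {K : Type u} [Field K] {y : LaurentSeries K} (h0 : y ≠ 0) :
    y.coeff y.order ≠ 0 := fun h => h0 (HahnSeries.coeff_order_eq_zero.1 h)

lemma le_order_of {K : Type u} [Field K] {y : LaurentSeries K} {k : ℤ} (h0 : y ≠ 0)
    (h : ∀ m < k, y.coeff m = 0) : k ≤ y.order := by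
  by_contra hcon
  exact coeff_order_ne h0 (h _ (not_le.1 hcon))

lemma quot_ge {K : Type u} [Field K] {y y' q : LaurentSeries K} (hy : y ≠ 0) (hq : q * y = y')
    (k : ℤ) (hk : k ≤ 0) (h : ∀ m < y.order + k, y'.coeff m = 0) : k ≤ q.order := by
  by_cases h0 : q = 0
  · rw [h0, HahnSeries.order_zero]; exact hk
  · have h1 : y' ≠ 0 := by rw [← hq]; exact mul_ne_zero h0 hy
    have h2 := le_order_of h1 h
    rw [← hq, HahnSeries.order_mul h0 hy] at h2
    linarith

lemma quot_le {K : Type u} [Field K] {y y' q : LaurentSeries K} (hy : y ≠ 0) (hq : q * y = y')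
    (k : ℤ) (h : y'.coeff (y.order + k) ≠ 0) : q ≠ 0 ∧ q.order ≤ k := by
  have h1 : y' ≠ 0 := by
    intro h1
    rw [h1] at h
    exact h rfl
  have h0 : q ≠ 0 := by
    rintro rfl
    rw [zero_mul] at hq
    exact h1 hq.symm
  refine ⟨h0, ?_⟩
  have h2 := HahnSeries.order_le_of_coeff_ne_zero h
  rw [← hq, HahnSeries.order_mul h0 hy] at h2
  linarith

lemma exists_divisor {α : Type u} [DecidableEq α] (s : Finset α) :
    ∃ M : α →₀ ℕ, (M.sum fun _ j => j) = s.card ∧ ∀ v ∈ s, 1 ≤ M v := by
  induction s using Finset.induction_on with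
  | empty => exact ⟨0, by simp, by simp⟩
  | insert b s hb ih =>
    obtain ⟨M, h1, h2⟩ := ih
    refine ⟨M + Finsupp.single b 1, ?_, ?_⟩
    · rw [Finsupp.sum_add_index' (fun _ => rfl) (fun _ _ _ => rfl), h1,
        Finsupp.sum_single_index rfl, Finset.card_insert_of_notMem hb]
    · intro v hv
      rw [Finsupp.add_apply]
      rcases Finset.mem_insert.1 hv with h | h
      · rw [h, Finsupp.single_eq_same]; omega
      · have := h2 v h; omega

/-- The final statement on functions with few zeros and poles -/
def S_FZP : Prop := ∀ (K : Type u) (F : Type v) [Field K] [IsAlgClosed K] [CharZero K] [Field F]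
    [Algebra (RatFunc K) F] (n : ℕ) (_ : 0 < n) (δ : Derivation ℤ K K) (t : K) (_ : δ t = 1)
    (S : Finset K) (_ : ∀ c ∈ S, δ c = 0) (a : Fin n → F) (_ : IsAffineCurve S t a)
    (D T : Derivation ℤ F F) (_ : D (xF K F) = 1) (_ : ∀ b : K, D (cF F b) = 0)
    (_ : T (xF K F) = 0) (_ : ∀ b : K, T (cF F b) = cF F (δ b))
    (m : ℕ) (_ : GonGT K F (m + 1)) (h : F) (_ : h ≠ 0)
    (_ : {v : Point K F | v.1 h ≠ 0 ∧ ¬ IsConst δ v}.encard ≤ m),
    (∀ v : Point K F, v.1 h ≠ 0 → IsConst δ v) ∧ Unr t h

theorem fzp_of (hCONST : S_CONST.{u, v}) (hPUI : S_PUIZ.{u, v}) (hTT : S_TTZ.{u, v})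
    (hUNRM : S_UNRM.{u, v}) (hRAMT : S_RAMT.{u, v}) :
    S_FZP.{u, v} := by
  classical
  intro K F _ _ _ _ _ n hn δ t ht S hS a hA D T hD1 hD2 hT1 hT2 N hgon h hh hN
  obtain ⟨σt, j₁, j₂, hσ, hall, hj, hinj, hpair, hoth, hTc, -, -, -, -, -, -, hsep⟩ :=
    facts hCONST hPUI hTT K F n hn δ t ht S hS a hA D T hD1 hD2 hT1 hT2
  obtain ⟨hcomm, hDxe, hDte, -⟩ := part_EXPO part_UNIQ part_UNIQ part_LD K F δ D T hD1 hD2 hT1 hT2
  have hfd : FiniteDimensional (RatFunc K) F :=
    FiniteDimensional.of_finrank_pos (by rw [hA.rank]; exact hn)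
  have h2 : (2 : K) ≠ 0 := two_ne_zero
  have htS : t ∉ S := fun h => by
    have := hS t h
    rw [ht] at this
    exact one_ne_zero this
  have hσh : ∀ σ : F →+* LaurentSeries K, σ h ≠ 0 := fun σ => by
    rw [Ne, map_eq_zero]; exact hh
  set w : F := T h / h with hw
  have hwh : w * h = T h := div_mul_cancel₀ _ hh
  -- orders over `t` at the ramified point
  have hord : ∀ f, (σt j₂ f).order = (σt j₁ f).order := by
    intro f
    by_cases hf : f = 0
    · rw [hf, map_zero, map_zero]
    have e1 : σt j₁ f ≠ 0 := by rw [Ne, map_eq_zero]; exact hf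
    have e2 : σt j₂ f ≠ 0 := by rw [Ne, map_eq_zero]; exact hf
    apply le_antisymm
    · apply HahnSeries.order_le_of_coeff_ne_zero
      rw [hpair f]
      exact mul_ne_zero (pow_ne_zero _ (neg_ne_zero.2 one_ne_zero))
        (coeff_order_ne e1)
    · apply HahnSeries.order_le_of_coeff_ne_zero
      intro h0
      have h3 := hpair f (σt j₂ f).order
      rw [h0, mul_zero] at h3
      exact coeff_order_ne e2 h3
  -- classification of the points
  have hcase : ∀ v : Point K F, ∃ σ : F →+* LaurentSeries K, (∀ f, v.1 f = (σ f).order) ∧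
      (∀ b : K, σ (cF F b) = HahnSeries.C b) ∧
      ((IsConst δ v ∧ ∀ m < (σ h).order + 0, (σ (T h)).coeff m = 0) ∨
      (¬ IsConst δ v ∧ (∀ m < (σ h).order + -1, (σ (T h)).coeff m = 0) ∧
        ((σ h).order = 0 → ∀ m < (σ h).order + 0, (σ (T h)).coeff m = 0) ∧
        ((σ h).order ≠ 0 → (σ (T h)).coeff ((σ h).order + -1) ≠ 0)) ∨
      (¬ IsConst δ v ∧ (∀ f, v.1 f = (σt j₁ f).order) ∧
        (∀ m < (σ h).order + -2, (σ (T h)).coeff m = 0) ∧
        ((σ h).order = 0 → ∀ m < (σ h).order + -1, (σ (T h)).coeff m = 0) ∧
        ((σ h).order ≠ 0 → (σ (T h)).coeff ((σ h).order + -2) ≠ 0))) := by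
    rintro ⟨v, σ, hσcase, ⟨f1, hf1⟩, hv⟩
    rcases hσcase with ⟨e, c, he, hexp⟩ | ⟨e, he, hexp⟩
    · refine ⟨σ, hv, hexp.2, ?_⟩
      by_cases hc : δ c = 0
      · left
        refine ⟨Or.inl ⟨c, hc, ?_⟩, ?_⟩
        · show 0 < v (xF K F - cF F c)
          rw [hv, map_sub, hexp.1, hexp.2]
          have e1 : atFin e c - HahnSeries.C c = HahnSeries.single (e : ℤ) (1 : K) := by
            unfold atFin; ring
          rw [e1, HahnSeries.order_single one_ne_zero]
          exact_mod_cast he
        · intro m hm
          rw [hDte (atFin e c) 0 σ hexp (by rw [hat_atFin δ e c hc, zero_mul]) h, zero_mul,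
            sub_zero, hat_coeff, HahnSeries.coeff_eq_zero_of_lt_order (by linarith), map_zero]
      · right
        have hnc : ¬ IsConst δ (⟨v, σ, Or.inl ⟨e, c, he, hexp⟩, ⟨f1, hf1⟩, hv⟩ : Point K F) := by
          rintro (⟨c', hc', h'⟩ | h')
          · have h3 : 0 < v (xF K F - cF F c') := h'
            rw [hv, map_sub, hexp.1, hexp.2] at h3
            have h4 : (atFin e c - HahnSeries.C c' : LaurentSeries K).coeff 0 ≠ 0 := by
              rw [HahnSeries.coeff_sub, atFin_coeff, HahnSeries.C_apply,
                HahnSeries.coeff_single_same, if_pos rfl, if_neg (by omega), add_zero]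
              intro h5
              rw [sub_eq_zero] at h5
              rw [h5] at hc
              exact hc hc'
            have h5 := HahnSeries.order_le_of_coeff_ne_zero h4
            linarith
          · have h3 : v (xF K F) < 0 := h'
            rw [hv, hexp.1] at h3
            have h4 : (atFin e c : LaurentSeries K) ≠ 0 := by
              intro h5
              have h6 := congrArg (fun y : LaurentSeries K => y.coeff (e : ℤ)) h5
              simp only [atFin_coeff, HahnSeries.coeff_zero, if_true] at h6
              rw [if_neg (by omega), zero_add] at h6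
              exact one_ne_zero h6
            have h5 : (0 : ℤ) ≤ (atFin e c : LaurentSeries K).order := by
              apply le_order_of h4
              intro m hm
              rw [atFin_coeff, if_neg (by omega), if_neg (by omega), add_zero]
            linarith
        have hone : ∀ c' : K, δ c' ≠ 0 → IsExp (atFin 1 c') σ →
            (∀ m < (σ h).order + -1, (σ (T h)).coeff m = 0) ∧
            ((σ h).order = 0 → ∀ m < (σ h).order + 0, (σ (T h)).coeff m = 0) ∧
            ((σ h).order ≠ 0 → (σ (T h)).coeff ((σ h).order + -1) ≠ 0) := by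
          intro c' hc' hexp'
          have key : ∀ m, (σ (T h)).coeff m =
              δ ((σ h).coeff m) - δ c' * (((m + 1 : ℤ) : K) * (σ h).coeff (m + 1)) := by
            intro m
            have e0 : hat δ (atFin 1 c') = HahnSeries.single (0 : ℤ) (δ c') * der (atFin 1 c') := by
              rw [der_atFin, HahnSeries.single_mul_single,
                show (0 : ℤ) + (((1 : ℕ) : ℤ) - 1) = 0 by norm_num, Nat.cast_one, mul_one]
              ext k
              rw [hat_coeff, atFin_coeff, HahnSeries.coeff_single]
              by_cases h0 : k = 0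
              · rw [if_pos h0, if_neg (by push_cast; omega), add_zero, if_pos h0]
              · rw [if_neg h0, zero_add, if_neg h0]
                split_ifs
                · exact δ.map_one_eq_zero
                · exact map_zero δ
            rw [hDte (atFin 1 c') _ σ hexp' e0 h, HahnSeries.coeff_sub, single_mul_coeff, hat_coeff,
              der_coeff, sub_zero]
          refine ⟨fun m hm => ?_, fun h0 m hm => ?_, fun h0 => ?_⟩
          · rw [key, HahnSeries.coeff_eq_zero_of_lt_order (show m < (σ h).order by linarith),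
              HahnSeries.coeff_eq_zero_of_lt_order (show m + 1 < (σ h).order by linarith), map_zero,
              mul_zero, mul_zero, sub_zero]
          · rw [key, HahnSeries.coeff_eq_zero_of_lt_order (show m < (σ h).order by linarith),
              map_zero]
            rcases eq_or_lt_of_le (show m + 1 ≤ 0 by omega) with h3 | h3
            · rw [h3, Int.cast_zero, zero_mul, mul_zero, sub_zero]
            · rw [HahnSeries.coeff_eq_zero_of_lt_order (show m + 1 < (σ h).order by linarith),
                mul_zero, mul_zero, sub_zero]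
          · rw [key, HahnSeries.coeff_eq_zero_of_lt_order
              (show (σ h).order + -1 < (σ h).order by linarith), map_zero, zero_sub,
              show (σ h).order + -1 + 1 = (σ h).order by ring]
            refine neg_ne_zero.2 (mul_ne_zero hc' (mul_ne_zero ?_
              (coeff_order_ne (hσh σ))))
            rw [Int.cast_ne_zero]
            exact h0
        by_cases hct : c = t
        · rcases hRAMT K F n hn S t htS a hA e he σ (by rw [← hct]; exact hexp) ⟨f1, hf1⟩ with h3 | h3
          · left
            subst h3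
            exact ⟨hnc, hone c hc hexp⟩
          · right
            subst h3
            rw [hct] at hexp
            obtain ⟨j, hjj⟩ := hall σ hexp
            have hj' : j = j₁ ∨ j = j₂ := by
              by_contra hcon
              rw [not_or] at hcon
              have h3 := hoth j hcon.1 hcon.2 f1 1 odd_one
              rw [← hjj, ← hf1] at h3
              refine coeff_order_ne (y := σ f1) ?_ h3
              intro h4
              rw [h4, HahnSeries.order_zero] at hf1
              exact zero_ne_one hf1
            refine ⟨hnc, ?_, ?_, ?_, ?_⟩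
            · intro f
              show v f = _
              rw [hv, hjj]
              rcases hj' with h4 | h4
              · rw [h4]
              · rw [h4, hord]
            · intro m hm
              have h5 := hTc j h m
              rw [← hjj] at h5
              rw [h5, HahnSeries.coeff_eq_zero_of_lt_order (show m < (σ h).order by linarith),
                HahnSeries.coeff_eq_zero_of_lt_order (show m + 2 < (σ h).order by linarith),
                map_zero, mul_zero, mul_zero, sub_zero]
            · intro h0 m hm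
              have h5 := hTc j h m
              rw [← hjj] at h5
              rw [h5, HahnSeries.coeff_eq_zero_of_lt_order (show m < (σ h).order by linarith),
                map_zero]
              rcases eq_or_lt_of_le (show m + 2 ≤ 0 by omega) with h3 | h3
              · rw [h3, Int.cast_zero, zero_mul, mul_zero, sub_zero]
              · rw [HahnSeries.coeff_eq_zero_of_lt_order (show m + 2 < (σ h).order by linarith),
                  mul_zero, mul_zero, sub_zero]
            · intro h0
              have h5 := hTc j h ((σ h).order + -2)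
              rw [← hjj] at h5
              rw [h5, HahnSeries.coeff_eq_zero_of_lt_order
                (show (σ h).order + -2 < (σ h).order by linarith), map_zero, zero_sub,
                show (σ h).order + -2 + 2 = (σ h).order by ring]
              refine neg_ne_zero.2 (mul_ne_zero (by simp) (mul_ne_zero ?_
                (coeff_order_ne (hσh σ))))
              rw [Int.cast_ne_zero]
              exact h0
        · left
          have hcS : c ∉ S := fun h3 => hc (hS c h3)
          have h3 : (σ f1).coeff 1 ≠ 0 := by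
            rw [← hf1]
            apply coeff_order_ne
            intro h4
            rw [h4, HahnSeries.order_zero] at hf1
            exact zero_ne_one hf1
          have h4 := hUNRM K F n hn S t htS a hA c hcS hct e he σ hexp f1 1 h3
          have h5 : e = 1 := by
            have : (e : ℤ) ≤ 1 := Int.le_of_dvd one_pos h4
            omega
          subst h5
          exact ⟨hnc, hone c hc hexp⟩
    · refine ⟨σ, hv, hexp.2, ?_⟩
      left
      refine ⟨Or.inr ?_, ?_⟩
      · show v (xF K F) < 0
        rw [hv, hexp.1]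
        unfold atInf
        rw [HahnSeries.order_single one_ne_zero]
        omega
      · intro m hm
        rw [hDte (atInf K e) 0 σ hexp (by rw [hat_atInf δ e, zero_mul]) h, zero_mul,
          sub_zero, hat_coeff, HahnSeries.coeff_eq_zero_of_lt_order (by linarith), map_zero]
  -- the divisor of the poles
  have hfin : {v : Point K F | v.1 h ≠ 0 ∧ ¬ IsConst δ v}.Finite :=
    Set.finite_of_encard_le_coe hN
  have hcard : hfin.toFinset.card ≤ N := by
    rw [hfin.encard_eq_coe_toFinset_card] at hN
    exact_mod_cast hN
  obtain ⟨M₁, hM₁, hM₁'⟩ := exists_divisor hfin.toFinset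
  have hM₂ : ∃ M₂ : Point K F →₀ ℕ, (M₂.sum fun _ j => j) ≤ 1 ∧
      ∀ v : Point K F, (∀ f, v.1 f = (σt j₁ f).order) → 1 ≤ M₂ v := by
    by_cases hR : ∃ v : Point K F, ∀ f, v.1 f = (σt j₁ f).order
    · obtain ⟨v₀, hv₀⟩ := hR
      refine ⟨Finsupp.single v₀ 1, by rw [Finsupp.sum_single_index rfl], fun v hv => ?_⟩
      have : v = v₀ := by
        apply Subtype.ext
        funext f
        rw [hv, hv₀]
      rw [this, Finsupp.single_eq_same]
    · exact ⟨0, by simp, fun v hv => absurd ⟨v, hv⟩ hR⟩
  obtain ⟨M₂, hM₂, hM₂'⟩ := hM₂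
  obtain ⟨b, hb⟩ := hgon (M₁ + M₂) (by
    rw [Finsupp.sum_add_index' (fun _ => rfl) (fun _ _ _ => rfl), hM₁]
    omega) w (by
    intro v
    obtain ⟨σ, hv, hσC, hc⟩ := hcase v
    have hq : σ w * σ h = σ (T h) := by rw [← map_mul, hwh]
    have hmem : v.1 h ≠ 0 → ¬ IsConst δ v → 1 ≤ M₁ v := fun h3 h4 =>
      hM₁' v (hfin.mem_toFinset.2 ⟨h3, h4⟩)
    rw [Finsupp.add_apply, hv w]
    push_cast
    rcases hc with ⟨-, h3⟩ | ⟨hnc, h3, h4, -⟩ | ⟨hnc, h0, h3, h4, -⟩
    · have := quot_ge (hσh σ) hq 0 le_rfl h3
      omega
    · by_cases h5 : (σ h).order = 0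
      · have := quot_ge (hσh σ) hq 0 le_rfl (h4 h5)
        omega
      · have h6 := quot_ge (hσh σ) hq (-1) (by norm_num) h3
        have h7 := hmem (by rw [hv h]; exact h5) hnc
        omega
    · have h8 := hM₂' v h0
      by_cases h5 : (σ h).order = 0
      · have := quot_ge (hσh σ) hq (-1) (by norm_num) (h4 h5)
        omega
      · have h6 := quot_ge (hσh σ) hq (-2) (by norm_num) h3
        have h7 := hmem (by rw [hv h]; exact h5) hnc
        omega)
  have hTh : T h = cF F b * h := by rw [← hwh, hb]
  refine ⟨?_, ?_⟩
  · intro v hvh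
    by_contra hnc
    obtain ⟨σ, hv, hσC, hc⟩ := hcase v
    have hq : σ w * σ h = σ (T h) := by rw [← map_mul, hwh]
    have h5 : (σ h).order ≠ 0 := by rw [← hv h]; exact hvh
    have h6 : ∀ k : ℤ, k < 0 → (σ (T h)).coeff ((σ h).order + k) ≠ 0 → False := by
      intro k hk h7
      obtain ⟨h8, h9⟩ := quot_le (hσh σ) hq k h7
      have h10 : (0 : ℤ) ≤ (σ w).order := by
        apply le_order_of h8
        intro m hm
        have h11 : σ w = HahnSeries.C b := by rw [hb, hσC]
        rw [h11, HahnSeries.C_apply, HahnSeries.coeff_single_of_ne (by omega)]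
      linarith
    rcases hc with ⟨h3, -⟩ | ⟨-, -, -, h3⟩ | ⟨-, -, -, -, h3⟩
    · exact hnc h3
    · exact h6 (-1) (by norm_num) (h3 h5)
    · exact h6 (-2) (by norm_num) (h3 h5)
  · have hodd : ∀ m : ℤ, Odd m → ((m : ℤ) : K) ≠ 0 := by
      intro m hm
      rw [Int.cast_ne_zero]
      rintro rfl
      exact absurd hm (by decide)
    intro σ hσ' m hm
    obtain ⟨j, rfl⟩ := hall σ hσ'
    have key : ∀ i : ℕ, ∀ m : ℤ, Odd m → m < (σt j h).order + i → (σt j h).coeff m = 0 := by
      intro i
      induction i with
      | zero => intro m _ hm; exact HahnSeries.coeff_eq_zero_of_lt_order (by simpa using hm)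
      | succ i ih =>
        intro m hm hlt
        have h3 := ih (m - 2) (by
          obtain ⟨k, hk⟩ := hm
          exact ⟨k - 1, by omega⟩) (by push_cast at hlt; omega)
        have h4 := hTc j h (m - 2)
        rw [hTh, map_mul, (hσ j).2, HahnSeries.C_mul_eq_smul, HahnSeries.coeff_smul, h3, smul_zero,
          map_zero, show m - 2 + 2 = m by ring, zero_sub] at h4
        have h5 : (1 / 2 : K) * ((m : ℤ) * (σt j h).coeff m) = 0 := by linear_combination h4
        have h6 := (mul_eq_zero.1 h5).resolve_left (by simp)
        exact (mul_eq_zero.1 h6).resolve_left (hodd m hm)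
    exact key (m - (σt j h).order + 1).toNat m hm (by omega)

/-- In a covering without intermediate coverings the functions unramified over `t` are rational. -/
theorem rational_of (hCONST : S_CONST.{u, v}) (hPUI : S_PUIZ.{u, v}) (hTT : S_TTZ.{u, v})
    (K : Type u) (F : Type v) [Field K] [IsAlgClosed K] [CharZero K] [Field F]
    [Algebra (RatFunc K) F] (n : ℕ) (hn : 0 < n) (δ : Derivation ℤ K K) (t : K) (ht : δ t = 1)
    (S : Finset K) (hS : ∀ c ∈ S, δ c = 0) (a : Fin n → F) (hA : IsAffineCurve S t a)
    (D T : Derivation ℤ F F) (hD1 : D (xF K F) = 1) (hD2 : ∀ b : K, D (cF F b) = 0)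
    (hT1 : T (xF K F) = 0) (hT2 : ∀ b : K, T (cF F b) = cF F (δ b))
    (hmin : ∀ L : IntermediateField (RatFunc K) F, L = ⊥ ∨ L = ⊤) (h : F) (hh : Unr t h) :
    ∃ r : RatFunc K, h = algebraMap (RatFunc K) F r := by
  obtain ⟨σt, j₁, j₂, hσ, hall, hj, hinj, hpair, -⟩ :=
    facts hCONST hPUI hTT K F n hn δ t ht S hS a hA D T hD1 hD2 hT1 hT2
  obtain ⟨L, hL⟩ := part_L0 K F two_ne_zero t
  have hbot : L = ⊥ := by
    rcases hmin L with h | h
    · exact h
    · exfalso
      apply hj
      apply hinj
      ext1 f
      have h5 : Unr t f := by rw [← hL, h]; trivial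
      ext m
      rw [hpair f m]
      rcases Int.even_or_odd m with h6 | h6
      · have h7 : Even m.natAbs := by rw [Int.natAbs_even]; exact h6
        rw [h7.neg_one_pow, one_mul]
      · rw [h5 (σt j₁) (hσ j₁) m h6, mul_zero]
  have hfL : h ∈ L := (hL h).2 hh
  rw [hbot, IntermediateField.mem_bot] at hfL
  obtain ⟨r, hr⟩ := hfL
  exact ⟨r, hr.symm⟩

end Pool.Agent.N780.SB
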