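import Pool.Agent.N780.SB.ALG
import Pool.Agent.N780.SB.RF
import Pool.Agent.N780.SB.LD
import Pool.Agent.N780.SB.INT

set_option autoImplicit false

/-!
Part TRL: averaging over the fibres of the largest subcover unramified at `x = t` (helper617).
-/

namespace Pool.Agent.N780.SB

universe u v w

namespace TRL

open Polynomial
open RF (D D_ne exists_pow)

/-! ### Derivations and traces -/

theorem trace_der {L : Type u} {F : Type v} [Field L] [Field F] [Algebra L F]
    [FiniteDimensional L F] (D : Derivation ℤ F F) (d : L → L)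
    (hd : ∀ l, D (algebraMap L F l) = algebraMap L F (d l)) (f : F) :
    D (algebraMap L F (Algebra.trace L F f)) = algebraMap L F (Algebra.trace L F (D f)) := by
  classical
  set b := Module.finBasis L F
  set M := Algebra.leftMulMatrix b f with hM
  set C : Matrix (Fin (Module.finrank L F)) (Fin (Module.finrank L F)) L :=
    Matrix.of fun i j => b.repr (D (b j)) i with hC
  have hx : ∀ (x : F) j, x * b j = ∑ i, algebraMap L F (Algebra.leftMulMatrix b x i j) * b i := by
    intro x j
    conv_lhs => rw [← b.sum_repr (x * b j)]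
    refine Finset.sum_congr rfl fun i _ => ?_
    rw [Algebra.leftMulMatrix_eq_repr_mul, Algebra.smul_def]
  have hDb : ∀ j, D (b j) = ∑ i, algebraMap L F (C i j) * b i := by
    intro j
    conv_lhs => rw [← b.sum_repr (D (b j))]
    refine Finset.sum_congr rfl fun i _ => ?_
    rw [hC, Matrix.of_apply, Algebra.smul_def]
  have key : Algebra.leftMulMatrix b (D f) = (Matrix.of fun i j => d (M i j)) + (C * M - M * C) := by
    ext i j
    rw [Algebra.leftMulMatrix_eq_repr_mul]
    have h1 : D f * b j = ∑ i, algebraMap L F (((Matrix.of fun i j => d (M i j)) +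
        (C * M - M * C)) i j) * b i := by
      have h2 : D (f * b j) = f * D (b j) + b j * D f := by
        rw [Derivation.leibniz, smul_eq_mul, smul_eq_mul]
      have h3 : D (f * b j) = ∑ i, (algebraMap L F (M i j) * D (b i) +
          b i * algebraMap L F (d (M i j))) := by
        rw [hx f j, map_sum]
        refine Finset.sum_congr rfl fun i _ => ?_
        rw [Derivation.leibniz, smul_eq_mul, smul_eq_mul, hd]
      have h4 : f * D (b j) = ∑ i, algebraMap L F ((M * C) i j) * b i := by
        rw [hDb j, Finset.mul_sum]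
        have : ∀ k, f * (algebraMap L F (C k j) * b k) =
            ∑ i, algebraMap L F (M i k * C k j) * b i := by
          intro k
          rw [mul_left_comm, hx f k, Finset.mul_sum]
          refine Finset.sum_congr rfl fun i _ => ?_
          rw [map_mul]; ring
        simp only [this]
        rw [Finset.sum_comm]
        refine Finset.sum_congr rfl fun i _ => ?_
        rw [Matrix.mul_apply, map_sum, Finset.sum_mul]
      have h5 : ∑ i, algebraMap L F (M i j) * D (b i) = ∑ i, algebraMap L F ((C * M) i j) * b i := by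
        have : ∀ k, algebraMap L F (M k j) * D (b k) =
            ∑ i, algebraMap L F (C i k * M k j) * b i := by
          intro k
          rw [hDb k, Finset.mul_sum]
          refine Finset.sum_congr rfl fun i _ => ?_
          rw [map_mul]; ring
        simp only [this]
        rw [Finset.sum_comm]
        refine Finset.sum_congr rfl fun i _ => ?_
        rw [Matrix.mul_apply, map_sum, Finset.sum_mul]
      rw [Finset.sum_add_distrib, h5] at h3
      have h6 : D f * b j = ∑ i, algebraMap L F ((C * M) i j) * b i +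
          ∑ i, b i * algebraMap L F (d (M i j)) - ∑ i, algebraMap L F ((M * C) i j) * b i := by
        rw [← h4, ← h3, h2]; ring
      rw [h6, ← Finset.sum_add_distrib, ← Finset.sum_sub_distrib]
      refine Finset.sum_congr rfl fun i _ => ?_
      rw [Matrix.add_apply, Matrix.sub_apply, Matrix.of_apply, map_add, map_sub]
      ring
    rw [h1]
    have h7 : ∑ i, algebraMap L F (((Matrix.of fun i j => d (M i j)) + (C * M - M * C)) i j) * b i =
        ∑ i, (((Matrix.of fun i j => d (M i j)) + (C * M - M * C)) i j) • b i := by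
      refine Finset.sum_congr rfl fun i _ => ?_
      rw [Algebra.smul_def]
    rw [h7, b.repr_sum_self]
  rw [Algebra.trace_eq_matrix_trace b, Algebra.trace_eq_matrix_trace b, ← hM, key, Matrix.trace_add,
    Matrix.trace_sub, Matrix.trace_mul_comm C M, sub_self, add_zero, Matrix.trace, Matrix.trace,
    map_sum, map_sum, map_sum]
  refine Finset.sum_congr rfl fun i _ => ?_
  rw [Matrix.diag_apply, Matrix.diag_apply, hd, Matrix.of_apply]

/-! ### `O` is integrally closed -/

section
variable {K : Type u} [Field K] {S : Finset K}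

theorem poly_mem (P : K[X]) : algebraMap K[X] (RatFunc K) P ∈ OO S := by
  induction P using Polynomial.induction_on' with
  | add p q hp hq => rw [map_add]; exact (OO S).add_mem hp hq
  | monomial n a =>
    rw [← Polynomial.C_mul_X_pow_eq_monomial, map_mul, map_pow, RatFunc.algebraMap_C,
      RatFunc.algebraMap_X]
    refine (OO S).mul_mem (Subring.subset_closure (Or.inl (Or.inl ⟨a, rfl⟩))) ((OO S).pow_mem ?_ n)
    exact Subring.subset_closure (Or.inl (Or.inr rfl))

theorem D_inv_mem : (algebraMap K[X] (RatFunc K) (D S))⁻¹ ∈ OO S := by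
  unfold D
  rw [map_prod, ← Finset.prod_inv_distrib]
  refine (OO S).prod_mem fun c hc => ?_
  rw [map_sub, RatFunc.algebraMap_X, RatFunc.algebraMap_C]
  exact Subring.subset_closure (Or.inr ⟨c, hc, rfl⟩)

theorem exists_common (T : Finset ℕ) (c : ℕ → RatFunc K) (hc : ∀ i ∈ T, c i ∈ OO S) :
    ∃ N : ℕ, ∀ i ∈ T, ∃ P : K[X], c i * algebraMap K[X] (RatFunc K) (D S) ^ N =
      algebraMap K[X] (RatFunc K) P := by
  classical
  induction T using Finset.induction_on with
  | empty => exact ⟨0, fun i hi => absurd hi (Finset.notMem_empty i)⟩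
  | insert j T hj ih =>
    obtain ⟨N, hN⟩ := ih fun i hi => hc i (Finset.mem_insert_of_mem hi)
    obtain ⟨M, P, hP⟩ := exists_pow (hc j (Finset.mem_insert_self j T))
    refine ⟨N + M, fun i hi => ?_⟩
    rcases Finset.mem_insert.1 hi with rfl | hi
    · refine ⟨P * D S ^ N, ?_⟩
      rw [map_mul, map_pow, ← hP]; ring
    · obtain ⟨Q, hQ⟩ := hN i hi
      refine ⟨Q * D S ^ M, ?_⟩
      rw [map_mul, map_pow, ← hQ]; ring

theorem intcl {r : RatFunc K} (h : IsIntegral (OO S) r) : r ∈ OO S := by
  classical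
  obtain ⟨p, hp, hr⟩ := h
  set P : (RatFunc K)[X] := p.map (OO S).subtype with hP
  have hPm : P.Monic := hp.map _
  have hPr : P.eval r = 0 := by
    rw [hP, eval_map]
    exact hr
  have hPc : ∀ i, P.coeff i ∈ OO S := by
    intro i
    rw [hP, coeff_map]
    exact (p.coeff i).2
  obtain ⟨N, hN⟩ := exists_common (S := S) (Finset.range P.natDegree) (fun i => P.coeff i)
    fun i _ => hPc i
  set s : RatFunc K := algebraMap K[X] (RatFunc K) (D S) ^ N with hs
  have hD0 : algebraMap K[X] (RatFunc K) (D S) ≠ 0 := RatFunc.algebraMap_ne_zero (D_ne S)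
  have hs0 : s ≠ 0 := pow_ne_zero _ hD0
  have hQ : scaleRoots P s ∈ lifts (algebraMap K[X] (RatFunc K)) := by
    rw [lifts_iff_coeff_lifts]
    intro i
    rw [coeff_scaleRoots]
    rcases lt_trichotomy i P.natDegree with hi | hi | hi
    · obtain ⟨Q, hQ⟩ := hN i (Finset.mem_range.2 hi)
      obtain ⟨k, hk⟩ : ∃ k, P.natDegree - i = k + 1 := ⟨P.natDegree - i - 1, by omega⟩
      refine ⟨Q * (D S ^ N) ^ k, ?_⟩
      rw [hk, pow_succ', ← mul_assoc, hs, hQ, map_mul, map_pow, map_pow]
    · refine ⟨1, ?_⟩
      rw [hi, hPm.coeff_natDegree, Nat.sub_self, pow_zero, mul_one, map_one]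
    · refine ⟨0, ?_⟩
      rw [coeff_eq_zero_of_natDegree_lt hi, zero_mul, map_zero]
  obtain ⟨q, hq1, -, hq3⟩ := lifts_and_natDegree_eq_and_monic hQ
    ((monic_scaleRoots_iff s).2 hPm)
  have hint : IsIntegral K[X] (s * r) := by
    refine ⟨q, hq3, ?_⟩
    rw [← eval_map, hq1]
    have := scaleRoots_eval₂_eq_zero (p := P) (RingHom.id (RatFunc K)) (r := r) (s := s)
      (by rw [eval₂_id]; exact hPr)
    rw [RingHom.id_apply, eval₂_id] at this
    exact this
  obtain ⟨y, hy⟩ := IsIntegrallyClosed.isIntegral_iff.1 hint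
  have h1 : r = algebraMap K[X] (RatFunc K) y * (algebraMap K[X] (RatFunc K) (D S))⁻¹ ^ N := by
    rw [hy, inv_pow, ← hs, mul_comm s r, mul_assoc, mul_inv_cancel₀ hs0, mul_one]
  rw [h1]
  exact (OO S).mul_mem (poly_mem y) ((OO S).pow_mem D_inv_mem N)

end

/-! ### Integral elements -/

section
variable {K : Type u} {F : Type v} [Field K] [Field F] [Algebra (RatFunc K) F]
  {S : Finset K} {t : K} {n : ℕ} {a : Fin n → F}

theorem int_of_inA (hA : IsAffineCurve S t a) {f : F} (hf : InA S a f) : IsIntegral (OO S) f := by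
  set N : Submodule (OO S) F := Submodule.span (OO S) (Set.range a) with hN
  have hmem : ∀ g : F, InA S a g → g ∈ N := by
    rintro g ⟨r, hr, rfl⟩
    refine N.sum_mem fun i _ => ?_
    have : algebraMap (RatFunc K) F (r i) * a i = (⟨r i, hr i⟩ : OO S) • a i := by
      rw [Algebra.smul_def]; rfl
    rw [this]
    exact N.smul_mem _ (Submodule.subset_span ⟨i, rfl⟩)
  have h1 : (1 : F) ∈ N := hmem 1 hA.one
  have hmul : ∀ x y, x ∈ N → y ∈ N → x * y ∈ N := by
    intro x y hx hy
    have h2 : N * N ≤ N := by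
      rw [hN, Submodule.span_mul_span, Submodule.span_le]
      rintro z ⟨_, ⟨i, rfl⟩, _, ⟨j, rfl⟩, rfl⟩
      exact hmem _ (hA.mul i j)
    exact h2 (Submodule.mul_mem_mul hx hy)
  have hfg : (N.toSubalgebra h1 hmul).toSubmodule.FG := by
    rw [Submodule.toSubalgebra_toSubmodule]
    exact Submodule.fg_span (Set.finite_range _)
  exact IsIntegral.of_mem_of_fg _ hfg _ (hmem f hf)

/-- integral elements are regular at `t` -/
theorem int_reg (ht : t ∉ S) (σ : F →+* LaurentSeries K) (hσ : IsExp (atFin 2 t) σ) {h : F}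
    (hh : IsIntegral (OO S) h) (m : ℤ) (hm : m < 0) : (σ h).coeff m = 0 := by
  set g := HahnSeries.ofPowerSeries ℤ K with hg
  have hginj : Function.Injective g := HahnSeries.ofPowerSeries_injective
  let e : PowerSeries K ≃+* g.range := RingEquiv.ofBijective g.rangeRestrict
    ⟨fun x y hxy => hginj (congrArg Subtype.val hxy), g.rangeRestrict_surjective⟩
  let ψ : OO S →+* g.range := ((σ.comp (algebraMap (RatFunc K) F)).comp (OO S).subtype).codRestrict
    g.range fun r => INTAux.OO_mem ht σ hσ r.1 r.2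
  let φ : OO S →+* PowerSeries K := (e.symm : g.range →+* PowerSeries K).comp ψ
  have hφ : ∀ r : OO S, g (φ r) = σ (algebraMap (RatFunc K) F r) := by
    intro r
    have h1 : e (e.symm (ψ r)) = ψ r := e.apply_symm_apply _
    exact congrArg Subtype.val h1
  have hint : IsIntegral (PowerSeries K) (σ h) := by
    refine IsIntegral.map_of_comp_eq φ σ ?_ hh
    ext1 r
    rw [RingHom.comp_apply, RingHom.comp_apply, LaurentSeries.coe_algebraMap]
    exact hφ r
  obtain ⟨y, hy⟩ := IsIntegrallyClosed.isIntegral_iff.1 hint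
  rw [← hy, LaurentSeries.coe_algebraMap]
  have := PowerSeries.coeff_coe (R := K) y m
  rw [if_pos hm] at this
  exact this

/-- integral elements lie in `A` -/
theorem inA_of_int (hMAX : S_MAX.{u, v}) [Algebra.IsSeparable (RatFunc K) F] (h2 : (2 : K) ≠ 0)
    (ht : t ∉ S) (hn : 0 < n) (hA : IsAffineCurve S t a) (σ : Fin n → (F →+* LaurentSeries K))
    (hσi : Function.Injective σ) (hσ : ∀ i, IsExp (atFin 2 t) (σ i)) {h : F}
    (hh : IsIntegral (OO S) h) : InA S a h := by
  classical
  refine hMAX K F h2 S t ht n hn a hA σ hσi hσ h ?_ fun i m hm => int_reg ht (σ i) (hσ i) hh m hm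
  have hfd : FiniteDimensional (RatFunc K) F :=
    FiniteDimensional.of_finrank_pos (by rw [hA.rank]; exact hn)
  have : Nonempty (Fin n) := ⟨⟨0, hn⟩⟩
  obtain ⟨r₀, hr₀, hr₀i, hr₀0, hd⟩ := hA.disc
  have hd0 : Algebra.discr (RatFunc K) a ≠ 0 := by
    rw [hd]
    exact mul_ne_zero hr₀0 (ALG.X_sub_ne t)
  have hli : LinearIndependent (RatFunc K) a := by
    by_contra hcon
    exact hd0 (Algebra.discr_zero_of_not_linearIndependent (RatFunc K) hcon)
  have hcard : Fintype.card (Fin n) = Module.finrank (RatFunc K) F := by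
    rw [Fintype.card_fin, hA.rank]
  obtain ⟨b, hb⟩ : ∃ b : Module.Basis (Fin n) (RatFunc K) F, ⇑b = a :=
    ⟨basisOfLinearIndependentOfCardEqFinrank hli hcard,
      coe_basisOfLinearIndependentOfCardEqFinrank hli hcard⟩
  -- coordinates
  set r : Fin n → RatFunc K := fun i => b.repr h i with hr
  have hhr : h = ∑ i, algebraMap (RatFunc K) F (r i) * a i := by
    conv_lhs => rw [← b.sum_repr h]
    refine Finset.sum_congr rfl fun i _ => ?_
    rw [Algebra.smul_def, hb]
  -- the trace matrix
  set T := Algebra.traceMatrix (RatFunc K) a with hT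
  have hTmem : ∀ i j, T i j ∈ OO S := by
    intro i j
    rw [hT, Algebra.traceMatrix_apply, Algebra.traceForm_apply]
    exact ALG.trace_mem hA (hA.mul i j)
  set τ : Fin n → RatFunc K := fun j => Algebra.trace (RatFunc K) F (a j * h) with hτ
  have hτmem : ∀ j, τ j ∈ OO S := by
    intro j
    apply intcl
    exact Algebra.isIntegral_trace ((int_of_inA hA (ALG.inA_self j)).mul hh)
  have hTr : T.mulVec r = τ := by
    ext j
    rw [Matrix.mulVec, dotProduct, hτ]
    change _ = Algebra.trace (RatFunc K) F (a j * h)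
    rw [hhr, Finset.mul_sum, map_sum]
    refine Finset.sum_congr rfl fun i _ => ?_
    have e1 : a j * (algebraMap (RatFunc K) F (r i) * a i) = r i • (a j * a i) := by
      rw [Algebra.smul_def]; ring
    rw [e1, map_smul, smul_eq_mul, hT, Algebra.traceMatrix_apply, Algebra.traceForm_apply, mul_comm]
  set T' : Matrix (Fin n) (Fin n) (OO S) := Matrix.of fun i j => ⟨T i j, hTmem i j⟩ with hT'
  have hTT' : T = (OO S).subtype.mapMatrix T' := by
    ext i j
    rfl
  have hadj : ∀ i j, T.adjugate i j ∈ OO S := by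
    intro i j
    rw [hTT', ← RingHom.map_adjugate]
    exact (T'.adjugate i j).2
  have hdet : T.det = r₀ * (RatFunc.X - RatFunc.C t) := hd
  have hcoord : ∀ i, (RatFunc.X - RatFunc.C t) * r i ∈ OO S := by
    intro i
    have h1 : T.adjugate.mulVec τ = T.det • r := by
      rw [← hTr, Matrix.mulVec_mulVec, Matrix.adjugate_mul, Matrix.smul_mulVec, Matrix.one_mulVec]
    have h3 := congrFun h1 i
    rw [Pi.smul_apply, smul_eq_mul, hdet] at h3
    have h4 : (RatFunc.X - RatFunc.C t) * r i = r₀⁻¹ * T.adjugate.mulVec τ i := by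
      rw [h3, mul_assoc, ← mul_assoc, inv_mul_cancel₀ hr₀0, one_mul]
    rw [h4]
    refine (OO S).mul_mem hr₀i ?_
    rw [Matrix.mulVec, dotProduct]
    exact (OO S).sum_mem fun j _ => (OO S).mul_mem (hadj i j) (hτmem j)
  refine ⟨fun i => (RatFunc.X - RatFunc.C t) * r i, hcoord, ?_⟩
  have h5 : xF K F - cF F t = algebraMap (RatFunc K) F (RatFunc.X - RatFunc.C t) := by
    rw [map_sub]; rfl
  rw [h5]
  conv_lhs => rw [hhr]
  rw [Finset.mul_sum]
  refine Finset.sum_congr rfl fun i _ => ?_
  rw [map_mul, mul_assoc]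

end

theorem der_atFin {K : Type u} [Field K] (t : K) :
    der (atFin 2 t) = HahnSeries.single (1 : ℤ) (2 : K) := by
  ext m
  rw [ld_der]
  unfold atFin
  rw [HahnSeries.coeff_add, HahnSeries.C_apply, HahnSeries.coeff_single, HahnSeries.coeff_single,
    HahnSeries.coeff_single]
  by_cases h1 : m = 1
  · subst h1
    norm_num
  · by_cases h2 : m + 1 = 0
    · rw [h2]; simp [h1]
    · have h3 : m + 1 ≠ ((2 : ℕ) : ℤ) := by
        intro h; apply h1; push_cast at h; omega
      have h4 : m + 1 ≠ 2 := fun h => h1 (by omega)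
      simp [h1, h2, h4]

end TRL

open TRL in
theorem part_TRL (hL0 : S_L0.{u, v}) (_hTR : S_TR.{u, v}) (_hINT : S_INT.{u, v})
    (hMAX : S_MAX.{u, v}) (hEXPO : S_EXPO.{u, v}) (_hALG : S_ALG.{u, v}) : S_TRL.{u, v} := by
  intro K F _ _ _ _ p n hp hchar hn2 hnp S t ht a hA σ hσi hσ Dx hDx hDc f hf hfU
  classical
  have hn : 0 < n := by omega
  have hcast : ∀ k : ℕ, 0 < k → k < p → (k : K) ≠ 0 := by
    intro k hk hkp h
    rw [CharP.cast_eq_zero_iff K p] at h
    have := Nat.le_of_dvd hk h
    omega
  have h2 : (2 : K) ≠ 0 := by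
    have := hcast 2 (by norm_num) (by omega)
    exact_mod_cast this
  have hfd : FiniteDimensional (RatFunc K) F :=
    FiniteDimensional.of_finrank_pos (by rw [hA.rank]; exact hn)
  obtain ⟨L, hL⟩ := hL0 K F h2 t
  -- `Dx L ⊆ L`
  have hexp := (hEXPO K F 0 Dx 0 hDx hDc rfl (fun b => by simp [cF])).2.1
  have hDL : ∀ g : F, g ∈ L → Dx g ∈ L := by
    intro g hg
    rw [hL] at hg ⊢
    intro σ' hσ' m hm
    have h3 := hexp (atFin 2 t) σ' hσ' g
    rw [der_atFin] at h3
    have h4 : (σ' (Dx g) * HahnSeries.single (1 : ℤ) (2 : K)).coeff (m + 1) =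
        (der (σ' g)).coeff (m + 1) := by rw [h3]
    rw [HahnSeries.coeff_mul_single_add, ld_der, hg σ' hσ' (m + 1 + 1) (by
      obtain ⟨k, hk⟩ := hm
      exact ⟨k + 1, by omega⟩), mul_zero] at h4
    exact (mul_eq_zero.1 h4).resolve_right h2
  -- the average
  set m := Module.finrank L F with hm
  have hmul : Module.finrank (RatFunc K) L * m = n := by
    rw [hm, Module.finrank_mul_finrank, hA.rank]
  have hm0 : 0 < m := Nat.pos_of_ne_zero fun h => by rw [h, mul_zero] at hmul; omega
  have hmn : m ≤ n := by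
    have : 0 < Module.finrank (RatFunc K) L := Nat.pos_of_ne_zero fun h => by
      rw [h, zero_mul] at hmul; omega
    calc m = 1 * m := (one_mul m).symm
      _ ≤ Module.finrank (RatFunc K) L * m := Nat.mul_le_mul_right m this
      _ = n := hmul
  have hmK : (m : K) ≠ 0 := hcast m hm0 (by omega)
  set d : L → L := fun l => ⟨Dx l, hDL l l.2⟩ with hd
  have htr := trace_der Dx d (fun l => rfl) f
  have hfL : Dx f ∈ L := (hL _).2 hfU
  have htrL : Algebra.trace L F (Dx f) = m • (⟨Dx f, hfL⟩ : L) :=
    Algebra.trace_algebraMap (⟨Dx f, hfL⟩ : L)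
  set T : F := algebraMap L F (Algebra.trace L F f) with hT
  have hDT : Dx T = m • Dx f := by
    rw [hT, htr, htrL, map_nsmul]
    rfl
  -- the constant `1 / m`
  set c : F := algebraMap (RatFunc K) F (RatFunc.C ((m : K)⁻¹)) with hc
  have hcD : Dx c = 0 := hDc _
  have hcm : c * (m : F) = 1 := by
    have h3 : (m : F) = algebraMap (RatFunc K) F (RatFunc.C (m : K)) := by
      rw [map_natCast, map_natCast]
    rw [h3, hc, ← map_mul, ← map_mul, inv_mul_cancel₀ hmK, map_one, map_one]
  have hcO : RatFunc.C ((m : K)⁻¹) ∈ OO S := Subring.subset_closure (Or.inl (Or.inl ⟨_, rfl⟩))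
  refine ⟨c * T, ALG.inA_smul ?_ hcO, ?_, ?_⟩
  · apply inA_of_int hMAX h2 ht hn hA σ hσi hσ
    have : IsScalarTower (OO S) L F := IsScalarTower.of_algebraMap_eq fun r => rfl
    have h3 : IsIntegral (OO S) (Algebra.trace L F f) :=
      Algebra.isIntegral_trace (int_of_inA hA hf)
    exact h3.algebraMap
  · rw [← hL]
    exact L.mul_mem (L.algebraMap_mem _) (Algebra.trace L F f).2
  · rw [Derivation.leibniz, hcD, smul_zero, add_zero, smul_eq_mul, hDT, nsmul_eq_mul, ← mul_assoc,
      hcm, one_mul]

end Pool.Agent.N780.SB
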