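import Mathlib
import Pool.Agent.N780.SB.Stm
import Pool.Agent.N780.SB.TR
import Pool.Agent.N780.SB.RF

set_option autoImplicit false

/-!
SB/UNR (helper955 for project SB of helper780): an element with few poles whose two exchanged
expansions agree up to order `p`.
-/

namespace Pool.Agent.N780.SB

universe u v w

namespace UNR955

open Module Polynomial

open scoped IntermediateField

/-- the values of the expansions of `g` -/
theorem gen2 {k : Type u} {F : Type v} {M : Type w} [Field k] [Field F] [Field M] [Algebra k F]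
    [Algebra.IsSeparable k F] (n : ℕ) (hn : 0 < n) (hr : finrank k F = n) (φ : k →+* M)
    (σ : Fin n → (F →+* M)) (hinj : Function.Injective σ)
    (hσ : ∀ i, (σ i).comp (algebraMap k F) = φ) (g : F) (m : ℕ) (hm : finrank k k⟮g⟯ = m) :
    ∃ y : Fin m → M, Function.Injective y ∧ (∀ j, ∃ i, y j = σ i g) ∧ (∀ i, ∃ j, y j = σ i g) ∧
      φ (Algebra.discr k (fun i : Fin m => (IntermediateField.AdjoinSimple.gen k g) ^ (i : ℕ))) =
        (Matrix.det (Matrix.of fun j l : Fin m => y j ^ (l : ℕ))) ^ 2 := by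
  let _ : Algebra k M := φ.toAlgebra
  have : FiniteDimensional k F := Module.finite_of_finrank_pos (by omega)
  have hφ : ∀ r : k, algebraMap k M r = φ r := fun r => rfl
  let lift : ∀ τ : F →+* M, τ.comp (algebraMap k F) = φ → (F →ₐ[k] M) := fun τ hτ =>
    { τ with commutes' := fun r => RingHom.congr_fun hτ r }
  let Ω := AlgebraicClosure M
  let ι : M →ₐ[k] Ω := IsScalarTower.toAlgHom k M Ω
  have hι : Function.Injective ι := (algebraMap M Ω).injective
  let e : Fin n → (F →ₐ[k] Ω) := fun i => ι.comp (lift (σ i) (hσ i))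
  have he : ∀ i f, e i f = ι (σ i f) := fun i f => rfl
  have heinj : Function.Injective e := by
    intro i j h
    apply hinj
    ext f
    exact hι (AlgHom.congr_fun h f)
  have hcard : Fintype.card (F →ₐ[k] Ω) = n := by
    rw [AlgHom.card k F Ω, hr]
  have hbij : Function.Bijective e := by
    rw [Fintype.bijective_iff_injective_and_card]
    exact ⟨heinj, by rw [Fintype.card_fin, hcard]⟩
  have halg : ∀ r : k, algebraMap k Ω r = ι (φ r) := fun r => by
    rw [← hφ]
    exact (ι.commutes r).symm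
  have hcard' : Fintype.card (k⟮g⟯ →ₐ[k] Ω) = m := by
    rw [AlgHom.card k k⟮g⟯ Ω, hm]
  let e' : Fin m ≃ (k⟮g⟯ →ₐ[k] Ω) := (Fintype.equivFinOfCardEq hcard').symm
  have hres : ∀ j : Fin m, ∃ i : Fin n, ∀ x : k⟮g⟯, e' j x = e i (x : F) := by
    intro j
    obtain ⟨ψ, hψ⟩ := IsAlgClosed.surjective_domRestrict_of_isAlgebraic (K := k) (L := k⟮g⟯)
      (M := Ω) (E := F) (e' j)
    obtain ⟨i, hi⟩ := hbij.2 ψ
    refine ⟨i, fun x => ?_⟩
    rw [hi, ← hψ]
    rfl
  choose i hi using hres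
  have hgen : ∀ j, e' j (IntermediateField.AdjoinSimple.gen k g) = ι (σ (i j) g) := fun j => hi j _
  have hext : ∀ f₁ f₂ : k⟮g⟯ →ₐ[k] Ω, f₁ (IntermediateField.AdjoinSimple.gen k g) =
      f₂ (IntermediateField.AdjoinSimple.gen k g) → f₁ = f₂ := by
    intro f₁ f₂ h
    have hint : IsIntegral k g := Algebra.IsIntegral.isIntegral g
    exact (IntermediateField.adjoin.powerBasis hint).algHom_ext h
  refine ⟨fun j => σ (i j) g, ?_, fun j => ⟨i j, rfl⟩, ?_, ?_⟩
  · intro a b hab
    apply e'.injective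
    apply hext
    rw [hgen, hgen]
    exact congrArg ι hab
  · intro a
    obtain ⟨j, hj⟩ := e'.surjective ((e a).comp (IsScalarTower.toAlgHom k k⟮g⟯ F))
    refine ⟨j, ?_⟩
    apply hι
    rw [← hgen, hj]
    rfl
  · apply hι
    rw [← halg, Algebra.discr_eq_det_embeddingsMatrixReindex_pow_two k Ω _ e', map_pow]
    congr 1
    have h1 : Algebra.embeddingsMatrixReindex k Ω
        (fun i : Fin m => (IntermediateField.AdjoinSimple.gen k g) ^ (i : ℕ)) e' =
        (ι.toRingHom.mapMatrix (Matrix.of fun j l : Fin m => (σ (i j) g) ^ (l : ℕ))).transpose := by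
      ext a b
      show e' b ((IntermediateField.AdjoinSimple.gen k g) ^ (a : ℕ)) =
        ι ((σ (i b) g) ^ (a : ℕ))
      rw [map_pow, hgen, map_pow]
    rw [h1, Matrix.det_transpose]
    exact (RingHom.map_det ι.toRingHom _).symm

section disc

variable {K : Type u} [Field K]

theorem poly_mem (S : Finset K) (P : K[X]) : algebraMap K[X] (RatFunc K) P ∈ OO S := by
  induction P using Polynomial.induction_on' with
  | add p q hp hq =>
    rw [map_add]
    exact (OO S).add_mem hp hq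
  | monomial n a =>
    rw [← Polynomial.C_mul_X_pow_eq_monomial, map_mul, map_pow, RatFunc.algebraMap_C,
      RatFunc.algebraMap_X]
    exact (OO S).mul_mem (Subring.subset_closure (Or.inl (Or.inl ⟨a, rfl⟩)))
      ((OO S).pow_mem (Subring.subset_closure (Or.inl (Or.inr rfl))) n)

theorem inv_mem (S : Finset K) : (algebraMap K[X] (RatFunc K) (RF.D S))⁻¹ ∈ OO S := by
  unfold RF.D
  rw [map_prod, ← Finset.prod_inv_distrib]
  refine prod_mem fun c hc => Subring.subset_closure (Or.inr ⟨c, hc, ?_⟩)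
  rw [map_sub, RatFunc.algebraMap_X, RatFunc.algebraMap_C]

theorem scal (S : Finset K) (q : Polynomial (RatFunc K)) (hq : q.Monic)
    (hc : ∀ i, q.coeff i ∈ OO S) : ∃ (N : ℕ) (q' : Polynomial K[X]), q'.Monic ∧
      q'.map (algebraMap K[X] (RatFunc K)) = q.scaleRoots (algebraMap K[X] (RatFunc K) (RF.D S ^ N)) := by
  choose M P hM using fun i => RF.exists_pow (hc i)
  let N := (Finset.range (q.natDegree + 1)).sum M
  have hN : ∀ i ≤ q.natDegree, M i ≤ N := fun i hi =>
    Finset.single_le_sum (f := M) (fun _ _ => Nat.zero_le _) (Finset.mem_range.2 (by omega))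
  have h1 : q.scaleRoots (algebraMap K[X] (RatFunc K) (RF.D S ^ N)) ∈
      Polynomial.lifts (algebraMap K[X] (RatFunc K)) := by
    rw [Polynomial.lifts_iff_coeff_lifts]
    intro i
    rw [Polynomial.coeff_scaleRoots]
    rcases lt_trichotomy i q.natDegree with hi | hi | hi
    · refine ⟨P i * RF.D S ^ (N - M i) * (RF.D S ^ N) ^ (q.natDegree - i - 1), ?_⟩
      rw [map_mul, map_mul, ← hM]
      have h2 : q.natDegree - i = (q.natDegree - i - 1) + 1 := by omega
      have h3 : N = M i + (N - M i) := by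
        have := hN i hi.le
        omega
      conv_rhs => rw [h2, pow_succ]
      rw [map_pow, map_pow]
      have h4 : (algebraMap K[X] (RatFunc K) (RF.D S ^ N)) =
          algebraMap K[X] (RatFunc K) (RF.D S) ^ M i * algebraMap K[X] (RatFunc K) (RF.D S) ^ (N - M i) := by
        rw [← pow_add, ← h3, map_pow]
      rw [h4]
      ring
    · refine ⟨1, ?_⟩
      rw [hi, Nat.sub_self, pow_zero, mul_one, map_one]
      exact hq.symm
    · refine ⟨0, ?_⟩
      rw [Polynomial.coeff_eq_zero_of_natDegree_lt hi, zero_mul, map_zero]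
  obtain ⟨q', h2, _, h3⟩ := Polynomial.lifts_and_degree_eq_and_monic h1
    ((Polynomial.monic_scaleRoots_iff _).2 hq)
  exact ⟨N, q', h3, h2⟩

theorem disc_mem {L : Type v} [Field L] [Algebra (RatFunc K) L] [FiniteDimensional (RatFunc K) L]
    (S : Finset K) (β : L) (q : Polynomial (RatFunc K)) (hq : q.Monic)
    (hc : ∀ i, q.coeff i ∈ OO S) (h0 : Polynomial.aeval β q = 0) (m : ℕ) :
    Algebra.discr (RatFunc K) (fun i : Fin m => β ^ (i : ℕ)) ∈ OO S := by
  obtain ⟨N, q', h1, h2⟩ := scal S q hq hc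
  let _ : Algebra K[X] L := ((algebraMap (RatFunc K) L).comp (algebraMap K[X] (RatFunc K))).toAlgebra
  have : IsScalarTower K[X] (RatFunc K) L := IsScalarTower.of_algebraMap_eq fun _ => rfl
  set s : RatFunc K := algebraMap K[X] (RatFunc K) (RF.D S ^ N) with hs
  have hs0 : s ≠ 0 := RatFunc.algebraMap_ne_zero (pow_ne_zero _ (RF.D_ne S))
  have hsi : s⁻¹ ∈ OO S := by
    rw [hs, map_pow, ← inv_pow]
    exact pow_mem (inv_mem S) N
  have hint : IsIntegral K[X] (algebraMap (RatFunc K) L s * β) := by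
    refine ⟨q', h1, ?_⟩
    have h3 : algebraMap K[X] L = (algebraMap (RatFunc K) L).comp (algebraMap K[X] (RatFunc K)) := rfl
    rw [h3, ← Polynomial.eval₂_map, h2]
    exact Polynomial.scaleRoots_aeval_eq_zero h0
  have h3 : IsIntegral K[X] (Algebra.discr (RatFunc K)
      (fun i : Fin m => (algebraMap (RatFunc K) L s * β) ^ (i : ℕ))) :=
    Algebra.discr_isIntegral (RatFunc K) fun i => hint.pow _
  obtain ⟨P, hP⟩ := IsIntegrallyClosed.isIntegral_iff.1 h3
  have h4 : (fun i : Fin m => (algebraMap (RatFunc K) L s * β) ^ (i : ℕ)) =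
      Matrix.vecMul (fun i : Fin m => β ^ (i : ℕ))
        ((Matrix.diagonal fun i : Fin m => s ^ (i : ℕ)).map (algebraMap (RatFunc K) L)) := by
    funext i
    rw [Matrix.diagonal_map (map_zero _), Matrix.vecMul_diagonal]
    simp only [map_pow]
    rw [mul_pow, mul_comm]
  rw [h4, Algebra.discr_of_matrix_vecMul, Matrix.det_diagonal] at hP
  have h5 : (∏ i : Fin m, s ^ (i : ℕ)) ^ 2 ≠ 0 :=
    pow_ne_zero _ (Finset.prod_ne_zero_iff.2 fun i _ => pow_ne_zero _ hs0)
  have h6 : Algebra.discr (RatFunc K) (fun i : Fin m => β ^ (i : ℕ)) =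
      (∏ i : Fin m, (s⁻¹) ^ (i : ℕ)) ^ 2 * algebraMap K[X] (RatFunc K) P := by
    rw [hP, ← mul_assoc, ← mul_pow, ← Finset.prod_mul_distrib]
    have h7 : ∏ i : Fin m, (s⁻¹ ^ (i : ℕ) * s ^ (i : ℕ)) = 1 := by
      apply Finset.prod_eq_one
      intro i _
      rw [← mul_pow, inv_mul_cancel₀ hs0, one_pow]
    rw [h7, one_pow, one_mul]
  rw [h6]
  exact mul_mem (pow_mem (prod_mem fun i _ => pow_mem hsi _) 2) (poly_mem S P)

end disc

end UNR955

open UNR955 in
/-- Part UNR -/
theorem part_UNR (hRF : S_RF.{u}) (hVDM : S_VDM.{u}) (_hTR : S_TR.{u, v}) : S_UNR.{u, v} := by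
  intro K F _ _ _ _ p n E _ _ hn _ hE hr S t ht hp σc hσc σi hσi hσi' σt hσt hσt' g hg hgc hgi hgt
    j₁ j₂ hj
  classical
  by_contra hne
  have : FiniteDimensional (RatFunc K) F := Module.finite_of_finrank_pos (by omega)
  obtain ⟨q, hq1, hq2, hq3⟩ := hg
  let m := Module.finrank (RatFunc K) (IntermediateField.adjoin (RatFunc K) {g})
  have hmn : m ≤ n := by
    rw [← hr]
    exact Submodule.finrank_le (IntermediateField.adjoin (RatFunc K) {g}).toSubmodule
  let gg := IntermediateField.AdjoinSimple.gen (RatFunc K) g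
  let R := Algebra.discr (RatFunc K) (fun i : Fin m => gg ^ (i : ℕ))
  have hR : R ∈ OO S := by
    refine disc_mem S gg q hq1 hq2 ?_ m
    apply (algebraMap (IntermediateField.adjoin (RatFunc K) {g}) F).injective
    rw [map_zero, ← hq3, ← Polynomial.aeval_algebraMap_apply]
    rfl
  -- the expansions at a point
  have key : ∀ (ξ : LaurentSeries K) (σ : Fin n → (F →+* LaurentSeries K)),
      Function.Injective σ → (∀ i, IsExp ξ (σ i)) →
      ∃ y : Fin m → LaurentSeries K, Function.Injective y ∧ (∀ j, ∃ i, y j = σ i g) ∧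
        (∀ i, ∃ j, y j = σ i g) ∧ ((σ ⟨0, hn⟩).comp (algebraMap (RatFunc K) F)) R =
          (Matrix.det (Matrix.of fun j l : Fin m => y j ^ (l : ℕ))) ^ 2 := by
    intro ξ σ hσ hσ'
    have hφ : ∀ i, (σ i).comp (algebraMap (RatFunc K) F) =
        (σ ⟨0, hn⟩).comp (algebraMap (RatFunc K) F) := fun i =>
      TR933.ratExt _ _ ((hσ' i).1.trans (hσ' ⟨0, hn⟩).1.symm)
        fun a => ((hσ' i).2 a).trans ((hσ' ⟨0, hn⟩).2 a).symm
    exact gen2 n hn hr _ σ hσ hφ g m rfl
  obtain ⟨y, hy1, hy2, hy3, hy4⟩ := key _ σt hσt hσt'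
  obtain ⟨a₁, ha₁⟩ := hy3 j₁
  obtain ⟨a₂, ha₂⟩ := hy3 j₂
  have ha : a₁ ≠ a₂ := by
    intro h
    apply hne
    rw [← ha₁, ← ha₂, h]
  have hm2 : 2 ≤ m := by
    by_contra h
    apply ha
    ext
    have h1 := a₁.2
    have h2 := a₂.2
    omega
  have hN : 0 < m * (m - 1) := Nat.mul_pos (by omega) (by omega)
  have hle : m * (m - 1) * (S.card - 1) ≤ p :=
    (Nat.mul_le_mul_right _ (Nat.mul_le_mul hmn (by omega))).trans hp
  have hR0 : R = 0 := by
    refine (hRF K S t ht E hE (fun c => if h : c ∈ S then (σc c ⟨0, hn⟩).comp (algebraMap (RatFunc K) F)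
      else (σt ⟨0, hn⟩).comp (algebraMap (RatFunc K) F))
      ((σt ⟨0, hn⟩).comp (algebraMap (RatFunc K) F)) ((σi ⟨0, hn⟩).comp (algebraMap (RatFunc K) F))
      ?_ ⟨(hσt' ⟨0, hn⟩).1, (hσt' ⟨0, hn⟩).2⟩ ⟨(hσi' ⟨0, hn⟩).1, (hσi' ⟨0, hn⟩).2⟩ R hR
      (m * (m - 1)) hN ?_ ?_).1 p hle ?_
    · intro c hc
      rw [dif_pos hc]
      exact ⟨((hσc c hc).2 ⟨0, hn⟩).1, ((hσc c hc).2 ⟨0, hn⟩).2⟩
    · intro c hc k hk
      rw [dif_pos hc]
      obtain ⟨z, _, hz2, _, hz4⟩ := key _ (σc c) (hσc c hc).1 (hσc c hc).2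
      rw [hz4]
      refine (hVDM K m z).1 (1 - E) (fun j l hl => ?_) k hk
      obtain ⟨i, hi⟩ := hz2 j
      rw [hi]
      exact hgc c hc i l hl
    · intro k hk
      obtain ⟨z, _, hz2, _, hz4⟩ := key _ σi hσi hσi'
      rw [hz4]
      refine (hVDM K m z).1 (E + 1) (fun j l hl => ?_) k hk
      obtain ⟨i, hi⟩ := hz2 j
      rw [hi]
      exact hgi i l hl
    · intro k hk
      rw [hy4]
      refine (hVDM K m y).2 p a₁ a₂ ha (fun j l hl => ?_) (fun l hl => ?_) k hk
      · obtain ⟨i, hi⟩ := hy2 j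
        rw [hi]
        exact hgt i l hl
      · rw [ha₁, ha₂]
        exact hj l hl
  rw [hR0, map_zero] at hy4
  have h5 : (Matrix.vandermonde y).det ≠ 0 := Matrix.det_vandermonde_ne_zero_iff.2 hy1
  exact h5 (pow_eq_zero_iff (two_ne_zero)|>.1 hy4.symm)

end Pool.Agent.N780.SB
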