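import Mathlib
import Pool.Agent.N780.SB.Main
import Pool.Agent.N780.SB.L0
import Pool.Agent.N780.SB.UNR
import Pool.Agent.N780.SB.TRL

set_option autoImplicit false

/-!
Covers of the line with a moving simple branch point: the final theorem (helper780).
-/

namespace Pool.Agent.N780.SB

universe u v w

/-- Every exact holomorphic form comes from the largest subcover unramified at `x = t`. -/
def S_STRONG : Prop := ∀ (K : Type u) (F : Type v) [Field K] [Field F] [Algebra (RatFunc K) F]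
  (p n E : ℕ) (_ : p.Prime) (_ : CharP K p) (_ : 2 ≤ n) (_ : n < p)
  (δ : Derivation ℤ K K) (_ : ∀ a : K, δ^[p] a = 0) (t : K) (_ : δ t = 1)
  (S : Finset K) (_ : ∀ c ∈ S, δ c = 0) (_ : n * (n - 1) * (S.card - 1) ≤ p) (_ : ¬ p ∣ E)
  (a : Fin n → F) (_ : IsAffineCurve S t a)
  (_ : ∀ c ∈ S, Splits F n (atFin E c)) (_ : Splits F n (atInf K E)) (_ : Splits F n (atFin 2 t))
  (Dx : Derivation ℤ F F) (_ : Dx (xF K F) = 1) (_ : ∀ a : K, Dx (cF F a) = 0),
  (∀ f, InA S a f → (∀ c ∈ S, HolFin E c (Dx f)) → HolInf K E (Dx f) →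
    ∃ f₁, InA S a f₁ ∧ Unr t f₁ ∧ Dx f₁ = Dx f) ∧
  ((∀ L : IntermediateField (RatFunc K) F, L = ⊥ ∨ L = ⊤) →
    ∀ f, InA S a f → (∀ c ∈ S, HolFin E c (Dx f)) → HolInf K E (Dx f) → Dx f = 0)

theorem strong_of (hUNR : S_UNR.{u, v}) (hTRL : S_TRL.{u, v}) : S_STRONG.{u, v} := by
  intro K F _ _ _ p n E hp hCh hn hnp δ hδ t ht S hS hb hE a hA hSp hInf ht2 Dx hx hc
  have hn0 : 0 < n := by omega
  have hE0 : 0 < E := Nat.pos_of_ne_zero (fun h => hE (h ▸ dvd_zero p))
  have := hCh
  have : Fact p.Prime := ⟨hp⟩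
  have : Algebra.IsSeparable (RatFunc K) F := part_SEP K F p n hp hCh hn0 hnp hA.rank
  have : FiniteDimensional (RatFunc K) F :=
    FiniteDimensional.of_finrank_pos (by rw [hA.rank]; exact hn0)
  have h2 : (2 : K) ≠ 0 := by
    intro h
    have h3 : p ∣ 2 := (CharP.cast_eq_zero_iff K p 2).1 (by exact_mod_cast h)
    have := Nat.le_of_dvd (by norm_num) h3
    omega
  have hEK : (E : K) ≠ 0 := fun h => hE ((CharP.cast_eq_zero_iff K p E).1 h)
  have hnK : (n : K) ≠ 0 := fun h => by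
    have := Nat.le_of_dvd hn0 ((CharP.cast_eq_zero_iff K p n).1 h)
    omega
  have htS : t ∉ S := fun h => by
    have := hS t h
    rw [ht] at this
    exact one_ne_zero this
  obtain ⟨Dt, hDt1, hDt2⟩ := part_EXT K F δ
  obtain ⟨hcomm, hDxe, hDte, hDtp⟩ :=
    part_EXPO part_UNIQ part_UNIQ part_LD K F δ Dx Dt hx hc hDt1 hDt2
  obtain ⟨hAO, hAadd, hAmul, hAtr⟩ := part_ALG K F S t n a hA
  obtain ⟨σi, hσi1, hσi2⟩ := hInf
  obtain ⟨σt, hσt1, hσt2⟩ := ht2
  have hSp' : ∀ c : K, ∃ σ : Fin n → (F →+* LaurentSeries K),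
      c ∈ S → Function.Injective σ ∧ ∀ i, IsExp (atFin E c) (σ i) := by
    intro c
    by_cases h : c ∈ S
    · obtain ⟨σ, h1, h2⟩ := hSp c h
      exact ⟨σ, fun _ => ⟨h1, h2⟩⟩
    · exact ⟨σi, fun h' => absurd h' h⟩
  choose σc hσc using hSp'
  obtain ⟨j₁, j₂, hj, hpair, hoth⟩ :=
    part_PAIR part_TR part_INT K F h2 S t htS n hn0 a hA σt hσt1 hσt2
  let i0 : Fin n := ⟨0, hn0⟩
  obtain ⟨hTR1, hTR2, -⟩ := part_TR K F n hn0 hA.rank (atFin 2 t) σt hσt1 hσt2
  -- the x and t derivatives of elements of A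
  have hXt : (RatFunc.X - RatFunc.C t : RatFunc K) ≠ 0 := by
    intro h
    have h3 := congrArg (fun r => σt i0 (algebraMap (RatFunc K) F r)) h
    simp only [map_sub, map_zero] at h3
    have h4 : σt i0 (algebraMap (RatFunc K) F RatFunc.X) = atFin 2 t := (hσt2 i0).1
    have h5 : σt i0 (algebraMap (RatFunc K) F (RatFunc.C t)) = HahnSeries.C t := (hσt2 i0).2 t
    rw [h4, h5] at h3
    have h6 := congrArg (fun y : LaurentSeries K => y.coeff 2) h3
    simp [atFin, HahnSeries.coeff_single, HahnSeries.C_apply] at h6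
  have hdisc : ∀ D : Derivation ℤ F F,
      (∃ r ∈ OO S, D (xF K F) = algebraMap (RatFunc K) F r) →
      (∀ b : K, ∃ r ∈ OO S, D (cF F b) = algebraMap (RatFunc K) F r) →
      ∀ f, InA S a f → InA S a ((xF K F - cF F t) * D f) := by
    intro D h1 h2 f hf
    obtain ⟨r, hr, hri, hr0, hd⟩ := hA.disc
    have h3 := part_DISC K F S n a hA.rank hA.one hA.mul
      (by rw [hd]; exact mul_ne_zero hr0 hXt) D (part_DOO K F S D h1 h2) f hf
    rw [hd] at h3
    have h4 := hAmul _ _ (hAO r⁻¹ hri) h3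
    have h5 : algebraMap (RatFunc K) F r⁻¹ *
        (algebraMap (RatFunc K) F (r * (RatFunc.X - RatFunc.C t)) * D f) =
        (xF K F - cF F t) * D f := by
      have h6 : algebraMap (RatFunc K) F r ≠ 0 := by
        rw [Ne, map_eq_zero]; exact hr0
      unfold xF cF
      rw [map_mul, map_sub, map_inv₀]
      field_simp
    rwa [h5] at h4
  have hDx1 : ∃ r ∈ OO S, Dx (xF K F) = algebraMap (RatFunc K) F r :=
    ⟨1, (OO S).one_mem, by rw [hx, map_one]⟩
  have hDx2 : ∀ b : K, ∃ r ∈ OO S, Dx (cF F b) = algebraMap (RatFunc K) F r :=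
    fun b => ⟨0, (OO S).zero_mem, by rw [hc, map_zero]⟩
  have hDt1' : ∃ r ∈ OO S, Dt (xF K F) = algebraMap (RatFunc K) F r :=
    ⟨0, (OO S).zero_mem, by rw [hDt1, map_zero]⟩
  have hDt2' : ∀ b : K, ∃ r ∈ OO S, Dt (cF F b) = algebraMap (RatFunc K) F r :=
    fun b => ⟨RatFunc.C (δ b), C_mem_OO S _, by rw [hDt2]; rfl⟩
  have hxA : ∀ f, InA S a f → InA S a ((xF K F - cF F t) * Dx f) := hdisc Dx hDx1 hDx2
  have htA : ∀ f, InA S a f → InA S a ((xF K F - cF F t) * Dt f) := hdisc Dt hDt1' hDt2'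
  -- regularity at t
  have hreg : ∀ f, InA S a f → ∀ j, ∀ m : ℤ, m < 0 → (σt j f).coeff m = 0 :=
    fun f hf j m hm => part_INT K F S t htS n a hA (σt j) (hσt2 j) f hf m hm
  -- coefficients of the derivatives at t
  have hDxc : ∀ j f m, (σt j (Dx f)).coeff m * 2 = ((m + 2 : ℤ) : K) * (σt j f).coeff (m + 2) := by
    intro j f m
    have h := congrArg (fun y : LaurentSeries K => y.coeff (m + 1))
      (hDxe (atFin 2 t) (σt j) (hσt2 j) f)
    simp only [der_atFin, mul_single_coeff, der_coeff] at h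
    have e1 : m + 1 - (((2 : ℕ) : ℤ) - 1) = m := by push_cast; ring
    have e2 : m + 1 + 1 = m + 2 := by ring
    rw [e1, e2] at h
    exact_mod_cast h
  have hDtc : ∀ j f m, (σt j (Dt f)).coeff m =
      δ ((σt j f).coeff m) - 1 / 2 * (((m + 2 : ℤ) : K) * (σt j f).coeff (m + 2)) := by
    intro j f m
    have h := congrArg (fun y : LaurentSeries K => y.coeff m)
      (hDte (atFin 2 t) _ (σt j) (hσt2 j) (hat_atFin_two δ h2 t ht) f)
    simp only [HahnSeries.coeff_sub, single_mul_coeff, hat_coeff, der_coeff] at h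
    rw [h]
    have e1 : m - -1 + 1 = m + 2 := by ring
    rw [e1]
  -- the pairing
  have hpairing : ∀ f, InA S a f → (∀ c ∈ S, HolFin E c (Dx f)) → HolInf K E (Dx f) →
      (σt j₁ f).coeff 1 = 0 := by
    intro f hf h1 h3
    set R := Algebra.trace (RatFunc K) F (Dt f * Dx f) with hRdef
    have hR : (RatFunc.X - RatFunc.C t) ^ 2 * R ∈ OO S := by
      have h4 := hAtr _ (hAmul _ _ (htA f hf) (hxA f hf))
      have h5 : (xF K F - cF F t) * Dt f * ((xF K F - cF F t) * Dx f) =
          ((RatFunc.X - RatFunc.C t) ^ 2 : RatFunc K) • (Dt f * Dx f) := by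
        rw [Algebra.smul_def, map_pow, map_sub]
        unfold xF cF
        ring
      rw [h5, map_smul, smul_eq_mul] at h4
      exact h4
    have hres := part_RES K S t htS E hE0 (fun c => (σc c i0).comp (algebraMap (RatFunc K) F))
      ((σt i0).comp (algebraMap (RatFunc K) F)) ((σi i0).comp (algebraMap (RatFunc K) F))
      (fun c hcS => ⟨((hσc c hcS).2 i0).1, ((hσc c hcS).2 i0).2⟩)
      ⟨(hσt2 i0).1, (hσt2 i0).2⟩ ⟨(hσi2 i0).1, (hσi2 i0).2⟩ R 2 hR
    have hloc0 : ∀ (ξ : LaurentSeries K) (σ : Fin n → (F →+* LaurentSeries K)),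
        Function.Injective σ → (∀ i, IsExp ξ (σ i)) → hat δ ξ = 0 →
        (∀ j, ∀ m : ℤ, m < 0 → (σ j (Dx f) * der ξ).coeff m = 0) →
        (σ i0 (algebraMap (RatFunc K) F R) * der ξ).coeff (-1) = 0 := by
      intro ξ σ hσ1 hσ2 hξ hhol
      obtain ⟨-, hTR, -⟩ := part_TR K F n hn0 hA.rank ξ σ hσ1 hσ2
      rw [hRdef, hTR, Finset.sum_mul, HahnSeries.coeff_sum]
      refine Finset.sum_eq_zero fun j _ => ?_
      have e1 : σ j (Dt f * Dx f) * der ξ = hat δ (σ j f) * der (σ j f) := by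
        rw [map_mul, mul_assoc, hDxe ξ (σ j) (hσ2 j) f,
          hDte ξ 0 (σ j) (hσ2 j) (by rw [hξ, zero_mul]) f, zero_mul, sub_zero]
      rw [e1]
      refine (part_LOC K δ (σ j f)).1 fun m hm => ?_
      rw [← hDxe ξ (σ j) (hσ2 j) f]
      exact hhol j m hm
    have hc0 : ∀ c ∈ S, (σc c i0 (algebraMap (RatFunc K) F R) * der (atFin E c)).coeff (-1) = 0 := by
      intro c hcS
      refine hloc0 (atFin E c) (σc c) (hσc c hcS).1 (hσc c hcS).2 (hat_atFin δ E c (hS c hcS)) ?_
      intro j m hm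
      rw [der_atFin, mul_single_coeff, h1 c hcS (σc c j) ((hσc c hcS).2 j) _ (by linarith), zero_mul]
    have hi0 : (σi i0 (algebraMap (RatFunc K) F R) * der (atInf K E)).coeff (-1) = 0 := by
      refine hloc0 (atInf K E) σi hσi1 hσi2 (hat_atInf δ E) ?_
      intro j m hm
      rw [der_atInf, mul_single_coeff, h3 (σi j) (hσi2 j) _ (by linarith), zero_mul]
    have ht0 : (σt i0 (algebraMap (RatFunc K) F R) * der (atFin 2 t)).coeff (-1) =
        -((σt j₁ f).coeff 1) ^ 2 := by
      rw [hRdef, hTR2, Finset.sum_mul, HahnSeries.coeff_sum]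
      have e1 : ∀ j, (σt j (Dt f * Dx f) * der (atFin 2 t)).coeff (-1) =
          -((σt j f).coeff 1) ^ 2 / 2 := by
        intro j
        have e2 : σt j (Dt f * Dx f) * der (atFin 2 t) =
            (hat δ (σt j f) - HahnSeries.single (-1 : ℤ) (1 / 2 : K) * der (σt j f)) *
              der (σt j f) := by
          rw [map_mul, mul_assoc, hDxe (atFin 2 t) (σt j) (hσt2 j) f,
            hDte (atFin 2 t) _ (σt j) (hσt2 j) (hat_atFin_two δ h2 t ht) f]
        rw [e2]
        exact (part_LOC K δ (σt j f)).2 h2 (hreg f hf j)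
      rw [Fintype.sum_eq_add j₁ j₂ hj]
      · rw [e1, e1, hpair f 1]
        simp
        field_simp
        ring
      · intro j hjj
        rw [e1, hoth j hjj.1 hjj.2 f 1 (by decide)]
        simp
    simp only [RingHom.comp_apply] at hres
    rw [Finset.sum_eq_zero hc0, hi0, ht0] at hres
    have h7 : (E : K) * ((σt j₁ f).coeff 1) ^ 2 = 0 := by linear_combination -hres
    rcases mul_eq_zero.1 h7 with h8 | h8
    · exact absurd h8 hEK
    · exact pow_eq_zero_iff (two_ne_zero) |>.1 h8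
  have hc1 : ∀ f, (σt j₁ f).coeff 1 = 0 → ∀ j, (σt j f).coeff 1 = 0 := by
    intro f h j
    by_cases h3 : j = j₁
    · rw [h3, h]
    · by_cases h4 : j = j₂
      · rw [h4, hpair f 1, h, mul_zero]
      · exact hoth j h3 h4 f 1 (by decide)
  have hxt : ∀ (D : Derivation ℤ F F) (f : F), InA S a ((xF K F - cF F t) * D f) →
      (∀ j, ∀ m : ℤ, m < 0 → (σt j (D f)).coeff m = 0) → InA S a (D f) := by
    intro D f h1 h3
    exact part_MAX part_TR part_INT K F h2 S t htS n hn0 a hA σt hσt1 hσt2 (D f) h1 h3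
  have hDxA : ∀ f, InA S a f → (∀ j, (σt j f).coeff 1 = 0) → InA S a (Dx f) := by
    intro f hf h1
    refine hxt Dx f (hxA f hf) fun j m hm => ?_
    have h3 := hDxc j f m
    have h4 : ((m + 2 : ℤ) : K) * (σt j f).coeff (m + 2) = 0 := by
      rcases lt_trichotomy m (-2) with h5 | h5 | h5
      · rw [hreg f hf j (m + 2) (by omega), mul_zero]
      · subst h5; simp
      · have h6 : m = -1 := by omega
        subst h6
        rw [show (-1 + 2 : ℤ) = 1 by norm_num, h1 j, mul_zero]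
    rw [h4] at h3
    exact (mul_eq_zero.1 h3).resolve_right h2
  have hDtA : ∀ f, InA S a f → (∀ j, (σt j f).coeff 1 = 0) → InA S a (Dt f) := by
    intro f hf h1
    refine hxt Dt f (htA f hf) fun j m hm => ?_
    rw [hDtc, hreg f hf j m hm, map_zero]
    have h4 : ((m + 2 : ℤ) : K) * (σt j f).coeff (m + 2) = 0 := by
      rcases lt_trichotomy m (-2) with h5 | h5 | h5
      · rw [hreg f hf j (m + 2) (by omega), mul_zero]
      · subst h5; simp
      · have h6 : m = -1 := by omega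
        subst h6
        rw [show (-1 + 2 : ℤ) = 1 by norm_num, h1 j, mul_zero]
    rw [h4]; simp
  -- stability
  have hstab : ∀ f, InA S a f → (∀ c ∈ S, HolFin E c (Dx f)) → HolInf K E (Dx f) →
      InA S a (Dt f) ∧ (∀ c ∈ S, HolFin E c (Dx (Dt f))) ∧ HolInf K E (Dx (Dt f)) := by
    intro f hf h1 h3
    refine ⟨hDtA f hf (hc1 f (hpairing f hf h1 h3)), ?_, ?_⟩
    · intro c hcS σ hσ m hm
      rw [hcomm, hDte (atFin E c) 0 σ hσ (by rw [hat_atFin δ E c (hS c hcS), zero_mul]) (Dx f),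
        zero_mul, sub_zero, hat_coeff, h1 c hcS σ hσ m hm, map_zero]
    · intro σ hσ m hm
      rw [hcomm, hDte (atInf K E) 0 σ hσ (by rw [hat_atInf δ E, zero_mul]) (Dx f),
        zero_mul, sub_zero, hat_coeff, h3 σ hσ m hm, map_zero]
  -- flat elements
  have hflat : ∀ f, InA S a f → (∀ c ∈ S, HolFin E c (Dx f)) → HolInf K E (Dx f) →
      Unr t (Dt (Dx f)) → Unr t (Dx f) := by
    intro f hf h1 h3 h4
    have hf1 := hc1 f (hpairing f hf h1 h3)
    have hgA := hDxA f hf hf1
    set g := Dx f with hg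
    have hrec : ∀ j (m : ℤ), Odd m → δ ((σt j g).coeff m) =
        1 / 2 * (((m + 2 : ℤ) : K) * (σt j g).coeff (m + 2)) := by
      intro j m hmo
      have h5 := hDtc j g m
      rw [h4 (σt j) (hσt2 j) m hmo] at h5
      exact (sub_eq_zero.1 h5.symm)
    have hodd : ∀ j, ∀ k : ℕ, 2 * k + 1 < p → (σt j g).coeff (2 * (k : ℤ) + 1) = 0 := by
      intro j k
      induction k with
      | zero =>
        intro _
        have h5 := hrec j (-1) (by decide)
        rw [hreg g hgA j (-1) (by norm_num), map_zero] at h5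
        simp only [show (-1 + 2 : ℤ) = 1 by norm_num, Int.cast_one, one_mul] at h5
        have h6 := (mul_eq_zero.1 h5.symm).resolve_left (by simpa using h2)
        simpa using h6
      | succ k ih =>
        intro hk
        have h5 := hrec j (2 * (k : ℤ) + 1) ⟨k, rfl⟩
        rw [ih (by omega), map_zero] at h5
        have h6 := (mul_eq_zero.1 h5.symm).resolve_left (by simpa using h2)
        have h7 : (((2 * (k : ℤ) + 1 + 2 : ℤ)) : K) ≠ 0 := by
          have e1 : (((2 * (k : ℤ) + 1 + 2 : ℤ)) : K) = ((2 * k + 3 : ℕ) : K) := by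
            push_cast; ring
          rw [e1]
          intro h8
          have h9 := Nat.le_of_dvd (by omega) ((CharP.cast_eq_zero_iff K p (2 * k + 3)).1 h8)
          omega
        have h8 := (mul_eq_zero.1 h6).resolve_left h7
        have e2 : (2 * ((k + 1 : ℕ) : ℤ) + 1) = 2 * (k : ℤ) + 1 + 2 := by push_cast; ring
        rw [e2, h8]
    have hdiff : ∀ m : ℤ, m < p → (σt j₁ g - σt j₂ g).coeff m = 0 := by
      intro m hm
      rw [HahnSeries.coeff_sub, hpair g m]
      rcases lt_or_ge m 0 with h5 | h5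
      · rw [hreg g hgA j₁ m h5]; simp
      · rcases Int.even_or_odd' m with ⟨k, h6 | h6⟩
        · have h7 : Even m.natAbs := by
            rw [Int.natAbs_even]; exact ⟨k, by omega⟩
          rw [h7.neg_one_pow, one_mul, sub_self]
        · obtain ⟨k', rfl⟩ : ∃ k' : ℕ, k = k' := ⟨k.toNat, by omega⟩
          rw [h6, hodd j₁ k' (by omega)]; simp
    have heq := hUNR K F p n E hp hCh hn0 hnp hE0 hA.rank S t htS hb σc
      (fun c hcS => hσc c hcS) σi hσi1 hσi2 σt hσt1 hσt2 g
      (exists_poly hA.one hAadd hAmul hAO g hgA)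
      (fun c hcS i m hm => h1 c hcS (σc c i) ((hσc c hcS).2 i) m hm)
      (fun i m hm => h3 (σi i) (hσi2 i) m hm)
      (fun i m hm => hreg g hgA i m hm) j₁ j₂ hdiff
    intro σ hσ m hm
    obtain ⟨j, rfl⟩ := hTR1 σ hσ
    have h5 : (σt j₁ g).coeff m = 0 := by
      have h6 := hpair g m
      rw [← heq] at h6
      have h7 : Odd m.natAbs := by rw [Int.natAbs_odd]; exact hm
      rw [h7.neg_one_pow] at h6
      have h8 : 2 * (σt j₁ g).coeff m = 0 := by linear_combination h6
      exact (mul_eq_zero.1 h8).resolve_left h2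
    by_cases h6 : j = j₁
    · rw [h6, h5]
    · by_cases h7 : j = j₂
      · rw [h7, ← heq, h5]
      · exact hoth j h6 h7 g m hm
  -- the general statement
  have hgen : ∀ f, InA S a f → (∀ c ∈ S, HolFin E c (Dx f)) → HolInf K E (Dx f) →
      ∃ f₁, InA S a f₁ ∧ Unr t f₁ ∧ Dx f₁ = Dx f := by
    intro f hf h1 h3
    have hit : ∀ k : ℕ, ∃ f', InA S a f' ∧ (∀ c ∈ S, HolFin E c (Dx f')) ∧ HolInf K E (Dx f') ∧
        Dx f' = Dt^[k] (Dx f) := by
      intro k
      induction k with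
      | zero => exact ⟨f, hf, h1, h3, rfl⟩
      | succ k ih =>
        obtain ⟨f', a1, a2, a3, a4⟩ := ih
        obtain ⟨b1, b2, b3⟩ := hstab f' a1 a2 a3
        refine ⟨Dt f', b1, b2, b3, ?_⟩
        rw [hcomm, a4, Function.iterate_succ_apply']
    have hun : ∀ k : ℕ, k ≤ p → Unr t (Dt^[p - k] (Dx f)) := by
      intro k
      induction k with
      | zero =>
        intro _ σ _ m _
        rw [Nat.sub_zero, hDtp p hp hCh hδ (Dx f), map_zero, HahnSeries.coeff_zero]
      | succ k ih =>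
        intro hk
        obtain ⟨f', a1, a2, a3, a4⟩ := hit (p - (k + 1))
        rw [← a4]
        refine hflat f' a1 a2 a3 ?_
        rw [a4, ← Function.iterate_succ_apply' (⇑Dt)]
        have e1 : (p - (k + 1)).succ = p - k := by omega
        rw [e1]
        exact ih (by omega)
    have h5 := hun p le_rfl
    rw [Nat.sub_self] at h5
    exact hTRL K F p n hp hCh hn hnp S t htS a hA σt hσt1 hσt2 Dx hx hc f hf h5
  refine ⟨hgen, fun hmin f' hf' h1' h3' => ?_⟩
  obtain ⟨f, hf, hunr, hff⟩ := hgen f' hf' h1' h3'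
  rw [← hff] at h1' h3' ⊢
  have h1 := h1'
  have h3 := h3'
  clear h1' h3'
  obtain ⟨L, hL⟩ := part_L0 K F h2 t
  have hbot : L = ⊥ := by
    rcases hmin L with h | h
    · exact h
    · exfalso
      apply hj
      apply hσt1
      ext1 f
      have h5 : Unr t f := by rw [← hL, h]; trivial
      ext m
      rw [hpair f m]
      rcases Int.even_or_odd m with h6 | h6
      · have h7 : Even m.natAbs := by rw [Int.natAbs_even]; exact h6
        rw [h7.neg_one_pow, one_mul]
      · rw [h5 (σt j₁) (hσt2 j₁) m h6, mul_zero]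
  have hfL : f ∈ L := (hL f).2 hunr
  rw [hbot, IntermediateField.mem_bot] at hfL
  obtain ⟨r, rfl⟩ := hfL
  have hr : r ∈ OO S := by
    have h5 := hAtr _ hf
    rw [Algebra.trace_algebraMap, hA.rank] at h5
    have h6 := (OO S).mul_mem (C_mem_OO S (n : K)⁻¹) h5
    have h7 : RatFunc.C (n : K)⁻¹ * n • r = r := by
      rw [nsmul_eq_mul, ← mul_assoc, ← map_natCast (RatFunc.C : K →+* RatFunc K) n, ← map_mul,
        inv_mul_cancel₀ hnK, map_one, one_mul]
    rwa [h7] at h6
  obtain ⟨r', hr', hDr⟩ := part_DOO K F S Dx hDx1 hDx2 r hr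
  rw [hDr]
  have h8 := part_RF K S t htS E hE0 (fun c => (σc c i0).comp (algebraMap (RatFunc K) F))
      ((σt i0).comp (algebraMap (RatFunc K) F)) ((σi i0).comp (algebraMap (RatFunc K) F))
      (fun c hcS => ⟨((hσc c hcS).2 i0).1, ((hσc c hcS).2 i0).2⟩)
      ⟨(hσt2 i0).1, (hσt2 i0).2⟩ ⟨(hσi2 i0).1, (hσi2 i0).2⟩ r' hr' 1 one_pos
      (fun c hcS m hm => by
        have := h1 c hcS (σc c i0) ((hσc c hcS).2 i0) m (by push_cast at hm; linarith)
        rw [hDr] at this
        exact this)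
      (fun m hm => by
        have := h3 (σi i0) (hσi2 i0) m (by push_cast at hm; linarith)
        rw [hDr] at this
        exact this)
  rw [h8.2 rfl, map_zero]

theorem strong : S_STRONG.{u, v} :=
  strong_of (part_UNR part_RF part_VDM part_TR)
    (part_TRL part_L0 part_TR part_INT (part_MAX part_TR part_INT)
      (part_EXPO part_UNIQ part_UNIQ part_LD) part_ALG)

end Pool.Agent.N780.SB
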