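import Mathlib
import Pool.Agent.N780.SB.Stm

set_option autoImplicit false

/-!
Part GEN (helper323): an element whose powers have discriminant zero is rational.
-/

namespace Pool.Agent.N780.SB

universe u v w

theorem part_GEN : S_GEN.{u, v} := by
  intro K F _ _ _ _ n hn hr hL g hg
  have hfd : FiniteDimensional (RatFunc K) F := by
    apply Module.finite_of_finrank_pos
    rw [hr]
    exact hn
  rcases hL (IntermediateField.adjoin (RatFunc K) {g}) with h | h
  · have h1 : g ∈ IntermediateField.adjoin (RatFunc K) {g} :=
      IntermediateField.mem_adjoin_simple_self (RatFunc K) g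
    rw [h, IntermediateField.mem_bot] at h1
    obtain ⟨r, hr⟩ := h1
    exact ⟨r, hr.symm⟩
  · exfalso
    have hint : IsIntegral (RatFunc K) g := Algebra.IsIntegral.isIntegral g
    have hdeg : (minpoly (RatFunc K) g).natDegree = n := by
      rw [← IntermediateField.adjoin.finrank hint, h, IntermediateField.finrank_top', hr]
    have hli : LinearIndependent (RatFunc K) (fun i : Fin n => g ^ (i : ℕ)) := by
      have := linearIndependent_pow (K := RatFunc K) g
      rwa [hdeg] at this
    have hne : Nonempty (Fin n) := ⟨⟨0, hn⟩⟩
    let b := basisOfLinearIndependentOfCardEqFinrank hli (by rw [Fintype.card_fin, hr])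
    have hb := Algebra.discr_not_zero_of_basis (RatFunc K) b
    apply hb
    rw [coe_basisOfLinearIndependentOfCardEqFinrank]
    exact hg

end Pool.Agent.N780.SB
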