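import Mathlib
import Pool.Agent.N780.SB.Defs

set_option autoImplicit false

/-!
Statement of a part: the condition to be holomorphic does not depend on the exponent.
-/

namespace Pool.Agent.N780.SB

universe u v w

/-- Part HOL: the condition to be holomorphic does not depend on the exponent. -/
def S_HOL : Prop := ∀ (K : Type u) (F : Type v) [Field K] [Field F] [Algebra (RatFunc K) F]
  [Algebra.IsSeparable (RatFunc K) F] (n : ℕ) (_ : 0 < n) (_ : Module.finrank (RatFunc K) F = n)
  (E E' : ℕ) (_ : 0 < E) (_ : 0 < E') (c : K) (g : F),
  (Splits F n (atFin E c) → HolFin E c g → HolFin E' c g) ∧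
  (Splits F n (atInf K E) → HolInf K E g → HolInf K E' g)

end Pool.Agent.N780.SB
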