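import Mathlib
import Pool.Agent.N780.SB.Stm
import Pool.Agent.N780.SB.Stm2
import Pool.Agent.N780.SB.Stm3

set_option autoImplicit false

/-!
# SB/HOL (helper624): the condition to be holomorphic does not depend on the exponent
-/

namespace Pool.Agent.N780.SB

universe u v w

open HahnSeries

namespace HOLaux

variable {K : Type u} [Field K]

lemma pw_single {N : ℕ} (hN : 0 < N) {ρ : LaurentSeries K →+* LaurentSeries K} (hρ : IsPw N ρ)
    (k : ℤ) (a : K) : ρ (single k a) = single ((N : ℤ) * k) a := by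
  have hN' : (N : ℤ) ≠ 0 := by exact_mod_cast hN.ne'
  ext m
  by_cases h : (N : ℤ) ∣ m
  · obtain ⟨l, rfl⟩ := h
    rw [(hρ _).1 l, coeff_single, coeff_single]
    by_cases hl : l = k
    · subst hl
      simp
    · rw [if_neg hl, if_neg]
      intro h2
      exact hl (mul_left_cancel₀ hN' h2)
  · rw [(hρ _).2 m h, coeff_single, if_neg]
    rintro rfl
    exact h ⟨k, rfl⟩

lemma pw_C {N : ℕ} (hN : 0 < N) {ρ : LaurentSeries K →+* LaurentSeries K} (hρ : IsPw N ρ)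
    (a : K) : ρ (HahnSeries.C a) = HahnSeries.C a := by
  rw [HahnSeries.C_apply, pw_single hN hρ, mul_zero]

lemma pw_atFin {N : ℕ} (hN : 0 < N) {ρ : LaurentSeries K →+* LaurentSeries K} (hρ : IsPw N ρ)
    (E : ℕ) (t : K) : ρ (atFin E t) = atFin (N * E) t := by
  unfold atFin
  rw [map_add, pw_C hN hρ, pw_single hN hρ]
  push_cast
  rfl

lemma pw_atInf {N : ℕ} (hN : 0 < N) {ρ : LaurentSeries K →+* LaurentSeries K} (hρ : IsPw N ρ)
    (E : ℕ) : ρ (atInf K E) = atInf K (N * E) := by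
  unfold atInf
  rw [pw_single hN hρ]
  push_cast
  rw [mul_neg]

/-- an expansion of exponent `E'` and the expansions of exponent `E` -/
lemma compare (hPW : S_PW.{u}) (hTR : S_TR.{u, v}) {F : Type v} [Field F] [Algebra (RatFunc K) F]
    [Algebra.IsSeparable (RatFunc K) F] (n : ℕ) (hn : 0 < n)
    (hrank : Module.finrank (RatFunc K) F = n) (E E' : ℕ) (hE : 0 < E) (hE' : 0 < E')
    (ξ ξ' ω : LaurentSeries K)
    (h1 : ∀ ρ : LaurentSeries K →+* LaurentSeries K, IsPw E' ρ → ρ ξ = ω)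
    (h2 : ∀ ρ : LaurentSeries K →+* LaurentSeries K, IsPw E ρ → ρ ξ' = ω)
    (hsp : Splits F n ξ) (σ' : F →+* LaurentSeries K) (hσ' : IsExp ξ' σ') :
    ∃ σ : F →+* LaurentSeries K, IsExp ξ σ ∧ ∀ (g : F) (m : ℤ), (σ' g).coeff m ≠ 0 →
      ∃ k : ℤ, (E : ℤ) * m = (E' : ℤ) * k ∧ (σ g).coeff k ≠ 0 := by
  obtain ⟨σ, hσ, hexp⟩ := hsp
  obtain ⟨ρ, hρ⟩ := hPW K E hE
  obtain ⟨ρ', hρ'⟩ := hPW K E' hE'
  obtain ⟨hall, -, -⟩ := hTR K F n hn hrank ω (fun i => ρ'.comp (σ i)) (by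
    intro i j hij
    apply hσ
    ext1 f
    apply ρ'.injective
    exact congrArg (fun s : F →+* LaurentSeries K => s f) hij) (fun i => by
    refine ⟨?_, fun c => ?_⟩
    · rw [RingHom.comp_apply, (hexp i).1, h1 ρ' hρ']
    · rw [RingHom.comp_apply, (hexp i).2, pw_C hE' hρ'])
  obtain ⟨i, hi⟩ := hall (ρ.comp σ') (by
    refine ⟨?_, fun c => ?_⟩
    · rw [RingHom.comp_apply, hσ'.1, h2 ρ hρ]
    · rw [RingHom.comp_apply, hσ'.2, pw_C hE hρ])
  refine ⟨σ i, hexp i, fun g m hm => ?_⟩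
  have h3 : ρ (σ' g) = ρ' (σ i g) := congrArg (fun s : F →+* LaurentSeries K => s g) hi
  have h4 := (hρ (σ' g)).1 m
  rw [h3] at h4
  by_cases hd : (E' : ℤ) ∣ (E : ℤ) * m
  · obtain ⟨k, hk⟩ := hd
    refine ⟨k, hk, ?_⟩
    rw [hk, (hρ' (σ i g)).1 k] at h4
    rw [h4]
    exact hm
  · rw [(hρ' (σ i g)).2 _ hd] at h4
    exact absurd h4.symm hm

end HOLaux

open HOLaux in
theorem part_HOL (hPW : S_PW.{u}) (hTR : S_TR.{u, v}) : S_HOL.{u, v} := by
  intro K F _ _ _ _ n hn hrank E E' hE hE' c g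
  have hEz : (0 : ℤ) < E := by exact_mod_cast hE
  have hEz' : (0 : ℤ) < E' := by exact_mod_cast hE'
  refine ⟨fun hsp hh σ' hσ' m hm => ?_, fun hsp hh σ' hσ' m hm => ?_⟩
  · by_contra hne
    obtain ⟨σ, hσ, hc⟩ := compare hPW hTR n hn hrank E E' hE hE' (atFin E c) (atFin E' c)
      (atFin (E' * E) c) (fun ρ hρ => pw_atFin hE' hρ E c)
      (fun ρ hρ => by rw [pw_atFin hE hρ E' c, mul_comm]) hsp σ' hσ'
    obtain ⟨k, hk, hk0⟩ := hc g m hne
    have h1 : 1 - (E : ℤ) ≤ k := by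
      by_contra hcon
      push Not at hcon
      exact hk0 (hh σ hσ k hcon)
    have h2 : (E' : ℤ) * (1 - E) ≤ (E' : ℤ) * k := mul_le_mul_of_nonneg_left h1 hEz'.le
    rw [← hk] at h2
    have h3 : m + E' ≤ 0 := by omega
    nlinarith
  · by_contra hne
    obtain ⟨σ, hσ, hc⟩ := compare hPW hTR n hn hrank E E' hE hE' (atInf K E) (atInf K E')
      (atInf K (E' * E)) (fun ρ hρ => pw_atInf hE' hρ E)
      (fun ρ hρ => by rw [pw_atInf hE hρ E', mul_comm]) hsp σ' hσ'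
    obtain ⟨k, hk, hk0⟩ := hc g m hne
    have h1 : (E : ℤ) + 1 ≤ k := by
      by_contra hcon
      push Not at hcon
      exact hk0 (hh σ hσ k hcon)
    have h2 : (E' : ℤ) * (E + 1) ≤ (E' : ℤ) * k := mul_le_mul_of_nonneg_left h1 hEz'.le
    rw [← hk] at h2
    have h3 : m ≤ E' := by omega
    nlinarith

end Pool.Agent.N780.SB
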