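import Mathlib
import Pool.Agent.N780.SB.Zero

set_option autoImplicit false

/-!
The Kodaira-Spencer map of a covering with a moving simple branch point has rank at most one.
-/

namespace Pool.Agent.N780.SB

universe u v

/-- Part KS: for two holomorphic forms there is a nontrivial combination of their derivatives which is
the sum of a holomorphic form and an exact form. -/
theorem part_KS (hCONST : S_CONST.{u, v}) (hPUI : S_PUIZ.{u, v}) (hTT : S_TTZ.{u, v})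
    (K : Type u) (F : Type v) [Field K] [IsAlgClosed K] [CharZero K] [Field F]
    [Algebra (RatFunc K) F] (n : ℕ) (hn : 0 < n) (δ : Derivation ℤ K K) (t : K) (ht : δ t = 1)
    (S : Finset K) (hS : ∀ c ∈ S, δ c = 0) (a : Fin n → F) (hA : IsAffineCurve S t a)
    (D T : Derivation ℤ F F) (hD1 : D (xF K F) = 1) (hD2 : ∀ b : K, D (cF F b) = 0)
    (hT1 : T (xF K F) = 0) (hT2 : ∀ b : K, T (cF F b) = cF F (δ b))
    (g₁ g₂ : F) (h₁ : IsHol S t a g₁) (h₂ : IsHol S t a g₂) :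
    ∃ b₁ b₂ : K, (b₁ ≠ 0 ∨ b₂ ≠ 0) ∧
      ∃ g, IsHol S t a g ∧ IsExact S t a D (cF F b₁ * T g₁ + cF F b₂ * T g₂ - g) := by
  obtain ⟨σt, j₁, j₂, hσ, hall, hj, hinj, hpair, hoth, hTc, hEX, hDER, hPAIR, hRAT, hadd, hsm,
    hsep⟩ := facts hCONST hPUI hTT K F n hn δ t ht S hS a hA D T hD1 hD2 hT1 hT2
  have hHadd : ∀ g g', IsHol S t a g → IsHol S t a g' → IsHol S t a (g + g') := by
    rintro g g' ⟨a1, a2, a3⟩ ⟨b1, b2, b3⟩
    refine ⟨hadd _ _ a1 b1, ?_, fun E hE => ⟨?_, ?_⟩⟩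
    · intro σ hσ' m hm
      rw [map_add, HahnSeries.coeff_add, a2 σ hσ' m hm, b2 σ hσ' m hm, add_zero]
    · intro c hc σ hσ' m hm
      rw [map_add, HahnSeries.coeff_add, (a3 E hE).1 c hc σ hσ' m hm,
        (b3 E hE).1 c hc σ hσ' m hm, add_zero]
    · intro σ hσ' m hm
      rw [map_add, HahnSeries.coeff_add, (a3 E hE).2 σ hσ' m hm, (b3 E hE).2 σ hσ' m hm, add_zero]
  have hHsm : ∀ (b : K) g, IsHol S t a g → IsHol S t a (cF F b * g) := by
    rintro b g ⟨a1, a2, a3⟩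
    have key : ∀ (ξ : LaurentSeries K) (σ : F →+* LaurentSeries K), IsExp ξ σ → ∀ m : ℤ,
        (σ g).coeff m = 0 → (σ (cF F b * g)).coeff m = 0 := by
      intro ξ σ hσ' m hm
      rw [map_mul, hσ'.2 b, HahnSeries.C_mul_eq_smul, HahnSeries.coeff_smul, hm, smul_zero]
    refine ⟨hsm _ _ a1, ?_, fun E hE => ⟨?_, ?_⟩⟩
    · intro σ hσ' m hm
      exact key _ σ hσ' m (a2 σ hσ' m hm)
    · intro c hc σ hσ' m hm
      exact key _ σ hσ' m ((a3 E hE).1 c hc σ hσ' m hm)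
    · intro σ hσ' m hm
      exact key _ σ hσ' m ((a3 E hE).2 σ hσ' m hm)
  have hzero : IsExact S t a D 0 := ⟨0, ⟨0, by
    rw [mul_zero]
    exact ⟨fun _ => 0, fun _ => (OO S).zero_mem, by simp⟩⟩, by rw [map_zero]⟩
  by_cases h0 : (σt j₁ g₁).coeff (-1) = 0
  · refine ⟨1, 0, Or.inl one_ne_zero, T g₁, hDER g₁ h₁ h0, ?_⟩
    have e1 : cF F (1 : K) * T g₁ + cF F (0 : K) * T g₂ - T g₁ = 0 := by
      unfold cF
      rw [map_one, map_one, map_zero, map_zero]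
      ring
    rw [e1]
    exact hzero
  · set c₁ : K := (σt j₁ g₁).coeff (-1) with hc₁
    set c₂ : K := (σt j₁ g₂).coeff (-1) with hc₂
    have hw : IsHol S t a (cF F c₂ * g₁ + cF F (-c₁) * g₂) :=
      hHadd _ _ (hHsm c₂ g₁ h₁) (hHsm (-c₁) g₂ h₂)
    have hw0 : (σt j₁ (cF F c₂ * g₁ + cF F (-c₁) * g₂)).coeff (-1) = 0 := by
      rw [map_add, map_mul, map_mul, (hσ j₁).2, (hσ j₁).2, HahnSeries.coeff_add,
        HahnSeries.C_mul_eq_smul, HahnSeries.C_mul_eq_smul, HahnSeries.coeff_smul,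
        HahnSeries.coeff_smul, smul_eq_mul, smul_eq_mul, ← hc₁, ← hc₂]
      ring
    refine ⟨c₂, -c₁, Or.inr (neg_ne_zero.2 h0),
      T (cF F c₂ * g₁ + cF F (-c₁) * g₂) + (cF F (-δ c₂) * g₁ + cF F (δ c₁) * g₂),
      hHadd _ _ (hDER _ hw hw0) (hHadd _ _ (hHsm _ _ h₁) (hHsm _ _ h₂)), ?_⟩
    have e1 : cF F c₂ * T g₁ + cF F (-c₁) * T g₂ -
        (T (cF F c₂ * g₁ + cF F (-c₁) * g₂) + (cF F (-δ c₂) * g₁ + cF F (δ c₁) * g₂)) = 0 := by
      rw [map_add, Derivation.leibniz, Derivation.leibniz, hT2, hT2]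
      simp only [smul_eq_mul]
      unfold cF
      simp only [map_neg]
      ring
    rw [e1]
    exact hzero

/-- Part F0: the functions whose expansions at `t` are series in `x - t` form an intermediate field,
which is not `F`. -/
theorem part_F0 (hCONST : S_CONST.{u, v}) (hPUI : S_PUIZ.{u, v}) (hTT : S_TTZ.{u, v})
    (K : Type u) (F : Type v) [Field K] [IsAlgClosed K] [CharZero K] [Field F]
    [Algebra (RatFunc K) F] (n : ℕ) (hn : 0 < n) (δ : Derivation ℤ K K) (t : K) (ht : δ t = 1)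
    (S : Finset K) (hS : ∀ c ∈ S, δ c = 0) (a : Fin n → F) (hA : IsAffineCurve S t a)
    (D T : Derivation ℤ F F) (hD1 : D (xF K F) = 1) (hD2 : ∀ b : K, D (cF F b) = 0)
    (hT1 : T (xF K F) = 0) (hT2 : ∀ b : K, T (cF F b) = cF F (δ b)) :
    ∃ L : IntermediateField (RatFunc K) F, L ≠ ⊤ ∧ ∀ f, f ∈ L ↔ Unr t f := by
  obtain ⟨σt, j₁, j₂, hσ, hall, hj, hinj, hpair, -⟩ :=
    facts hCONST hPUI hTT K F n hn δ t ht S hS a hA D T hD1 hD2 hT1 hT2
  obtain ⟨L, hL⟩ := part_L0 K F two_ne_zero t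
  refine ⟨L, fun h => ?_, hL⟩
  apply hj
  apply hinj
  ext1 f
  have h5 : Unr t f := by rw [← hL, h]; trivial
  ext m
  rw [hpair f m]
  rcases Int.even_or_odd m with h6 | h6
  · have h7 : Even m.natAbs := by rw [Int.natAbs_even]; exact h6
    rw [h7.neg_one_pow, one_mul]
  · rw [h5 (σt j₁) (hσ j₁) m h6, mul_zero]

end Pool.Agent.N780.SB
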