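import Pool.Agent.N780.SB.Stm7

set_option autoImplicit false

/-!
Part LOGD (helper933): if the logarithmic derivative of `h` is in the subfield `L`, then a power of
`h` is in `L`.
-/

namespace Pool.Agent.N780.SB

universe u v w

theorem part_LOGD : S_LOGD.{u, v} := by
  intro k F _ _ _ _ L D hL hker h w hw hDh
  rcases eq_or_ne h 0 with rfl | h0
  · rw [zero_pow Module.finrank_pos.ne']
    exact L.zero_mem
  have hint : IsIntegral L h := Algebra.IsIntegral.isIntegral h
  have hd0 : 0 < (minpoly L h).natDegree := minpoly.natDegree_pos hint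
  have hmonic : (minpoly L h).Monic := minpoly.monic hint
  have hDpow : ∀ j : ℕ, D (h ^ j) = (j : F) * w * h ^ j := by
    intro j
    induction j with
    | zero => simp
    | succ j ih =>
      rw [pow_succ, D.leibniz, ih, hDh, smul_eq_mul, smul_eq_mul]
      push_cast
      ring
  have hsum : ∑ j ∈ Finset.range ((minpoly L h).natDegree + 1),
      (((minpoly L h).coeff j : L) : F) * h ^ j = 0 := by
    have h1 := minpoly.aeval L h
    rw [Polynomial.aeval_eq_sum_range] at h1
    rw [← h1]
    refine Finset.sum_congr rfl fun j _ => ?_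
    rw [Algebra.smul_def]
    rfl
  have hD : ∑ j ∈ Finset.range ((minpoly L h).natDegree + 1),
      (D (((minpoly L h).coeff j : L) : F) + j * w * (((minpoly L h).coeff j : L) : F)) * h ^ j
        = 0 := by
    have h1 := congrArg D hsum
    rw [map_sum, map_zero] at h1
    rw [← h1]
    refine Finset.sum_congr rfl fun j _ => ?_
    rw [D.leibniz, hDpow, smul_eq_mul, smul_eq_mul]
    ring
  have hdiff : ∑ j ∈ Finset.range ((minpoly L h).natDegree + 1),
      (D (((minpoly L h).coeff j : L) : F) -
        (((minpoly L h).natDegree : F) - j) * w * (((minpoly L h).coeff j : L) : F)) * h ^ j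
        = 0 := by
    have h1 : ∑ j ∈ Finset.range ((minpoly L h).natDegree + 1),
      (D (((minpoly L h).coeff j : L) : F) -
        (((minpoly L h).natDegree : F) - j) * w * (((minpoly L h).coeff j : L) : F)) * h ^ j =
      (∑ j ∈ Finset.range ((minpoly L h).natDegree + 1),
      (D (((minpoly L h).coeff j : L) : F) + j * w * (((minpoly L h).coeff j : L) : F)) * h ^ j) -
      ((minpoly L h).natDegree : F) * w * ∑ j ∈ Finset.range ((minpoly L h).natDegree + 1),
      (((minpoly L h).coeff j : L) : F) * h ^ j := by
      rw [Finset.mul_sum, ← Finset.sum_sub_distrib]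
      refine Finset.sum_congr rfl fun j _ => ?_
      ring
    rw [h1, hD, hsum, mul_zero, sub_zero]
  rw [Finset.sum_range_succ] at hdiff
  have hlast : (((minpoly L h).coeff (minpoly L h).natDegree : L) : F) = 1 := by
    rw [hmonic.coeff_natDegree]
    rfl
  rw [hlast, D.map_one_eq_zero, sub_self, zero_mul, zero_mul, sub_zero, zero_mul, add_zero,
    Finset.sum_range] at hdiff
  have hmem : ∀ j : ℕ, D (((minpoly L h).coeff j : L) : F) -
        (((minpoly L h).natDegree : F) - j) * w * (((minpoly L h).coeff j : L) : F) ∈ L := by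
    intro j
    refine L.sub_mem (hL _ ((minpoly L h).coeff j).2) (L.mul_mem (L.mul_mem (L.sub_mem ?_ ?_) hw)
      ((minpoly L h).coeff j).2)
    · exact natCast_mem L _
    · exact natCast_mem L _
  have hlin := Fintype.linearIndependent_iff.1 (linearIndependent_pow (K := L) h)
    (fun j => ⟨_, hmem j⟩) (by
      rw [← hdiff]
      refine Finset.sum_congr rfl fun j _ => ?_
      rw [Algebra.smul_def]
      rfl) ⟨0, hd0⟩
  have h2 : D (((minpoly L h).coeff 0 : L) : F) =
      ((minpoly L h).natDegree : F) * w * (((minpoly L h).coeff 0 : L) : F) := by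
    have h3 := congrArg (fun x : L => (x : F)) hlin
    have h4 : D (((minpoly L h).coeff 0 : L) : F) -
        (((minpoly L h).natDegree : F) - ((0 : ℕ) : F)) * w * (((minpoly L h).coeff 0 : L) : F)
        = 0 := h3
    rw [Nat.cast_zero, sub_zero] at h4
    exact sub_eq_zero.1 h4
  have hc0 : (((minpoly L h).coeff 0 : L) : F) ≠ 0 := by
    intro h5
    exact minpoly.coeff_zero_ne_zero hint h0 (Subtype.ext h5)
  -- `h ^ d / c₀` is a constant
  have hconst : D (h ^ (minpoly L h).natDegree * (((minpoly L h).coeff 0 : L) : F)⁻¹) = 0 := by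
    have h6 : D ((((minpoly L h).coeff 0 : L) : F)⁻¹) =
        -(((minpoly L h).natDegree : F) * w * (((minpoly L h).coeff 0 : L) : F)⁻¹) := by
      have h7 : D ((((minpoly L h).coeff 0 : L) : F) * (((minpoly L h).coeff 0 : L) : F)⁻¹) = 0 := by
        rw [mul_inv_cancel₀ hc0, D.map_one_eq_zero]
      rw [D.leibniz, h2, smul_eq_mul, smul_eq_mul] at h7
      have h8 : (((minpoly L h).coeff 0 : L) : F) * D ((((minpoly L h).coeff 0 : L) : F)⁻¹) =
          (((minpoly L h).coeff 0 : L) : F) *
            (-(((minpoly L h).natDegree : F) * w * (((minpoly L h).coeff 0 : L) : F)⁻¹)) := by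
        linear_combination h7
      exact mul_left_cancel₀ hc0 h8
    rw [D.leibniz, hDpow, h6, smul_eq_mul, smul_eq_mul]
    ring
  have h9 : h ^ (minpoly L h).natDegree ∈ L := by
    have h10 := L.mul_mem (hker _ hconst) ((minpoly L h).coeff 0).2
    rwa [mul_assoc, inv_mul_cancel₀ hc0, mul_one] at h10
  have h11 : (minpoly L h).natDegree ∣ Module.finrank k F := by
    refine (minpoly.degree_dvd hint).trans ?_
    rw [← Module.finrank_mul_finrank k L F]
    exact dvd_mul_left _ _
  obtain ⟨m, hm⟩ := h11
  rw [hm, pow_mul]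
  exact pow_mem h9 m

end Pool.Agent.N780.SB
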