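import Pool.Agent.N780.SB.Stm2
import Pool.Agent.Helper165.P1.NP

/-!
# Part PU1: the theorem of Puiseux over a separably closed field, degree below the characteristic

The proof adapts `Pool.Agent.Helper165.P1.NP` (algebraically closed fields of characteristic 0).
-/

set_option autoImplicit false

namespace Pool.Agent.N780.SB

open Polynomial Pool.Agent.Helper165.P1.NP

namespace PU1

universe u

variable {E : Type u} [Field E]

theorem cast_ne (p : ℕ) [CharP E p] (n : ℕ) (h0 : 0 < n) (h1 : n < p) : (n : E) ≠ 0 := by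
  rw [Ne, CharP.cast_eq_zero_iff E p]
  intro h
  exact absurd (Nat.le_of_dvd h0 h) (by omega)

/-- a polynomial of degree below the characteristic has a root -/
theorem exists_root_of_lt [IsSepClosed E] (p : ℕ) [CharP E p] (q : E[X]) (h0 : 0 < q.natDegree)
    (h1 : q.natDegree < p) : ∃ x, q.IsRoot x := by
  have hq0 : q ≠ 0 := by
    rintro rfl
    simp at h0
  obtain ⟨g, hg, hgq⟩ := exists_irreducible_of_natDegree_pos h0
  have hgd : g.natDegree ≤ q.natDegree := natDegree_le_of_dvd hgq hq0
  have hgp : 0 < g.natDegree := hg.natDegree_pos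
  have hsep : g.Separable := by
    rw [separable_iff_derivative_ne_zero hg]
    intro h
    have h2 : (derivative g).coeff (g.natDegree - 1) = 0 := by rw [h]; simp
    rw [coeff_derivative, Nat.sub_add_cancel hgp] at h2
    have h3 : ((g.natDegree - 1 : ℕ) : E) + 1 = (g.natDegree : E) := by
      have : ((g.natDegree - 1 + 1 : ℕ) : E) = (g.natDegree : E) := by
        rw [Nat.sub_add_cancel hgp]
      rw [← this]; push_cast; ring
    rw [h3] at h2
    rcases mul_eq_zero.1 h2 with h4 | h4
    · exact (leadingCoeff_ne_zero.2 hg.ne_zero) h4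
    · exact cast_ne p g.natDegree hgp (by omega) h4
  obtain ⟨x, hx⟩ := IsSepClosed.exists_root g (by
    intro h
    rw [degree_eq_natDegree hg.ne_zero] at h
    have : g.natDegree = 0 := by exact_mod_cast h
    omega) hsep
  exact ⟨x, hx.dvd hgq⟩

theorem NP_root [IsSepClosed E] (p : ℕ) (pp : p.Prime) [CharP E p] (n : ℕ) :
    ∀ P0 : (LS E)[X], P0.Monic → P0.natDegree = n → 0 < n → n < p →
    ∃ (m : ℕ) (hm : 0 < m) (x : (LS E)), ¬ p ∣ m ∧ (P0.map (expandHom m hm)).eval x = 0 := by
  induction n using Nat.strong_induction_on with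
  | _ n ih =>
  intro P0 hp hdeg hn hnp
  have hnE : (n : E) ≠ 0 := cast_ne p n hn hnp
  rcases Nat.lt_or_ge n 2 with h2 | h2
  · -- degree one
    have hn1 : n = 1 := by omega
    subst hn1
    refine ⟨1, one_pos, -(expandHom 1 one_pos (P0.coeff 0)), pp.not_dvd_one, ?_⟩
    have hp' : P0 = X + C (P0.coeff 0) := by
      have := Polynomial.eq_X_add_C_of_natDegree_le_one (p := P0) (by omega)
      have h1 : P0.coeff 1 = 1 := by rw [← hdeg]; exact hp
      rw [h1, map_one, one_mul] at this
      exact this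
    rw [hp']
    simp
  -- shift
  set a : (LS E) := -(P0.coeff (n - 1)) / (n : (LS E)) with ha
  set p1 : (LS E)[X] := taylor a P0 with hp1
  have hnK : (n : (LS E)) ≠ 0 := by
    have h : (HahnSeries.C (n : E) : LS E) = (n : LS E) := map_natCast _ n
    rw [← h]
    intro h'
    exact hnE (HahnSeries.C_injective (h'.trans (map_zero HahnSeries.C).symm))
  have hp1m : p1.Monic := by
    rw [hp1]; exact taylor_monic' P0 hp a
  have hp1d : p1.natDegree = n := by rw [hp1, natDegree_taylor, hdeg]
  have hp1c : p1.coeff (n - 1) = 0 := by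
    rw [hp1, coeff_taylor_sub_one P0 n (by omega) hp hdeg, ha]
    field_simp
    ring
  suffices hsuff : ∃ (m : ℕ) (hm : 0 < m) (x : (LS E)), ¬ p ∣ m ∧
      (p1.map (expandHom m hm)).eval x = 0 by
    obtain ⟨m, hm, x, hpm, hx⟩ := hsuff
    refine ⟨m, hm, x + expandHom m hm a, hpm, ?_⟩
    rw [hp1, Polynomial.map_taylor, taylor_eval] at hx
    exact hx
  clear_value p1
  clear hp1 ha
  by_cases hzero : ∀ i < n, p1.coeff i = 0
  · refine ⟨1, one_pos, 0, pp.not_dvd_one, ?_⟩
    have : p1 = X ^ n := by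
      apply Polynomial.ext
      intro i
      rw [coeff_X_pow]
      split_ifs with h
      · rw [h, ← hp1d]; exact hp1m
      · rcases lt_or_gt_of_ne h with h' | h'
        · exact hzero i h'
        · exact coeff_eq_zero_of_natDegree_lt (by omega)
    rw [this]
    simp
    omega
  push Not at hzero
  obtain ⟨j0, hj0n, hj0⟩ := hzero
  -- minimal slope
  classical
  set S : Finset ℕ := (Finset.range n).filter (fun i => p1.coeff i ≠ 0) with hS
  have hSne : S.Nonempty := ⟨j0, by simp [hS, hj0n, hj0]⟩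
  obtain ⟨i0, hi0S, hi0min⟩ := Finset.exists_min_image S
    (fun i => ((p1.coeff i).order : ℚ) / ((n - i : ℕ) : ℚ)) hSne
  have hi0 : i0 < n ∧ p1.coeff i0 ≠ 0 := by simpa [hS] using hi0S
  obtain ⟨hi0n, hi0c⟩ := hi0
  set m : ℕ := n - i0 with hm
  have hmpos : 0 < m := by omega
  set R : ℤ := (p1.coeff i0).order with hR
  have hslope : ∀ i < n, p1.coeff i ≠ 0 →
      ((n - i : ℕ) : ℤ) * R ≤ (m : ℤ) * (p1.coeff i).order := by
    intro i hi hci
    have hiS : i ∈ S := by simp [hS, hi, hci]
    have h := hi0min i hiS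
    have h1 : (0 : ℚ) < ((n - i0 : ℕ) : ℚ) := by exact_mod_cast hmpos
    have h2 : (0 : ℚ) < ((n - i : ℕ) : ℚ) := by
      have : 0 < n - i := by omega
      exact_mod_cast this
    rw [div_le_div_iff₀ h1 h2] at h
    have h3 : ((p1.coeff i0).order * ((n - i : ℕ) : ℤ) : ℤ) ≤
      (p1.coeff i).order * ((n - i0 : ℕ) : ℤ) := by exact_mod_cast h
    rw [hR, hm]
    linarith
  set φ := expandHom (E := E) m hmpos with hφ
  set u : (LS E) := HahnSeries.single (-R) 1 with hu
  set p2 : (LS E)[X] := (p1.map φ).scaleRoots u with hp2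
  have hp1φm : (p1.map φ).Monic := hp1m.map φ
  have hp1φd : (p1.map φ).natDegree = n := by rw [hp1m.natDegree_map, hp1d]
  have hp2m : p2.Monic := by
    rw [hp2]; exact (monic_scaleRoots_iff u).2 hp1φm
  have hp2d : p2.natDegree = n := by rw [hp2, natDegree_scaleRoots, hp1φd]
  have hp2c : ∀ i, p2.coeff i = φ (p1.coeff i) * u ^ (n - i) := by
    intro i
    rw [hp2, coeff_scaleRoots, hp1φd, coeff_map]
  have hupow : ∀ k : ℕ, u ^ k = HahnSeries.single (-(k : ℤ) * R) 1 := by
    intro k
    rw [hu, HahnSeries.single_pow]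
    simp
  have hcoef : ∀ i : ℕ, ∀ j : ℤ, (p2.coeff i).coeff j
      = (φ (p1.coeff i)).coeff (j + ((n - i : ℕ) : ℤ) * R) := by
    intro i j
    rw [hp2c, hupow]
    have : j = (j + ((n - i : ℕ) : ℤ) * R) + (-((n - i : ℕ) : ℤ) * R) := by ring
    conv_lhs => rw [this]
    rw [HahnSeries.coeff_mul_single_add, mul_one]
  have hrange : ∀ i, ∃ a : PowerSeries E, HahnSeries.ofPowerSeries ℤ E a = p2.coeff i := by
    intro i
    apply mem_range_ofPowerSeries
    intro j hj
    rcases lt_trichotomy i n with h | h | h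
    · by_cases hc : p1.coeff i = 0
      · rw [hp2c, hc]; simp
      · rw [hcoef]
        apply expandHom_order
        have := hslope i h hc
        linarith
    · rw [h, ← hp2d, hp2m.coeff_natDegree]
      rw [HahnSeries.coeff_one]
      rw [if_neg (by omega)]
    · rw [coeff_eq_zero_of_natDegree_lt (by omega)]; simp
  have hlift : p2 ∈ Polynomial.lifts (HahnSeries.ofPowerSeries ℤ E) := by
    rw [Polynomial.lifts_iff_coeff_lifts]
    intro i
    obtain ⟨a, ha⟩ := hrange i
    exact ⟨a, ha⟩
  obtain ⟨q, hqmap, hqd, hqm⟩ := Polynomial.lifts_and_natDegree_eq_and_monic hlift hp2m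
  rw [hp2d] at hqd
  have hqcoef : ∀ i, PowerSeries.constantCoeff (R := E) (q.coeff i) = (p2.coeff i).coeff 0 := by
    intro i
    rw [← hqmap, coeff_map]
    have := HahnSeries.ofPowerSeries_apply_coeff (Γ := ℤ) (R := E) (q.coeff i) 0
    rw [Nat.cast_zero] at this
    rw [this, PowerSeries.coeff_zero_eq_constantCoeff]
  set qb : E[X] := q.map (PowerSeries.constantCoeff (R := E)) with hqb
  have hqbm : qb.Monic := hqm.map _
  have hqbd : qb.natDegree = n := by rw [hqb, hqm.natDegree_map, hqd]
  have hqbn1 : qb.coeff (n - 1) = 0 := by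
    rw [hqb, coeff_map, hqcoef, hp2c, hp1c]; simp
  have hqbi0 : qb.coeff i0 ≠ 0 := by
    rw [hqb, coeff_map, hqcoef, hcoef]
    rw [zero_add, ← hm, hφ, expandHom_coeff, hR]
    rw [Ne, HahnSeries.coeff_order_eq_zero]
    exact hi0c
  obtain ⟨c, hc⟩ := exists_root_of_lt p qb (by omega) (by omega)
  set e := rootMultiplicity c qb with he
  have hepos : 0 < e := (rootMultiplicity_pos hqbm.ne_zero).2 hc
  have hele : e < n := by
    by_contra hcon
    push Not at hcon
    have hdvd : (X - C c) ^ n ∣ qb :=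
      (pow_dvd_pow _ hcon).trans (pow_rootMultiplicity_dvd qb c)
    have hmon : ((X - C c) ^ n : E[X]).Monic := (monic_X_sub_C c).pow n
    have heq : qb = (X - C c) ^ n := by
      symm
      apply Polynomial.eq_of_monic_of_associated hmon hqbm
      apply associated_of_dvd_dvd hdvd
      obtain ⟨r, hr⟩ := hdvd
      have hrd : r.natDegree = 0 := by
        have h1 := hqbd
        have hrm : r.Monic := by
          rw [hr] at hqbm
          exact hmon.of_mul_monic_left hqbm
        rw [hr, hmon.natDegree_mul hrm, (monic_X_sub_C c).natDegree_pow,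
          natDegree_X_sub_C] at h1
        omega
      have hrm : r.Monic := by
        rw [hr] at hqbm
        exact hmon.of_mul_monic_left hqbm
      have : r = 1 := by
        exact (hrm.natDegree_eq_zero).1 hrd
      rw [hr, this, mul_one]
    have h1 : qb.coeff (n - 1) = -(n * c) := by
      rw [heq]
      have := coeff_taylor_sub_one (X ^ n : E[X]) n (by omega) (monic_X_pow n)
        (natDegree_X_pow n) (-c)
      have h3 : (X - C c : E[X]) ^ n = taylor (-c) (X ^ n) := by
        rw [taylor_apply, X_pow_comp, map_neg, sub_eq_add_neg]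
      rw [h3, this, coeff_X_pow, if_neg (by omega)]
      ring
    rw [hqbn1] at h1
    have hc0 : c = 0 := by
      have hn0 : (n : E) ≠ 0 := hnE
      have : (n : E) * c = 0 := by linear_combination h1
      exact (mul_eq_zero.1 this).resolve_left hn0
    rw [hc0, map_zero, sub_zero] at heq
    apply hqbi0
    rw [heq, coeff_X_pow, if_neg (by omega)]
  -- shift and factor
  set qc : (PowerSeries E)[X] := taylor (PowerSeries.C c) q with hqc
  have hqcmap : qc.map (PowerSeries.constantCoeff (R := E)) = taylor c qb := by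
    rw [hqc, Polynomial.map_taylor]
    simp [hqb]
  have hcomp : taylor c qb = qb.comp (X + C c) := taylor_apply c qb
  have htr : (taylor c qb).natTrailingDegree = e := by
    rw [hcomp, he, rootMultiplicity_eq_natTrailingDegree]
  have hlow : ∀ i < e, PowerSeries.constantCoeff (R := E) (qc.coeff i) = 0 := by
    intro i hi
    have : PowerSeries.constantCoeff (R := E) (qc.coeff i) = (taylor c qb).coeff i := by
      rw [← hqcmap, coeff_map]
    rw [this]
    apply coeff_eq_zero_of_lt_natTrailingDegree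
    rw [htr]; exact hi
  have hhigh : PowerSeries.constantCoeff (R := E) (qc.coeff e) ≠ 0 := by
    have : PowerSeries.constantCoeff (R := E) (qc.coeff e) = (taylor c qb).coeff e := by
      rw [← hqcmap, coeff_map]
    rw [this, ← htr]
    rw [coeff_natTrailingDegree_ne_zero]
    intro h
    have := taylor_monic' qb hqbm c
    exact this.ne_zero h
  obtain ⟨f, hfm, hfd, hfdvd⟩ := exists_monic_factor qc e hlow hhigh
  set FF : (LS E)[X] := f.map (HahnSeries.ofPowerSeries ℤ E) with hFF
  have hFm : FF.Monic := hfm.map _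
  have hFd : FF.natDegree = e := by rw [hFF, hfm.natDegree_map, hfd]
  obtain ⟨m', hm', x, hpm', hx⟩ := ih e hele FF hFm hFd hepos (by omega)
  set ψ := expandHom (E := E) m' hm' with hψ
  have hroot : ((qc.map (HahnSeries.ofPowerSeries ℤ E)).map ψ).eval x = 0 := by
    obtain ⟨r, hr⟩ := hfdvd
    rw [hr, Polynomial.map_mul, Polynomial.map_mul, eval_mul, ← hFF, hx, zero_mul]
  have hqcK : qc.map (HahnSeries.ofPowerSeries ℤ E) = taylor (HahnSeries.C c) p2 := by
    rw [hqc, Polynomial.map_taylor, hqmap, HahnSeries.ofPowerSeries_C]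
  rw [hqcK, Polynomial.map_taylor, taylor_eval] at hroot
  set y : (LS E) := x + ψ (HahnSeries.C c) with hy
  have hψu : ψ u ≠ 0 := by
    rw [Ne, map_eq_zero, hu]
    exact HahnSeries.single_ne_zero one_ne_zero
  have hmapscale : p2.map ψ = ((p1.map φ).map ψ).scaleRoots (ψ u) := by
    rw [hp2, Polynomial.map_scaleRoots]
    rw [hp1φm.leadingCoeff, map_one]
    exact one_ne_zero
  have hpm : ¬ p ∣ m := fun h => absurd (Nat.le_of_dvd hmpos h) (by omega)
  refine ⟨m' * m, Nat.mul_pos hm' hmpos, y / ψ u,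
    fun h => (pp.dvd_mul.1 h).elim hpm' hpm, ?_⟩
  rw [← expandHom_comp m m' hmpos hm', ← Polynomial.map_map]
  have key := Polynomial.scaleRoots_eval₂_mul (RingHom.id (LS E)) (p := (p1.map φ).map ψ)
    (r := y / ψ u) (s := ψ u)
  rw [RingHom.id_apply, mul_div_cancel₀ _ hψu, ← hmapscale] at key
  have h0 : eval₂ (RingHom.id (LS E)) y (p2.map ψ) = 0 := by
    have : eval₂ (RingHom.id (LS E)) y (p2.map ψ) = (p2.map ψ).eval y := rfl
    rw [this]
    exact hroot
  rw [h0] at key
  have hpow : (ψ u) ^ ((p1.map φ).map ψ).natDegree ≠ 0 := pow_ne_zero _ hψu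
  exact (mul_eq_zero.1 key.symm).resolve_left hpow

theorem NP_splits_monic [IsSepClosed E] (p : ℕ) (pp : p.Prime) [CharP E p] (n : ℕ) :
    ∀ P0 : (LS E)[X], P0.Monic → P0.natDegree = n → n < p →
    ∃ (m : ℕ) (hm : 0 < m), ¬ p ∣ m ∧ (P0.map (expandHom m hm)).Splits := by
  induction n with
  | zero =>
    intro P0 hp hd _
    refine ⟨1, one_pos, pp.not_dvd_one, ?_⟩
    rw [hp.natDegree_eq_zero.1 hd]
    simp
  | succ n ih =>
    intro P0 hp hd hlt
    obtain ⟨m, hm, x, hpm0, hx⟩ := NP_root p pp (n + 1) P0 hp hd (Nat.succ_pos n) hlt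
    have hdvd : (X - C x) ∣ P0.map (expandHom m hm) := dvd_iff_isRoot.2 hx
    obtain ⟨r, hr⟩ := hdvd
    have hpm : (P0.map (expandHom m hm)).Monic := hp.map _
    have hrm : r.Monic := by
      rw [hr] at hpm
      exact (monic_X_sub_C x).of_mul_monic_left hpm
    have hrd : r.natDegree = n := by
      have h1 : (P0.map (expandHom m hm)).natDegree = n + 1 := by rw [hp.natDegree_map, hd]
      rw [hr, (monic_X_sub_C x).natDegree_mul hrm, natDegree_X_sub_C] at h1
      omega
    obtain ⟨m', hm', hpm', hs⟩ := ih r hrm hrd (by omega)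
    refine ⟨m' * m, Nat.mul_pos hm' hm, fun h => (pp.dvd_mul.1 h).elim hpm' hpm0, ?_⟩
    rw [← expandHom_comp m m' hm hm', ← Polynomial.map_map, hr, Polynomial.map_mul]
    apply Splits.mul _ hs
    simp only [Polynomial.map_sub, map_X, map_C]
    exact Splits.X_sub_C _

end PU1

universe u

/-- Part PU1 -/
theorem part_PU1 (_ : S_PW.{u}) : S_PU1.{u} := by
  intro K _ _ p pp _ f hf hd
  obtain ⟨m, hm, hpm, hs⟩ := PU1.NP_splits_monic (E := K) p pp f.natDegree f hf rfl hd
  refine ⟨m, hm, hpm, ?_⟩
  intro ρ hρ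
  have h : ρ = expandHom m hm := by
    apply RingHom.ext
    intro y
    apply HahnSeries.ext
    funext j
    obtain ⟨h1, h2⟩ := hρ y
    by_cases hj : (m : ℤ) ∣ j
    · obtain ⟨k, rfl⟩ := hj
      rw [h1 k]
      exact (expandHom_coeff m hm y k).symm
    · rw [h2 j hj]
      exact (expandHom_coeff_of_not_dvd m hm y j hj).symm
  rw [h]
  exact hs

end Pool.Agent.N780.SB
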