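import Mathlib
import Pool.Agent.N780.SB.Stm

/-!
# SB/VDM: order of the Vandermonde determinant
-/

set_option autoImplicit false

open Finset

namespace Pool.Agent.N780.SB

universe u

namespace VDMaux

variable {K : Type u} [Field K]

/-- the coefficients below `v` vanish -/
def Bl (v : ℤ) (f : LaurentSeries K) : Prop := ∀ m : ℤ, m < v → f.coeff m = 0

theorem Bl.mul {v w : ℤ} {f g : LaurentSeries K} (hf : Bl v f) (hg : Bl w g) :
    Bl (v + w) (f * g) := by
  intro m hm
  rw [HahnSeries.coeff_mul]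
  apply Finset.sum_eq_zero
  rintro ⟨i, j⟩ hij
  rw [Finset.mem_antidiagonal] at hij
  obtain ⟨hi, hj, he⟩ := hij
  dsimp only at hi hj he ⊢
  rcases lt_or_ge i v with h | h
  · rw [hf i h, zero_mul]
  · have h2 : j < w := by omega
    rw [hg j h2, mul_zero]

theorem Bl.sub {v : ℤ} {f g : LaurentSeries K} (hf : Bl v f) (hg : Bl v g) : Bl v (f - g) := by
  intro m hm
  rw [HahnSeries.coeff_sub, hf m hm, hg m hm, sub_zero]

theorem Bl.neg {v : ℤ} {f : LaurentSeries K} (hf : Bl v f) : Bl v (-f) := by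
  intro m hm
  rw [HahnSeries.coeff_neg, hf m hm, neg_zero]

theorem Bl.one : Bl 0 (1 : LaurentSeries K) := by
  intro m hm
  rw [HahnSeries.coeff_one, if_neg (by omega)]

theorem Bl.prod {ι : Type*} (s : Finset ι) (v : ι → ℤ) (f : ι → LaurentSeries K)
    (h : ∀ i ∈ s, Bl (v i) (f i)) : Bl (∑ i ∈ s, v i) (∏ i ∈ s, f i) := by
  classical
  induction s using Finset.induction_on with
  | empty => simpa using Bl.one
  | insert a s ha ih =>
    rw [Finset.sum_insert ha, Finset.prod_insert ha]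
    exact (h a (Finset.mem_insert_self a s)).mul
      (ih (fun i hi => h i (Finset.mem_insert_of_mem hi)))

theorem sumIoi (n : ℕ) (w : ℤ) :
    (∑ i : Fin n, ∑ _j ∈ Finset.Ioi i, w) + (∑ i : Fin n, ∑ _j ∈ Finset.Ioi i, w) =
      ((n * (n - 1) : ℕ) : ℤ) * w := by
  have h1 : ∀ i : Fin n, ∑ _j ∈ Finset.Ioi i, w = ((n - 1 - (i : ℕ) : ℕ) : ℤ) * w := by
    intro i
    rw [Finset.sum_const, Fin.card_Ioi, nsmul_eq_mul]
  have h2 : (∑ i : Fin n, ∑ _j ∈ Finset.Ioi i, w) = ((∑ i ∈ Finset.range n, i : ℕ) : ℤ) * w := by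
    rw [Finset.sum_congr rfl (fun i _ => h1 i), ← Finset.sum_mul]
    congr 1
    rw [Fin.sum_univ_eq_sum_range (fun i => ((n - 1 - i : ℕ) : ℤ)) n, ← Nat.cast_sum,
      Finset.sum_range_reflect (fun i => i) n]
  rw [h2, ← Finset.sum_range_id_mul_two]
  push_cast
  ring

theorem second (n : ℕ) (y : Fin n → LaurentSeries K) (p : ℕ) (a b : Fin n) (hab : a < b)
    (hy : ∀ j, Bl 0 (y j)) (hp : Bl p (y b - y a)) :
    Bl (p : ℤ) (∏ i : Fin n, ∏ j ∈ Finset.Ioi i, (y j - y i)) := by
  have key := Bl.prod (Finset.univ : Finset (Fin n))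
    (fun i => ∑ j ∈ Finset.Ioi i, (if i = a ∧ j = b then (p : ℤ) else 0))
    (fun i => ∏ j ∈ Finset.Ioi i, (y j - y i)) (by
      intro i _
      apply Bl.prod
      intro j _
      split_ifs with h
      · rw [h.1, h.2]
        exact hp
      · exact (hy j).sub (hy i))
  have hs : (∑ i : Fin n, ∑ j ∈ Finset.Ioi i, (if i = a ∧ j = b then (p : ℤ) else 0)) = p := by
    rw [Finset.sum_eq_single a]
    · rw [Finset.sum_eq_single b]
      · simp
      · intro c _ hc
        simp [hc]
      · intro hb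
        exact absurd (Finset.mem_Ioi.mpr hab) hb
    · intro c _ hc
      apply Finset.sum_eq_zero
      intro j _
      simp [hc]
    · intro h
      exact absurd (Finset.mem_univ a) h
  rw [hs] at key
  exact key

end VDMaux

open VDMaux

theorem part_VDM : S_VDM.{u} := by
  intro K _ n y
  have hdet : Matrix.det (Matrix.of fun j k : Fin n => y j ^ (k : ℕ)) =
      ∏ i : Fin n, ∏ j ∈ Finset.Ioi i, (y j - y i) := Matrix.det_vandermonde y
  rw [hdet]
  constructor
  · intro w hw
    have h1 : Bl (∑ i : Fin n, ∑ _j ∈ Finset.Ioi i, w)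
        (∏ i : Fin n, ∏ j ∈ Finset.Ioi i, (y j - y i)) := by
      apply Bl.prod
      intro i _
      apply Bl.prod
      intro j _
      exact Bl.sub (hw j) (hw i)
    have h2 := h1.mul h1
    rw [sumIoi, ← sq] at h2
    exact h2
  · intro p j₁ j₂ hne hy hp
    have h1 : Bl (p : ℤ) (∏ i : Fin n, ∏ j ∈ Finset.Ioi i, (y j - y i)) := by
      rcases lt_or_gt_of_ne hne with h | h
      · apply second n y p j₁ j₂ h hy
        have : y j₂ - y j₁ = -(y j₁ - y j₂) := by ring
        rw [this]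
        exact Bl.neg hp
      · exact second n y p j₂ j₁ h hy hp
    have h2 := h1.mul h1
    rw [← sq, ← two_mul] at h2
    exact h2

end Pool.Agent.N780.SB
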