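import Mathlib
import Pool.Agent.N780.SB.Stm
import Pool.Agent.N780.SB.Stm2
import Pool.Agent.N780.SB.SEP
import Pool.Agent.N780.SB.VDM
import Pool.Agent.N780.SB.PAIR

set_option autoImplicit false

/-!
# SB/TT (helper624): a simple zero of the discriminant is a simple branch point
-/

namespace Pool.Agent.N780.SB

universe u v w

open HahnSeries

namespace TTaux

variable {K : Type u} [Field K]

/-- `u ↦ ζ u` -/
noncomputable def tw (ζ : K) (y : LaurentSeries K) : LaurentSeries K where
  coeff m := ζ ^ m * y.coeff m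
  isPWO_support' := y.isPWO_support.mono (by
    intro m hm
    rw [Function.mem_support] at hm
    rw [mem_support]
    intro h
    rw [h, mul_zero] at hm
    exact hm rfl)

lemma tw_coeff (ζ : K) (y : LaurentSeries K) (m : ℤ) : (tw ζ y).coeff m = ζ ^ m * y.coeff m := rfl

lemma tw_supp {ζ : K} (hζ : ζ ≠ 0) (y : LaurentSeries K) : (tw ζ y).support = y.support := by
  ext m
  rw [mem_support, mem_support, tw_coeff]
  simp [zpow_ne_zero m hζ]

lemma tw_mul {ζ : K} (hζ : ζ ≠ 0) (x y : LaurentSeries K) : tw ζ (x * y) = tw ζ x * tw ζ y := by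
  ext m
  rw [tw_coeff, coeff_mul, coeff_mul, Finset.mul_sum]
  refine Finset.sum_congr ?_ ?_
  · ext ij
    simp only [Finset.mem_antidiagonal, tw_supp hζ]
  · intro ij hij
    rw [Finset.mem_antidiagonal] at hij
    rw [tw_coeff, tw_coeff, ← hij.2.2, zpow_add₀ hζ]
    ring

/-- `u ↦ ζ u` as a homomorphism -/
noncomputable def tau (ζ : K) (hζ : ζ ≠ 0) : LaurentSeries K →+* LaurentSeries K where
  toFun := tw ζ
  map_one' := by
    ext m
    rw [tw_coeff, coeff_one]
    split_ifs with h
    · subst h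
      simp
    · simp
  map_mul' := tw_mul hζ
  map_zero' := by
    ext m
    simp [tw_coeff]
  map_add' x y := by
    ext m
    simp [tw_coeff, mul_add]

lemma tau_coeff (ζ : K) (hζ : ζ ≠ 0) (y : LaurentSeries K) (m : ℤ) :
    (tau ζ hζ y).coeff m = ζ ^ m * y.coeff m := rfl

lemma tau_C (ζ : K) (hζ : ζ ≠ 0) (a : K) : tau ζ hζ (HahnSeries.C a) = HahnSeries.C a := by
  ext m
  rw [tau_coeff, HahnSeries.C_apply, coeff_single]
  split_ifs with h
  · subst h
    simp
  · simp

lemma tau_atFin (ζ : K) (hζ : ζ ≠ 0) (E : ℕ) (h1 : ζ ^ E = 1) (t : K) :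
    tau ζ hζ (atFin E t) = atFin E t := by
  unfold atFin
  rw [map_add, tau_C]
  congr 1
  ext m
  rw [tau_coeff, coeff_single]
  split_ifs with h
  · subst h
    rw [zpow_natCast, h1, one_mul]
  · simp

/-! ### regularity -/

lemma C_mem (c : K) : (HahnSeries.C c : LaurentSeries K) ∈
    (HahnSeries.ofPowerSeries ℤ K).range :=
  ⟨PowerSeries.C c, by simp⟩

lemma atFin_eq (E : ℕ) (t : K) : (atFin E t : LaurentSeries K) =
    HahnSeries.ofPowerSeries ℤ K (PowerSeries.C t + PowerSeries.X ^ E) := by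
  rw [map_add, map_pow, HahnSeries.ofPowerSeries_C, HahnSeries.ofPowerSeries_X]
  simp [atFin, HahnSeries.single_pow]

lemma OO_mem {F : Type v} [Field F] [Algebra (RatFunc K) F] {S : Finset K} {t : K} (ht : t ∉ S)
    {E : ℕ} (hE : 0 < E)
    (σ : F →+* LaurentSeries K) (hσ : IsExp (atFin E t) σ) (r : RatFunc K) (hr : r ∈ OO S) :
    σ (algebraMap (RatFunc K) F r) ∈ (HahnSeries.ofPowerSeries ℤ K).range := by
  have key : OO S ≤ ((HahnSeries.ofPowerSeries ℤ K).range).comap
      (σ.comp (algebraMap (RatFunc K) F)) := by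
    unfold OO
    rw [Subring.closure_le]
    have hX : σ (algebraMap (RatFunc K) F RatFunc.X) = atFin E t := hσ.1
    have hC : ∀ a : K, σ (algebraMap (RatFunc K) F (RatFunc.C a)) = HahnSeries.C a := hσ.2
    rintro x ((⟨a, rfl⟩ | rfl) | ⟨c, hc, rfl⟩)
    · change σ (algebraMap (RatFunc K) F (RatFunc.C a)) ∈ (HahnSeries.ofPowerSeries ℤ K).range
      rw [hC]; exact C_mem a
    · change σ (algebraMap (RatFunc K) F RatFunc.X) ∈ (HahnSeries.ofPowerSeries ℤ K).range
      rw [hX, atFin_eq]; exact ⟨_, rfl⟩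
    · change σ (algebraMap (RatFunc K) F (RatFunc.X - RatFunc.C c)⁻¹) ∈
        (HahnSeries.ofPowerSeries ℤ K).range
      rw [map_inv₀, map_inv₀, map_sub, map_sub, hX, hC, atFin_eq]
      have h1 : (HahnSeries.C c : LaurentSeries K) =
          HahnSeries.ofPowerSeries ℤ K (PowerSeries.C c) := by simp
      rw [h1, ← map_sub]
      set p : PowerSeries K := PowerSeries.C t + PowerSeries.X ^ E - PowerSeries.C c with hp
      have hc0 : PowerSeries.constantCoeff p ≠ 0 := by
        rw [hp]
        simp only [map_sub, map_add, map_pow, PowerSeries.constantCoeff_C,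
          PowerSeries.constantCoeff_X]
        intro h
        apply ht
        have : t = c := by
          have h2 : t + 0 ^ E - c = 0 := h
          rw [zero_pow hE.ne'] at h2
          linear_combination h2
        rw [this]; exact hc
      refine ⟨p⁻¹, ?_⟩
      have h2 : HahnSeries.ofPowerSeries ℤ K p * HahnSeries.ofPowerSeries ℤ K p⁻¹ = 1 := by
        rw [← map_mul, PowerSeries.mul_inv_cancel p hc0, map_one]
      exact (inv_eq_of_mul_eq_one_right h2).symm
  exact key hr

theorem int_E (F : Type v) [Field F] [Algebra (RatFunc K) F]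
    (S : Finset K) (t : K) (ht : t ∉ S) {E : ℕ} (hE : 0 < E) (n : ℕ) (a : Fin n → F)
    (hA : IsAffineCurve S t a)
    (σ : F →+* LaurentSeries K) (hσ : IsExp (atFin E t) σ) (f : F) (hf : InA S a f) :
    σ f ∈ PAIR.Rg K := by
  intro m hm
  set N : Submodule (PowerSeries K) (LaurentSeries K) :=
    Submodule.span (PowerSeries K) (Set.range fun i => σ (a i)) with hN
  have hsm : ∀ r ∈ OO S, ∀ y ∈ N, σ (algebraMap (RatFunc K) F r) * y ∈ N := by
    intro r hr y hy
    obtain ⟨p, hp⟩ := OO_mem ht hE σ hσ r hr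
    rw [← hp]
    have : HahnSeries.ofPowerSeries ℤ K p * y = p • y := by
      rw [Algebra.smul_def, LaurentSeries.coe_algebraMap]
    rw [this]
    exact N.smul_mem p hy
  have hmem : ∀ g : F, InA S a g → σ g ∈ N := by
    rintro g ⟨r, hr, rfl⟩
    rw [map_sum]
    refine N.sum_mem fun i _ => ?_
    rw [map_mul]
    exact hsm _ (hr i) _ (Submodule.subset_span ⟨i, rfl⟩)
  have h1 : (1 : LaurentSeries K) ∈ N := by
    have := hmem 1 hA.one
    rwa [map_one] at this
  have hmul : ∀ x y, x ∈ N → y ∈ N → x * y ∈ N := by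
    intro x y hx hy
    have h2 : N * N ≤ N := by
      rw [hN, Submodule.span_mul_span, Submodule.span_le]
      rintro z ⟨_, ⟨i, rfl⟩, _, ⟨j, rfl⟩, rfl⟩
      have := hmem _ (hA.mul i j)
      rw [map_mul] at this
      exact this
    exact h2 (Submodule.mul_mem_mul hx hy)
  have hfg : (N.toSubalgebra h1 hmul).toSubmodule.FG := by
    rw [Submodule.toSubalgebra_toSubmodule]
    exact Submodule.fg_span (Set.finite_range _)
  have hint : IsIntegral (PowerSeries K) (σ f) :=
    IsIntegral.of_mem_of_fg _ hfg _ (hmem f hf)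
  obtain ⟨y, hy⟩ := IsIntegrallyClosed.isIntegral_iff.1 hint
  rw [← hy, LaurentSeries.coe_algebraMap]
  have := PowerSeries.coeff_coe (R := K) y m
  rw [if_pos hm] at this
  exact this

/-! ### the substitution `u ↦ u ^ N` -/

lemma pw_single {N : ℕ} (hN : 0 < N) {ρ : LaurentSeries K →+* LaurentSeries K} (hρ : IsPw N ρ)
    (k : ℤ) (a : K) : ρ (single k a) = single ((N : ℤ) * k) a := by
  have hN' : (N : ℤ) ≠ 0 := by exact_mod_cast hN.ne'
  ext m
  by_cases h : (N : ℤ) ∣ m
  · obtain ⟨l, rfl⟩ := h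
    rw [(hρ _).1 l, coeff_single, coeff_single]
    by_cases hl : l = k
    · subst hl
      simp
    · rw [if_neg hl, if_neg]
      intro h2
      exact hl (mul_left_cancel₀ hN' h2)
  · rw [(hρ _).2 m h, coeff_single, if_neg]
    rintro rfl
    exact h ⟨k, rfl⟩

lemma pw_C {N : ℕ} (hN : 0 < N) {ρ : LaurentSeries K →+* LaurentSeries K} (hρ : IsPw N ρ)
    (a : K) : ρ (HahnSeries.C a) = HahnSeries.C a := by
  rw [HahnSeries.C_apply, pw_single hN hρ, mul_zero]

lemma pw_atFin {N : ℕ} (hN : 0 < N) {ρ : LaurentSeries K →+* LaurentSeries K} (hρ : IsPw N ρ)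
    (E : ℕ) (t : K) : ρ (atFin E t) = atFin (N * E) t := by
  unfold atFin
  rw [map_add, pw_C hN hρ, pw_single hN hρ]
  push_cast
  rfl

lemma pw_surj {N : ℕ} (hN : 0 < N) {ρ : LaurentSeries K →+* LaurentSeries K} (hρ : IsPw N ρ)
    (z : LaurentSeries K) (hz : ∀ m : ℤ, ¬ (N : ℤ) ∣ m → z.coeff m = 0) : ∃ y, ρ y = z := by
  have hN' : (1 : ℤ) ≤ N := by exact_mod_cast hN
  have hb : BddBelow (Function.support fun m : ℤ => z.coeff ((N : ℤ) * m)) := by
    refine ⟨-|z.order|, ?_⟩
    intro m hm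
    rw [Function.mem_support] at hm
    have h1 := order_le_of_coeff_ne_zero hm
    by_contra hcon
    push Not at hcon
    have h2 := neg_abs_le z.order
    have h3 := abs_nonneg z.order
    have h4 : m < 0 := by omega
    nlinarith
  refine ⟨HahnSeries.ofSuppBddBelow _ hb, ?_⟩
  ext m
  by_cases h : (N : ℤ) ∣ m
  · obtain ⟨l, rfl⟩ := h
    rw [(hρ _).1 l]
    rfl
  · rw [(hρ _).2 m h, hz m h]

lemma factor {F : Type v} [Field F] {N : ℕ} (hN : 0 < N)
    {ρ : LaurentSeries K →+* LaurentSeries K} (hρ : IsPw N ρ) (σ : F →+* LaurentSeries K)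
    (hz : ∀ (f : F) (m : ℤ), ¬ (N : ℤ) ∣ m → (σ f).coeff m = 0) :
    ∃ σ' : F →+* LaurentSeries K, ∀ f, ρ (σ' f) = σ f := by
  have hr : ∀ f, σ f ∈ ρ.range := fun f => pw_surj hN hρ (σ f) (hz f)
  have hbij : Function.Bijective ρ.rangeRestrict :=
    ⟨fun x y h => ρ.injective (congrArg Subtype.val h), ρ.rangeRestrict_surjective⟩
  refine ⟨(RingEquiv.ofBijective ρ.rangeRestrict hbij).symm.toRingHom.comp (σ.codRestrict ρ.range hr),
    fun f => ?_⟩
  have h := (RingEquiv.ofBijective ρ.rangeRestrict hbij).apply_symm_apply (σ.codRestrict ρ.range hr f)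
  exact congrArg Subtype.val h

/-! ### determinants -/

lemma det_Bl {n : ℕ} (M : Matrix (Fin n) (Fin n) (LaurentSeries K)) (w : Fin n → ℤ)
    (h : ∀ i l, VDMaux.Bl (w i) (M i l)) : VDMaux.Bl (∑ i, w i) M.det := by
  rw [Matrix.det_apply]
  intro m hm
  rw [HahnSeries.coeff_sum]
  refine Finset.sum_eq_zero fun s _ => ?_
  have h1 : VDMaux.Bl (∑ i, w (s i)) (∏ i, M (s i) i) :=
    VDMaux.Bl.prod Finset.univ _ _ fun i _ => h (s i) i
  rw [Equiv.sum_comp s w] at h1
  rw [Units.smul_def]
  rcases Int.units_eq_one_or (Equiv.Perm.sign s) with h2 | h2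
  · rw [h2]
    simpa using h1 m hm
  · rw [h2]
    simpa using h1 m hm

lemma unit_coeff {ρ ρ' : LaurentSeries K} (hρ : ρ ∈ PAIR.Rg K) (hρ' : ρ' ∈ PAIR.Rg K)
    (h1 : ρ * ρ' = 1) (E : ℤ) : (ρ * single E 1).coeff E ≠ 0 := by
  have hρ0 : ρ ≠ 0 := left_ne_zero_of_mul_eq_one h1
  have hρ0' : ρ' ≠ 0 := right_ne_zero_of_mul_eq_one h1
  have h3 : 0 ≤ ρ.order := (le_order_iff_forall hρ0).2 fun j hj => hρ j hj
  have h4 : 0 ≤ ρ'.order := (le_order_iff_forall hρ0').2 fun j hj => hρ' j hj
  have h5 : ρ.order + ρ'.order = 0 := by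
    rw [← order_mul hρ0 hρ0', h1, order_one]
  have h6 : ρ.order = 0 := by omega
  have h7 : (ρ * single E 1).coeff E = ρ.coeff 0 := by
    have := coeff_mul_single (r := (1 : K)) (x := ρ) (a := E) (b := E)
    rw [this, sub_self, mul_one]
  rw [h7]
  have h8 := mt coeff_order_eq_zero.1 hρ0
  rw [h6] at h8
  exact h8

end TTaux

open TTaux in
theorem part_TT (hPW : S_PW.{u}) (hPUI : S_PUI.{u, v}) (hTR : S_TR.{u, v}) : S_TT.{u, v} := by
  classical
  intro K F _ _ _ _ p n hp hchar hn hnp hp2 S t ht a ha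
  have : Algebra.IsSeparable (RatFunc K) F := part_SEP K F p n hp hchar hn hnp ha.rank
  -- exponents
  obtain ⟨N, hN, hpN, hsp, -⟩ := hPUI K F p n hp hchar hn hnp ha.rank {t}
  obtain ⟨σ0, hσ0, hexp0⟩ := hsp t (Finset.mem_singleton_self t)
  obtain ⟨ρ2, hρ2⟩ := hPW K 2 two_pos
  obtain ⟨E, hE⟩ : ∃ E, E = 2 * N := ⟨_, rfl⟩
  have hE0 : 0 < E := by omega
  obtain ⟨σ, hσdef⟩ : ∃ σ : Fin n → (F →+* LaurentSeries K), σ = fun i => ρ2.comp (σ0 i) :=
    ⟨_, rfl⟩
  have hσ : Function.Injective σ := by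
    intro i j hij
    apply hσ0
    ext1 f
    apply ρ2.injective
    have := congrArg (fun s => s f) hij
    rw [hσdef] at this
    exact this
  have hexp : ∀ i, IsExp (atFin E t) (σ i) := by
    intro i
    rw [hσdef, hE]
    refine ⟨?_, fun c => ?_⟩
    · rw [RingHom.comp_apply, (hexp0 i).1, pw_atFin two_pos hρ2]
    · rw [RingHom.comp_apply, (hexp0 i).2, pw_C two_pos hρ2]
  obtain ⟨hall, -, hdisc⟩ := hTR K F n hn ha.rank (atFin E t) σ hσ hexp
  -- the root of unity
  have hEK : NeZero (E : K) := ⟨by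
    intro h0
    rw [CharP.cast_eq_zero_iff K p, hE] at h0
    rcases (Nat.Prime.dvd_mul hp).1 h0 with h | h
    · exact hp2 ((Nat.prime_dvd_prime_iff_eq hp Nat.prime_two).1 h)
    · exact hpN h⟩
  obtain ⟨ζ, hζ⟩ := HasEnoughRootsOfUnity.exists_primitiveRoot K E
  have hζ0 : ζ ≠ 0 := hζ.ne_zero hE0.ne'
  -- the permutation
  have hτ : ∀ j, ∃ i, (tau ζ hζ0).comp (σ j) = σ i := by
    intro j
    refine hall _ ⟨?_, fun c => ?_⟩
    · rw [RingHom.comp_apply, (hexp j).1, tau_atFin ζ hζ0 E hζ.pow_eq_one]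
    · rw [RingHom.comp_apply, (hexp j).2, tau_C]
  choose π hπ using hτ
  have hπa : ∀ j f m, (σ (π j) f).coeff m = ζ ^ m * (σ j f).coeff m := by
    intro j f m
    rw [← hπ j]
    rfl
  have hπl : ∀ (l : ℕ) j f m, (σ (π^[l] j) f).coeff m = ζ ^ ((l : ℤ) * m) * (σ j f).coeff m := by
    intro l
    induction l with
    | zero => intro j f m; simp
    | succ l ih =>
      intro j f m
      rw [Function.iterate_succ_apply', hπa, ih, ← mul_assoc, ← zpow_add₀ hζ0]
      congr 2
      push_cast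
      ring
  have hper : ∀ j, Function.IsPeriodicPt π E j := by
    intro j
    apply hσ
    ext1 f
    ext m
    rw [hπl, zpow_mul, zpow_natCast, hζ.pow_eq_one, one_zpow, one_mul]
  -- regularity
  have hreg : ∀ j f, InA S a f → σ j f ∈ PAIR.Rg K := fun j f hf =>
    int_E F S t ht hE0 n a ha (σ j) (hexp j) f hf
  have hak : ∀ k, InA S a (a k) := by
    intro k
    refine ⟨fun i => if i = k then 1 else 0, fun i => ?_, ?_⟩
    · beta_reduce
      split_ifs
      · exact (OO S).one_mem
      · exact (OO S).zero_mem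
    · rw [Finset.sum_eq_single k]
      · simp
      · intro i _ hi
        simp [hi]
      · intro h
        exact absurd (Finset.mem_univ k) h
  have hOO : ∀ r ∈ OO S, InA S a (algebraMap (RatFunc K) F r) := by
    intro r hr
    obtain ⟨q, hq, h1⟩ := ha.one
    refine ⟨fun i => r * q i, fun i => (OO S).mul_mem hr (hq i), ?_⟩
    calc algebraMap (RatFunc K) F r = algebraMap (RatFunc K) F r * 1 := (mul_one _).symm
      _ = algebraMap (RatFunc K) F r * ∑ i, algebraMap (RatFunc K) F (q i) * a i := by rw [← h1]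
      _ = ∑ i, algebraMap (RatFunc K) F (r * q i) * a i := by
        rw [Finset.mul_sum]
        refine Finset.sum_congr rfl fun i _ => ?_
        rw [map_mul]
        ring
  -- the determinant
  obtain ⟨M, hM⟩ : ∃ M : Matrix (Fin n) (Fin n) (LaurentSeries K),
      M = Matrix.of fun j k => σ j (a k) := ⟨_, rfl⟩
  have hMa : ∀ j k, M j k = σ j (a k) := by
    intro j k
    rw [hM, Matrix.of_apply]
  have hMr : ∀ i l, M i l ∈ PAIR.Rg K := by
    intro i l
    rw [hMa]
    exact hreg i _ (hak l)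
  obtain ⟨r, hr, hr', hr0, hrd⟩ := ha.disc
  have hD := hdisc a ⟨0, hn⟩
  rw [← hM, hrd, map_mul, map_mul] at hD
  have hx : σ ⟨0, hn⟩ (algebraMap (RatFunc K) F (RatFunc.X - RatFunc.C t)) =
      single (E : ℤ) 1 := by
    rw [map_sub, map_sub]
    have e1 := (hexp ⟨0, hn⟩).1
    have e2 := (hexp ⟨0, hn⟩).2 t
    unfold xF at e1
    unfold cF at e2
    rw [e1, e2]
    unfold atFin
    rw [add_sub_cancel_left]
  rw [hx] at hD
  have hrr : σ ⟨0, hn⟩ (algebraMap (RatFunc K) F r) * σ ⟨0, hn⟩ (algebraMap (RatFunc K) F r⁻¹) =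
      1 := by
    rw [← map_mul, ← map_mul, mul_inv_cancel₀ hr0, map_one, map_one]
  have hne : (M.det ^ 2).coeff E ≠ 0 := by
    rw [← hD]
    exact unit_coeff (hreg _ _ (hOO r hr)) (hreg _ _ (hOO _ hr')) hrr E
  -- orbits have at most two elements
  have hshort : ∀ j, Function.minimalPeriod π j ≤ 2 := by
    intro j
    by_contra hcon
    push Not at hcon
    obtain ⟨e, he⟩ : ∃ e, e = Function.minimalPeriod π j := ⟨_, rfl⟩
    rw [← he] at hcon
    obtain ⟨h, hh⟩ : e ∣ E := by rw [he]; exact (hper j).minimalPeriod_dvd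
    have hh0 : 0 < h := by
      rcases Nat.eq_zero_or_pos h with h0 | h0
      · subst h0; omega
      · exact h0
    -- the exponents
    have hexpo : ∀ f m, ¬ (h : ℤ) ∣ m → (σ j f).coeff m = 0 := by
      intro f m hm
      have h1 := hπl e j f m
      have h2 : π^[e] j = j := by rw [he]; exact Function.iterate_minimalPeriod
      rw [h2] at h1
      by_contra hne0
      have h3 : ζ ^ ((e : ℤ) * m) = 1 := by
        have h4 : (ζ ^ ((e : ℤ) * m) - 1) * (σ j f).coeff m = 0 := by linear_combination -h1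
        have h5 := (mul_eq_zero.1 h4).resolve_right hne0
        linear_combination h5
      rw [hζ.zpow_eq_one_iff_dvd, hh] at h3
      push_cast at h3
      have he0 : (e : ℤ) ≠ 0 := by
        have : 0 < e := by omega
        exact_mod_cast this.ne'
      exact hm (Int.dvd_of_mul_dvd_mul_left he0 h3)
    -- the other elements of the orbit
    obtain ⟨O, hO⟩ : ∃ O : Finset (Fin n), O = (Finset.Ico 1 e).image (fun l => π^[l] j) :=
      ⟨_, rfl⟩
    have hinj : Set.InjOn (fun l => π^[l] j) (Set.Iio e) := by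
      rw [he]; exact Function.iterate_injOn_Iio_minimalPeriod
    have hOc : O.card = e - 1 := by
      rw [hO, Finset.card_image_of_injOn, Nat.card_Ico]
      intro x hx y hy hxy
      have hx' := (Finset.mem_Ico.1 (Finset.mem_coe.1 hx)).2
      have hy' := (Finset.mem_Ico.1 (Finset.mem_coe.1 hy)).2
      exact hinj hx' hy' hxy
    have hjO : j ∉ O := by
      rw [hO]
      intro hj
      obtain ⟨l, hl, hlj⟩ := Finset.mem_image.1 hj
      rw [Finset.mem_Ico] at hl
      have h0 : l = 0 := hinj (show l < e from hl.2) (show 0 < e by omega) (by simpa using hlj)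
      omega
    obtain ⟨M', hM'⟩ : ∃ M' : Matrix (Fin n) (Fin n) (LaurentSeries K),
        M' = Matrix.of fun i k => M i k - (if i ∈ O then 1 else 0) * M j k := ⟨_, rfl⟩
    have hdet : M.det = M'.det := by
      refine Matrix.det_eq_of_forall_row_eq_smul_add_const (fun i => if i ∈ O then 1 else 0) j
        (by simp [hjO]) ?_
      intro i k
      rw [hM', Matrix.of_apply, Matrix.of_apply, if_neg hjO]
      ring
    have hBl : ∀ i l, VDMaux.Bl (if i ∈ O then (h : ℤ) else 0) (M' i l) := by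
      intro i l m hm
      rw [hM', Matrix.of_apply]
      split_ifs at hm ⊢ with hi
      · rw [one_mul, coeff_sub]
        rw [hO] at hi
        obtain ⟨k, -, rfl⟩ := Finset.mem_image.1 hi
        rw [hMa, hMa]
        rw [hπl]
        by_cases hd : (h : ℤ) ∣ m
        · have hm0 : m ≤ 0 := by
            by_contra hpos
            push Not at hpos
            exact absurd (Int.le_of_dvd hpos hd) (by omega)
          rcases lt_or_eq_of_le hm0 with hlt | heq
          · have h1 := hreg j _ (hak l) m hlt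
            rw [h1]
            simp
          · rw [heq]
            simp
        · rw [hexpo _ m hd]
          simp
      · rw [zero_mul, sub_zero]
        exact hMr i l m hm
    have h1 := det_Bl M' _ hBl
    rw [← hdet] at h1
    have hsum : ∑ i, (if i ∈ O then (h : ℤ) else 0) = ((e - 1 : ℕ) : ℤ) * h := by
      rw [Finset.sum_ite_mem, Finset.univ_inter, Finset.sum_const, hOc, nsmul_eq_mul]
    rw [hsum] at h1
    have h2 := h1.mul h1
    rw [← sq] at h2
    apply hne
    apply h2
    rw [hh]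
    have h3 : e * h < (e - 1) * h + (e - 1) * h := by
      obtain ⟨e', rfl⟩ : ∃ e', e = e' + 3 := ⟨e - 3, by omega⟩
      have : e' + 3 - 1 = e' + 2 := by omega
      rw [this]
      nlinarith
    exact_mod_cast h3
  have hπ2 : ∀ j, π^[2] j = j := by
    intro j
    have h1 := hshort j
    have h2 : 0 < Function.minimalPeriod π j := (hper j).minimalPeriod_pos hE0
    have h3 : Function.minimalPeriod π j ∣ 2 := by
      interval_cases Function.minimalPeriod π j
      · exact one_dvd 2
      · exact dvd_refl 2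
    exact Function.isPeriodicPt_iff_minimalPeriod_dvd.2 h3
  have hcoef : ∀ j f m, ¬ (N : ℤ) ∣ m → (σ j f).coeff m = 0 := by
    intro j f m hm
    have h1 := hπl 2 j f m
    rw [hπ2] at h1
    by_contra hne0
    have h3 : ζ ^ (((2 : ℕ) : ℤ) * m) = 1 := by
      have h4 : (ζ ^ (((2 : ℕ) : ℤ) * m) - 1) * (σ j f).coeff m = 0 := by linear_combination -h1
      have h5 := (mul_eq_zero.1 h4).resolve_right hne0
      linear_combination h5
    rw [hζ.zpow_eq_one_iff_dvd, hE] at h3
    push_cast at h3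
    exact hm (Int.dvd_of_mul_dvd_mul_left two_ne_zero h3)
  obtain ⟨ρ, hρ⟩ := hPW K N hN
  choose σ' hσ' using fun j => factor hN hρ (σ j) (hcoef j)
  refine ⟨σ', ?_, fun i => ⟨?_, fun c => ?_⟩⟩
  · intro i j hij
    apply hσ
    ext1 f
    rw [← hσ' i f, ← hσ' j f, hij]
  · apply ρ.injective
    rw [hσ', (hexp i).1, pw_atFin hN hρ, hE, mul_comm]
  · apply ρ.injective
    rw [hσ', (hexp i).2, pw_C hN hρ]

end Pool.Agent.N780.SB
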