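import Mathlib
import Pool.Agent.N780.SB.Stm
import Pool.Agent.N780.SB.TR
import Pool.Agent.N780.SB.RF
import Pool.Agent.N780.SB.UNR

set_option autoImplicit false

/-!
Rational functions with few poles and elements with few poles: versions with weaker weights.
-/

namespace Pool.Agent.N780.SB

universe u v w

open Polynomial in
open RF in
theorem rf3 (K : Type u) [Field K] (S : Finset K) (t : K) (E : ℕ) (hE : 0 < E)
    (φ : K → (RatFunc K →+* LaurentSeries K)) (ψ χ : RatFunc K →+* LaurentSeries K)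
    (hφ : ∀ c ∈ S, φ c RatFunc.X = atFin E c ∧ ∀ a : K, φ c (RatFunc.C a) = HahnSeries.C a)
    (hψ : ψ RatFunc.X = atFin 2 t ∧ ∀ a : K, ψ (RatFunc.C a) = HahnSeries.C a)
    (hχ : χ RatFunc.X = atInf K E ∧ ∀ a : K, χ (RatFunc.C a) = HahnSeries.C a)
    (R : RatFunc K) (hR : R ∈ OO S) (N : ℕ) (hN : 0 < N)
    (hfin : ∀ c ∈ S, ∀ m : ℤ, m < (N : ℤ) * (1 - E) → (φ c R).coeff m = 0)
    (hinf : ∀ m : ℤ, m < (N : ℤ) * (-(S.card * E : ℤ)) → (χ R).coeff m = 0)
    (p : ℕ) (hp : 2 * N * S.card < p) (ht : ∀ m : ℤ, m < 2 * (p : ℤ) → (ψ R).coeff m = 0) :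
    R = 0 := by
  classical
  have hDO : algebraMap K[X] (RatFunc K) (D S) ∈ OO S := by
    rw [D, map_prod]
    refine Subring.prod_mem _ fun c _ => ?_
    rw [map_sub, RatFunc.algebraMap_X, RatFunc.algebraMap_C]
    exact Subring.sub_mem _ (Subring.subset_closure (Or.inl (Or.inr rfl)))
      (Subring.subset_closure (Or.inl (Or.inl ⟨c, rfl⟩)))
  have hQ : R * algebraMap K[X] (RatFunc K) (D S) ^ N ∈ OO S :=
    Subring.mul_mem _ hR (Subring.pow_mem _ hDO _)
  have hDc : ∀ c ∈ S, V (φ c (algebraMap K[X] (RatFunc K) (D S))) E := by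
    intro c hc
    rw [D, ← Finset.mul_prod_erase S _ hc, map_mul, map_mul]
    exact ((fin_sub (hφ c hc)).mul (fin_V (hφ c hc) _)).mono (by linarith)
  have hQc : ∀ c ∈ S, V (φ c (R * algebraMap K[X] (RatFunc K) (D S) ^ N)) (1 - E) := by
    intro c hc
    rw [map_mul, map_pow]
    refine (V.mul (hfin c hc) ((hDc c hc).pow N)).mono ?_
    have h1 : (1 : ℤ) ≤ N := by exact_mod_cast hN
    have h2 : (0 : ℤ) ≤ E := Nat.cast_nonneg _
    linarith
  obtain ⟨Q, hQe⟩ := poly hE φ hφ hQ hQc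
  have hDi : V (χ (algebraMap K[X] (RatFunc K) (D S))) (-(S.card * E : ℤ)) := by
    rw [D, map_prod, map_prod]
    refine (V.prod S _ (fun _ => -(E : ℤ)) fun c _ => inf_sub c hχ).mono ?_
    rw [Finset.sum_const, nsmul_eq_mul]
    linarith
  have hQi : V (χ (algebraMap K[X] (RatFunc K) Q))
      (N * (-(S.card * E : ℤ)) + N * (-(S.card * E : ℤ))) := by
    rw [← hQe, map_mul, map_pow]
    exact V.mul hinf (hDi.pow N)
  have hQt : V (ψ (algebraMap K[X] (RatFunc K) Q)) (2 * p) := by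
    rw [← hQe, map_mul, ← map_pow]
    exact (V.mul ht (fin_V hψ _)).mono (by linarith)
  have hQ0 : Q = 0 := by
    by_contra hne
    have h1 := inf_deg hE hχ hne hQi
    have hE' : (0 : ℤ) < E := by exact_mod_cast hE
    have h2 : (Q.natDegree : ℤ) * E ≤ (2 * N * (S.card : ℤ)) * E := by linarith
    have h4 : (Q.natDegree : ℤ) ≤ 2 * N * (S.card : ℤ) := le_of_mul_le_mul_right h2 hE'
    have h9 : Q.natDegree < p := by
      have h5 : Q.natDegree ≤ 2 * N * S.card := by exact_mod_cast h4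
      omega
    have h10 : (taylor t Q).coeff (taylor t Q).natDegree = 0 := by
      rw [← fin_coeff two_pos hψ, natDegree_taylor]
      refine hQt _ ?_
      have : (Q.natDegree : ℤ) < p := by exact_mod_cast h9
      push_cast
      linarith
    have h11 : taylor t Q = 0 := leadingCoeff_eq_zero.1 h10
    exact hne ((taylor_injective t) (by rw [h11, map_zero]))
  rw [hQ0, map_zero] at hQe
  rcases mul_eq_zero.1 hQe with h | h
  · exact h
  · exact absurd h (pow_ne_zero _ (RatFunc.algebraMap_ne_zero (D_ne S)))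

open Module Polynomial in
open scoped IntermediateField in
open UNR955 in
/-- an element with few poles whose two exchanged expansions agree up to order `p` (weights for the twisted case) -/
theorem unr3 (hVDM : S_VDM.{u}) (K : Type u) (F : Type v) [Field K] [Field F]
    [Algebra (RatFunc K) F]
    [Algebra.IsSeparable (RatFunc K) F] (p n E : ℕ) (hn : 0 < n)
    (hE : 0 < E) (hr : Module.finrank (RatFunc K) F = n)
    (S : Finset K) (t : K) (hp : 2 * (n * (n - 1)) * S.card < p)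
    (σc : K → Fin n → (F →+* LaurentSeries K))
    (hσc : ∀ c ∈ S, Function.Injective (σc c) ∧ ∀ i, IsExp (atFin E c) (σc c i))
    (σi : Fin n → (F →+* LaurentSeries K)) (hσi : Function.Injective σi)
    (hσi' : ∀ i, IsExp (atInf K E) (σi i))
    (σt : Fin n → (F →+* LaurentSeries K)) (hσt : Function.Injective σt)
    (hσt' : ∀ i, IsExp (atFin 2 t) (σt i))
    (g : F) (hg : ∃ q : Polynomial (RatFunc K), q.Monic ∧ (∀ i, q.coeff i ∈ OO S) ∧
      Polynomial.aeval g q = 0)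
    (hgc : ∀ c ∈ S, ∀ i, ∀ m : ℤ, m < 1 - E → (σc c i g).coeff m = 0)
    (hgi : ∀ i, ∀ m : ℤ, m < -(S.card * E : ℤ) → (σi i g).coeff m = 0)
    (hgt : ∀ i, ∀ m : ℤ, m < 0 → (σt i g).coeff m = 0)
    (j₁ j₂ : Fin n) (hj : ∀ m : ℤ, m < p → (σt j₁ g - σt j₂ g).coeff m = 0) :
    σt j₁ g = σt j₂ g := by
  classical
  by_contra hne
  have : FiniteDimensional (RatFunc K) F := Module.finite_of_finrank_pos (by omega)
  obtain ⟨q, hq1, hq2, hq3⟩ := hg
  let m := Module.finrank (RatFunc K) (IntermediateField.adjoin (RatFunc K) {g})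
  have hmn : m ≤ n := by
    rw [← hr]
    exact Submodule.finrank_le (IntermediateField.adjoin (RatFunc K) {g}).toSubmodule
  let gg := IntermediateField.AdjoinSimple.gen (RatFunc K) g
  let R := Algebra.discr (RatFunc K) (fun i : Fin m => gg ^ (i : ℕ))
  have hR : R ∈ OO S := by
    refine disc_mem S gg q hq1 hq2 ?_ m
    apply (algebraMap (IntermediateField.adjoin (RatFunc K) {g}) F).injective
    rw [map_zero, ← hq3, ← Polynomial.aeval_algebraMap_apply]
    rfl
  -- the expansions at a point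
  have key : ∀ (ξ : LaurentSeries K) (σ : Fin n → (F →+* LaurentSeries K)),
      Function.Injective σ → (∀ i, IsExp ξ (σ i)) →
      ∃ y : Fin m → LaurentSeries K, Function.Injective y ∧ (∀ j, ∃ i, y j = σ i g) ∧
        (∀ i, ∃ j, y j = σ i g) ∧ ((σ ⟨0, hn⟩).comp (algebraMap (RatFunc K) F)) R =
          (Matrix.det (Matrix.of fun j l : Fin m => y j ^ (l : ℕ))) ^ 2 := by
    intro ξ σ hσ hσ'
    have hφ : ∀ i, (σ i).comp (algebraMap (RatFunc K) F) =
        (σ ⟨0, hn⟩).comp (algebraMap (RatFunc K) F) := fun i =>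
      TR933.ratExt _ _ ((hσ' i).1.trans (hσ' ⟨0, hn⟩).1.symm)
        fun a => ((hσ' i).2 a).trans ((hσ' ⟨0, hn⟩).2 a).symm
    exact gen2 n hn hr _ σ hσ hφ g m rfl
  obtain ⟨y, hy1, hy2, hy3, hy4⟩ := key _ σt hσt hσt'
  obtain ⟨a₁, ha₁⟩ := hy3 j₁
  obtain ⟨a₂, ha₂⟩ := hy3 j₂
  have ha : a₁ ≠ a₂ := by
    intro h
    apply hne
    rw [← ha₁, ← ha₂, h]
  have hm2 : 2 ≤ m := by
    by_contra h
    apply ha
    ext
    have h1 := a₁.2
    have h2 := a₂.2
    omega
  have hN : 0 < m * (m - 1) := Nat.mul_pos (by omega) (by omega)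
  have hle : 2 * (m * (m - 1)) * S.card < p :=
    lt_of_le_of_lt (Nat.mul_le_mul_right _ (Nat.mul_le_mul_left _
      (Nat.mul_le_mul hmn (by omega)))) hp
  have hR0 : R = 0 := by
    refine rf3 K S t E hE (fun c => if h : c ∈ S then (σc c ⟨0, hn⟩).comp (algebraMap (RatFunc K) F)
      else (σt ⟨0, hn⟩).comp (algebraMap (RatFunc K) F))
      ((σt ⟨0, hn⟩).comp (algebraMap (RatFunc K) F)) ((σi ⟨0, hn⟩).comp (algebraMap (RatFunc K) F))
      ?_ ⟨(hσt' ⟨0, hn⟩).1, (hσt' ⟨0, hn⟩).2⟩ ⟨(hσi' ⟨0, hn⟩).1, (hσi' ⟨0, hn⟩).2⟩ R hR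
      (m * (m - 1)) hN ?_ ?_ p hle ?_
    · intro c hc
      rw [dif_pos hc]
      exact ⟨((hσc c hc).2 ⟨0, hn⟩).1, ((hσc c hc).2 ⟨0, hn⟩).2⟩
    · intro c hc k hk
      rw [dif_pos hc]
      obtain ⟨z, _, hz2, _, hz4⟩ := key _ (σc c) (hσc c hc).1 (hσc c hc).2
      rw [hz4]
      refine (hVDM K m z).1 (1 - E) (fun j l hl => ?_) k hk
      obtain ⟨i, hi⟩ := hz2 j
      rw [hi]
      exact hgc c hc i l hl
    · intro k hk
      obtain ⟨z, _, hz2, _, hz4⟩ := key _ σi hσi hσi'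
      rw [hz4]
      refine (hVDM K m z).1 (-(S.card * E : ℤ)) (fun j l hl => ?_) k hk
      obtain ⟨i, hi⟩ := hz2 j
      rw [hi]
      exact hgi i l hl
    · intro k hk
      rw [hy4]
      refine (hVDM K m y).2 p a₁ a₂ ha (fun j l hl => ?_) (fun l hl => ?_) k hk
      · obtain ⟨i, hi⟩ := hy2 j
        rw [hi]
        exact hgt i l hl
      · rw [ha₁, ha₂]
        exact hj l hl
  rw [hR0, map_zero] at hy4
  have h5 : (Matrix.vandermonde y).det ≠ 0 := Matrix.det_vandermonde_ne_zero_iff.2 hy1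
  exact h5 (pow_eq_zero_iff (two_ne_zero)|>.1 hy4.symm)

end Pool.Agent.N780.SB
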