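import Mathlib
import Pool.Agent.N780.SB.Main
import Pool.Agent.N780.SB.L0
import Pool.Agent.N780.SB.UNR3

set_option autoImplicit false

/-!
Covers of the line with a moving simple branch point: exact holomorphic forms on double coverings
which are pulled back from the line.
-/

namespace Pool.Agent.N780.SB

universe u v w

section defs

variable {K : Type u} [Field K]

/-- `h = ∏ (x - c)`, `c ∈ S₁`, as a rational function -/
noncomputable def hR (S₁ : Finset K) : RatFunc K := ∏ c ∈ S₁, (RatFunc.X - RatFunc.C c)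

/-- `(log √h)'` -/
noncomputable def wR (S₁ : Finset K) : RatFunc K := ∑ c ∈ S₁, (2 * (RatFunc.X - RatFunc.C c))⁻¹

/-- The function `h = ∏ (x - c)`, `c ∈ S₁`, in `F`. -/
noncomputable def hF (F : Type v) [Field F] [Algebra (RatFunc K) F] (S₁ : Finset K) : F :=
  ∏ c ∈ S₁, (xF K F - cF F c)

/-- `g = D f + f * ∑ 1 / (2 (x - c))`: the function `g` with `d (f √h) = g √h dx`. -/
noncomputable def twD {F : Type v} [Field F] [Algebra (RatFunc K) F] (D : Derivation ℤ F F)
    (S₁ : Finset K) (f : F) : F :=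
  D f + (∑ c ∈ S₁, (2 * (xF K F - cF F c))⁻¹) * f

variable {F : Type v} [Field F] [Algebra (RatFunc K) F]

lemma hF_eq (S₁ : Finset K) : hF F S₁ = algebraMap (RatFunc K) F (hR S₁) := by
  unfold hF hR xF cF
  rw [map_prod]
  exact Finset.prod_congr rfl fun c _ => by rw [map_sub]

lemma twD_eq (D : Derivation ℤ F F) (S₁ : Finset K) (f : F) :
    twD D S₁ f = D f + algebraMap (RatFunc K) F (wR S₁) * f := by
  unfold twD wR xF cF
  rw [map_sum]
  congr 2
  refine Finset.sum_congr rfl fun c _ => ?_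
  rw [map_inv₀, map_mul, map_sub, map_ofNat]

lemma XC_ne (c : K) : (RatFunc.X - RatFunc.C c : RatFunc K) ≠ 0 := by
  have h : (RatFunc.X - RatFunc.C c : RatFunc K) =
      algebraMap (Polynomial K) (RatFunc K) (Polynomial.X - Polynomial.C c) := by
    rw [map_sub, RatFunc.algebraMap_X, RatFunc.algebraMap_C]
  rw [h]
  exact RatFunc.algebraMap_ne_zero (Polynomial.X_sub_C_ne_zero c)

lemma hR_ne (S₁ : Finset K) : hR S₁ ≠ 0 := Finset.prod_ne_zero_iff.2 fun c _ => XC_ne c

lemma hR_mem (S S₁ : Finset K) : hR S₁ ∈ OO S :=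
  prod_mem fun c _ => (OO S).sub_mem (X_mem_OO S) (C_mem_OO S c)

lemma wR_mem {S S₁ : Finset K} (h : S₁ ⊆ S) : wR S₁ ∈ OO S := by
  refine sum_mem fun c hc => ?_
  have h1 : (2 * (RatFunc.X - RatFunc.C c) : RatFunc K)⁻¹ =
      RatFunc.C (2 : K)⁻¹ * (RatFunc.X - RatFunc.C c)⁻¹ := by
    rw [mul_inv, map_inv₀, map_ofNat]
  rw [h1]
  exact (OO S).mul_mem (C_mem_OO S _) (Subring.subset_closure (Or.inr ⟨c, h hc, rfl⟩))

lemma der_h (D : Derivation ℤ F F) (h2 : (2 : F) ≠ 0) (hx : D (xF K F) = 1)
    (hc : ∀ b : K, D (cF F b) = 0) (S₁ : Finset K) :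
    D (algebraMap (RatFunc K) F (hR S₁)) =
      2 * algebraMap (RatFunc K) F (wR S₁) * algebraMap (RatFunc K) F (hR S₁) := by
  classical
  induction S₁ using Finset.induction_on with
  | empty => simp [hR, wR]
  | insert c s hcs ih =>
    have e1 : hR (insert c s) = (RatFunc.X - RatFunc.C c) * hR s := by
      unfold hR; rw [Finset.prod_insert hcs]
    have e2 : wR (insert c s) = (2 * (RatFunc.X - RatFunc.C c))⁻¹ + wR s := by
      unfold wR; rw [Finset.sum_insert hcs]
    have e3 : D (algebraMap (RatFunc K) F (RatFunc.X - RatFunc.C c)) = 1 := by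
      have : algebraMap (RatFunc K) F (RatFunc.X - RatFunc.C c) = xF K F - cF F c := by
        unfold xF cF; rw [map_sub]
      rw [this, map_sub, hx, hc, sub_zero]
    have e4 : algebraMap (RatFunc K) F (RatFunc.X - RatFunc.C c) ≠ 0 := by
      rw [Ne, map_eq_zero]; exact XC_ne c
    rw [e1, e2, map_mul, Derivation.leibniz, ih, e3, map_add, map_inv₀, map_mul (algebraMap (RatFunc K) F) 2,
      map_ofNat, smul_eq_mul, smul_eq_mul]
    field_simp
    ring

lemma der_t_h (D : Derivation ℤ F F) (hx : D (xF K F) = 0) (S₁ : Finset K)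
    (hc : ∀ b ∈ S₁, D (cF F b) = 0) :
    D (algebraMap (RatFunc K) F (hR S₁)) = 0 ∧ D (algebraMap (RatFunc K) F (wR S₁)) = 0 := by
  classical
  have e3 : ∀ c ∈ S₁, D (algebraMap (RatFunc K) F (RatFunc.X - RatFunc.C c)) = 0 := by
    intro c hcS
    have : algebraMap (RatFunc K) F (RatFunc.X - RatFunc.C c) = xF K F - cF F c := by
      unfold xF cF; rw [map_sub]
    rw [this, map_sub, hx, hc c hcS, sub_zero]
  constructor
  · unfold hR
    induction S₁ using Finset.induction_on with
    | empty => simp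
    | insert c s hcs ih =>
      rw [Finset.prod_insert hcs, map_mul, Derivation.leibniz, e3 c (Finset.mem_insert_self _ _),
        ih (fun b hb => hc b (Finset.mem_insert_of_mem hb))
          (fun b hb => e3 b (Finset.mem_insert_of_mem hb)), smul_zero, smul_zero, add_zero]
  · unfold wR
    rw [map_sum, map_sum]
    refine Finset.sum_eq_zero fun c hcS => ?_
    have e5 : D (algebraMap (RatFunc K) F (2 * (RatFunc.X - RatFunc.C c))) = 0 := by
      rw [map_mul, Derivation.leibniz, e3 c hcS, map_ofNat, smul_zero, zero_add]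
      have : D ((OfNat.ofNat 2 : F)) = 0 := by
        have := D.map_natCast 2
        exact_mod_cast this
      rw [this, smul_zero]
    rw [map_inv₀, Derivation.leibniz_inv, e5, smul_zero]

end defs

section local_

variable {K : Type u} [Field K]

lemma V_of_sq {y s : LaurentSeries K} (h : s ^ 2 = y) {b : ℤ} (hy : RF.V y (2 * b)) : RF.V s b := by
  by_cases h0 : s = 0
  · intro m _
    rw [h0]; rfl
  have h1 : (s * s).coeff (s.order + s.order) = s.leadingCoeff * s.leadingCoeff :=
    HahnSeries.coeff_mul_order_add_order s s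
  have h2 : s.leadingCoeff * s.leadingCoeff ≠ 0 :=
    mul_ne_zero (HahnSeries.leadingCoeff_ne_zero.2 h0) (HahnSeries.leadingCoeff_ne_zero.2 h0)
  have h3 : 2 * b ≤ s.order + s.order := by
    by_contra hlt
    push Not at hlt
    apply h2
    rw [← h1, ← sq, h]
    exact hy _ hlt
  intro m hm
  apply HahnSeries.coeff_eq_zero_of_lt_order
  omega

/-- lowest coefficient of a product -/
lemma lead_mul {y z : LaurentSeries K} {a b : ℤ} (hy : RF.V y a) (hz : RF.V z b) :
    (y * z).coeff (a + b) = y.coeff a * z.coeff b := by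
  have h1 : RF.V (y - HahnSeries.single a (y.coeff a)) (a + 1) := by
    intro m hm
    rw [HahnSeries.coeff_sub, HahnSeries.coeff_single]
    split_ifs with h
    · rw [h, sub_self]
    · rw [hy m (by omega), sub_zero]
  have h2 : y * z = (y - HahnSeries.single a (y.coeff a)) * z +
      HahnSeries.single a (y.coeff a) * z := by ring
  rw [h2, HahnSeries.coeff_add, (h1.mul hz) (a + b) (by omega), zero_add, single_mul_coeff]
  congr 2
  ring

variable {F : Type v} [Field F] [Algebra (RatFunc K) F]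

/-- the twisted derivative in expansions -/
lemma tw_exp (h2 : (2 : K) ≠ 0) (D : Derivation ℤ F F) (hx : D (xF K F) = 1)
    (hc : ∀ b : K, D (cF F b) = 0) (S₁ : Finset K) (ξ : LaurentSeries K)
    (σ : F →+* LaurentSeries K) (hD : ∀ f, σ (D f) * der ξ = der (σ f)) (s : LaurentSeries K)
    (hs : s ^ 2 = σ (algebraMap (RatFunc K) F (hR S₁))) (f : F) :
    s * σ (twD D S₁ f) * der ξ = der (σ f * s) := by
  have h2F : (2 : F) ≠ 0 := by
    have : (2 : F) = algebraMap (RatFunc K) F (RatFunc.C (2 : K)) := by rw [map_ofNat, map_ofNat]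
    rw [this, Ne, map_eq_zero, map_eq_zero]; exact h2
  have h2L : (2 : LaurentSeries K) ≠ 0 := by
    have : (2 : LaurentSeries K) = σ (2 : F) := by rw [map_ofNat]
    rw [this, Ne, map_eq_zero]; exact h2F
  have hs0 : s ≠ 0 := by
    rintro rfl
    rw [zero_pow two_ne_zero] at hs
    have := hs.symm
    rw [map_eq_zero, map_eq_zero] at this
    exact hR_ne S₁ this
  have hLD := (part_LD K).2.1
  have h3 : der (s ^ 2) = 2 * s * der s := by rw [sq, hLD]; ring
  have h4 : der (s ^ 2) = 2 * σ (algebraMap (RatFunc K) F (wR S₁)) * s ^ 2 * der ξ := by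
    rw [hs, ← hD, der_h D h2F hx hc, map_mul, map_mul, map_ofNat]
  have h5 : der s = σ (algebraMap (RatFunc K) F (wR S₁)) * der ξ * s := by
    have h6 : 2 * s * (der s - σ (algebraMap (RatFunc K) F (wR S₁)) * der ξ * s) = 0 := by
      have := h3.symm.trans h4
      linear_combination this
    exact sub_eq_zero.1 ((mul_eq_zero.1 h6).resolve_left (mul_ne_zero h2L hs0))
  rw [hLD, h5, twD_eq, map_add, map_mul, ← hD f]
  ring

lemma hat_exp (h2 : (2 : K) ≠ 0) (δ : Derivation ℤ K K) (T : Derivation ℤ F F) (S₁ : Finset K)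
    (hT : T (algebraMap (RatFunc K) F (hR S₁)) = 0) (ω : LaurentSeries K)
    (σ : F →+* LaurentSeries K) (hσ : ∀ f, σ (T f) = hat δ (σ f) - ω * der (σ f))
    (s : LaurentSeries K) (hs : s ^ 2 = σ (algebraMap (RatFunc K) F (hR S₁))) (f : F) :
    s * σ (T f) = hat δ (σ f * s) - ω * der (σ f * s) := by
  have h2F : (2 : F) ≠ 0 := by
    have : (2 : F) = algebraMap (RatFunc K) F (RatFunc.C (2 : K)) := by rw [map_ofNat, map_ofNat]
    rw [this, Ne, map_eq_zero, map_eq_zero]; exact h2
  have h2L : (2 : LaurentSeries K) ≠ 0 := by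
    have : (2 : LaurentSeries K) = σ (2 : F) := by rw [map_ofNat]
    rw [this, Ne, map_eq_zero]; exact h2F
  have hs0 : s ≠ 0 := by
    rintro rfl
    rw [zero_pow two_ne_zero] at hs
    have := hs.symm
    rw [map_eq_zero, map_eq_zero] at this
    exact hR_ne S₁ this
  have hLD := (part_LD K).2.1
  have hLH := (part_LD K).2.2
  have h3 : der (s ^ 2) = 2 * s * der s := by rw [sq, hLD]; ring
  have h4 : hat δ (s ^ 2) = 2 * s * hat δ s := by rw [sq, hLH]; ring
  have h5 : hat δ (s ^ 2) - ω * der (s ^ 2) = 0 := by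
    rw [hs, ← hσ, hT, map_zero]
  have h6 : hat δ s - ω * der s = 0 := by
    rw [h3, h4] at h5
    have h7 : 2 * s * (hat δ s - ω * der s) = 0 := by linear_combination h5
    exact (mul_eq_zero.1 h7).resolve_left (mul_ne_zero h2L hs0)
  rw [hLD, hLH, hσ]
  linear_combination (-(σ f)) * h6

end local_

end Pool.Agent.N780.SB
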