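import Mathlib
import Pool.Agent.N780.SB.TWL

set_option autoImplicit false

/-!
Covers of the line with a moving simple branch point: exact holomorphic forms on double coverings
which are pulled back from the line.
-/

namespace Pool.Agent.N780.SB

universe u v w

/-- `g √h dx` is holomorphic (exponent `E`) -/
def HolTw {K : Type u} {F : Type v} [Field K] [Field F] [Algebra (RatFunc K) F] (S S₁ : Finset K)
    (E : ℕ) (g : F) : Prop :=
  (∀ c ∈ S, ∀ σ : F →+* LaurentSeries K, IsExp (atFin E c) σ → ∀ s, s ^ 2 = σ (hF F S₁) →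
    ∀ m : ℤ, m < 1 - E → (σ g * s).coeff m = 0) ∧
  (∀ σ : F →+* LaurentSeries K, IsExp (atInf K E) σ → ∀ s, s ^ 2 = σ (hF F S₁) →
    ∀ m : ℤ, m < E + 1 → (σ g * s).coeff m = 0)

lemma hR_poly {K : Type u} [Field K] (S₁ : Finset K) :
    hR S₁ = algebraMap (Polynomial K) (RatFunc K) (RF.D S₁) := by
  unfold hR RF.D
  rw [map_prod]
  exact Finset.prod_congr rfl fun c _ => by rw [map_sub, RatFunc.algebraMap_X, RatFunc.algebraMap_C]

lemma hR_inv_mem {K : Type u} [Field K] {S S₁ : Finset K} (h : S₁ ⊆ S) : (hR S₁)⁻¹ ∈ OO S := by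
  unfold hR
  rw [← Finset.prod_inv_distrib]
  exact prod_mem fun c hc => Subring.subset_closure (Or.inr ⟨c, h hc, rfl⟩)

/-- Exact holomorphic forms on the double covering `√h`. -/
theorem twisted_core (K : Type u) (F : Type v) [Field K] [Field F] [Algebra (RatFunc K) F]
    (p n E : ℕ) (hp : p.Prime) (hCh : CharP K p) (hn : 2 ≤ n) (hnp : n < p)
    (δ : Derivation ℤ K K) (hδ : ∀ a : K, δ^[p] a = 0) (t : K) (ht : δ t = 1)
    (S : Finset K) (hS : ∀ c ∈ S, δ c = 0) (hb : 2 * (n * (n - 1)) * S.card < p) (hE : ¬ p ∣ E)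
    (a : Fin n → F) (hA : IsAffineCurve S t a)
    (hSp : ∀ c ∈ S, Splits F n (atFin E c)) (hInf : Splits F n (atInf K E))
    (ht2 : Splits F n (atFin 2 t))
    (Dx : Derivation ℤ F F) (hx : Dx (xF K F) = 1) (hc : ∀ a : K, Dx (cF F a) = 0)
    (S₁ : Finset K) (hS₁ : S₁ ⊆ S)
    (hsq : ∀ c ∈ S, ∀ σ : F →+* LaurentSeries K, IsExp (atFin E c) σ →
      ∃ s, s ^ 2 = σ (algebraMap (RatFunc K) F (hR S₁)))
    (hsqi : ∀ σ : F →+* LaurentSeries K, IsExp (atInf K E) σ →
      ∃ s, s ^ 2 = σ (algebraMap (RatFunc K) F (hR S₁))) :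
    (∀ f, InA S a f → HolTw S S₁ E (twD Dx S₁ f) → Unr t (twD Dx S₁ f)) ∧
    ((∀ L : IntermediateField (RatFunc K) F, L = ⊥ ∨ L = ⊤) →
      ∀ f, InA S a f → HolTw S S₁ E (twD Dx S₁ f) →
        (∃ r ∈ OO S, twD Dx S₁ f = twD Dx S₁ (algebraMap (RatFunc K) F r)) ∧
        (S₁.card ≤ 2 → twD Dx S₁ f = 0)) := by
  have hn0 : 0 < n := by omega
  have hE0 : 0 < E := Nat.pos_of_ne_zero (fun h => hE (h ▸ dvd_zero p))
  have := hCh
  have : Fact p.Prime := ⟨hp⟩
  have : Algebra.IsSeparable (RatFunc K) F := part_SEP K F p n hp hCh hn0 hnp hA.rank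
  have : FiniteDimensional (RatFunc K) F :=
    FiniteDimensional.of_finrank_pos (by rw [hA.rank]; exact hn0)
  have h2 : (2 : K) ≠ 0 := by
    intro h
    have h3 : p ∣ 2 := (CharP.cast_eq_zero_iff K p 2).1 (by exact_mod_cast h)
    have := Nat.le_of_dvd (by norm_num) h3
    omega
  have hEK : (E : K) ≠ 0 := fun h => hE ((CharP.cast_eq_zero_iff K p E).1 h)
  have hnK : (n : K) ≠ 0 := fun h => by
    have := Nat.le_of_dvd hn0 ((CharP.cast_eq_zero_iff K p n).1 h)
    omega
  have htS : t ∉ S := fun h => by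
    have := hS t h
    rw [ht] at this
    exact one_ne_zero this
  obtain ⟨Dt, hDt1, hDt2⟩ := part_EXT K F δ
  obtain ⟨hcomm, hDxe, hDte, hDtp⟩ :=
    part_EXPO part_UNIQ part_UNIQ part_LD K F δ Dx Dt hx hc hDt1 hDt2
  obtain ⟨hAO, hAadd, hAmul, hAtr⟩ := part_ALG K F S t n a hA
  obtain ⟨σi, hσi1, hσi2⟩ := hInf
  obtain ⟨σt, hσt1, hσt2⟩ := ht2
  have hSp' : ∀ c : K, ∃ σ : Fin n → (F →+* LaurentSeries K),
      c ∈ S → Function.Injective σ ∧ ∀ i, IsExp (atFin E c) (σ i) := by
    intro c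
    by_cases h : c ∈ S
    · obtain ⟨σ, h1, h2⟩ := hSp c h
      exact ⟨σ, fun _ => ⟨h1, h2⟩⟩
    · exact ⟨σi, fun h' => absurd h' h⟩
  choose σc hσc using hSp'
  obtain ⟨j₁, j₂, hj, hpair, hoth⟩ :=
    part_PAIR part_TR part_INT K F h2 S t htS n hn0 a hA σt hσt1 hσt2
  let i0 : Fin n := ⟨0, hn0⟩
  obtain ⟨hTR1, hTR2, -⟩ := part_TR K F n hn0 hA.rank (atFin 2 t) σt hσt1 hσt2
  -- the x and t derivatives of elements of A
  have hXt : (RatFunc.X - RatFunc.C t : RatFunc K) ≠ 0 := by
    intro h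
    have h3 := congrArg (fun r => σt i0 (algebraMap (RatFunc K) F r)) h
    simp only [map_sub, map_zero] at h3
    have h4 : σt i0 (algebraMap (RatFunc K) F RatFunc.X) = atFin 2 t := (hσt2 i0).1
    have h5 : σt i0 (algebraMap (RatFunc K) F (RatFunc.C t)) = HahnSeries.C t := (hσt2 i0).2 t
    rw [h4, h5] at h3
    have h6 := congrArg (fun y : LaurentSeries K => y.coeff 2) h3
    simp [atFin, HahnSeries.coeff_single, HahnSeries.C_apply] at h6
  have hdisc : ∀ D : Derivation ℤ F F,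
      (∃ r ∈ OO S, D (xF K F) = algebraMap (RatFunc K) F r) →
      (∀ b : K, ∃ r ∈ OO S, D (cF F b) = algebraMap (RatFunc K) F r) →
      ∀ f, InA S a f → InA S a ((xF K F - cF F t) * D f) := by
    intro D h1 h2 f hf
    obtain ⟨r, hr, hri, hr0, hd⟩ := hA.disc
    have h3 := part_DISC K F S n a hA.rank hA.one hA.mul
      (by rw [hd]; exact mul_ne_zero hr0 hXt) D (part_DOO K F S D h1 h2) f hf
    rw [hd] at h3
    have h4 := hAmul _ _ (hAO r⁻¹ hri) h3
    have h5 : algebraMap (RatFunc K) F r⁻¹ *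
        (algebraMap (RatFunc K) F (r * (RatFunc.X - RatFunc.C t)) * D f) =
        (xF K F - cF F t) * D f := by
      have h6 : algebraMap (RatFunc K) F r ≠ 0 := by
        rw [Ne, map_eq_zero]; exact hr0
      unfold xF cF
      rw [map_mul, map_sub, map_inv₀]
      field_simp
    rwa [h5] at h4
  have hDx1 : ∃ r ∈ OO S, Dx (xF K F) = algebraMap (RatFunc K) F r :=
    ⟨1, (OO S).one_mem, by rw [hx, map_one]⟩
  have hDx2 : ∀ b : K, ∃ r ∈ OO S, Dx (cF F b) = algebraMap (RatFunc K) F r :=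
    fun b => ⟨0, (OO S).zero_mem, by rw [hc, map_zero]⟩
  have hDt1' : ∃ r ∈ OO S, Dt (xF K F) = algebraMap (RatFunc K) F r :=
    ⟨0, (OO S).zero_mem, by rw [hDt1, map_zero]⟩
  have hDt2' : ∀ b : K, ∃ r ∈ OO S, Dt (cF F b) = algebraMap (RatFunc K) F r :=
    fun b => ⟨RatFunc.C (δ b), C_mem_OO S _, by rw [hDt2]; rfl⟩
  have hxA : ∀ f, InA S a f → InA S a ((xF K F - cF F t) * Dx f) := hdisc Dx hDx1 hDx2
  have htA : ∀ f, InA S a f → InA S a ((xF K F - cF F t) * Dt f) := hdisc Dt hDt1' hDt2'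
  -- regularity at t
  have hreg : ∀ f, InA S a f → ∀ j, ∀ m : ℤ, m < 0 → (σt j f).coeff m = 0 :=
    fun f hf j m hm => part_INT K F S t htS n a hA (σt j) (hσt2 j) f hf m hm
  -- coefficients of the derivatives at t
  have hDxc : ∀ j f m, (σt j (Dx f)).coeff m * 2 = ((m + 2 : ℤ) : K) * (σt j f).coeff (m + 2) := by
    intro j f m
    have h := congrArg (fun y : LaurentSeries K => y.coeff (m + 1))
      (hDxe (atFin 2 t) (σt j) (hσt2 j) f)
    simp only [der_atFin, mul_single_coeff, der_coeff] at h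
    have e1 : m + 1 - (((2 : ℕ) : ℤ) - 1) = m := by push_cast; ring
    have e2 : m + 1 + 1 = m + 2 := by ring
    rw [e1, e2] at h
    exact_mod_cast h
  have hDtc : ∀ j f m, (σt j (Dt f)).coeff m =
      δ ((σt j f).coeff m) - 1 / 2 * (((m + 2 : ℤ) : K) * (σt j f).coeff (m + 2)) := by
    intro j f m
    have h := congrArg (fun y : LaurentSeries K => y.coeff m)
      (hDte (atFin 2 t) _ (σt j) (hσt2 j) (hat_atFin_two δ h2 t ht) f)
    simp only [HahnSeries.coeff_sub, single_mul_coeff, hat_coeff, der_coeff] at h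
    rw [h]
    have e1 : m - -1 + 1 = m + 2 := by ring
    rw [e1]
  -- the twist
  have hwO : wR S₁ ∈ OO S := wR_mem hS₁
  have hhO : hR S₁ ∈ OO S := hR_mem S S₁
  have hhiO : (hR S₁)⁻¹ ∈ OO S := hR_inv_mem hS₁
  obtain ⟨h, hh⟩ : ∃ h : F, h = algebraMap (RatFunc K) F (hR S₁) := ⟨_, rfl⟩
  obtain ⟨w, hw⟩ : ∃ w : F, w = algebraMap (RatFunc K) F (wR S₁) := ⟨_, rfl⟩
  have hh0 : h ≠ 0 := by rw [hh, Ne, map_eq_zero]; exact hR_ne S₁
  have htw : ∀ f, twD Dx S₁ f = Dx f + w * f := fun f => by rw [twD_eq, hw]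
  have hwA : InA S a w := by rw [hw]; exact hAO _ hwO
  have hhA : InA S a h := by rw [hh]; exact hAO _ hhO
  have hδS : ∀ b ∈ S₁, Dt (cF F b) = 0 := fun b hb' => by
    rw [hDt2, hS b (hS₁ hb')]; unfold cF; rw [map_zero, map_zero]
  have hDth : Dt h = 0 := by rw [hh]; exact (der_t_h Dt hDt1 S₁ hδS).1
  have hDtw : Dt w = 0 := by rw [hw]; exact (der_t_h Dt hDt1 S₁ hδS).2
  have hcomm' : ∀ f, twD Dx S₁ (Dt f) = Dt (twD Dx S₁ f) := by
    intro f
    rw [htw, htw, map_add, Derivation.leibniz, hDtw, hcomm]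
    simp
  have hxtw : ∀ f, InA S a f → InA S a ((xF K F - cF F t) * twD Dx S₁ f) := by
    intro f hf
    have h1 : (xF K F - cF F t) * twD Dx S₁ f = (xF K F - cF F t) * Dx f +
        algebraMap (RatFunc K) F (RatFunc.X - RatFunc.C t) * (w * f) := by
      rw [htw]
      unfold xF cF
      rw [map_sub]
      ring
    rw [h1]
    exact hAadd _ _ (hxA f hf) (hAmul _ _ (hAO _ ((OO S).sub_mem (X_mem_OO S) (C_mem_OO S t)))
      (hAmul _ _ hwA hf))
  have hsq' : ∀ c ∈ S, ∀ σ : F →+* LaurentSeries K, IsExp (atFin E c) σ → ∃ s, s ^ 2 = σ h := by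
    rw [hh]; exact hsq
  have hsqi' : ∀ σ : F →+* LaurentSeries K, IsExp (atInf K E) σ → ∃ s, s ^ 2 = σ h := by
    rw [hh]; exact hsqi
  have hhF : hF F S₁ = h := by rw [hF_eq, hh]
  -- regularity of h
  have hhV : ∀ (E' : ℕ) (c : K) (σ : F →+* LaurentSeries K), IsExp (atFin E' c) σ → RF.V (σ h) 0 := by
    intro E' c σ hσ
    rw [hh, hR_poly]
    exact RF.fin_V (φ := σ.comp (algebraMap (RatFunc K) F)) ⟨hσ.1, hσ.2⟩ _
  have hhVi : ∀ (σ : F →+* LaurentSeries K), IsExp (atInf K E) σ →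
      RF.V (σ h) (-(S₁.card * E : ℤ)) := by
    intro σ hσ
    rw [hh, hR_poly]
    change RF.V ((σ.comp (algebraMap (RatFunc K) F)) _) _
    rw [RF.D, map_prod, map_prod]
    refine (RF.V.prod S₁ _ (fun _ => -(E : ℤ)) fun c _ => RF.inf_sub c
      (χ := σ.comp (algebraMap (RatFunc K) F)) ⟨hσ.1, hσ.2⟩).mono ?_
    rw [Finset.sum_const, nsmul_eq_mul]
    linarith
  have hH0 : ∀ j, (σt j h).coeff 0 ≠ 0 := by
    intro j h0
    have h1 : InA S a (algebraMap (RatFunc K) F (hR S₁)⁻¹) := hAO _ hhiO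
    have h2' := lead_mul (a := 0) (b := 0) (hhV 2 t _ (hσt2 j)) (fun m hm => hreg _ h1 j m hm)
    rw [h0, zero_mul, ← map_mul, map_inv₀, ← hh, mul_inv_cancel₀ hh0, map_one] at h2'
    simp at h2'
  -- the pairing
  have hpairing : ∀ f, InA S a f → HolTw S S₁ E (twD Dx S₁ f) →
      (σt j₁ f).coeff 1 = 0 := by
    intro f hf hhol0
    obtain ⟨h1, h3⟩ := hhol0
    rw [hhF] at h1 h3
    set R := Algebra.trace (RatFunc K) F (Dt f * twD Dx S₁ f * h) with hRdef
    have hR' : (RatFunc.X - RatFunc.C t) ^ 2 * R ∈ OO S := by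
      have h4 := hAtr _ (hAmul _ _ (hAmul _ _ (htA f hf) (hxtw f hf)) hhA)
      have h5 : (xF K F - cF F t) * Dt f * ((xF K F - cF F t) * twD Dx S₁ f) * h =
          ((RatFunc.X - RatFunc.C t) ^ 2 : RatFunc K) • (Dt f * twD Dx S₁ f * h) := by
        rw [Algebra.smul_def, map_pow, map_sub]
        unfold xF cF
        ring
      rw [h5, map_smul, smul_eq_mul] at h4
      exact h4
    have hres := part_RES K S t htS E hE0 (fun c => (σc c i0).comp (algebraMap (RatFunc K) F))
      ((σt i0).comp (algebraMap (RatFunc K) F)) ((σi i0).comp (algebraMap (RatFunc K) F))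
      (fun c hcS => ⟨((hσc c hcS).2 i0).1, ((hσc c hcS).2 i0).2⟩)
      ⟨(hσt2 i0).1, (hσt2 i0).2⟩ ⟨(hσi2 i0).1, (hσi2 i0).2⟩ R 2 hR'
    have hloc0 : ∀ (ξ : LaurentSeries K) (σ : Fin n → (F →+* LaurentSeries K)),
        Function.Injective σ → (∀ i, IsExp ξ (σ i)) → hat δ ξ = 0 →
        (∀ j, ∃ s, s ^ 2 = σ j h) →
        (∀ j, ∀ s, s ^ 2 = σ j h → ∀ m : ℤ, m < 0 →
          (σ j (twD Dx S₁ f) * s * der ξ).coeff m = 0) →
        (σ i0 (algebraMap (RatFunc K) F R) * der ξ).coeff (-1) = 0 := by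
      intro ξ σ hσ1 hσ2 hξ hs hhol
      obtain ⟨-, hTR, -⟩ := part_TR K F n hn0 hA.rank ξ σ hσ1 hσ2
      rw [hRdef, hTR, Finset.sum_mul, HahnSeries.coeff_sum]
      refine Finset.sum_eq_zero fun j _ => ?_
      obtain ⟨s, hs⟩ := hs j
      have hd := tw_exp h2 Dx hx hc S₁ ξ (σ j) (hDxe ξ (σ j) (hσ2 j)) s (by rw [hs, hh]) f
      have ht' := hat_exp h2 δ Dt S₁ (by rw [← hh]; exact hDth) 0 (σ j)
        (hDte ξ 0 (σ j) (hσ2 j) (by rw [hξ, zero_mul])) s (by rw [hs, hh]) f
      rw [zero_mul, sub_zero] at ht'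
      have e1 : σ j (Dt f * twD Dx S₁ f * h) * der ξ = hat δ (σ j f * s) * der (σ j f * s) := by
        rw [map_mul, map_mul, ← hs, ← hd, ← ht']
        ring
      rw [e1]
      refine (part_LOC K δ (σ j f * s)).1 fun m hm => ?_
      rw [← hd, mul_comm s]
      exact hhol j s hs m hm
    have hc0 : ∀ c ∈ S, (σc c i0 (algebraMap (RatFunc K) F R) * der (atFin E c)).coeff (-1) = 0 := by
      intro c hcS
      refine hloc0 (atFin E c) (σc c) (hσc c hcS).1 (hσc c hcS).2 (hat_atFin δ E c (hS c hcS))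
        (fun j => hsq' c hcS _ ((hσc c hcS).2 j)) ?_
      intro j s hs m hm
      rw [der_atFin, mul_single_coeff, h1 c hcS (σc c j) ((hσc c hcS).2 j) s hs _ (by linarith),
        zero_mul]
    have hi0 : (σi i0 (algebraMap (RatFunc K) F R) * der (atInf K E)).coeff (-1) = 0 := by
      refine hloc0 (atInf K E) σi hσi1 hσi2 (hat_atInf δ E)
        (fun j => hsqi' _ (hσi2 j)) ?_
      intro j s hs m hm
      rw [der_atInf, mul_single_coeff, h3 (σi j) (hσi2 j) s hs _ (by linarith), zero_mul]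
    have ht0 : (σt i0 (algebraMap (RatFunc K) F R) * der (atFin 2 t)).coeff (-1) =
        -((σt j₁ f).coeff 1) ^ 2 * (σt j₁ h).coeff 0 := by
      rw [hRdef, hTR2, Finset.sum_mul, HahnSeries.coeff_sum]
      have e1 : ∀ j, (σt j (Dt f * twD Dx S₁ f * h) * der (atFin 2 t)).coeff (-1) =
          -((σt j f).coeff 1) ^ 2 / 2 * (σt j h).coeff 0 := by
        intro j
        have e2 : σt j (Dt f * twD Dx S₁ f * h) * der (atFin 2 t) =
            σt j (Dt f) * (der (σt j f) + σt j (w * f) * der (atFin 2 t)) * σt j h := by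
          rw [← hDxe (atFin 2 t) (σt j) (hσt2 j) f, htw, map_mul, map_mul, map_add]
          ring
        have v1 : RF.V (σt j (Dt f)) (-1) := by
          intro m hm
          rw [hDtc, hreg f hf j m (by omega), map_zero]
          have h4 : ((m + 2 : ℤ) : K) * (σt j f).coeff (m + 2) = 0 := by
            rcases lt_trichotomy m (-2) with h5 | h5 | h5
            · rw [hreg f hf j (m + 2) (by omega), mul_zero]
            · subst h5; simp
            · omega
          rw [h4]; simp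
        have c1 : (σt j (Dt f)).coeff (-1) = -((σt j f).coeff 1) / 2 := by
          rw [hDtc, hreg f hf j (-1) (by norm_num), map_zero,
            show (-1 + 2 : ℤ) = 1 by norm_num, Int.cast_one]
          ring
        have v2' : RF.V (σt j (w * f)) 0 := fun m hm => hreg _ (hAmul _ _ hwA hf) j m hm
        have v2 : RF.V (der (σt j f) + σt j (w * f) * der (atFin 2 t)) 0 := by
          intro m hm
          rw [HahnSeries.coeff_add, der_coeff, der_atFin, mul_single_coeff, v2' _ (by push_cast; omega),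
            zero_mul, add_zero]
          by_cases h4 : m + 1 = 0
          · rw [h4, Int.cast_zero, zero_mul]
          · rw [hreg f hf j (m + 1) (by omega), mul_zero]
        have c2 : (der (σt j f) + σt j (w * f) * der (atFin 2 t)).coeff 0 = (σt j f).coeff 1 := by
          rw [HahnSeries.coeff_add, der_coeff, der_atFin, mul_single_coeff, v2' _ (by norm_num),
            zero_mul, add_zero, zero_add, Int.cast_one, one_mul]
        have v3 := hhV 2 t _ (hσt2 j)
        have h6 := lead_mul (v1.mul v2) v3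
        rw [lead_mul v1 v2, c1, c2] at h6
        rw [e2, show (-1 : ℤ) = -1 + 0 + 0 by norm_num, h6]
        ring
      rw [Fintype.sum_eq_add j₁ j₂ hj]
      · rw [e1, e1, hpair f 1, hpair h 0]
        simp
        field_simp
        ring
      · intro j hjj
        rw [e1, hoth j hjj.1 hjj.2 f 1 (by decide)]
        simp
    simp only [RingHom.comp_apply] at hres
    rw [Finset.sum_eq_zero hc0, hi0, ht0] at hres
    have h7 : (E : K) * (σt j₁ h).coeff 0 * ((σt j₁ f).coeff 1) ^ 2 = 0 := by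
      linear_combination -hres
    rcases mul_eq_zero.1 h7 with h8 | h8
    · rcases mul_eq_zero.1 h8 with h9 | h9
      · exact absurd h9 hEK
      · exact absurd h9 (hH0 j₁)
    · exact pow_eq_zero_iff (two_ne_zero) |>.1 h8
  have hc1 : ∀ f, (σt j₁ f).coeff 1 = 0 → ∀ j, (σt j f).coeff 1 = 0 := by
    intro f h j
    by_cases h3 : j = j₁
    · rw [h3, h]
    · by_cases h4 : j = j₂
      · rw [h4, hpair f 1, h, mul_zero]
      · exact hoth j h3 h4 f 1 (by decide)
  have hxt : ∀ (D : Derivation ℤ F F) (f : F), InA S a ((xF K F - cF F t) * D f) →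
      (∀ j, ∀ m : ℤ, m < 0 → (σt j (D f)).coeff m = 0) → InA S a (D f) := by
    intro D f h1 h3
    exact part_MAX part_TR part_INT K F h2 S t htS n hn0 a hA σt hσt1 hσt2 (D f) h1 h3
  have hDxA : ∀ f, InA S a f → (∀ j, (σt j f).coeff 1 = 0) → InA S a (Dx f) := by
    intro f hf h1
    refine hxt Dx f (hxA f hf) fun j m hm => ?_
    have h3 := hDxc j f m
    have h4 : ((m + 2 : ℤ) : K) * (σt j f).coeff (m + 2) = 0 := by
      rcases lt_trichotomy m (-2) with h5 | h5 | h5
      · rw [hreg f hf j (m + 2) (by omega), mul_zero]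
      · subst h5; simp
      · have h6 : m = -1 := by omega
        subst h6
        rw [show (-1 + 2 : ℤ) = 1 by norm_num, h1 j, mul_zero]
    rw [h4] at h3
    exact (mul_eq_zero.1 h3).resolve_right h2
  have hDtA : ∀ f, InA S a f → (∀ j, (σt j f).coeff 1 = 0) → InA S a (Dt f) := by
    intro f hf h1
    refine hxt Dt f (htA f hf) fun j m hm => ?_
    rw [hDtc, hreg f hf j m hm, map_zero]
    have h4 : ((m + 2 : ℤ) : K) * (σt j f).coeff (m + 2) = 0 := by
      rcases lt_trichotomy m (-2) with h5 | h5 | h5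
      · rw [hreg f hf j (m + 2) (by omega), mul_zero]
      · subst h5; simp
      · have h6 : m = -1 := by omega
        subst h6
        rw [show (-1 + 2 : ℤ) = 1 by norm_num, h1 j, mul_zero]
    rw [h4]; simp
  -- stability
  have hstab : ∀ f, InA S a f → HolTw S S₁ E (twD Dx S₁ f) →
      InA S a (Dt f) ∧ HolTw S S₁ E (twD Dx S₁ (Dt f)) := by
    intro f hf hhol0
    refine ⟨hDtA f hf (hc1 f (hpairing f hf hhol0)), ?_, ?_⟩
    · intro c hcS σ hσ s hs m hm
      have ht' := hat_exp h2 δ Dt S₁ (by rw [← hh]; exact hDth) 0 σ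
        (hDte (atFin E c) 0 σ hσ (by rw [hat_atFin δ E c (hS c hcS), zero_mul])) s
        (by rw [hs, hhF, hh]) (twD Dx S₁ f)
      rw [hcomm', mul_comm, ht', zero_mul, sub_zero, hat_coeff, hhol0.1 c hcS σ hσ s hs m hm, map_zero]
    · intro σ hσ s hs m hm
      have ht' := hat_exp h2 δ Dt S₁ (by rw [← hh]; exact hDth) 0 σ
        (hDte (atInf K E) 0 σ hσ (by rw [hat_atInf δ E, zero_mul])) s
        (by rw [hs, hhF, hh]) (twD Dx S₁ f)
      rw [hcomm', mul_comm, ht', zero_mul, sub_zero, hat_coeff, hhol0.2 σ hσ s hs m hm, map_zero]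
  -- flat elements
  have hflat : ∀ f, InA S a f → HolTw S S₁ E (twD Dx S₁ f) →
      Unr t (Dt (twD Dx S₁ f)) → Unr t (twD Dx S₁ f) := by
    intro f hf hhol0 h4
    have hf1 := hc1 f (hpairing f hf hhol0)
    have hgA : InA S a (twD Dx S₁ f) := by
      rw [htw]; exact hAadd _ _ (hDxA f hf hf1) (hAmul _ _ hwA hf)
    obtain ⟨h1, h3⟩ := hhol0
    rw [hhF] at h1 h3
    set g := twD Dx S₁ f with hg
    have hrec : ∀ j (m : ℤ), Odd m → δ ((σt j g).coeff m) =
        1 / 2 * (((m + 2 : ℤ) : K) * (σt j g).coeff (m + 2)) := by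
      intro j m hmo
      have h5 := hDtc j g m
      rw [h4 (σt j) (hσt2 j) m hmo] at h5
      exact (sub_eq_zero.1 h5.symm)
    have hodd : ∀ j, ∀ k : ℕ, 2 * k + 1 < p → (σt j g).coeff (2 * (k : ℤ) + 1) = 0 := by
      intro j k
      induction k with
      | zero =>
        intro _
        have h5 := hrec j (-1) (by decide)
        rw [hreg g hgA j (-1) (by norm_num), map_zero] at h5
        simp only [show (-1 + 2 : ℤ) = 1 by norm_num, Int.cast_one, one_mul] at h5
        have h6 := (mul_eq_zero.1 h5.symm).resolve_left (by simpa using h2)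
        simpa using h6
      | succ k ih =>
        intro hk
        have h5 := hrec j (2 * (k : ℤ) + 1) ⟨k, rfl⟩
        rw [ih (by omega), map_zero] at h5
        have h6 := (mul_eq_zero.1 h5.symm).resolve_left (by simpa using h2)
        have h7 : (((2 * (k : ℤ) + 1 + 2 : ℤ)) : K) ≠ 0 := by
          have e1 : (((2 * (k : ℤ) + 1 + 2 : ℤ)) : K) = ((2 * k + 3 : ℕ) : K) := by
            push_cast; ring
          rw [e1]
          intro h8
          have h9 := Nat.le_of_dvd (by omega) ((CharP.cast_eq_zero_iff K p (2 * k + 3)).1 h8)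
          omega
        have h8 := (mul_eq_zero.1 h6).resolve_left h7
        have e2 : (2 * ((k + 1 : ℕ) : ℤ) + 1) = 2 * (k : ℤ) + 1 + 2 := by push_cast; ring
        rw [e2, h8]
    have hdiff : ∀ m : ℤ, m < p → (σt j₁ g - σt j₂ g).coeff m = 0 := by
      intro m hm
      rw [HahnSeries.coeff_sub, hpair g m]
      rcases lt_or_ge m 0 with h5 | h5
      · rw [hreg g hgA j₁ m h5]; simp
      · rcases Int.even_or_odd' m with ⟨k, h6 | h6⟩
        · have h7 : Even m.natAbs := by
            rw [Int.natAbs_even]; exact ⟨k, by omega⟩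
          rw [h7.neg_one_pow, one_mul, sub_self]
        · obtain ⟨k', rfl⟩ : ∃ k' : ℕ, k = k' := ⟨k.toNat, by omega⟩
          rw [h6, hodd j₁ k' (by omega)]; simp
    have hσh : σt j₁ h = σt j₂ h := by
      have h5 : (σt j₁).comp (algebraMap (RatFunc K) F) = (σt j₂).comp (algebraMap (RatFunc K) F) :=
        TR933.ratExt _ _ ((hσt2 j₁).1.trans (hσt2 j₂).1.symm)
          fun b => ((hσt2 j₁).2 b).trans ((hσt2 j₂).2 b).symm
      rw [hh]
      exact congrArg (fun φ : RatFunc K →+* LaurentSeries K => φ (hR S₁)) h5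
    have hcardS : (S₁.card : ℤ) ≤ S.card := by exact_mod_cast Finset.card_le_card hS₁
    have hE0' : (0 : ℤ) ≤ E := Nat.cast_nonneg _
    have heq' := unr3 part_VDM K F p n E hn0 hE0 hA.rank S t hb σc
      (fun c hcS => hσc c hcS) σi hσi1 hσi2 σt hσt1 hσt2 (g * h)
      (exists_poly hA.one hAadd hAmul hAO _ (hAmul _ _ hgA hhA))
      (by
        intro c hcS i
        obtain ⟨s, hs⟩ := hsq' c hcS _ ((hσc c hcS).2 i)
        have v1 : RF.V (σc c i g * s) (1 - E) := h1 c hcS _ ((hσc c hcS).2 i) s hs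
        have v2 : RF.V s 0 := V_of_sq hs (by rw [mul_zero]; exact hhV E c _ ((hσc c hcS).2 i))
        have e1 : σc c i (g * h) = σc c i g * s * s := by rw [map_mul, ← hs]; ring
        rw [e1]
        exact (v1.mul v2).mono (by linarith))
      (by
        intro i
        obtain ⟨s, hs⟩ := hsqi' _ (hσi2 i)
        have v1 : RF.V (σi i g * s) (E + 1) := h3 _ (hσi2 i) s hs
        have v2 : RF.V s (-(S.card * E : ℤ)) := V_of_sq hs ((hhVi _ (hσi2 i)).mono (by nlinarith))
        have e1 : σi i (g * h) = σi i g * s * s := by rw [map_mul, ← hs]; ring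
        rw [e1]
        exact (v1.mul v2).mono (by linarith))
      (fun i m hm => hreg _ (hAmul _ _ hgA hhA) i m hm) j₁ j₂
      (by
        have e1 : σt j₁ (g * h) - σt j₂ (g * h) = (σt j₁ g - σt j₂ g) * σt j₁ h := by
          rw [map_mul, map_mul, ← hσh]; ring
        rw [e1]
        have v1 : RF.V (σt j₁ g - σt j₂ g) p := hdiff
        exact (v1.mul (hhV 2 t _ (hσt2 j₁))).mono (by linarith))
    have heq : σt j₁ g = σt j₂ g := by
      rw [map_mul, map_mul, ← hσh] at heq'
      refine mul_right_cancel₀ ?_ heq'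
      rw [Ne, map_eq_zero]; exact hh0
    intro σ hσ m hm
    obtain ⟨j, rfl⟩ := hTR1 σ hσ
    have h5 : (σt j₁ g).coeff m = 0 := by
      have h6 := hpair g m
      rw [← heq] at h6
      have h7 : Odd m.natAbs := by rw [Int.natAbs_odd]; exact hm
      rw [h7.neg_one_pow] at h6
      have h8 : 2 * (σt j₁ g).coeff m = 0 := by linear_combination h6
      exact (mul_eq_zero.1 h8).resolve_left h2
    by_cases h6 : j = j₁
    · rw [h6, h5]
    · by_cases h7 : j = j₂
      · rw [h7, ← heq, h5]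
      · exact hoth j h6 h7 g m hm
  -- the general statement
  have hgen : ∀ f, InA S a f → HolTw S S₁ E (twD Dx S₁ f) → Unr t (twD Dx S₁ f) := by
    intro f hf h1
    have hit : ∀ k : ℕ, ∃ f', InA S a f' ∧ HolTw S S₁ E (twD Dx S₁ f') ∧
        twD Dx S₁ f' = Dt^[k] (twD Dx S₁ f) := by
      intro k
      induction k with
      | zero => exact ⟨f, hf, h1, rfl⟩
      | succ k ih =>
        obtain ⟨f', a1, a2, a4⟩ := ih
        obtain ⟨b1, b2⟩ := hstab f' a1 a2
        refine ⟨Dt f', b1, b2, ?_⟩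
        rw [hcomm', a4, Function.iterate_succ_apply']
    have hun : ∀ k : ℕ, k ≤ p → Unr t (Dt^[p - k] (twD Dx S₁ f)) := by
      intro k
      induction k with
      | zero =>
        intro _ σ _ m _
        rw [Nat.sub_zero, hDtp p hp hCh hδ (twD Dx S₁ f), map_zero, HahnSeries.coeff_zero]
      | succ k ih =>
        intro hk
        obtain ⟨f', a1, a2, a4⟩ := hit (p - (k + 1))
        rw [← a4]
        refine hflat f' a1 a2 ?_
        rw [a4, ← Function.iterate_succ_apply' (⇑Dt)]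
        have e1 : (p - (k + 1)).succ = p - k := by omega
        rw [e1]
        exact ih (by omega)
    have h5 := hun p le_rfl
    rw [Nat.sub_self] at h5
    exact h5
  refine ⟨hgen, fun hmin f hf hhol => ?_⟩
  have hunr := hgen f hf hhol
  have hgA : InA S a (twD Dx S₁ f) := by
    rw [htw]
    exact hAadd _ _ (hDxA f hf (hc1 f (hpairing f hf hhol))) (hAmul _ _ hwA hf)
  obtain ⟨h1, h3⟩ := hhol
  rw [hhF] at h1 h3
  obtain ⟨L, hL⟩ := part_L0 K F h2 t
  have hbot : L = ⊥ := by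
    rcases hmin L with h | h
    · exact h
    · exfalso
      apply hj
      apply hσt1
      ext1 f
      have h5 : Unr t f := by rw [← hL, h]; trivial
      ext m
      rw [hpair f m]
      rcases Int.even_or_odd m with h6 | h6
      · have h7 : Even m.natAbs := by rw [Int.natAbs_even]; exact h6
        rw [h7.neg_one_pow, one_mul]
      · rw [h5 (σt j₁) (hσt2 j₁) m h6, mul_zero]
  have hfL : twD Dx S₁ f ∈ L := (hL _).2 hunr
  rw [hbot, IntermediateField.mem_bot] at hfL
  obtain ⟨r0, hr0⟩ := hfL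
  have hnb : RatFunc.C (n : K)⁻¹ * (n : RatFunc K) = 1 := by
    rw [← map_natCast (RatFunc.C : K →+* RatFunc K) n, ← map_mul, inv_mul_cancel₀ hnK, map_one]
  have hr0O : r0 ∈ OO S := by
    have h5 := hAtr _ hgA
    rw [← hr0, Algebra.trace_algebraMap, hA.rank] at h5
    have h6 := (OO S).mul_mem (C_mem_OO S (n : K)⁻¹) h5
    have h7 : RatFunc.C (n : K)⁻¹ * n • r0 = r0 := by
      rw [nsmul_eq_mul, ← mul_assoc, hnb, one_mul]
    rwa [h7] at h6
  constructor
  · refine ⟨RatFunc.C (n : K)⁻¹ * Algebra.trace (RatFunc K) F f,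
      (OO S).mul_mem (C_mem_OO S _) (hAtr _ hf), ?_⟩
    have hdξ : der (atFin 2 t : LaurentSeries K) ≠ 0 := by
      rw [der_atFin]
      intro h0
      have h5 := congrArg (fun y : LaurentSeries K => y.coeff (((2 : ℕ) : ℤ) - 1)) h0
      simp only [HahnSeries.coeff_single_same, HahnSeries.coeff_zero] at h5
      exact h2 (by exact_mod_cast h5)
    have htrD : Dx (algebraMap (RatFunc K) F (Algebra.trace (RatFunc K) F f)) =
        algebraMap (RatFunc K) F (Algebra.trace (RatFunc K) F (Dx f)) := by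
      apply (σt i0).injective
      refine mul_right_cancel₀ hdξ ?_
      rw [hDxe (atFin 2 t) (σt i0) (hσt2 i0), hTR2, hTR2, Finset.sum_mul]
      have e1 : der (∑ j, σt j f) = ∑ j, der (σt j f) := by unfold der; rw [map_sum]
      rw [e1]
      exact Finset.sum_congr rfl fun j _ => (hDxe (atFin 2 t) (σt j) (hσt2 j) f).symm
    have htrw : Algebra.trace (RatFunc K) F (w * f) = wR S₁ * Algebra.trace (RatFunc K) F f := by
      rw [hw, ← Algebra.smul_def, map_smul, smul_eq_mul]
    have htrg : Algebra.trace (RatFunc K) F (Dx f) + wR S₁ * Algebra.trace (RatFunc K) F f =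
        (n : RatFunc K) * r0 := by
      rw [← htrw, ← map_add, ← htw, ← hr0, Algebra.trace_algebraMap, hA.rank, nsmul_eq_mul]
    have hcn : Dx (algebraMap (RatFunc K) F (RatFunc.C (n : K)⁻¹)) = 0 := hc _
    rw [htw (algebraMap (RatFunc K) F _), map_mul, Derivation.leibniz, hcn, smul_zero, add_zero,
      smul_eq_mul, htrD, ← hr0]
    have e2 : algebraMap (RatFunc K) F (RatFunc.C (n : K)⁻¹) *
        algebraMap (RatFunc K) F (Algebra.trace (RatFunc K) F (Dx f)) +
        w * (algebraMap (RatFunc K) F (RatFunc.C (n : K)⁻¹) *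
          algebraMap (RatFunc K) F (Algebra.trace (RatFunc K) F f)) =
        algebraMap (RatFunc K) F (RatFunc.C (n : K)⁻¹ *
          (Algebra.trace (RatFunc K) F (Dx f) + wR S₁ * Algebra.trace (RatFunc K) F f)) := by
      rw [hw, map_mul, map_add, map_mul]
      ring
    rw [e2, htrg, ← mul_assoc, hnb, one_mul]
  · intro hcard
    have hE0' : (0 : ℤ) ≤ E := Nat.cast_nonneg _
    have hcard' : (S₁.card : ℤ) ≤ 2 := by exact_mod_cast hcard
    have hQO : r0 * hR S₁ ∈ OO S := (OO S).mul_mem hr0O hhO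
    have hag : algebraMap (RatFunc K) F (r0 * hR S₁) = twD Dx S₁ f * h := by
      rw [map_mul, hr0, hh]
    obtain ⟨P, hP⟩ := RF.poly hE0 (fun c => (σc c i0).comp (algebraMap (RatFunc K) F))
      (fun c hcS => ⟨((hσc c hcS).2 i0).1, ((hσc c hcS).2 i0).2⟩) hQO (by
        intro c hcS
        obtain ⟨s, hs⟩ := hsq' c hcS _ ((hσc c hcS).2 i0)
        have v1 : RF.V (σc c i0 (twD Dx S₁ f) * s) (1 - E) := h1 c hcS _ ((hσc c hcS).2 i0) s hs
        have v2 : RF.V s 0 := V_of_sq hs (by rw [mul_zero]; exact hhV E c _ ((hσc c hcS).2 i0))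
        have e1 : ((σc c i0).comp (algebraMap (RatFunc K) F)) (r0 * hR S₁) =
            σc c i0 (twD Dx S₁ f) * s * s := by
          rw [RingHom.comp_apply, hag, map_mul, ← hs]; ring
        change RF.V (((σc c i0).comp (algebraMap (RatFunc K) F)) (r0 * hR S₁)) _
        rw [e1]
        exact (v1.mul v2).mono (by linarith))
    have hVi : RF.V (((σi i0).comp (algebraMap (RatFunc K) F))
        (algebraMap (Polynomial K) (RatFunc K) P)) 1 := by
      obtain ⟨s, hs⟩ := hsqi' _ (hσi2 i0)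
      have v1 : RF.V (σi i0 (twD Dx S₁ f) * s) (E + 1) := h3 _ (hσi2 i0) s hs
      have v2 : RF.V s (-(E : ℤ)) := V_of_sq hs ((hhVi _ (hσi2 i0)).mono (by nlinarith))
      have e1 : ((σi i0).comp (algebraMap (RatFunc K) F)) (r0 * hR S₁) =
          σi i0 (twD Dx S₁ f) * s * s := by
        rw [RingHom.comp_apply, hag, map_mul, ← hs]; ring
      rw [← hP, e1]
      exact (v1.mul v2).mono (by linarith)
    have hP0 : P = 0 := by
      by_contra hne
      have h5 := RF.inf_deg hE0 (χ := (σi i0).comp (algebraMap (RatFunc K) F))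
        ⟨(hσi2 i0).1, (hσi2 i0).2⟩ hne hVi
      have h6 : (0 : ℤ) ≤ P.natDegree * E := by positivity
      linarith
    rw [hP0, map_zero] at hP
    rw [hP, map_zero] at hag
    exact (mul_eq_zero.1 hag.symm).resolve_right hh0

end Pool.Agent.N780.SB
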