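import Mathlib
import Pool.Agent.N780.SB.Main
import Pool.Agent.N780.SB.L0
import Pool.Agent.N780.SB.UNR3
import Pool.Agent.N780.SB.TWL
import Pool.Agent.N780.SB.Defs9

set_option autoImplicit false

/-!
Twists by `m`-th roots of rational functions: lemmas.
-/

namespace Pool.Agent.N780.SB

universe u v w

section defs

variable {K : Type u} [Field K]

/-- `h = ∏ (x - c) ^ e_c`, `c ∈ S₁`, as a rational function -/
noncomputable def hM (S₁ : Finset K) (e : K → ℕ) : RatFunc K :=
  ∏ c ∈ S₁, (RatFunc.X - RatFunc.C c) ^ e c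

/-- `h' / (m h)` -/
noncomputable def wM (S₁ : Finset K) (m : ℕ) (e : K → ℕ) : RatFunc K :=
  ∑ c ∈ S₁, RatFunc.C (e c / m : K) * (RatFunc.X - RatFunc.C c)⁻¹

variable {F : Type v} [Field F] [Algebra (RatFunc K) F]

lemma hT_eq (S₁ : Finset K) (e : K → ℕ) : hT F S₁ e = algebraMap (RatFunc K) F (hM S₁ e) := by
  unfold hT hM xF cF
  rw [map_prod]
  exact Finset.prod_congr rfl fun c _ => by rw [map_pow, map_sub]

lemma twM_eq (D : Derivation ℤ F F) (S₁ : Finset K) (m : ℕ) (e : K → ℕ) (f : F) :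
    twM D S₁ m e f = D f + algebraMap (RatFunc K) F (wM S₁ m e) * f := by
  unfold twM wM xF cF
  rw [map_sum]
  congr 2
  refine Finset.sum_congr rfl fun c _ => ?_
  rw [map_mul, map_inv₀, map_sub]

lemma hM_ne (S₁ : Finset K) (e : K → ℕ) : hM S₁ e ≠ 0 :=
  Finset.prod_ne_zero_iff.2 fun c _ => pow_ne_zero _ (XC_ne c)

lemma hM_mem (S S₁ : Finset K) (e : K → ℕ) : hM S₁ e ∈ OO S :=
  prod_mem fun c _ => (OO S).pow_mem ((OO S).sub_mem (X_mem_OO S) (C_mem_OO S c)) _

lemma hM_inv_mem {S S₁ : Finset K} (h : S₁ ⊆ S) (e : K → ℕ) : (hM S₁ e)⁻¹ ∈ OO S := by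
  unfold hM
  rw [← Finset.prod_inv_distrib]
  refine prod_mem fun c hc => ?_
  rw [← inv_pow]
  exact (OO S).pow_mem (Subring.subset_closure (Or.inr ⟨c, h hc, rfl⟩)) _

lemma wM_mem {S S₁ : Finset K} (h : S₁ ⊆ S) (m : ℕ) (e : K → ℕ) : wM S₁ m e ∈ OO S := by
  refine sum_mem fun c hc => ?_
  exact (OO S).mul_mem (C_mem_OO S _) (Subring.subset_closure (Or.inr ⟨c, h hc, rfl⟩))

lemma hM_poly (S₁ : Finset K) (e : K → ℕ) :
    hM S₁ e = algebraMap (Polynomial K) (RatFunc K)
      (∏ c ∈ S₁, (Polynomial.X - Polynomial.C c) ^ e c) := by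
  unfold hM
  rw [map_prod]
  exact Finset.prod_congr rfl fun c _ => by
    rw [map_pow, map_sub, RatFunc.algebraMap_X, RatFunc.algebraMap_C]

lemma hM_mul (S₁ : Finset K) (m : ℕ) (e : K → ℕ) (he : ∀ c ∈ S₁, e c ≤ m) :
    hM S₁ e * hM S₁ (fun c => m - e c) = hM S₁ (fun _ => 1) ^ m := by
  unfold hM
  rw [← Finset.prod_mul_distrib, ← Finset.prod_pow]
  refine Finset.prod_congr rfl fun c hc => ?_
  rw [← pow_add, Nat.add_sub_cancel' (he c hc), pow_one]

lemma pow_rule {R : Type*} [CommRing R] (d : R → R) (hd : ∀ y z, d (y * z) = y * d z + z * d y)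
    (s : R) (k : ℕ) : s * d (s ^ k) = k * s ^ k * d s := by
  induction k with
  | zero =>
    have h1 : d 1 = 0 := by
      have := hd 1 1
      rw [one_mul, one_mul] at this
      linear_combination -this
    rw [pow_zero, h1]; simp
  | succ k ih =>
    rw [pow_succ, hd]
    push_cast
    linear_combination s * ih

lemma der_hM (D : Derivation ℤ F F) (m : ℕ) (hm : (m : K) ≠ 0) (hx : D (xF K F) = 1)
    (hc : ∀ b : K, D (cF F b) = 0) (S₁ : Finset K) (e : K → ℕ) :
    D (algebraMap (RatFunc K) F (hM S₁ e)) =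
      m * algebraMap (RatFunc K) F (wM S₁ m e) * algebraMap (RatFunc K) F (hM S₁ e) := by
  classical
  induction S₁ using Finset.induction_on with
  | empty => simp [hM, wM]
  | insert c s hcs ih =>
    have e1 : hM (insert c s) e = (RatFunc.X - RatFunc.C c) ^ e c * hM s e := by
      unfold hM; rw [Finset.prod_insert hcs]
    have e2 : wM (insert c s) m e =
        RatFunc.C (e c / m : K) * (RatFunc.X - RatFunc.C c)⁻¹ + wM s m e := by
      unfold wM; rw [Finset.sum_insert hcs]
    obtain ⟨y, hy⟩ : ∃ y : F, y = algebraMap (RatFunc K) F (RatFunc.X - RatFunc.C c) := ⟨_, rfl⟩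
    have e3 : D y = 1 := by
      have : y = xF K F - cF F c := by rw [hy]; unfold xF cF; rw [map_sub]
      rw [this, map_sub, hx, hc, sub_zero]
    have e4 : y ≠ 0 := by
      rw [hy, Ne, map_eq_zero]; exact XC_ne c
    have e5 : y * D (y ^ e c) = (e c : F) * y ^ e c := by
      have := pow_rule (fun z => D z) (fun a b => by
        simp only [Derivation.leibniz, smul_eq_mul]) y (e c)
      simp only [e3, mul_one] at this
      exact this
    have e6 : (m : F) * algebraMap (RatFunc K) F (RatFunc.C (e c / m : K)) = e c := by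
      have h1 : (m : F) = algebraMap (RatFunc K) F (RatFunc.C (m : K)) := by
        rw [map_natCast, map_natCast]
      have h2 : (e c : F) = algebraMap (RatFunc K) F (RatFunc.C (e c : K)) := by
        rw [map_natCast, map_natCast]
      rw [h1, h2, ← map_mul, ← map_mul, mul_div_cancel₀ _ hm]
    rw [e1, e2, map_mul, map_pow, ← hy, Derivation.leibniz, ih, map_add, map_mul, map_inv₀, ← hy,
      smul_eq_mul, smul_eq_mul]
    refine mul_left_cancel₀ e4 ?_
    have e7 : y * y⁻¹ = 1 := mul_inv_cancel₀ e4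
    linear_combination (algebraMap (RatFunc K) F (hM s e)) * e5 -
      (y ^ e c * algebraMap (RatFunc K) F (hM s e)) * e6 -
      (m : F) * algebraMap (RatFunc K) F (RatFunc.C (e c / m : K)) * y ^ e c *
        algebraMap (RatFunc K) F (hM s e) * e7

lemma der_t_hM (D : Derivation ℤ F F) (hx : D (xF K F) = 0) (S₁ : Finset K) (m : ℕ) (e : K → ℕ)
    (hc : ∀ b ∈ S₁, D (cF F b) = 0) (hcm : ∀ i j : ℕ, D (cF F (i / j : K)) = 0) :
    D (algebraMap (RatFunc K) F (hM S₁ e)) = 0 ∧ D (algebraMap (RatFunc K) F (wM S₁ m e)) = 0 := by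
  classical
  have e3 : ∀ c ∈ S₁, D (algebraMap (RatFunc K) F (RatFunc.X - RatFunc.C c)) = 0 := by
    intro c hcS
    have : algebraMap (RatFunc K) F (RatFunc.X - RatFunc.C c) = xF K F - cF F c := by
      unfold xF cF; rw [map_sub]
    rw [this, map_sub, hx, hc c hcS, sub_zero]
  constructor
  · unfold hM
    induction S₁ using Finset.induction_on with
    | empty => simp
    | insert c s hcs ih =>
      rw [Finset.prod_insert hcs, map_mul, map_pow, Derivation.leibniz, Derivation.leibniz_pow,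
        e3 c (Finset.mem_insert_self _ _), ih (fun b hb => hc b (Finset.mem_insert_of_mem hb))
          (fun b hb => e3 b (Finset.mem_insert_of_mem hb))]
      simp
  · unfold wM
    rw [map_sum, map_sum]
    refine Finset.sum_eq_zero fun c hcS => ?_
    have e5 : D (algebraMap (RatFunc K) F (RatFunc.C (e c / m : K))) = 0 := hcm _ _
    rw [map_mul, map_inv₀, Derivation.leibniz, Derivation.leibniz_inv, e3 c hcS, e5, smul_zero,
      smul_zero, smul_zero, add_zero]

end defs

section local_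

variable {K : Type u} [Field K]

lemma V_of_pow {y s : LaurentSeries K} {m : ℕ} (hm : 0 < m) (h : s ^ m = y) {b : ℤ}
    (hy : RF.V y (m * b)) : RF.V s b := by
  by_cases h0 : s = 0
  · intro k _
    rw [h0]; rfl
  have hVs : RF.V s s.order := fun k hk => HahnSeries.coeff_eq_zero_of_lt_order hk
  have hc : ∀ k : ℕ, (s ^ k).coeff (k * s.order) = (s.coeff s.order) ^ k := by
    intro k
    induction k with
    | zero => simp
    | succ k ih =>
      have h1 := lead_mul (hVs.pow k) hVs
      rw [pow_succ, pow_succ, ← ih, ← h1]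
      congr 1
      push_cast
      ring
  have h2 : s.coeff s.order ≠ 0 := HahnSeries.coeff_order_eq_zero.not.2 h0
  have h3 : (m : ℤ) * b ≤ m * s.order := by
    by_contra hlt
    push Not at hlt
    apply pow_ne_zero m h2
    rw [← hc, h]
    exact hy _ hlt
  have hm' : (0 : ℤ) < m := by exact_mod_cast hm
  have h4 : b ≤ s.order := le_of_mul_le_mul_left h3 hm'
  intro k hk
  exact hVs k (lt_of_lt_of_le hk h4)

/-- local residues of pairs -/
lemma loc_pair (δ : Derivation ℤ K K) (y z : LaurentSeries K)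
    (hy : ∀ m : ℤ, m < 0 → (der y).coeff m = 0) (hz : ∀ m : ℤ, m < 0 → (der z).coeff m = 0) :
    (hat δ y * der z).coeff (-1) = 0 := by
  rw [HahnSeries.coeff_mul]
  refine Finset.sum_eq_zero ?_
  rintro ⟨i, j⟩ hij
  have hs : i + j = -1 := (Finset.mem_antidiagonal.1 hij).2.2
  dsimp only
  by_cases hj : j < 0
  · rw [hz j hj, mul_zero]
  · have h1 := hy (i - 1) (by omega)
    rw [loc_der, sub_add_cancel] at h1
    have h3 : (((i - 1 : ℤ) : K) + 1) = (i : K) := by push_cast; ring
    rw [h3] at h1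
    rcases mul_eq_zero.1 h1 with h4 | h4
    · have h5 : ((j : K) + 1) = 0 := by
        have h6 : (i : K) + (j : K) = -1 := by exact_mod_cast congrArg (Int.cast : ℤ → K) hs
        rw [h4, zero_add] at h6
        rw [h6]; ring
      rw [loc_der, h5, zero_mul, mul_zero]
    · rw [loc_hat, h4, map_zero, zero_mul]

variable {F : Type v} [Field F] [Algebra (RatFunc K) F]

lemma natL_ne (σ : F →+* LaurentSeries K) {m : ℕ} (hm : (m : K) ≠ 0) :
    (m : LaurentSeries K) ≠ 0 := by
  have h1 : (m : LaurentSeries K) = σ (algebraMap (RatFunc K) F (RatFunc.C (m : K))) := by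
    rw [map_natCast, map_natCast, map_natCast]
  rw [h1, Ne, map_eq_zero, map_eq_zero, map_eq_zero]
  exact hm

/-- the twisted derivative in expansions -/
lemma twM_exp (D : Derivation ℤ F F) (hx : D (xF K F) = 1)
    (hc : ∀ b : K, D (cF F b) = 0) (S₁ : Finset K) (m : ℕ) (hm : (m : K) ≠ 0) (e : K → ℕ)
    (ξ : LaurentSeries K)
    (σ : F →+* LaurentSeries K) (hD : ∀ f, σ (D f) * der ξ = der (σ f)) (s : LaurentSeries K)
    (hs : s ^ m = σ (algebraMap (RatFunc K) F (hM S₁ e))) (f : F) :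
    s * σ (twM D S₁ m e f) * der ξ = der (σ f * s) := by
  have hm0 : m ≠ 0 := by rintro rfl; exact hm Nat.cast_zero
  have h2L := natL_ne σ hm
  have hs0 : s ^ m ≠ 0 := by
    rw [hs, Ne, map_eq_zero, map_eq_zero]
    exact hM_ne S₁ e
  have hLD := (part_LD K).2.1
  have h3 : s * der (s ^ m) = m * s ^ m * der s := pow_rule _ hLD s m
  have h4 : der (s ^ m) = m * σ (algebraMap (RatFunc K) F (wM S₁ m e)) * s ^ m * der ξ := by
    rw [hs, ← hD, der_hM D m hm hx hc, map_mul, map_mul, map_natCast]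
  have h5 : der s = σ (algebraMap (RatFunc K) F (wM S₁ m e)) * der ξ * s := by
    have h6 : m * s ^ m * (der s - σ (algebraMap (RatFunc K) F (wM S₁ m e)) * der ξ * s) = 0 := by
      rw [h4] at h3
      linear_combination -h3
    exact sub_eq_zero.1 ((mul_eq_zero.1 h6).resolve_left (mul_ne_zero h2L hs0))
  rw [hLD, h5, twM_eq, map_add, map_mul, ← hD f]
  ring

lemma hatM_exp (δ : Derivation ℤ K K) (T : Derivation ℤ F F) (S₁ : Finset K)
    (m : ℕ) (hm : (m : K) ≠ 0) (e : K → ℕ)
    (hT : T (algebraMap (RatFunc K) F (hM S₁ e)) = 0) (ω : LaurentSeries K)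
    (σ : F →+* LaurentSeries K) (hσ : ∀ f, σ (T f) = hat δ (σ f) - ω * der (σ f))
    (s : LaurentSeries K) (hs : s ^ m = σ (algebraMap (RatFunc K) F (hM S₁ e))) (f : F) :
    s * σ (T f) = hat δ (σ f * s) - ω * der (σ f * s) := by
  have h2L := natL_ne σ hm
  have hs0 : s ^ m ≠ 0 := by
    rw [hs, Ne, map_eq_zero, map_eq_zero]
    exact hM_ne S₁ e
  have hLD := (part_LD K).2.1
  have hLH := (part_LD K).2.2
  have h3 : s * (hat δ (s ^ m) - ω * der (s ^ m)) = m * s ^ m * (hat δ s - ω * der s) :=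
    pow_rule (fun y => hat δ y - ω * der y) (fun y z => by
      simp only [hLD, hLH]; ring) s m
  have h5 : hat δ (s ^ m) - ω * der (s ^ m) = 0 := by
    rw [hs, ← hσ, hT, map_zero]
  have h6 : hat δ s - ω * der s = 0 := by
    rw [h5, mul_zero] at h3
    exact (mul_eq_zero.1 h3.symm).resolve_left (mul_ne_zero h2L hs0)
  rw [hLD, hLH, hσ]
  linear_combination (-(σ f)) * h6

end local_

end Pool.Agent.N780.SB
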