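import Mathlib
import Pool.Agent.N780.SB.TWI
import Pool.Agent.N780.SB.PW
import Pool.Agent.N780.SB.PU1
import Pool.Agent.N780.SB.PU2
import Pool.Agent.N780.SB.HOL
import Pool.Agent.N780.SB.TT

set_option autoImplicit false

/-!
Square roots of expansions, and the theorem on double coverings.
-/

namespace Pool.Agent.N780.SB

universe u v w

section sq

variable {K : Type u} [Field K]

lemma sq_split {L : Type u} [Field L] (y : L)
    (h : (Polynomial.X ^ 2 - Polynomial.C y : Polynomial L).Splits) : ∃ s, s ^ 2 = y := by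
  obtain ⟨s, hs⟩ := h.exists_eval_eq_zero (by
    rw [Polynomial.degree_X_pow_sub_C two_pos]
    norm_num)
  refine ⟨s, ?_⟩
  rw [Polynomial.eval_sub, Polynomial.eval_pow, Polynomial.eval_X, Polynomial.eval_C] at hs
  exact sub_eq_zero.1 hs

lemma sq_pu [IsSepClosed K] (p : ℕ) (hp : p.Prime) (hCh : CharP K p) (h2 : 2 < p)
    (y : LaurentSeries K) : ∃ N : ℕ, 0 < N ∧ ¬ p ∣ N ∧
      ∀ ρ : LaurentSeries K →+* LaurentSeries K, IsPw N ρ → ∃ s, s ^ 2 = ρ y := by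
  obtain ⟨N, hN, hNp, h⟩ := part_PU1 part_PW K p hp hCh (Polynomial.X ^ 2 - Polynomial.C y)
    (Polynomial.monic_X_pow_sub_C y two_ne_zero)
    (by rw [Polynomial.natDegree_X_pow_sub_C]; exact h2)
  refine ⟨N, hN, hNp, fun ρ hρ => sq_split _ ?_⟩
  have := h ρ hρ
  rwa [Polynomial.map_sub, Polynomial.map_pow, Polynomial.map_X, Polynomial.map_C] at this

lemma sq_transfer {F : Type v} [Field F] [Algebra (RatFunc K) F] {φ : RatFunc K →+* LaurentSeries K}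
    (hC : ∀ a : K, φ (RatFunc.C a) = HahnSeries.C a) {N : ℕ} (hN : 0 < N) (r : RatFunc K)
    (h : ∀ ρ : LaurentSeries K →+* LaurentSeries K, IsPw N ρ → ∃ s, s ^ 2 = ρ (φ r))
    {E : ℕ} (hE : 0 < E) (hNE : N ∣ E) {ξ : LaurentSeries K}
    (hξ : ∀ ρ : LaurentSeries K →+* LaurentSeries K, IsPw E ρ → ρ (φ RatFunc.X) = ξ)
    (σ : F →+* LaurentSeries K) (hσ : IsExp ξ σ) :
    ∃ s, s ^ 2 = σ (algebraMap (RatFunc K) F r) := by
  obtain ⟨N', rfl⟩ := hNE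
  have hN' : 0 < N' := Nat.pos_of_mul_pos_left hE
  obtain ⟨ρ, hρ⟩ := part_PW K N hN
  obtain ⟨ρ', hρ'⟩ := part_PW K N' hN'
  have hcomp := PU2.pw_comp hN' hρ hρ'
  obtain ⟨s, hs⟩ := h ρ hρ
  have e1 : σ.comp (algebraMap (RatFunc K) F) = (ρ'.comp ρ).comp φ := by
    refine TR933.ratExt _ _ ?_ fun a => ?_
    · rw [RingHom.comp_apply, RingHom.comp_apply, hξ _ hcomp]
      exact hσ.1
    · rw [RingHom.comp_apply, RingHom.comp_apply, hC, PU2.pw_C hE hcomp]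
      exact hσ.2 a
  refine ⟨ρ' s, ?_⟩
  have e2 := congrArg (fun ψ : RatFunc K →+* LaurentSeries K => ψ r) e1
  simp only [RingHom.comp_apply] at e2
  rw [e2, ← map_pow, hs]

lemma splits_mul {F : Type v} [Field F] [Algebra (RatFunc K) F] {n : ℕ} {ξ ξ' : LaurentSeries K}
    {N : ℕ} (hN : 0 < N)
    (hξ : ∀ ρ : LaurentSeries K →+* LaurentSeries K, IsPw N ρ → ρ ξ = ξ')
    (h : Splits F n ξ) : Splits F n ξ' := by
  obtain ⟨ρ, hρ⟩ := part_PW K N hN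
  obtain ⟨σ, h1, h2⟩ := h
  refine ⟨fun i => ρ.comp (σ i), fun i j hij => h1 ?_, fun i => ⟨?_, fun a => ?_⟩⟩
  · ext1 f
    have := congrArg (fun ψ : F →+* LaurentSeries K => ψ f) hij
    exact ρ.injective this
  · rw [RingHom.comp_apply, (h2 i).1, hξ ρ hρ]
  · rw [RingHom.comp_apply, (h2 i).2 a, PU2.pw_C hN hρ]

end sq

/-- The theorem on double coverings. -/
theorem twisted {K : Type u} {F : Type v} [Field K] [IsSepClosed K] [Field F]
    [Algebra (RatFunc K) F]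
    (p n : ℕ) (hp : p.Prime) (hCh : CharP K p) (hn : 2 ≤ n) (hnp : n < p)
    (δ : Derivation ℤ K K) (hδ : ∀ a : K, δ^[p] a = 0) (t : K) (ht : δ t = 1)
    (S : Finset K) (hS : ∀ c ∈ S, δ c = 0) (hb : 2 * (n * (n - 1)) * S.card < p)
    (a : Fin n → F) (hA : IsAffineCurve S t a)
    (Dx : Derivation ℤ F F) (hx : Dx (xF K F) = 1) (hc : ∀ a : K, Dx (cF F a) = 0)
    (S₁ : Finset K) (hS₁ : S₁ ⊆ S) :
    (∀ f, InA S a f → (∀ E : ℕ, (E : K) ≠ 0 → HolTw S S₁ E (twD Dx S₁ f)) →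
      Unr t (twD Dx S₁ f)) ∧
    ((∀ L : IntermediateField (RatFunc K) F, L = ⊥ ∨ L = ⊤) →
      ∀ f, InA S a f → (∀ E : ℕ, (E : K) ≠ 0 → HolTw S S₁ E (twD Dx S₁ f)) →
        (∃ r ∈ OO S, twD Dx S₁ f = twD Dx S₁ (algebraMap (RatFunc K) F r)) ∧
        (S₁.card ≤ 2 → twD Dx S₁ f = 0)) := by
  classical
  have hn0 : 0 < n := by omega
  have htS : t ∉ S := fun h => by
    have := hS t h
    rw [ht] at this
    exact one_ne_zero this
  obtain ⟨E0, hE0, hEp, hE1, hE2⟩ := part_PU2 part_PW (part_PU1 part_PW) K F p n hp hCh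
    hn0 hnp hA.rank S
  have hT := part_TT part_PW (part_PU2 part_PW (part_PU1 part_PW)) part_TR K F p n hp hCh
    hn0 hnp (by omega) S t htS a hA
  choose φ hφ1 hφ2 using fun c : K => PU2.lift_fin c
  obtain ⟨χ, hχ1, hχ2⟩ := PU2.lift_inf K
  choose N hN0 hNp hN using fun c : K => sq_pu p hp hCh (by omega) (φ c (hR S₁))
  obtain ⟨M, hM0, hMp, hM⟩ := sq_pu p hp hCh (by omega) (χ (hR S₁))
  have hP0 : 0 < ∏ c ∈ S, N c := Finset.prod_pos fun c _ => hN0 c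
  obtain ⟨Q, hQ⟩ : ∃ Q : ℕ, Q = (∏ c ∈ S, N c) * M := ⟨_, rfl⟩
  have hQ0 : 0 < Q := by rw [hQ]; exact Nat.mul_pos hP0 hM0
  have hQp : ¬ p ∣ Q := by
    intro h
    rw [hQ] at h
    rcases hp.dvd_mul.1 h with h1 | h1
    · obtain ⟨c, _, hc⟩ := (Prime.dvd_finsetProd_iff hp.prime N).1 h1
      exact hNp c hc
    · exact hMp h1
  have hE0' : 0 < Q * E0 := Nat.mul_pos hQ0 hE0
  have hEp' : ¬ p ∣ Q * E0 := by
    intro h
    rcases hp.dvd_mul.1 h with h1 | h1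
    · exact hQp h1
    · exact hEp h1
  have hEK : ((Q * E0 : ℕ) : K) ≠ 0 := fun h => hEp' ((CharP.cast_eq_zero_iff K p _).1 h)
  obtain ⟨h1, h2⟩ := twisted_core K F p n (Q * E0) hp hCh hn hnp δ hδ t ht S hS hb hEp' a hA
    (fun c hcS => splits_mul hQ0 (fun ρ hρ => HOLaux.pw_atFin hQ0 hρ E0 c) (hE1 c hcS))
    (splits_mul hQ0 (fun ρ hρ => HOLaux.pw_atInf hQ0 hρ E0) hE2) hT Dx hx hc S₁ hS₁
    (fun c hcS σ hσ => sq_transfer (hφ2 c) (hN0 c) _ (hN c) hE0'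
      (((Finset.dvd_prod_of_mem N hcS).trans (by rw [hQ]; exact dvd_mul_right _ _)).trans
        (dvd_mul_right _ _))
      (fun ρ hρ => by rw [hφ1]; exact PU2.pw_fin hE0' hρ c) σ hσ)
    (fun σ hσ => sq_transfer hχ2 hM0 _ hM hE0'
      ((by rw [hQ]; exact dvd_mul_left _ _ : M ∣ Q).trans (dvd_mul_right _ _))
      (fun ρ hρ => by rw [hχ1]; exact PU2.pw_inf hE0' hρ) σ hσ)
  exact ⟨fun f hf hh => h1 f hf (hh _ hEK), fun h f hf hh => h2 h f hf (hh _ hEK)⟩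

end Pool.Agent.N780.SB
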