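import Mathlib
import Pool.Agent.N780.SB.TWN

set_option autoImplicit false

/-!
Covers of the line with a moving simple branch point: exact holomorphic forms on cyclic coverings
which are pulled back from the line.
-/

namespace Pool.Agent.N780.SB

universe u v w

/-- Exact holomorphic forms on cyclic coverings. -/
theorem cyclic_core (K : Type u) (F : Type v) [Field K] [Field F] [Algebra (RatFunc K) F]
    (p n E : ℕ) (hp : p.Prime) (hCh : CharP K p) (hn : 2 ≤ n) (hnp : n < p)
    (δ : Derivation ℤ K K) (hδ : ∀ a : K, δ^[p] a = 0) (t : K) (ht : δ t = 1)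
    (S : Finset K) (hS : ∀ c ∈ S, δ c = 0) (hb : 2 * (n * (n - 1)) * S.card < p) (hE : ¬ p ∣ E)
    (a : Fin n → F) (hA : IsAffineCurve S t a)
    (hSp : ∀ c ∈ S, Splits F n (atFin E c)) (hInf : Splits F n (atInf K E))
    (ht2 : Splits F n (atFin 2 t))
    (Dx : Derivation ℤ F F) (hx : Dx (xF K F) = 1) (hc : ∀ a : K, Dx (cF F a) = 0)
    (S₁ : Finset K) (hS₁ : S₁ ⊆ S) (m : ℕ) (hmK : (m : K) ≠ 0)
    (hsq : ∀ e : K → ℕ, ∀ c ∈ S, ∀ σ : F →+* LaurentSeries K, IsExp (atFin E c) σ →
      ∃ s, s ^ m = σ (algebraMap (RatFunc K) F (hM S₁ e)))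
    (hsqi : ∀ e : K → ℕ, ∀ σ : F →+* LaurentSeries K, IsExp (atInf K E) σ →
      ∃ s, s ^ m = σ (algebraMap (RatFunc K) F (hM S₁ e)))
    (e : K → ℕ) (he : ∀ c ∈ S₁, e c ≤ m) :
    GoodM Dx S t a S₁ m e (HolM S S₁ m e E) ∨
      GoodM Dx S t a S₁ m (fun c => m - e c) (HolM S S₁ m (fun c => m - e c) E) := by
  have hn0 : 0 < n := by omega
  have hE0 : 0 < E := Nat.pos_of_ne_zero (fun h => hE (h ▸ dvd_zero p))
  have := hCh
  have : Fact p.Prime := ⟨hp⟩
  have : Algebra.IsSeparable (RatFunc K) F := part_SEP K F p n hp hCh hn0 hnp hA.rank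
  have : FiniteDimensional (RatFunc K) F :=
    FiniteDimensional.of_finrank_pos (by rw [hA.rank]; exact hn0)
  have h2 : (2 : K) ≠ 0 := by
    intro h
    have h3 : p ∣ 2 := (CharP.cast_eq_zero_iff K p 2).1 (by exact_mod_cast h)
    have := Nat.le_of_dvd (by norm_num) h3
    omega
  have hEK : (E : K) ≠ 0 := fun h => hE ((CharP.cast_eq_zero_iff K p E).1 h)
  have hnK : (n : K) ≠ 0 := fun h => by
    have := Nat.le_of_dvd hn0 ((CharP.cast_eq_zero_iff K p n).1 h)
    omega
  have htS : t ∉ S := fun h => by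
    have := hS t h
    rw [ht] at this
    exact one_ne_zero this
  obtain ⟨Dt, hDt1, hDt2⟩ := part_EXT K F δ
  obtain ⟨hcomm, hDxe, hDte, hDtp⟩ :=
    part_EXPO part_UNIQ part_UNIQ part_LD K F δ Dx Dt hx hc hDt1 hDt2
  obtain ⟨hAO, hAadd, hAmul, hAtr⟩ := part_ALG K F S t n a hA
  obtain ⟨σi, hσi1, hσi2⟩ := hInf
  obtain ⟨σt, hσt1, hσt2⟩ := ht2
  have hSp' : ∀ c : K, ∃ σ : Fin n → (F →+* LaurentSeries K),
      c ∈ S → Function.Injective σ ∧ ∀ i, IsExp (atFin E c) (σ i) := by
    intro c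
    by_cases h : c ∈ S
    · obtain ⟨σ, h1, h2⟩ := hSp c h
      exact ⟨σ, fun _ => ⟨h1, h2⟩⟩
    · exact ⟨σi, fun h' => absurd h' h⟩
  choose σc hσc using hSp'
  obtain ⟨j₁, j₂, hj, hpair, hoth⟩ :=
    part_PAIR part_TR part_INT K F h2 S t htS n hn0 a hA σt hσt1 hσt2
  let i0 : Fin n := ⟨0, hn0⟩
  obtain ⟨hTR1, hTR2, -⟩ := part_TR K F n hn0 hA.rank (atFin 2 t) σt hσt1 hσt2
  -- the x and t derivatives of elements of A
  have hXt : (RatFunc.X - RatFunc.C t : RatFunc K) ≠ 0 := by
    intro h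
    have h3 := congrArg (fun r => σt i0 (algebraMap (RatFunc K) F r)) h
    simp only [map_sub, map_zero] at h3
    have h4 : σt i0 (algebraMap (RatFunc K) F RatFunc.X) = atFin 2 t := (hσt2 i0).1
    have h5 : σt i0 (algebraMap (RatFunc K) F (RatFunc.C t)) = HahnSeries.C t := (hσt2 i0).2 t
    rw [h4, h5] at h3
    have h6 := congrArg (fun y : LaurentSeries K => y.coeff 2) h3
    simp [atFin, HahnSeries.coeff_single, HahnSeries.C_apply] at h6
  have hdisc : ∀ D : Derivation ℤ F F,
      (∃ r ∈ OO S, D (xF K F) = algebraMap (RatFunc K) F r) →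
      (∀ b : K, ∃ r ∈ OO S, D (cF F b) = algebraMap (RatFunc K) F r) →
      ∀ f, InA S a f → InA S a ((xF K F - cF F t) * D f) := by
    intro D h1 h2 f hf
    obtain ⟨r, hr, hri, hr0, hd⟩ := hA.disc
    have h3 := part_DISC K F S n a hA.rank hA.one hA.mul
      (by rw [hd]; exact mul_ne_zero hr0 hXt) D (part_DOO K F S D h1 h2) f hf
    rw [hd] at h3
    have h4 := hAmul _ _ (hAO r⁻¹ hri) h3
    have h5 : algebraMap (RatFunc K) F r⁻¹ *
        (algebraMap (RatFunc K) F (r * (RatFunc.X - RatFunc.C t)) * D f) =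
        (xF K F - cF F t) * D f := by
      have h6 : algebraMap (RatFunc K) F r ≠ 0 := by
        rw [Ne, map_eq_zero]; exact hr0
      unfold xF cF
      rw [map_mul, map_sub, map_inv₀]
      field_simp
    rwa [h5] at h4
  have hDx1 : ∃ r ∈ OO S, Dx (xF K F) = algebraMap (RatFunc K) F r :=
    ⟨1, (OO S).one_mem, by rw [hx, map_one]⟩
  have hDx2 : ∀ b : K, ∃ r ∈ OO S, Dx (cF F b) = algebraMap (RatFunc K) F r :=
    fun b => ⟨0, (OO S).zero_mem, by rw [hc, map_zero]⟩
  have hDt1' : ∃ r ∈ OO S, Dt (xF K F) = algebraMap (RatFunc K) F r :=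
    ⟨0, (OO S).zero_mem, by rw [hDt1, map_zero]⟩
  have hDt2' : ∀ b : K, ∃ r ∈ OO S, Dt (cF F b) = algebraMap (RatFunc K) F r :=
    fun b => ⟨RatFunc.C (δ b), C_mem_OO S _, by rw [hDt2]; rfl⟩
  have hxA : ∀ f, InA S a f → InA S a ((xF K F - cF F t) * Dx f) := hdisc Dx hDx1 hDx2
  have htA : ∀ f, InA S a f → InA S a ((xF K F - cF F t) * Dt f) := hdisc Dt hDt1' hDt2'
  -- regularity at t
  have hreg : ∀ f, InA S a f → ∀ j, ∀ m : ℤ, m < 0 → (σt j f).coeff m = 0 :=
    fun f hf j m hm => part_INT K F S t htS n a hA (σt j) (hσt2 j) f hf m hm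
  -- coefficients of the derivatives at t
  have hDxc : ∀ j f m, (σt j (Dx f)).coeff m * 2 = ((m + 2 : ℤ) : K) * (σt j f).coeff (m + 2) := by
    intro j f m
    have h := congrArg (fun y : LaurentSeries K => y.coeff (m + 1))
      (hDxe (atFin 2 t) (σt j) (hσt2 j) f)
    simp only [der_atFin, mul_single_coeff, der_coeff] at h
    have e1 : m + 1 - (((2 : ℕ) : ℤ) - 1) = m := by push_cast; ring
    have e2 : m + 1 + 1 = m + 2 := by ring
    rw [e1, e2] at h
    exact_mod_cast h
  have hDtc : ∀ j f m, (σt j (Dt f)).coeff m =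
      δ ((σt j f).coeff m) - 1 / 2 * (((m + 2 : ℤ) : K) * (σt j f).coeff (m + 2)) := by
    intro j f m
    have h := congrArg (fun y : LaurentSeries K => y.coeff m)
      (hDte (atFin 2 t) _ (σt j) (hσt2 j) (hat_atFin_two δ h2 t ht) f)
    simp only [HahnSeries.coeff_sub, single_mul_coeff, hat_coeff, der_coeff] at h
    rw [h]
    have e1 : m - -1 + 1 = m + 2 := by ring
    rw [e1]
  -- the twists
  have hm0 : 0 < m := Nat.pos_of_ne_zero (by rintro rfl; exact hmK Nat.cast_zero)
  obtain ⟨q, hq⟩ : ∃ q : F, q = algebraMap (RatFunc K) F (hM S₁ (fun _ => 1)) := ⟨_, rfl⟩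
  have hqR : hM S₁ (fun _ => 1) ∈ OO S := hM_mem S S₁ _
  have hqA : InA S a q := by rw [hq]; exact hAO _ hqR
  have hq0 : q ≠ 0 := by rw [hq, Ne, map_eq_zero]; exact hM_ne S₁ _
  have hδS : ∀ b ∈ S₁, Dt (cF F b) = 0 := fun b hb' => by
    rw [hDt2, hS b (hS₁ hb')]; unfold cF; rw [map_zero, map_zero]
  have hδn : ∀ i j : ℕ, Dt (cF F (i / j : K)) = 0 := fun i j => by
    have h1 : δ (i / j : K) = 0 := by
      rw [div_eq_mul_inv, Derivation.leibniz, Derivation.leibniz_inv, Derivation.map_natCast,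
        Derivation.map_natCast]
      simp
    rw [hDt2, h1]; unfold cF; rw [map_zero, map_zero]
  have hwA : ∀ e' : K → ℕ, InA S a (algebraMap (RatFunc K) F (wM S₁ m e')) :=
    fun e' => hAO _ (wM_mem hS₁ m e')
  have hDth : ∀ e' : K → ℕ, Dt (algebraMap (RatFunc K) F (hM S₁ e')) = 0 :=
    fun e' => (der_t_hM Dt hDt1 S₁ m e' hδS hδn).1
  have hDtw : ∀ e' : K → ℕ, Dt (algebraMap (RatFunc K) F (wM S₁ m e')) = 0 :=
    fun e' => (der_t_hM Dt hDt1 S₁ m e' hδS hδn).2
  have hcomm' : ∀ (e' : K → ℕ) (f : F), twM Dx S₁ m e' (Dt f) = Dt (twM Dx S₁ m e' f) := by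
    intro e' f
    rw [twM_eq, twM_eq, map_add, Derivation.leibniz, hDtw, hcomm]
    simp
  have hxtw : ∀ (e' : K → ℕ) (f : F), InA S a f → InA S a ((xF K F - cF F t) * twM Dx S₁ m e' f) := by
    intro e' f hf
    have h1 : (xF K F - cF F t) * twM Dx S₁ m e' f = (xF K F - cF F t) * Dx f +
        algebraMap (RatFunc K) F (RatFunc.X - RatFunc.C t) *
          (algebraMap (RatFunc K) F (wM S₁ m e') * f) := by
      rw [twM_eq]
      unfold xF cF
      rw [map_sub]
      ring
    rw [h1]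
    exact hAadd _ _ (hxA f hf) (hAmul _ _ (hAO _ ((OO S).sub_mem (X_mem_OO S) (C_mem_OO S t)))
      (hAmul _ _ (hwA e') hf))
  -- regularity of h
  have hhV : ∀ (e' : K → ℕ) (E' : ℕ) (c : K) (σ : F →+* LaurentSeries K), IsExp (atFin E' c) σ →
      RF.V (σ (algebraMap (RatFunc K) F (hM S₁ e'))) 0 := by
    intro e' E' c σ hσ
    rw [hM_poly]
    exact RF.fin_V (φ := σ.comp (algebraMap (RatFunc K) F)) ⟨hσ.1, hσ.2⟩ _
  have hhVi : ∀ (e' : K → ℕ) (σ : F →+* LaurentSeries K), IsExp (atInf K E) σ →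
      RF.V (σ (algebraMap (RatFunc K) F (hM S₁ e'))) (∑ c ∈ S₁, (e' c : ℤ) * (-(E : ℤ))) := by
    intro e' σ hσ
    rw [hM_poly]
    change RF.V ((σ.comp (algebraMap (RatFunc K) F)) _) _
    rw [map_prod, map_prod]
    refine RF.V.prod S₁ _ _ fun c _ => ?_
    rw [map_pow, map_pow]
    exact (RF.inf_sub c (χ := σ.comp (algebraMap (RatFunc K) F)) ⟨hσ.1, hσ.2⟩).pow (e' c)
  -- the roots
  have hdual : ∀ (e' : K → ℕ), (∀ c ∈ S₁, e' c ≤ m) → ∀ (σ : F →+* LaurentSeries K)
      (s : LaurentSeries K), s ^ m = σ (algebraMap (RatFunc K) F (hM S₁ e')) →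
      s ≠ 0 ∧ (s⁻¹ * σ q) ^ m = σ (algebraMap (RatFunc K) F (hM S₁ (fun c => m - e' c))) := by
    intro e' he' σ s hs
    have h1 : σ (algebraMap (RatFunc K) F (hM S₁ e')) ≠ 0 := by
      rw [Ne, map_eq_zero, map_eq_zero]; exact hM_ne S₁ _
    have hs0 : s ≠ 0 := by
      rintro rfl
      rw [zero_pow hm0.ne'] at hs
      exact h1 hs.symm
    refine ⟨hs0, ?_⟩
    have h3 := congrArg (fun z => σ (algebraMap (RatFunc K) F z)) (hM_mul S₁ m e' he')
    simp only [map_mul, map_pow] at h3
    rw [mul_pow, inv_pow, hs, hq, ← h3, inv_mul_cancel_left₀ h1]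
  have hH0 : ∀ j, (σt j q).coeff 0 ≠ 0 := by
    intro j h0
    have h1 : InA S a (algebraMap (RatFunc K) F (hM S₁ (fun _ => 1))⁻¹) :=
      hAO _ (hM_inv_mem hS₁ _)
    have h2' := lead_mul (a := 0) (b := 0) (hhV (fun _ => 1) 2 t _ (hσt2 j))
      (fun k hk => hreg _ h1 j k hk)
    rw [← hq, h0, zero_mul, ← map_mul, map_inv₀, ← hq, mul_inv_cancel₀ hq0, map_one] at h2'
    simp at h2'
  -- the pairing
  have hpairing : ∀ f f' : F, InA S a f → InA S a f' → HolM S S₁ m e E (twM Dx S₁ m e f) →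
      HolM S S₁ m (fun c => m - e c) E (twM Dx S₁ m (fun c => m - e c) f') →
      (σt j₁ f).coeff 1 = 0 ∨ (σt j₁ f').coeff 1 = 0 := by
    intro f f' hf hf' hhol0 hhol0'
    obtain ⟨e', he'⟩ : ∃ e' : K → ℕ, e' = fun c => m - e c := ⟨_, rfl⟩
    rw [← he'] at hhol0'
    obtain ⟨h1, h3⟩ := hhol0
    obtain ⟨h1', h3'⟩ := hhol0'
    rw [hT_eq] at h1 h3 h1' h3'
    set R := Algebra.trace (RatFunc K) F (Dt f * twM Dx S₁ m e' f' * q) with hRdef
    have hR' : (RatFunc.X - RatFunc.C t) ^ 2 * R ∈ OO S := by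
      have h4 := hAtr _ (hAmul _ _ (hAmul _ _ (htA f hf) (hxtw e' f' hf')) hqA)
      have h5 : (xF K F - cF F t) * Dt f * ((xF K F - cF F t) * twM Dx S₁ m e' f') * q =
          ((RatFunc.X - RatFunc.C t) ^ 2 : RatFunc K) • (Dt f * twM Dx S₁ m e' f' * q) := by
        rw [Algebra.smul_def, map_pow, map_sub]
        unfold xF cF
        ring
      rw [h5, map_smul, smul_eq_mul] at h4
      exact h4
    have hres := part_RES K S t htS E hE0 (fun c => (σc c i0).comp (algebraMap (RatFunc K) F))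
      ((σt i0).comp (algebraMap (RatFunc K) F)) ((σi i0).comp (algebraMap (RatFunc K) F))
      (fun c hcS => ⟨((hσc c hcS).2 i0).1, ((hσc c hcS).2 i0).2⟩)
      ⟨(hσt2 i0).1, (hσt2 i0).2⟩ ⟨(hσi2 i0).1, (hσi2 i0).2⟩ R 2 hR'
    have hloc0 : ∀ (ξ : LaurentSeries K) (σ : Fin n → (F →+* LaurentSeries K)),
        Function.Injective σ → (∀ i, IsExp ξ (σ i)) → hat δ ξ = 0 →
        (∀ j, ∃ s, s ^ m = σ j (algebraMap (RatFunc K) F (hM S₁ e))) →
        (∀ j, ∀ s, s ^ m = σ j (algebraMap (RatFunc K) F (hM S₁ e)) → ∀ k : ℤ, k < 0 →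
          (σ j (twM Dx S₁ m e f) * s * der ξ).coeff k = 0) →
        (∀ j, ∀ s, s ^ m = σ j (algebraMap (RatFunc K) F (hM S₁ e')) → ∀ k : ℤ, k < 0 →
          (σ j (twM Dx S₁ m e' f') * s * der ξ).coeff k = 0) →
        (σ i0 (algebraMap (RatFunc K) F R) * der ξ).coeff (-1) = 0 := by
      intro ξ σ hσ1 hσ2 hξ hs hhol hhol'
      obtain ⟨-, hTR, -⟩ := part_TR K F n hn0 hA.rank ξ σ hσ1 hσ2
      rw [hRdef, hTR, Finset.sum_mul, HahnSeries.coeff_sum]
      refine Finset.sum_eq_zero fun j _ => ?_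
      obtain ⟨s, hs⟩ := hs j
      obtain ⟨hs0, hs'⟩ := hdual e he (σ j) s hs
      rw [← he'] at hs'
      have hd := twM_exp Dx hx hc S₁ m hmK e ξ (σ j) (hDxe ξ (σ j) (hσ2 j)) s hs f
      have hd' := twM_exp Dx hx hc S₁ m hmK e' ξ (σ j) (hDxe ξ (σ j) (hσ2 j)) _ hs' f'
      have ht' := hatM_exp δ Dt S₁ m hmK e (hDth e) 0 (σ j)
        (hDte ξ 0 (σ j) (hσ2 j) (by rw [hξ, zero_mul])) s hs f
      rw [zero_mul, sub_zero] at ht'
      have e1 : σ j (Dt f * twM Dx S₁ m e' f' * q) * der ξ =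
          hat δ (σ j f * s) * der (σ j f' * (s⁻¹ * σ j q)) := by
        rw [map_mul, map_mul, ← hd', ← ht']
        have h9 : s * s⁻¹ = 1 := mul_inv_cancel₀ hs0
        linear_combination (-(σ j (Dt f) * σ j (twM Dx S₁ m e' f') * σ j q * der ξ)) * h9
      rw [e1]
      refine loc_pair δ _ _ (fun k hk => ?_) (fun k hk => ?_)
      · rw [← hd, mul_comm s]
        exact hhol j s hs k hk
      · rw [← hd', mul_comm (s⁻¹ * σ j q)]
        exact hhol' j _ hs' k hk
    have hc0 : ∀ c ∈ S, (σc c i0 (algebraMap (RatFunc K) F R) * der (atFin E c)).coeff (-1) = 0 := by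
      intro c hcS
      refine hloc0 (atFin E c) (σc c) (hσc c hcS).1 (hσc c hcS).2 (hat_atFin δ E c (hS c hcS))
        (fun j => hsq e c hcS _ ((hσc c hcS).2 j)) ?_ ?_
      · intro j s hs k hk
        rw [der_atFin, mul_single_coeff, h1 c hcS (σc c j) ((hσc c hcS).2 j) s hs _ (by linarith),
          zero_mul]
      · intro j s hs k hk
        rw [der_atFin, mul_single_coeff, h1' c hcS (σc c j) ((hσc c hcS).2 j) s hs _ (by linarith),
          zero_mul]
    have hi0 : (σi i0 (algebraMap (RatFunc K) F R) * der (atInf K E)).coeff (-1) = 0 := by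
      refine hloc0 (atInf K E) σi hσi1 hσi2 (hat_atInf δ E)
        (fun j => hsqi e _ (hσi2 j)) ?_ ?_
      · intro j s hs k hk
        rw [der_atInf, mul_single_coeff, h3 (σi j) (hσi2 j) s hs _ (by linarith), zero_mul]
      · intro j s hs k hk
        rw [der_atInf, mul_single_coeff, h3' (σi j) (hσi2 j) s hs _ (by linarith), zero_mul]
    have ht0 : (σt i0 (algebraMap (RatFunc K) F R) * der (atFin 2 t)).coeff (-1) =
        -((σt j₁ f).coeff 1 * (σt j₁ f').coeff 1) * (σt j₁ q).coeff 0 := by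
      rw [hRdef, hTR2, Finset.sum_mul, HahnSeries.coeff_sum]
      have e1 : ∀ j, (σt j (Dt f * twM Dx S₁ m e' f' * q) * der (atFin 2 t)).coeff (-1) =
          -((σt j f).coeff 1 * (σt j f').coeff 1) / 2 * (σt j q).coeff 0 := by
        intro j
        have e2 : σt j (Dt f * twM Dx S₁ m e' f' * q) * der (atFin 2 t) =
            σt j (Dt f) * (der (σt j f') +
              σt j (algebraMap (RatFunc K) F (wM S₁ m e') * f') * der (atFin 2 t)) * σt j q := by
          rw [← hDxe (atFin 2 t) (σt j) (hσt2 j) f', twM_eq, map_mul, map_mul, map_add]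
          ring
        have v1 : RF.V (σt j (Dt f)) (-1) := by
          intro k hk
          rw [hDtc, hreg f hf j k (by omega), map_zero]
          have h4 : ((k + 2 : ℤ) : K) * (σt j f).coeff (k + 2) = 0 := by
            rcases lt_trichotomy k (-2) with h5 | h5 | h5
            · rw [hreg f hf j (k + 2) (by omega), mul_zero]
            · subst h5; simp
            · omega
          rw [h4]; simp
        have c1 : (σt j (Dt f)).coeff (-1) = -((σt j f).coeff 1) / 2 := by
          rw [hDtc, hreg f hf j (-1) (by norm_num), map_zero,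
            show (-1 + 2 : ℤ) = 1 by norm_num, Int.cast_one]
          ring
        have v2' : RF.V (σt j (algebraMap (RatFunc K) F (wM S₁ m e') * f')) 0 :=
          fun k hk => hreg _ (hAmul _ _ (hwA e') hf') j k hk
        have v2 : RF.V (der (σt j f') +
            σt j (algebraMap (RatFunc K) F (wM S₁ m e') * f') * der (atFin 2 t)) 0 := by
          intro k hk
          rw [HahnSeries.coeff_add, der_coeff, der_atFin, mul_single_coeff, v2' _ (by push_cast; omega),
            zero_mul, add_zero]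
          by_cases h4 : k + 1 = 0
          · rw [h4, Int.cast_zero, zero_mul]
          · rw [hreg f' hf' j (k + 1) (by omega), mul_zero]
        have c2 : (der (σt j f') +
            σt j (algebraMap (RatFunc K) F (wM S₁ m e') * f') * der (atFin 2 t)).coeff 0 =
            (σt j f').coeff 1 := by
          rw [HahnSeries.coeff_add, der_coeff, der_atFin, mul_single_coeff, v2' _ (by norm_num),
            zero_mul, add_zero, zero_add, Int.cast_one, one_mul]
        have v3 : RF.V (σt j q) 0 := by rw [hq]; exact hhV _ 2 t _ (hσt2 j)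
        have h6 := lead_mul (v1.mul v2) v3
        rw [lead_mul v1 v2, c1, c2] at h6
        rw [e2, show (-1 : ℤ) = -1 + 0 + 0 by norm_num, h6]
        ring
      rw [Fintype.sum_eq_add j₁ j₂ hj]
      · rw [e1, e1, hpair f 1, hpair f' 1, hpair q 0]
        simp
        field_simp
        ring
      · intro j hjj
        rw [e1, hoth j hjj.1 hjj.2 f 1 (by decide)]
        simp
    simp only [RingHom.comp_apply] at hres
    rw [Finset.sum_eq_zero hc0, hi0, ht0] at hres
    have h7 : (E : K) * (σt j₁ q).coeff 0 * ((σt j₁ f).coeff 1 * (σt j₁ f').coeff 1) = 0 := by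
      linear_combination -hres
    rcases mul_eq_zero.1 h7 with h8 | h8
    · rcases mul_eq_zero.1 h8 with h9 | h9
      · exact absurd h9 hEK
      · exact absurd h9 (hH0 j₁)
    · exact mul_eq_zero.1 h8
  have hc1 : ∀ f, (σt j₁ f).coeff 1 = 0 → ∀ j, (σt j f).coeff 1 = 0 := by
    intro f h j
    by_cases h3 : j = j₁
    · rw [h3, h]
    · by_cases h4 : j = j₂
      · rw [h4, hpair f 1, h, mul_zero]
      · exact hoth j h3 h4 f 1 (by decide)
  have hxt : ∀ (D : Derivation ℤ F F) (f : F), InA S a ((xF K F - cF F t) * D f) →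
      (∀ j, ∀ m : ℤ, m < 0 → (σt j (D f)).coeff m = 0) → InA S a (D f) := by
    intro D f h1 h3
    exact part_MAX part_TR part_INT K F h2 S t htS n hn0 a hA σt hσt1 hσt2 (D f) h1 h3
  have hDxA : ∀ f, InA S a f → (∀ j, (σt j f).coeff 1 = 0) → InA S a (Dx f) := by
    intro f hf h1
    refine hxt Dx f (hxA f hf) fun j m hm => ?_
    have h3 := hDxc j f m
    have h4 : ((m + 2 : ℤ) : K) * (σt j f).coeff (m + 2) = 0 := by
      rcases lt_trichotomy m (-2) with h5 | h5 | h5
      · rw [hreg f hf j (m + 2) (by omega), mul_zero]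
      · subst h5; simp
      · have h6 : m = -1 := by omega
        subst h6
        rw [show (-1 + 2 : ℤ) = 1 by norm_num, h1 j, mul_zero]
    rw [h4] at h3
    exact (mul_eq_zero.1 h3).resolve_right h2
  have hDtA : ∀ f, InA S a f → (∀ j, (σt j f).coeff 1 = 0) → InA S a (Dt f) := by
    intro f hf h1
    refine hxt Dt f (htA f hf) fun j m hm => ?_
    rw [hDtc, hreg f hf j m hm, map_zero]
    have h4 : ((m + 2 : ℤ) : K) * (σt j f).coeff (m + 2) = 0 := by
      rcases lt_trichotomy m (-2) with h5 | h5 | h5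
      · rw [hreg f hf j (m + 2) (by omega), mul_zero]
      · subst h5; simp
      · have h6 : m = -1 := by omega
        subst h6
        rw [show (-1 + 2 : ℤ) = 1 by norm_num, h1 j, mul_zero]
    rw [h4]; simp
  -- the conclusion under the vanishing hypothesis
  have hmain : ∀ e' : K → ℕ, (∀ c ∈ S₁, e' c ≤ m) →
      (∀ f, InA S a f → HolM S S₁ m e' E (twM Dx S₁ m e' f) → (σt j₁ f).coeff 1 = 0) →
      GoodM Dx S t a S₁ m e' (HolM S S₁ m e' E) := by
    intro e' he' hvan
    obtain ⟨w, hw⟩ : ∃ w : F, w = algebraMap (RatFunc K) F (wM S₁ m e') := ⟨_, rfl⟩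
    have htw : ∀ f, twM Dx S₁ m e' f = Dx f + w * f := fun f => by rw [twM_eq, hw]
    have hwA' : InA S a w := by rw [hw]; exact hwA e'
    have hTe : hT F S₁ e' = algebraMap (RatFunc K) F (hM S₁ e') := hT_eq S₁ e'
    have hstab : ∀ f, InA S a f → HolM S S₁ m e' E (twM Dx S₁ m e' f) →
        InA S a (Dt f) ∧ HolM S S₁ m e' E (twM Dx S₁ m e' (Dt f)) := by
      intro f hf hhol0
      refine ⟨hDtA f hf (hc1 f (hvan f hf hhol0)), ?_, ?_⟩
      · intro c hcS σ hσ s hs k hk
        have ht' := hatM_exp δ Dt S₁ m hmK e' (hDth e') 0 σ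
          (hDte (atFin E c) 0 σ hσ (by rw [hat_atFin δ E c (hS c hcS), zero_mul])) s
          (by rw [hs, hTe]) (twM Dx S₁ m e' f)
        rw [hcomm', mul_comm, ht', zero_mul, sub_zero, hat_coeff, hhol0.1 c hcS σ hσ s hs k hk,
          map_zero]
      · intro σ hσ s hs k hk
        have ht' := hatM_exp δ Dt S₁ m hmK e' (hDth e') 0 σ
          (hDte (atInf K E) 0 σ hσ (by rw [hat_atInf δ E, zero_mul])) s
          (by rw [hs, hTe]) (twM Dx S₁ m e' f)
        rw [hcomm', mul_comm, ht', zero_mul, sub_zero, hat_coeff, hhol0.2 σ hσ s hs k hk, map_zero]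
    -- bounds for g q
    have hgq : ∀ g : F, HolM S S₁ m e' E g →
        (∀ c ∈ S, ∀ σ : F →+* LaurentSeries K, IsExp (atFin E c) σ → RF.V (σ (g * q)) (1 - E)) ∧
        (∀ σ : F →+* LaurentSeries K, IsExp (atInf K E) σ → ∀ b : ℤ,
          m * b ≤ (∑ c ∈ S₁, ((m - e' c : ℕ) : ℤ) * (-(E : ℤ))) → RF.V (σ (g * q)) (E + 1 + b)) := by
      intro g hg
      obtain ⟨h1, h3⟩ := hg
      rw [hTe] at h1 h3
      constructor
      · intro c hcS σ hσ
        obtain ⟨s, hs⟩ := hsq e' c hcS σ hσ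
        obtain ⟨hs0, hs'⟩ := hdual e' he' σ s hs
        have v1 : RF.V (σ g * s) (1 - E) := h1 c hcS σ hσ s hs
        have v2 : RF.V (s⁻¹ * σ q) 0 :=
          V_of_pow hm0 hs' (by rw [mul_zero]; exact hhV _ E c _ hσ)
        have e1 : σ (g * q) = (σ g * s) * (s⁻¹ * σ q) := by
          rw [map_mul]
          have h9 : s * s⁻¹ = 1 := mul_inv_cancel₀ hs0
          linear_combination (-(σ g * σ q)) * h9
        rw [e1]
        exact (v1.mul v2).mono (by linarith)
      · intro σ hσ b hb'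
        obtain ⟨s, hs⟩ := hsqi e' σ hσ
        obtain ⟨hs0, hs'⟩ := hdual e' he' σ s hs
        have v1 : RF.V (σ g * s) (E + 1) := h3 σ hσ s hs
        have v2 : RF.V (s⁻¹ * σ q) b := V_of_pow hm0 hs' ((hhVi _ _ hσ).mono hb')
        have e1 : σ (g * q) = (σ g * s) * (s⁻¹ * σ q) := by
          rw [map_mul]
          have h9 : s * s⁻¹ = 1 := mul_inv_cancel₀ hs0
          linear_combination (-(σ g * σ q)) * h9
        rw [e1]
        exact v1.mul v2
    -- flat elements
    have hflat : ∀ f, InA S a f → HolM S S₁ m e' E (twM Dx S₁ m e' f) →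
        Unr t (Dt (twM Dx S₁ m e' f)) → Unr t (twM Dx S₁ m e' f) := by
      intro f hf hhol0 h4
      have hf1 := hc1 f (hvan f hf hhol0)
      have hgA : InA S a (twM Dx S₁ m e' f) := by
        rw [htw]; exact hAadd _ _ (hDxA f hf hf1) (hAmul _ _ hwA' hf)
      obtain ⟨h1, h3⟩ := hgq _ hhol0
      set g := twM Dx S₁ m e' f with hg
      have hrec : ∀ j (m : ℤ), Odd m → δ ((σt j g).coeff m) =
          1 / 2 * (((m + 2 : ℤ) : K) * (σt j g).coeff (m + 2)) := by
        intro j m hmo
        have h5 := hDtc j g m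
        rw [h4 (σt j) (hσt2 j) m hmo] at h5
        exact (sub_eq_zero.1 h5.symm)
      have hodd : ∀ j, ∀ k : ℕ, 2 * k + 1 < p → (σt j g).coeff (2 * (k : ℤ) + 1) = 0 := by
        intro j k
        induction k with
        | zero =>
          intro _
          have h5 := hrec j (-1) (by decide)
          rw [hreg g hgA j (-1) (by norm_num), map_zero] at h5
          simp only [show (-1 + 2 : ℤ) = 1 by norm_num, Int.cast_one, one_mul] at h5
          have h6 := (mul_eq_zero.1 h5.symm).resolve_left (by simpa using h2)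
          simpa using h6
        | succ k ih =>
          intro hk
          have h5 := hrec j (2 * (k : ℤ) + 1) ⟨k, rfl⟩
          rw [ih (by omega), map_zero] at h5
          have h6 := (mul_eq_zero.1 h5.symm).resolve_left (by simpa using h2)
          have h7 : (((2 * (k : ℤ) + 1 + 2 : ℤ)) : K) ≠ 0 := by
            have e1 : (((2 * (k : ℤ) + 1 + 2 : ℤ)) : K) = ((2 * k + 3 : ℕ) : K) := by
              push_cast; ring
            rw [e1]
            intro h8
            have h9 := Nat.le_of_dvd (by omega) ((CharP.cast_eq_zero_iff K p (2 * k + 3)).1 h8)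
            omega
          have h8 := (mul_eq_zero.1 h6).resolve_left h7
          have e2 : (2 * ((k + 1 : ℕ) : ℤ) + 1) = 2 * (k : ℤ) + 1 + 2 := by push_cast; ring
          rw [e2, h8]
      have hdiff : ∀ m : ℤ, m < p → (σt j₁ g - σt j₂ g).coeff m = 0 := by
        intro m hm
        rw [HahnSeries.coeff_sub, hpair g m]
        rcases lt_or_ge m 0 with h5 | h5
        · rw [hreg g hgA j₁ m h5]; simp
        · rcases Int.even_or_odd' m with ⟨k, h6 | h6⟩
          · have h7 : Even m.natAbs := by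
              rw [Int.natAbs_even]; exact ⟨k, by omega⟩
            rw [h7.neg_one_pow, one_mul, sub_self]
          · obtain ⟨k', rfl⟩ : ∃ k' : ℕ, k = k' := ⟨k.toNat, by omega⟩
            rw [h6, hodd j₁ k' (by omega)]; simp
      have hσh : σt j₁ q = σt j₂ q := by
        have h5 : (σt j₁).comp (algebraMap (RatFunc K) F) = (σt j₂).comp (algebraMap (RatFunc K) F) :=
          TR933.ratExt _ _ ((hσt2 j₁).1.trans (hσt2 j₂).1.symm)
            fun b => ((hσt2 j₁).2 b).trans ((hσt2 j₂).2 b).symm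
        rw [hq]
        exact congrArg (fun φ : RatFunc K →+* LaurentSeries K => φ (hM S₁ (fun _ => 1))) h5
      have hcardS : (S₁.card : ℤ) ≤ S.card := by exact_mod_cast Finset.card_le_card hS₁
      have hE0' : (0 : ℤ) ≤ E := Nat.cast_nonneg _
      have hb1 : (m : ℤ) * (-(S.card * E : ℤ)) ≤ ∑ c ∈ S₁, ((m - e' c : ℕ) : ℤ) * (-(E : ℤ)) := by
        have h5 : ∑ c ∈ S₁, (m : ℤ) * (-(E : ℤ)) ≤ ∑ c ∈ S₁, ((m - e' c : ℕ) : ℤ) * (-(E : ℤ)) := by
          refine Finset.sum_le_sum fun c _ => ?_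
          have h6 : ((m - e' c : ℕ) : ℤ) ≤ m := by exact_mod_cast Nat.sub_le _ _
          nlinarith
        rw [Finset.sum_const, nsmul_eq_mul] at h5
        have h7 : (0 : ℤ) ≤ m * E := by positivity
        nlinarith
      have heq' := unr3 part_VDM K F p n E hn0 hE0 hA.rank S t hb σc
        (fun c hcS => hσc c hcS) σi hσi1 hσi2 σt hσt1 hσt2 (g * q)
        (exists_poly hA.one hAadd hAmul hAO _ (hAmul _ _ hgA hqA))
        (fun c hcS i => h1 c hcS _ ((hσc c hcS).2 i))
        (fun i => (h3 _ (hσi2 i) _ hb1).mono (by linarith))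
        (fun i k hk => hreg _ (hAmul _ _ hgA hqA) i k hk) j₁ j₂
        (by
          have e1 : σt j₁ (g * q) - σt j₂ (g * q) = (σt j₁ g - σt j₂ g) * σt j₁ q := by
            rw [map_mul, map_mul, ← hσh]; ring
          rw [e1]
          have v1 : RF.V (σt j₁ g - σt j₂ g) p := hdiff
          have v3 : RF.V (σt j₁ q) 0 := by rw [hq]; exact hhV _ 2 t _ (hσt2 j₁)
          exact (v1.mul v3).mono (by linarith))
      have heq : σt j₁ g = σt j₂ g := by
        rw [map_mul, map_mul, ← hσh] at heq'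
        refine mul_right_cancel₀ ?_ heq'
        rw [Ne, map_eq_zero]; exact hq0
      intro σ hσ m hm
      obtain ⟨j, rfl⟩ := hTR1 σ hσ
      have h5 : (σt j₁ g).coeff m = 0 := by
        have h6 := hpair g m
        rw [← heq] at h6
        have h7 : Odd m.natAbs := by rw [Int.natAbs_odd]; exact hm
        rw [h7.neg_one_pow] at h6
        have h8 : 2 * (σt j₁ g).coeff m = 0 := by linear_combination h6
        exact (mul_eq_zero.1 h8).resolve_left h2
      by_cases h6 : j = j₁
      · rw [h6, h5]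
      · by_cases h7 : j = j₂
        · rw [h7, ← heq, h5]
        · exact hoth j h6 h7 g m hm

    have hgen : ∀ f, InA S a f → HolM S S₁ m e' E (twM Dx S₁ m e' f) →
        Unr t (twM Dx S₁ m e' f) := by
      intro f hf h1
      have hit : ∀ k : ℕ, ∃ f', InA S a f' ∧ HolM S S₁ m e' E (twM Dx S₁ m e' f') ∧
          twM Dx S₁ m e' f' = Dt^[k] (twM Dx S₁ m e' f) := by
        intro k
        induction k with
        | zero => exact ⟨f, hf, h1, rfl⟩
        | succ k ih =>
          obtain ⟨f', a1, a2, a4⟩ := ih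
          obtain ⟨b1, b2⟩ := hstab f' a1 a2
          refine ⟨Dt f', b1, b2, ?_⟩
          rw [hcomm', a4, Function.iterate_succ_apply']
      have hun : ∀ k : ℕ, k ≤ p → Unr t (Dt^[p - k] (twM Dx S₁ m e' f)) := by
        intro k
        induction k with
        | zero =>
          intro _ σ _ k' _
          rw [Nat.sub_zero, hDtp p hp hCh hδ (twM Dx S₁ m e' f), map_zero, HahnSeries.coeff_zero]
        | succ k ih =>
          intro hk
          obtain ⟨f', a1, a2, a4⟩ := hit (p - (k + 1))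
          rw [← a4]
          refine hflat f' a1 a2 ?_
          rw [a4, ← Function.iterate_succ_apply' (⇑Dt)]
          have e1 : (p - (k + 1)).succ = p - k := by omega
          rw [e1]
          exact ih (by omega)
      have h5 := hun p le_rfl
      rw [Nat.sub_self] at h5
      exact h5
    refine fun f hf hhol => ⟨hgen f hf hhol, fun hmin => ?_⟩
    have hunr := hgen f hf hhol
    have hgA : InA S a (twM Dx S₁ m e' f) := by
      rw [htw]
      exact hAadd _ _ (hDxA f hf (hc1 f (hvan f hf hhol))) (hAmul _ _ hwA' hf)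
    obtain ⟨h1, h3⟩ := hgq _ hhol
    obtain ⟨L, hL⟩ := part_L0 K F h2 t
    have hbot : L = ⊥ := by
      rcases hmin L with h | h
      · exact h
      · exfalso
        apply hj
        apply hσt1
        ext1 f
        have h5 : Unr t f := by rw [← hL, h]; trivial
        ext k
        rw [hpair f k]
        rcases Int.even_or_odd k with h6 | h6
        · have h7 : Even k.natAbs := by rw [Int.natAbs_even]; exact h6
          rw [h7.neg_one_pow, one_mul]
        · rw [h5 (σt j₁) (hσt2 j₁) k h6, mul_zero]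
    have hfL : twM Dx S₁ m e' f ∈ L := (hL _).2 hunr
    rw [hbot, IntermediateField.mem_bot] at hfL
    obtain ⟨r0, hr0⟩ := hfL
    have hnb : RatFunc.C (n : K)⁻¹ * (n : RatFunc K) = 1 := by
      rw [← map_natCast (RatFunc.C : K →+* RatFunc K) n, ← map_mul, inv_mul_cancel₀ hnK, map_one]
    have hr0O : r0 ∈ OO S := by
      have h5 := hAtr _ hgA
      rw [← hr0, Algebra.trace_algebraMap, hA.rank] at h5
      have h6 := (OO S).mul_mem (C_mem_OO S (n : K)⁻¹) h5
      have h7 : RatFunc.C (n : K)⁻¹ * n • r0 = r0 := by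
        rw [nsmul_eq_mul, ← mul_assoc, hnb, one_mul]
      rwa [h7] at h6
    constructor
    · refine ⟨RatFunc.C (n : K)⁻¹ * Algebra.trace (RatFunc K) F f,
        (OO S).mul_mem (C_mem_OO S _) (hAtr _ hf), ?_⟩
      have hdξ : der (atFin 2 t : LaurentSeries K) ≠ 0 := by
        rw [der_atFin]
        intro h0
        have h5 := congrArg (fun y : LaurentSeries K => y.coeff (((2 : ℕ) : ℤ) - 1)) h0
        simp only [HahnSeries.coeff_single_same, HahnSeries.coeff_zero] at h5
        exact h2 (by exact_mod_cast h5)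
      have htrD : Dx (algebraMap (RatFunc K) F (Algebra.trace (RatFunc K) F f)) =
          algebraMap (RatFunc K) F (Algebra.trace (RatFunc K) F (Dx f)) := by
        apply (σt i0).injective
        refine mul_right_cancel₀ hdξ ?_
        rw [hDxe (atFin 2 t) (σt i0) (hσt2 i0), hTR2, hTR2, Finset.sum_mul]
        have e1 : der (∑ j, σt j f) = ∑ j, der (σt j f) := by unfold der; rw [map_sum]
        rw [e1]
        exact Finset.sum_congr rfl fun j _ => (hDxe (atFin 2 t) (σt j) (hσt2 j) f).symm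
      have htrw : Algebra.trace (RatFunc K) F (w * f) =
          wM S₁ m e' * Algebra.trace (RatFunc K) F f := by
        rw [hw, ← Algebra.smul_def, map_smul, smul_eq_mul]
      have htrg : Algebra.trace (RatFunc K) F (Dx f) + wM S₁ m e' * Algebra.trace (RatFunc K) F f =
          (n : RatFunc K) * r0 := by
        rw [← htrw, ← map_add, ← htw, ← hr0, Algebra.trace_algebraMap, hA.rank, nsmul_eq_mul]
      have hcn : Dx (algebraMap (RatFunc K) F (RatFunc.C (n : K)⁻¹)) = 0 := hc _
      rw [htw (algebraMap (RatFunc K) F _), map_mul, Derivation.leibniz, hcn, smul_zero, add_zero,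
        smul_eq_mul, htrD, ← hr0]
      have e2 : algebraMap (RatFunc K) F (RatFunc.C (n : K)⁻¹) *
          algebraMap (RatFunc K) F (Algebra.trace (RatFunc K) F (Dx f)) +
          w * (algebraMap (RatFunc K) F (RatFunc.C (n : K)⁻¹) *
            algebraMap (RatFunc K) F (Algebra.trace (RatFunc K) F f)) =
          algebraMap (RatFunc K) F (RatFunc.C (n : K)⁻¹ *
            (Algebra.trace (RatFunc K) F (Dx f) + wM S₁ m e' * Algebra.trace (RatFunc K) F f)) := by
        rw [hw, map_mul, map_add, map_mul]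
        ring
      rw [e2, htrg, ← mul_assoc, hnb, one_mul]
    · intro hcard
      have hE0' : (0 : ℤ) ≤ E := Nat.cast_nonneg _
      have hb2 : (m : ℤ) * (-(E : ℤ)) ≤ ∑ c ∈ S₁, ((m - e' c : ℕ) : ℤ) * (-(E : ℤ)) := by
        rw [← Finset.sum_mul]
        have h5 : (∑ c ∈ S₁, ((m - e' c : ℕ) : ℤ)) ≤ m := by exact_mod_cast hcard
        nlinarith
      have hQO : r0 * hM S₁ (fun _ => 1) ∈ OO S := (OO S).mul_mem hr0O hqR
      have hag : algebraMap (RatFunc K) F (r0 * hM S₁ (fun _ => 1)) = twM Dx S₁ m e' f * q := by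
        rw [map_mul, hr0, hq]
      obtain ⟨P, hP⟩ := RF.poly hE0 (fun c => (σc c i0).comp (algebraMap (RatFunc K) F))
        (fun c hcS => ⟨((hσc c hcS).2 i0).1, ((hσc c hcS).2 i0).2⟩) hQO (by
          intro c hcS
          change RF.V (σc c i0 (algebraMap (RatFunc K) F (r0 * hM S₁ (fun _ => 1)))) _
          rw [hag]
          exact h1 c hcS _ ((hσc c hcS).2 i0))
      have hVi : RF.V (((σi i0).comp (algebraMap (RatFunc K) F))
          (algebraMap (Polynomial K) (RatFunc K) P)) 1 := by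
        rw [← hP]
        change RF.V (σi i0 (algebraMap (RatFunc K) F (r0 * hM S₁ (fun _ => 1)))) _
        rw [hag]
        exact (h3 _ (hσi2 i0) _ hb2).mono (by linarith)
      have hP0 : P = 0 := by
        by_contra hne
        have h5 := RF.inf_deg hE0 (χ := (σi i0).comp (algebraMap (RatFunc K) F))
          ⟨(hσi2 i0).1, (hσi2 i0).2⟩ hne hVi
        have h6 : (0 : ℤ) ≤ P.natDegree * E := by positivity
        linarith
      rw [hP0, map_zero] at hP
      rw [hP, map_zero] at hag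
      exact (mul_eq_zero.1 hag.symm).resolve_right hq0
  by_cases hv : ∀ f, InA S a f → HolM S S₁ m e E (twM Dx S₁ m e f) → (σt j₁ f).coeff 1 = 0
  · exact Or.inl (hmain e he hv)
  · push Not at hv
    obtain ⟨f, hf, hf2, hf3⟩ := hv
    refine Or.inr (hmain _ (fun c _ => Nat.sub_le _ _) fun f' hf' hf2' => ?_)
    exact (hpairing f f' hf hf' hf2 hf2').resolve_left hf3

end Pool.Agent.N780.SB
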