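import Mathlib
import Pool.Agent.N780.SB.TWX
import Pool.Agent.N780.SB.TWS

set_option autoImplicit false

/-!
Roots of expansions, and the theorem on cyclic coverings.
-/

namespace Pool.Agent.N780.SB

universe u v w

section root

variable {K : Type u} [Field K]

lemma root_split {L : Type u} [Field L] (m : ℕ) (hm : 0 < m) (y : L)
    (h : (Polynomial.X ^ m - Polynomial.C y : Polynomial L).Splits) : ∃ s, s ^ m = y := by
  obtain ⟨s, hs⟩ := h.exists_eval_eq_zero (by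
    rw [Polynomial.degree_X_pow_sub_C hm]
    exact_mod_cast hm.ne')
  refine ⟨s, ?_⟩
  rw [Polynomial.eval_sub, Polynomial.eval_pow, Polynomial.eval_X, Polynomial.eval_C] at hs
  exact sub_eq_zero.1 hs

lemma root_pu [IsSepClosed K] (p : ℕ) (hp : p.Prime) (hCh : CharP K p) (m : ℕ) (hm : 0 < m)
    (hmp : m < p) (y : LaurentSeries K) : ∃ N : ℕ, 0 < N ∧ ¬ p ∣ N ∧
      ∀ ρ : LaurentSeries K →+* LaurentSeries K, IsPw N ρ → ∃ s, s ^ m = ρ y := by
  obtain ⟨N, hN, hNp, h⟩ := part_PU1 part_PW K p hp hCh (Polynomial.X ^ m - Polynomial.C y)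
    (Polynomial.monic_X_pow_sub_C y hm.ne')
    (by rw [Polynomial.natDegree_X_pow_sub_C]; exact hmp)
  refine ⟨N, hN, hNp, fun ρ hρ => root_split m hm _ ?_⟩
  have := h ρ hρ
  rwa [Polynomial.map_sub, Polynomial.map_pow, Polynomial.map_X, Polynomial.map_C] at this

lemma root_transfer {F : Type v} [Field F] [Algebra (RatFunc K) F]
    {φ : RatFunc K →+* LaurentSeries K} (m : ℕ)
    (hC : ∀ a : K, φ (RatFunc.C a) = HahnSeries.C a) {N : ℕ} (hN : 0 < N) (r : RatFunc K)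
    (h : ∀ ρ : LaurentSeries K →+* LaurentSeries K, IsPw N ρ → ∃ s, s ^ m = ρ (φ r))
    {E : ℕ} (hE : 0 < E) (hNE : N ∣ E) {ξ : LaurentSeries K}
    (hξ : ∀ ρ : LaurentSeries K →+* LaurentSeries K, IsPw E ρ → ρ (φ RatFunc.X) = ξ)
    (σ : F →+* LaurentSeries K) (hσ : IsExp ξ σ) :
    ∃ s, s ^ m = σ (algebraMap (RatFunc K) F r) := by
  obtain ⟨N', rfl⟩ := hNE
  have hN' : 0 < N' := Nat.pos_of_mul_pos_left hE
  obtain ⟨ρ, hρ⟩ := part_PW K N hN
  obtain ⟨ρ', hρ'⟩ := part_PW K N' hN'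
  have hcomp := PU2.pw_comp hN' hρ hρ'
  obtain ⟨s, hs⟩ := h ρ hρ
  have e1 : σ.comp (algebraMap (RatFunc K) F) = (ρ'.comp ρ).comp φ := by
    refine TR933.ratExt _ _ ?_ fun a => ?_
    · rw [RingHom.comp_apply, RingHom.comp_apply, hξ _ hcomp]
      exact hσ.1
    · rw [RingHom.comp_apply, RingHom.comp_apply, hC, PU2.pw_C hE hcomp]
      exact hσ.2 a
  refine ⟨ρ' s, ?_⟩
  have e2 := congrArg (fun ψ : RatFunc K →+* LaurentSeries K => ψ r) e1
  simp only [RingHom.comp_apply] at e2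
  rw [e2, ← map_pow, hs]

lemma root_prod {F : Type v} [Field F] [Algebra (RatFunc K) F] (m : ℕ) (S₁ : Finset K)
    (σ : F →+* LaurentSeries K)
    (h : ∀ c ∈ S₁, ∃ s, s ^ m = σ (algebraMap (RatFunc K) F (RatFunc.X - RatFunc.C c)))
    (e : K → ℕ) : ∃ s, s ^ m = σ (algebraMap (RatFunc K) F (hM S₁ e)) := by
  classical
  unfold hM
  induction S₁ using Finset.induction_on with
  | empty => exact ⟨1, by simp⟩
  | insert c s hcs ih =>
    obtain ⟨y, hy⟩ := h c (Finset.mem_insert_self _ _)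
    obtain ⟨z, hz⟩ := ih fun b hb => h b (Finset.mem_insert_of_mem hb)
    refine ⟨y ^ e c * z, ?_⟩
    rw [Finset.prod_insert hcs, map_mul, map_mul, map_pow, map_pow, ← hy, ← hz, mul_pow, ← pow_mul,
      ← pow_mul, mul_comm m]

end root

/-- The theorem on cyclic coverings. -/
theorem cyclic {K : Type u} {F : Type v} [Field K] [IsSepClosed K] [Field F]
    [Algebra (RatFunc K) F]
    (p n : ℕ) (hp : p.Prime) (hCh : CharP K p) (hn : 2 ≤ n) (hnp : n < p)
    (δ : Derivation ℤ K K) (hδ : ∀ a : K, δ^[p] a = 0) (t : K) (ht : δ t = 1)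
    (S : Finset K) (hS : ∀ c ∈ S, δ c = 0) (hb : 2 * (n * (n - 1)) * S.card < p)
    (a : Fin n → F) (hA : IsAffineCurve S t a)
    (Dx : Derivation ℤ F F) (hx : Dx (xF K F) = 1) (hc : ∀ a : K, Dx (cF F a) = 0)
    (S₁ : Finset K) (hS₁ : S₁ ⊆ S) (m : ℕ) (hm : 0 < m) (hmp : m < p)
    (e : K → ℕ) (he : ∀ c ∈ S₁, e c ≤ m) :
    GoodM Dx S t a S₁ m e (fun g => ∀ E : ℕ, (E : K) ≠ 0 → HolM S S₁ m e E g) ∨
      GoodM Dx S t a S₁ m (fun c => m - e c)
        (fun g => ∀ E : ℕ, (E : K) ≠ 0 → HolM S S₁ m (fun c => m - e c) E g) := by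
  classical
  have hn0 : 0 < n := by omega
  have htS : t ∉ S := fun h => by
    have := hS t h
    rw [ht] at this
    exact one_ne_zero this
  have hmK : (m : K) ≠ 0 := fun h => by
    have := Nat.le_of_dvd hm ((CharP.cast_eq_zero_iff K p m).1 h)
    omega
  obtain ⟨E0, hE0, hEp, hE1, hE2⟩ := part_PU2 part_PW (part_PU1 part_PW) K F p n hp hCh
    hn0 hnp hA.rank S
  have hT := part_TT part_PW (part_PU2 part_PW (part_PU1 part_PW)) part_TR K F p n hp hCh
    hn0 hnp (by omega) S t htS a hA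
  choose φ hφ1 hφ2 using fun c : K => PU2.lift_fin c
  obtain ⟨χ, hχ1, hχ2⟩ := PU2.lift_inf K
  choose N hN0 hNp hN using fun c c' : K =>
    root_pu p hp hCh m hm hmp (φ c (RatFunc.X - RatFunc.C c'))
  choose M hM0 hMp hM using fun c' : K => root_pu p hp hCh m hm hmp (χ (RatFunc.X - RatFunc.C c'))
  obtain ⟨Q, hQ⟩ : ∃ Q : ℕ, Q = (∏ c ∈ S, ∏ c' ∈ S₁, N c c') * ∏ c' ∈ S₁, M c' := ⟨_, rfl⟩
  have hQ0 : 0 < Q := by
    rw [hQ]
    exact Nat.mul_pos (Finset.prod_pos fun c _ => Finset.prod_pos fun c' _ => hN0 c c')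
      (Finset.prod_pos fun c' _ => hM0 c')
  have hQp : ¬ p ∣ Q := by
    intro h
    rw [hQ] at h
    rcases hp.dvd_mul.1 h with h1 | h1
    · obtain ⟨c, _, h2⟩ := (Prime.dvd_finsetProd_iff hp.prime _).1 h1
      obtain ⟨c', _, h3⟩ := (Prime.dvd_finsetProd_iff hp.prime _).1 h2
      exact hNp c c' h3
    · obtain ⟨c', _, h3⟩ := (Prime.dvd_finsetProd_iff hp.prime _).1 h1
      exact hMp c' h3
  have hE0' : 0 < Q * E0 := Nat.mul_pos hQ0 hE0
  have hEp' : ¬ p ∣ Q * E0 := by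
    intro h
    rcases hp.dvd_mul.1 h with h1 | h1
    · exact hQp h1
    · exact hEp h1
  have hEK : ((Q * E0 : ℕ) : K) ≠ 0 := fun h => hEp' ((CharP.cast_eq_zero_iff K p _).1 h)
  have hcore := cyclic_core K F p n (Q * E0) hp hCh hn hnp δ hδ t ht S hS hb hEp' a hA
    (fun c hcS => splits_mul hQ0 (fun ρ hρ => HOLaux.pw_atFin hQ0 hρ E0 c) (hE1 c hcS))
    (splits_mul hQ0 (fun ρ hρ => HOLaux.pw_atInf hQ0 hρ E0) hE2) hT Dx hx hc S₁ hS₁ m hmK
    (fun e' c hcS σ hσ => root_prod m S₁ σ (fun c' hc' => root_transfer m (hφ2 c) (hN0 c c') _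
      (hN c c') hE0'
      ((((Finset.dvd_prod_of_mem (fun c' => N c c') hc').trans
        (Finset.dvd_prod_of_mem (fun c => ∏ c' ∈ S₁, N c c') hcS)).trans
          (by rw [hQ]; exact dvd_mul_right _ _)).trans (dvd_mul_right _ _))
      (fun ρ hρ => by rw [hφ1]; exact PU2.pw_fin hE0' hρ c) σ hσ) e')
    (fun e' σ hσ => root_prod m S₁ σ (fun c' hc' => root_transfer m hχ2 (hM0 c') _ (hM c') hE0'
      (((Finset.dvd_prod_of_mem M hc').trans (by rw [hQ]; exact dvd_mul_left _ _)).trans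
        (dvd_mul_right _ _))
      (fun ρ hρ => by rw [hχ1]; exact PU2.pw_inf hE0' hρ) σ hσ) e')
    e he
  exact hcore.imp (fun h f hf hh => h f hf (hh _ hEK)) (fun h f hf hh => h f hf (hh _ hEK))

end Pool.Agent.N780.SB
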