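import Pool.Agent.N780.SB.TT
import Pool.Agent.N780.SB.Stm7
import Pool.Agent.N780.SB.PW

set_option autoImplicit false

/-!
# SB/UNRM (helper771): the covering is unramified outside `S`, `t` and infinity

The pattern is that of `SB/TT.lean` (helper624) and `SB/TTZ.lean` (helper106).
-/

namespace Pool.Agent.N780.SB

universe u v w

open HahnSeries

namespace UNRMaux

variable {K : Type u} [Field K]

/-- integrality at a point `c` outside `S` -/
theorem int_c (F : Type v) [Field F] [Algebra (RatFunc K) F]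
    (S : Finset K) (t c : K) (hc : c ∉ S) {E : ℕ} (hE : 0 < E) (n : ℕ) (a : Fin n → F)
    (hA : IsAffineCurve S t a)
    (σ : F →+* LaurentSeries K) (hσ : IsExp (atFin E c) σ) (f : F) (hf : InA S a f) :
    σ f ∈ PAIR.Rg K := by
  intro m hm
  set N : Submodule (PowerSeries K) (LaurentSeries K) :=
    Submodule.span (PowerSeries K) (Set.range fun i => σ (a i)) with hN
  have hsm : ∀ r ∈ OO S, ∀ y ∈ N, σ (algebraMap (RatFunc K) F r) * y ∈ N := by
    intro r hr y hy
    obtain ⟨p, hp⟩ := TTaux.OO_mem hc hE σ hσ r hr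
    rw [← hp]
    have : HahnSeries.ofPowerSeries ℤ K p * y = p • y := by
      rw [Algebra.smul_def, LaurentSeries.coe_algebraMap]
    rw [this]
    exact N.smul_mem p hy
  have hmem : ∀ g : F, InA S a g → σ g ∈ N := by
    rintro g ⟨r, hr, rfl⟩
    rw [map_sum]
    refine N.sum_mem fun i _ => ?_
    rw [map_mul]
    exact hsm _ (hr i) _ (Submodule.subset_span ⟨i, rfl⟩)
  have h1 : (1 : LaurentSeries K) ∈ N := by
    have := hmem 1 hA.one
    rwa [map_one] at this
  have hmul : ∀ x y, x ∈ N → y ∈ N → x * y ∈ N := by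
    intro x y hx hy
    have h2 : N * N ≤ N := by
      rw [hN, Submodule.span_mul_span, Submodule.span_le]
      rintro z ⟨_, ⟨i, rfl⟩, _, ⟨j, rfl⟩, rfl⟩
      have := hmem _ (hA.mul i j)
      rw [map_mul] at this
      exact this
    exact h2 (Submodule.mul_mem_mul hx hy)
  have hfg : (N.toSubalgebra h1 hmul).toSubmodule.FG := by
    rw [Submodule.toSubalgebra_toSubmodule]
    exact Submodule.fg_span (Set.finite_range _)
  have hint : IsIntegral (PowerSeries K) (σ f) :=
    IsIntegral.of_mem_of_fg _ hfg _ (hmem f hf)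
  obtain ⟨y, hy⟩ := IsIntegrallyClosed.isIntegral_iff.1 hint
  rw [← hy, LaurentSeries.coe_algebraMap]
  have := PowerSeries.coeff_coe (R := K) y m
  rw [if_pos hm] at this
  exact this

lemma coeff0_mul {x y : LaurentSeries K} (hx : x ∈ PAIR.Rg K) (hy : y ∈ PAIR.Rg K) :
    (x * y).coeff 0 = x.coeff 0 * y.coeff 0 := by
  have hx' : VDMaux.Bl 1 (x - HahnSeries.C (x.coeff 0)) := by
    intro m hm
    rw [coeff_sub, HahnSeries.C_apply]
    rcases lt_or_eq_of_le (show m ≤ 0 by omega) with h | h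
    · rw [hx m h, coeff_single_of_ne h.ne, sub_zero]
    · subst h
      rw [coeff_single_same, sub_self]
  have hy' : VDMaux.Bl 0 y := fun m hm => hy m hm
  have h2 := hx'.mul hy' 0 (by norm_num)
  have h : x * y = HahnSeries.C (x.coeff 0) * y + (x - HahnSeries.C (x.coeff 0)) * y := by ring
  rw [h, coeff_add, h2, add_zero, HahnSeries.C_mul_eq_smul, coeff_smul, smul_eq_mul]

end UNRMaux

open TTaux UNRMaux in
theorem part_UNRM (hTR : S_TR.{u, v}) (hPUI : S_PUIZ.{u, v}) : S_UNRM.{u, v} := by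
  classical
  intro K F _ _ _ _ _ n hn S t _ a ha c hc hct e he0 s hs g m0 hm0
  have hcz : CharZero (RatFunc K) :=
    charZero_of_injective_algebraMap (algebraMap K (RatFunc K)).injective
  have hfd : FiniteDimensional (RatFunc K) F :=
    Module.finite_of_finrank_pos (by rw [ha.rank]; exact hn)
  have : Algebra.IsSeparable (RatFunc K) F := Algebra.IsAlgebraic.isSeparable_of_perfectField
  -- exponents
  obtain ⟨E, hE0, hsp, -⟩ := hPUI K F n hn ha.rank {c}
  obtain ⟨σ, hσ, hexp⟩ := hsp c (Finset.mem_singleton_self c)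
  obtain ⟨hall, -, hdisc⟩ := hTR K F n hn ha.rank (atFin E c) σ hσ hexp
  -- the root of unity
  have hEK : NeZero (E : K) := ⟨Nat.cast_ne_zero.2 hE0.ne'⟩
  obtain ⟨ζ, hζ⟩ := HasEnoughRootsOfUnity.exists_primitiveRoot K E
  have hζ0 : ζ ≠ 0 := hζ.ne_zero hE0.ne'
  -- the permutation
  have hτ : ∀ j, ∃ i, (tau ζ hζ0).comp (σ j) = σ i := by
    intro j
    refine hall _ ⟨?_, fun b => ?_⟩
    · rw [RingHom.comp_apply, (hexp j).1, tau_atFin ζ hζ0 E hζ.pow_eq_one]
    · rw [RingHom.comp_apply, (hexp j).2, tau_C]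
  choose π hπ using hτ
  have hπa : ∀ j f m, (σ (π j) f).coeff m = ζ ^ m * (σ j f).coeff m := by
    intro j f m
    rw [← hπ j]
    rfl
  -- regularity
  have hreg : ∀ j f, InA S a f → σ j f ∈ PAIR.Rg K := fun j f hf =>
    int_c F S t c hc hE0 n a ha (σ j) (hexp j) f hf
  have hak : ∀ k, InA S a (a k) := by
    intro k
    refine ⟨fun i => if i = k then 1 else 0, fun i => ?_, ?_⟩
    · beta_reduce
      split_ifs
      · exact (OO S).one_mem
      · exact (OO S).zero_mem
    · rw [Finset.sum_eq_single k]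
      · simp
      · intro i _ hi
        simp [hi]
      · intro h
        exact absurd (Finset.mem_univ k) h
  have hOO : ∀ r ∈ OO S, InA S a (algebraMap (RatFunc K) F r) := by
    intro r hr
    obtain ⟨q, hq, h1⟩ := ha.one
    refine ⟨fun i => r * q i, fun i => (OO S).mul_mem hr (hq i), ?_⟩
    calc algebraMap (RatFunc K) F r = algebraMap (RatFunc K) F r * 1 := (mul_one _).symm
      _ = algebraMap (RatFunc K) F r * ∑ i, algebraMap (RatFunc K) F (q i) * a i := by rw [← h1]
      _ = ∑ i, algebraMap (RatFunc K) F (r * q i) * a i := by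
        rw [Finset.mul_sum]
        refine Finset.sum_congr rfl fun i _ => ?_
        rw [map_mul]
        ring
  -- the determinant
  obtain ⟨M, hM⟩ : ∃ M : Matrix (Fin n) (Fin n) (LaurentSeries K),
      M = Matrix.of fun j k => σ j (a k) := ⟨_, rfl⟩
  have hMa : ∀ j k, M j k = σ j (a k) := by
    intro j k
    rw [hM, Matrix.of_apply]
  have hMr : ∀ i l, M i l ∈ PAIR.Rg K := by
    intro i l
    rw [hMa]
    exact hreg i _ (hak l)
  obtain ⟨r, hr, hr', hr0, hrd⟩ := ha.disc
  have hD := hdisc a ⟨0, hn⟩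
  rw [← hM, hrd, map_mul, map_mul] at hD
  have hx : σ ⟨0, hn⟩ (algebraMap (RatFunc K) F (RatFunc.X - RatFunc.C t)) =
      HahnSeries.C (c - t) + single (E : ℤ) 1 := by
    rw [map_sub, map_sub]
    have e1 := (hexp ⟨0, hn⟩).1
    have e2 := (hexp ⟨0, hn⟩).2 t
    unfold xF at e1
    unfold cF at e2
    rw [e1, e2]
    unfold atFin
    rw [map_sub]
    ring
  have hE1 : (0 : ℤ) < E := by exact_mod_cast hE0
  have hxr : (HahnSeries.C (c - t) + single (E : ℤ) 1 : LaurentSeries K) ∈ PAIR.Rg K := by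
    intro m hm
    rw [coeff_add, HahnSeries.C_apply, coeff_single_of_ne hm.ne,
      coeff_single_of_ne (hm.trans hE1).ne, add_zero]
  have hx0 : (HahnSeries.C (c - t) + single (E : ℤ) 1 : LaurentSeries K).coeff 0 = c - t := by
    rw [coeff_add, HahnSeries.C_apply, coeff_single_same, coeff_single_of_ne hE1.ne, add_zero]
  rw [hx] at hD
  have hrr : σ ⟨0, hn⟩ (algebraMap (RatFunc K) F r) * σ ⟨0, hn⟩ (algebraMap (RatFunc K) F r⁻¹) =
      1 := by
    rw [← map_mul, ← map_mul, mul_inv_cancel₀ hr0, map_one, map_one]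
  have hr1 := hreg ⟨0, hn⟩ _ (hOO r hr)
  have hr2 := hreg ⟨0, hn⟩ _ (hOO _ hr')
  have hr3 : (σ ⟨0, hn⟩ (algebraMap (RatFunc K) F r)).coeff 0 ≠ 0 := by
    intro h0
    have h1 := coeff0_mul hr1 hr2
    rw [hrr, h0, zero_mul, coeff_one, if_pos rfl] at h1
    exact one_ne_zero h1
  have hne : (M.det ^ 2).coeff 0 ≠ 0 := by
    rw [← hD, coeff0_mul hr1 hxr, hx0]
    exact mul_ne_zero hr3 (sub_ne_zero.2 hct)
  -- the permutation is trivial
  have hfix : ∀ j, π j = j := by
    intro j
    by_contra hcon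
    obtain ⟨M', hM'⟩ : ∃ M' : Matrix (Fin n) (Fin n) (LaurentSeries K),
        M' = Matrix.of fun i k => M i k - (if i = π j then 1 else 0) * M j k := ⟨_, rfl⟩
    have hjp : ¬ j = π j := fun h => hcon h.symm
    have hdet : M.det = M'.det := by
      refine Matrix.det_eq_of_forall_row_eq_smul_add_const (fun i => if i = π j then 1 else 0) j
        (by simp [hjp]) ?_
      intro i k
      rw [hM', Matrix.of_apply, Matrix.of_apply, if_neg hjp]
      ring
    have hBl : ∀ i l, VDMaux.Bl (if i = π j then (1 : ℤ) else 0) (M' i l) := by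
      intro i l m hm
      rw [hM', Matrix.of_apply]
      split_ifs at hm ⊢ with hi
      · rw [one_mul, coeff_sub, hi, hMa, hMa, hπa]
        rcases lt_or_eq_of_le (show m ≤ 0 by omega) with hlt | heq
        · rw [hreg j _ (hak l) m hlt]
          simp
        · rw [heq]
          simp
      · rw [zero_mul, sub_zero]
        exact hMr i l m hm
    have h1 := det_Bl M' _ hBl
    rw [← hdet] at h1
    have hsum : ∑ i, (if i = π j then (1 : ℤ) else 0) = 1 := by
      rw [Finset.sum_ite_eq' Finset.univ (π j) (fun _ => (1 : ℤ)), if_pos (Finset.mem_univ _)]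
    rw [hsum] at h1
    have h2 := h1.mul h1
    rw [← sq] at h2
    exact hne (h2 0 (by norm_num))
  -- only exponents divisible by `E` occur
  have hcoef : ∀ j f m, (σ j f).coeff m ≠ 0 → (E : ℤ) ∣ m := by
    intro j f m hm
    have h1 := hπa j f m
    rw [hfix] at h1
    rw [← hζ.zpow_eq_one_iff_dvd]
    have h4 : (ζ ^ m - 1) * (σ j f).coeff m = 0 := by linear_combination -h1
    have h5 := (mul_eq_zero.1 h4).resolve_right hm
    linear_combination h5
  -- comparison with the given expansion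
  obtain ⟨ρE, hρE⟩ := part_PW K E hE0
  obtain ⟨ρe, hρe⟩ := part_PW K e he0
  obtain ⟨hall2, -, -⟩ := hTR K F n hn ha.rank (atFin (e * E) c) (fun i => ρe.comp (σ i))
    (by
      intro i j hij
      apply hσ
      ext1 f
      apply ρe.injective
      exact congrArg (fun s => s f) hij)
    (by
      intro i
      refine ⟨?_, fun b => ?_⟩
      · rw [RingHom.comp_apply, (hexp i).1, pw_atFin he0 hρe]
      · rw [RingHom.comp_apply, (hexp i).2, pw_C he0 hρe])
  obtain ⟨i, hi⟩ := hall2 (ρE.comp s) (by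
    refine ⟨?_, fun b => ?_⟩
    · rw [RingHom.comp_apply, hs.1, pw_atFin hE0 hρE, mul_comm]
    · rw [RingHom.comp_apply, hs.2, pw_C hE0 hρE])
  have hi' : ρE (s g) = ρe (σ i g) := congrArg (fun s => s g) hi
  have h1 : (ρE (s g)).coeff ((E : ℤ) * m0) ≠ 0 := by
    rw [(hρE _).1]
    exact hm0
  rw [hi'] at h1
  have h2 : (e : ℤ) ∣ (E : ℤ) * m0 := by
    by_contra hcon
    exact h1 ((hρe _).2 _ hcon)
  obtain ⟨m1, hm1⟩ := h2
  rw [hm1, (hρe _).1] at h1
  obtain ⟨m2, hm2⟩ := hcoef i g m1 h1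
  refine ⟨m2, ?_⟩
  rw [hm2] at hm1
  have hE2 : (E : ℤ) ≠ 0 := hE1.ne'
  apply mul_left_cancel₀ hE2
  linear_combination hm1

end Pool.Agent.N780.SB
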