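import Mathlib
import Pool.Agent.N780.SB.FZP
import Pool.Agent.N780.SB.Stm8
import Pool.Agent.N780.SB.Defs8

set_option autoImplicit false

/-!
Torsion relations between few points of a covering with a moving simple branch point (helper780).
-/

namespace Pool.Agent.N780.SB

universe u v w

lemma Point.inv {K : Type u} {F : Type v} [Field K] [Field F] [Algebra (RatFunc K) F]
    (v : Point K F) (f : F) : v.1 f⁻¹ = - v.1 f := by
  obtain ⟨v, σ, -, -, hv⟩ := v
  show v f⁻¹ = - v f
  rw [hv, hv]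
  by_cases hf : f = 0
  · rw [hf, inv_zero, map_zero, HahnSeries.order_zero, neg_zero]
  · have e1 : σ f ≠ 0 := by rw [Ne, map_eq_zero]; exact hf
    have e2 : σ f⁻¹ ≠ 0 := by rw [Ne, map_eq_zero]; exact inv_ne_zero hf
    have h := HahnSeries.order_mul e1 e2
    rw [← map_mul, mul_inv_cancel₀ hf, map_one, HahnSeries.order_one] at h
    linarith

lemma Point.const {K : Type u} {F : Type v} [Field K] [Field F] [Algebra (RatFunc K) F]
    (v : Point K F) (b : K) : v.1 (cF F b) = 0 := by
  obtain ⟨v, σ, hσ, -, hv⟩ := v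
  show v (cF F b) = 0
  have h : σ (cF F b) = HahnSeries.C b := by
    rcases hσ with ⟨e, c, -, h⟩ | ⟨e, -, h⟩
    · exact h.2 b
    · exact h.2 b
  rw [hv, h]
  exact HahnSeries.order_C

/-- Torsion relations: the final statement -/
def S_ZPC : Prop := ∀ (K : Type u) (F : Type v) [Field K] [IsAlgClosed K] [CharZero K] [Field F]
    [Algebra (RatFunc K) F] (n : ℕ) (_ : 0 < n) (δ : Derivation ℤ K K) (t : K) (_ : δ t = 1)
    (S : Finset K) (_ : ∀ c ∈ S, δ c = 0) (a : Fin n → F) (_ : IsAffineCurve S t a)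
    (D T : Derivation ℤ F F) (_ : D (xF K F) = 1) (_ : ∀ b : K, D (cF F b) = 0)
    (_ : T (xF K F) = 0) (_ : ∀ b : K, T (cF F b) = cF F (δ b))
    (_ : ∀ L : IntermediateField (RatFunc K) F, L = ⊥ ∨ L = ⊤)
    (m : ℕ) (_ : GonGT K F (m + 2)) (Q₀ : Point K F),
    ∃ 𝓛 : Set (Set (Fin m → Point K F)), 𝓛.Finite ∧ (∀ L ∈ 𝓛, ∃ E I Q, L = diagonal E I Q) ∧
      ∀ Λ : Set (Fin m → ℤ), ∃ 𝓜 ⊆ 𝓛,
        {P : Fin m → Point K F | ∀ l ∈ Λ, IsTorsion (rel Q₀ P l)} = ⋃₀ 𝓜

theorem zpc_of (hCONST : S_CONST.{u, v}) (hPUI : S_PUIZ.{u, v}) (hTT : S_TTZ.{u, v})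
    (hFZP : S_FZP.{u, v}) (hFIBC : S_FIBC.{u, v}) (hFIN : S_FIN.{u, v}) : S_ZPC.{u, v} := by
  classical
  intro K F _ _ _ _ _ n hn δ t ht S hS a hA D T hD1 hD2 hT1 hT2 hmin m hgon Q₀
  have htS : t ∉ S := fun h => by
    have := hS t h
    rw [ht] at this
    exact one_ne_zero this
  have hct : ∀ c : K, δ c = 0 → c ≠ t := by
    rintro c hc rfl
    rw [ht] at hc
    exact one_ne_zero hc
  -- the degree
  have hmn : m + 2 < n := by
    by_contra hcon
    rw [not_lt] at hcon
    obtain ⟨k, hk⟩ : ∃ k : ℕ, (k : K) ∉ S := by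
      by_contra h
      push Not at h
      exact (Set.infinite_of_injective_forall_mem (s := (S : Set K)) Nat.cast_injective h)
        S.finite_toSet
    have hk0 : δ (k : K) = 0 := δ.map_natCast k
    obtain ⟨h1, h2, -⟩ := hFIBC K F n hn S t htS a hA (k : K) hk (hct _ hk0)
    have hfin : {v : Point K F | 0 < v.1 (xF K F - cF F (k : K))}.Finite :=
      Set.finite_of_encard_eq_coe h1
    have hcard : hfin.toFinset.card = n := by
      rw [hfin.encard_eq_coe_toFinset_card] at h1
      exact_mod_cast h1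
    obtain ⟨M, hM, hM'⟩ := exists_divisor hfin.toFinset
    obtain ⟨b, hb⟩ := hgon M (by omega) (xF K F - cF F (k : K))⁻¹ (by
      intro v
      rw [Point.inv]
      by_cases h3 : 0 < v.1 (xF K F - cF F (k : K))
      · have h4 := hM' v (hfin.mem_toFinset.2 h3)
        have h5 := h2 v h3
        omega
      · omega)
    have hne : hfin.toFinset.Nonempty := by
      rw [← Finset.card_pos, hcard]; exact hn
    obtain ⟨v, hv⟩ := hne
    have h3 : 0 < v.1 (xF K F - cF F (k : K)) := hfin.mem_toFinset.1 hv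
    have h4 := Point.inv v (xF K F - cF F (k : K))
    rw [hb, Point.const] at h4
    omega
  -- the finite set of special points
  set Sp : Set (Point K F) := {v | v.1 (xF K F) < 0} ∪
    (⋃ c ∈ S, {v | 0 < v.1 (xF K F - cF F c)}) ∪ {Q₀} with hSp
  obtain ⟨hF1, hF2⟩ := hFIN K F n hn hA.rank
  have hSpfin : Sp.Finite := by
    refine (hF2.union ?_).union (Set.finite_singleton _)
    exact S.finite_toSet.biUnion fun c _ => hF1 c
  have hQSp : Q₀ ∈ Sp := Or.inr rfl
  -- the relations are supported in `Sp`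
  have hsupp : ∀ (P : Fin m → Point K F) (l : Fin m → ℤ), IsTorsion (rel Q₀ P l) →
      ∀ v, v ∉ Sp → rel Q₀ P l v = 0 := by
    rintro P l ⟨N, hN, h, hh, hdiv⟩ v₁ hv₁
    by_contra hne
    have hsub : {v : Point K F | v.1 h ≠ 0} ⊆ insert Q₀ (Set.range P) := by
      intro v hv
      have hv' : v.1 h ≠ 0 := hv
      by_contra hcon
      rw [Set.mem_insert_iff, not_or] at hcon
      apply hv'
      rw [hdiv v]
      have : rel Q₀ P l v = 0 := by
        unfold rel
        rw [Finsupp.finsetSum_apply]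
        refine Finset.sum_eq_zero fun i _ => ?_
        rw [Finsupp.smul_apply, Finsupp.sub_apply, Finsupp.single_eq_of_ne,
          Finsupp.single_eq_of_ne, sub_zero, smul_zero]
        · exact hcon.1
        · rintro rfl
          exact hcon.2 ⟨i, rfl⟩
      rw [this, mul_zero]
    have hcard : {v : Point K F | v.1 h ≠ 0}.encard ≤ (m + 1 : ℕ) := by
      refine (Set.encard_le_encard hsub).trans ((Set.encard_insert_le _ _).trans ?_)
      have h3 : (Set.range P).encard ≤ (m : ℕ∞) := by
        rw [← Set.image_univ]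
        refine (Set.encard_image_le _ _).trans ?_
        rw [Set.encard_univ, ENat.card_eq_coe_fintype_card, Fintype.card_fin]
      push_cast
      gcongr
    obtain ⟨h1, h2⟩ := hFZP K F n hn δ t ht S hS a hA D T hD1 hD2 hT1 hT2 (m + 1) hgon h hh
      ((Set.encard_le_encard fun v hv => hv.1).trans hcard)
    obtain ⟨r, hr⟩ := rational_of hCONST hPUI hTT K F n hn δ t ht S hS a hA D T hD1 hD2 hT1 hT2
      hmin h h2
    have hv₁h : v₁.1 h ≠ 0 := by
      rw [hdiv v₁]
      exact mul_ne_zero (by exact_mod_cast hN.ne') hne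
    rcases h1 v₁ hv₁h with ⟨c, hc, hvc⟩ | h3
    · have hcS : c ∉ S := fun h3 => hv₁ (Or.inl (Or.inr (Set.mem_biUnion h3 hvc)))
      obtain ⟨h3, -, h4⟩ := hFIBC K F n hn S t htS a hA c hcS (hct c hc)
      have h5 : {v : Point K F | 0 < v.1 (xF K F - cF F c)} ⊆ {v : Point K F | v.1 h ≠ 0} := by
        intro v hv
        show v.1 h ≠ 0
        rw [hr, h4 v v₁ hv hvc r, ← hr]
        exact hv₁h
      have h6 := (Set.encard_le_encard h5).trans hcard
      rw [h3] at h6
      have h7 : n ≤ m + 1 := by exact_mod_cast h6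
      omega
    · exact hv₁ (Or.inl (Or.inl h3))
  -- specialisation of the relations
  have hspec : ∀ (P P' : Fin m → Point K F) (l : Fin m → ℤ), IsTorsion (rel Q₀ P l) →
      (∀ i j, P i = P j → P' i = P' j) → (∀ i, P i ∈ Sp → P' i = P i) →
      rel Q₀ P' l = rel Q₀ P l := by
    intro P P' l htor h1 h2
    set d : Point K F →₀ ℤ := ∑ i, l i • Finsupp.single (P i) (1 : ℤ) with hd
    have hrel : ∀ P : Fin m → Point K F, rel Q₀ P l = ∑ i, l i • Finsupp.single (P i) (1 : ℤ) -
        ∑ i, l i • Finsupp.single Q₀ (1 : ℤ) := by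
      intro P
      unfold rel
      rw [← Finset.sum_sub_distrib]
      exact Finset.sum_congr rfl fun i _ => smul_sub _ _ _
    have hd0 : ∀ v, v ∉ Sp → d v = 0 := by
      intro v hv
      have h3 := hsupp P l htor v hv
      rw [hrel P, Finsupp.sub_apply, ← hd] at h3
      have h4 : (∑ i, l i • Finsupp.single Q₀ (1 : ℤ)) v = 0 := by
        rw [Finsupp.finsetSum_apply]
        refine Finset.sum_eq_zero fun i _ => ?_
        rw [Finsupp.smul_apply, Finsupp.single_eq_of_ne, smul_zero]
        rintro rfl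
        exact hv hQSp
      rw [h4, sub_zero] at h3
      exact h3
    let φ : Point K F → Point K F := fun v => if h : ∃ i, P i = v then P' h.choose else v
    have hφ : ∀ i, φ (P i) = P' i := by
      intro i
      have h : ∃ j, P j = P i := ⟨i, rfl⟩
      show (if h : ∃ j, P j = P i then P' h.choose else P i) = P' i
      rw [dif_pos h]
      exact h1 _ _ h.choose_spec
    have hφ2 : ∀ v ∈ d.support, φ v = id v := by
      intro v hv
      have hvSp : v ∈ Sp := by
        by_contra hcon
        exact (Finsupp.mem_support_iff.1 hv) (hd0 v hcon)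
      by_cases h : ∃ i, P i = v
      · obtain ⟨i, rfl⟩ := h
        rw [hφ, id, h2 i hvSp]
      · show (if h : ∃ i, P i = v then P' h.choose else v) = v
        rw [dif_neg h]
    have h3 : ∑ i, l i • Finsupp.single (P' i) (1 : ℤ) = d := by
      have h4 : Finsupp.mapDomain φ d = d := by
        rw [Finsupp.mapDomain_congr hφ2, Finsupp.mapDomain_id]
      rw [← h4, hd, Finsupp.mapDomain_finsetSum]
      refine Finset.sum_congr rfl fun i _ => ?_
      rw [Finsupp.mapDomain_smul, Finsupp.mapDomain_single, hφ]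
    rw [hrel P', hrel P, h3]
  -- the list
  let V : (Fin m → Point K F) → Set (Fin m → Point K F) := fun P =>
    diagonal {e | P e.1 = P e.2} {i | P i ∈ Sp} (fun i => if P i ∈ Sp then P i else Q₀)
  refine ⟨Set.range V, ?_, ?_, ?_⟩
  · have hfin : (Set.univ : Set (Set (Fin m × Fin m) × Set (Fin m))).Finite := Set.finite_univ
    have hpi : {Q : Fin m → Point K F | ∀ i, Q i ∈ Sp}.Finite := by
      have := Set.Finite.pi (t := fun _ : Fin m => Sp) (fun _ => hSpfin)
      refine this.subset ?_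
      intro Q hQ i _
      exact hQ i
    refine ((hfin.prod hpi).image fun q => diagonal q.1.1 q.1.2 q.2).subset ?_
    rintro _ ⟨P, rfl⟩
    refine ⟨(({e | P e.1 = P e.2}, {i | P i ∈ Sp}), fun i => if P i ∈ Sp then P i else Q₀),
      ⟨trivial, fun i => ?_⟩, rfl⟩
    show (if P i ∈ Sp then P i else Q₀) ∈ Sp
    split_ifs with h
    · exact h
    · exact hQSp
  · rintro _ ⟨P, rfl⟩
    exact ⟨_, _, _, rfl⟩
  · intro Λ
    refine ⟨V '' {P | ∀ l ∈ Λ, IsTorsion (rel Q₀ P l)}, fun L hL => ?_, ?_⟩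
    · obtain ⟨P, -, rfl⟩ := hL
      exact ⟨P, rfl⟩
    · apply Set.Subset.antisymm
      · intro P hP
        refine ⟨V P, ⟨P, hP, rfl⟩, fun e he => he, fun i hi => ?_⟩
        exact (if_pos (show P i ∈ Sp from hi)).symm
      · rintro P' ⟨_, ⟨P, hP, rfl⟩, hP'⟩ l hl
        have hP1 : ∀ i j, P i = P j → P' i = P' j := fun i j hij => hP'.1 (i, j) hij
        have hP2 : ∀ i, P i ∈ Sp → P' i = P i := fun i hi => by
          have := hP'.2 i hi
          dsimp only at this
          rwa [if_pos hi] at this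
        rw [hspec P P' l (hP l hl) hP1 hP2]
        exact hP l hl

end Pool.Agent.N780.SB
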